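import Pool.Agent.MP_24718c_ag.Marked

section partJet

/-!
Jets of polynomial rings and cotangent spaces of augmented algebras.
-/

set_option linter.unusedSectionVars false
set_option linter.unusedVariables false

open MvPolynomial

universe u

noncomputable section

namespace Pool.Agent.MP_24718c_ag

/-- polynomial ring in `N` variables -/
abbrev Lam (k : Type u) [Field k] (N : ℕ) : Type u := MvPolynomial (Fin N) k

/-- the ideal of polynomials without constant term -/
abbrev aug (σ : Type) (k : Type u) [Field k] : Ideal (MvPolynomial σ k) :=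
  RingHom.ker (constantCoeff : MvPolynomial σ k →+* k)

/-- `M`-jets -/
abbrev Jt (k : Type u) [Field k] (N M : ℕ) : Type u := Lam k N ⧸ aug (Fin N) k ^ M

variable {k : Type u} [Field k] {N : ℕ}

theorem aug_eq_span (σ : Type) : aug σ k = Ideal.span (Set.range X) := by
  ext f
  have h := mem_pow_idealOfVars_iff' (σ := σ) (R := k) 1 f
  rw [pow_one] at h
  rw [RingHom.mem_ker, constantCoeff_eq, h]
  refine ⟨fun h0 γ hγ => ?_, fun h0 => h0 0 (by simp)⟩
  rw [(Finsupp.degree_eq_zero_iff γ).1 (by omega)]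
  exact h0

/-- see `MvPolynomial.idealOfVars` and `mem_pow_idealOfVars_iff` -/
theorem mem_aug_pow {σ : Type} {M : ℕ} {f : MvPolynomial σ k} :
    f ∈ aug σ k ^ M ↔ ∀ γ ∈ f.support, M ≤ γ.degree := by
  rw [aug_eq_span]
  exact mem_pow_idealOfVars_iff M f

theorem eq_zero_of_mem_aug_pow {σ : Type} {f : MvPolynomial σ k} (h : ∀ M, f ∈ aug σ k ^ M) :
    f = 0 := by
  ext γ
  by_contra hc
  exact Nat.not_succ_le_self _ (mem_aug_pow.1 (h (γ.degree + 1)) γ (mem_support_iff.2 hc))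

theorem jet_order {σ : Type} {M : ℕ} {f : MvPolynomial σ k} :
    f ∈ aug σ k ^ M ↔ (M : ℕ∞) ≤ (f : MvPowerSeries σ k).order := by
  rw [aug_eq_span, mem_pow_idealOfVars_iff']
  refine ⟨fun h => MvPowerSeries.nat_le_order fun d hd => h d hd, fun h d hd => ?_⟩
  exact MvPowerSeries.coeff_of_lt_order (f := (f : MvPowerSeries σ k))
    (lt_of_lt_of_le (Nat.cast_lt.2 hd) h)

/-- the product of the lowest forms is nonzero -/
theorem mul_notMem_aug_pow {σ : Type} {f g : MvPolynomial σ k} {i j : ℕ}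
    (hf : f ∉ aug σ k ^ (i + 1)) (hg : g ∉ aug σ k ^ (j + 1)) :
    f * g ∉ aug σ k ^ (i + j + 1) := by
  rw [jet_order, not_le, Nat.cast_add_one, ENat.lt_add_one_iff (ENat.natCast_ne_top _)] at hf hg ⊢
  rw [coe_mul, MvPowerSeries.order_mul, Nat.cast_add]
  exact add_le_add hf hg

theorem jet_X_mem {σ : Type} (i : σ) : (X i : MvPolynomial σ k) ∈ aug σ k :=
  constantCoeff_X k i

theorem jet_step {R : Type u} [CommRing R] {I : Ideal R} (Φ : R →+* R) (h0 : ∀ f, Φ f - f ∈ I)
    (h1 : ∀ f ∈ I, Φ f - f ∈ I ^ 2) (j : ℕ) : ∀ f ∈ I ^ j, Φ f - f ∈ I ^ (j + 1) := by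
  induction j with
  | zero => intro f _; simpa using h0 f
  | succ j ih =>
    intro f hf
    rw [pow_succ] at hf
    refine Submodule.mul_induction_on hf (fun a ha b hb => ?_) fun a b ha hb => ?_
    · have e : Φ (a * b) - a * b = (Φ a - a) * (Φ b - b + b) + a * (Φ b - b) := by
        rw [map_mul]; ring
      rw [e]
      refine add_mem ?_ ?_
      · rw [pow_succ]
        exact Ideal.mul_mem_mul (ih a ha) (add_mem (h0 b) hb)
      · rw [add_assoc, pow_add]
        exact Ideal.mul_mem_mul ha (h1 b hb)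
    · have e : Φ (a + b) - (a + b) = (Φ a - a) + (Φ b - b) := by
        rw [map_add]; ring
      rw [e]
      exact add_mem ha hb

theorem jet_fix {σ : Type} {I : Ideal (MvPolynomial σ k)} (hI : I = Ideal.span (Set.range X))
    (Φ : MvPolynomial σ k →ₐ[k] MvPolynomial σ k) (hX : ∀ i, Φ (X i) - X i ∈ I ^ 2) {M : ℕ}
    {f : MvPolynomial σ k} (hM : Φ f ∈ I ^ M) : f ∈ I ^ M := by
  have h0 : ∀ p, Φ p - p ∈ I := by
    intro p
    induction p using MvPolynomial.induction_on with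
    | C a => rw [algHom_C, algebraMap_eq, sub_self]; exact zero_mem _
    | add p q hp hq =>
      have e : Φ (p + q) - (p + q) = (Φ p - p) + (Φ q - q) := by rw [map_add]; ring
      rw [e]
      exact add_mem hp hq
    | mul_X p i hp =>
      have e : Φ (p * X i) - p * X i = (Φ p - p) * Φ (X i) + p * (Φ (X i) - X i) := by
        rw [map_mul]; ring
      rw [e]
      exact add_mem (Ideal.mul_mem_right _ _ hp)
        (Ideal.mul_mem_left _ _ (Ideal.pow_le_self two_ne_zero (hX i)))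
  have h1 : ∀ p ∈ Ideal.span (Set.range X), Φ p - p ∈ I ^ 2 := by
    intro p hp
    induction hp using Submodule.span_induction with
    | mem x hx =>
      obtain ⟨i, rfl⟩ := hx
      exact hX i
    | zero => rw [map_zero, sub_self]; exact zero_mem _
    | add p q _ _ hp hq =>
      have e : Φ (p + q) - (p + q) = (Φ p - p) + (Φ q - q) := by rw [map_add]; ring
      rw [e]
      exact add_mem hp hq
    | smul a x hx ih =>
      have e : Φ (a • x) - a • x = (Φ a - a) * (Φ x - x + x) + a * (Φ x - x) := by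
        rw [smul_eq_mul, map_mul]; ring
      rw [e]
      refine add_mem ?_ (Ideal.mul_mem_left _ _ ih)
      rw [pow_two]
      exact Ideal.mul_mem_mul (h0 a) (add_mem (h0 x) (hI.ge hx))
  have key : ∀ j, j ≤ M → f ∈ I ^ j := by
    intro j
    induction j with
    | zero => intro _; simp
    | succ j ih =>
      intro hj
      have h2 : Φ f - f ∈ I ^ (j + 1) :=
        jet_step (Φ : MvPolynomial σ k →+* MvPolynomial σ k) h0 (fun p hp => h1 p (hI.le hp)) j f
          (ih (by omega))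
      have h3 := sub_mem (Ideal.pow_le_pow_right hj hM) h2
      rwa [sub_sub_cancel] at h3
  exact key M le_rfl

/-- Lift `φ` to `Φ : Lam → Lam` with `Φ (X i) - X i ∈ aug ^ 2`; then `Φ f - f ∈ aug ^ (j+1)` for
`f ∈ aug ^ j`, and `f ∈ aug ^ j` for `j ≤ M` by induction. -/
theorem jet_inj {M : ℕ} (φ : Lam k N →ₐ[k] Jt k N M)
    (h : ∀ i, ∃ g ∈ aug (Fin N) k ^ 2, φ (X i) = Ideal.Quotient.mk _ (X i + g)) {f : Lam k N}
    (hf : φ f = 0) : f ∈ aug (Fin N) k ^ M := by
  choose g hg hφ using h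
  have e : φ = (Ideal.Quotient.mkₐ k (aug (Fin N) k ^ M)).comp (aeval fun i => X i + g i) :=
    algHom_ext fun i => (hφ i).trans (congrArg (Ideal.Quotient.mk (aug (Fin N) k ^ M))
      (aeval_X (fun i => X i + g i) i).symm)
  have hM : Ideal.Quotient.mk (aug (Fin N) k ^ M) (aeval (fun i => X i + g i) f) = 0 :=
    (DFunLike.congr_fun e f).symm.trans hf
  refine jet_fix (aug_eq_span _) (aeval fun i => X i + g i) (fun i => ?_)
    (Ideal.Quotient.eq_zero_iff_mem.1 hM)
  rw [aeval_X, add_sub_cancel_left]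
  exact hg i

theorem jet_pow_bot {R : Type u} [CommRing R] {I : Ideal R} {M : ℕ} {J : Ideal (R ⧸ I ^ M)}
    (h : ∀ f, Ideal.Quotient.mk _ f ∈ J → f ∈ I) : J ^ M = ⊥ := by
  have h1 : J ≤ I.map (Ideal.Quotient.mk (I ^ M)) := by
    intro a ha
    obtain ⟨f, rfl⟩ := Ideal.Quotient.mk_surjective a
    exact Ideal.mem_map_of_mem _ (h f ha)
  refine le_bot_iff.1 ((Ideal.pow_right_mono h1 M).trans ?_)
  rw [← Ideal.map_pow, Ideal.map_quotient_self]

theorem jet_sq_bot {R : Type u} [CommRing R] {I : Ideal R} {J : Ideal (R ⧸ I ^ 2)}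
    (h : ∀ f, Ideal.Quotient.mk _ f ∈ J → f ∈ I) : J * J = ⊥ :=
  (pow_two J).symm.trans (jet_pow_bot h)

/-- the projection from `M`-jets to `2`-jets and the augmentation -/
theorem jet_setup {M : ℕ} (hM : 2 ≤ M) :
    ∃ (ρ : Jt k N M →ₐ[k] Jt k N 2) (ε : Jt k N 2 →ₐ[k] k),
      (∀ f, ρ (Ideal.Quotient.mk _ f) = Ideal.Quotient.mk _ f) ∧
      (∀ f, ε (Ideal.Quotient.mk _ f) = constantCoeff f) ∧ Function.Surjective ρ ∧
      IsNilpotent (RingHom.ker (ρ : Jt k N M →+* Jt k N 2)) ∧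
      RingHom.ker (ε : Jt k N 2 →+* k) * RingHom.ker (ε : Jt k N 2 →+* k) = ⊥ ∧
      RingHom.ker (ε.comp ρ : Jt k N M →+* k) ^ M = ⊥ := by
  obtain ⟨ρ, hρ⟩ : ∃ ρ : Jt k N M →ₐ[k] Jt k N 2,
      ∀ f, ρ (Ideal.Quotient.mk _ f) = Ideal.Quotient.mk _ f :=
    ⟨Ideal.Quotient.liftₐ _ (Ideal.Quotient.mkₐ k _) fun a ha =>
      Ideal.Quotient.eq_zero_iff_mem.2 (Ideal.pow_le_pow_right hM ha), fun f => rfl⟩
  obtain ⟨ε, hε⟩ : ∃ ε : Jt k N 2 →ₐ[k] k, ∀ f, ε (Ideal.Quotient.mk _ f) = constantCoeff f :=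
    ⟨Ideal.Quotient.liftₐ _ (aeval fun _ => 0) fun a ha => by
      rw [aeval_zero', show constantCoeff a = 0 from Ideal.pow_le_self two_ne_zero ha, map_zero],
      fun f => aeval_zero' f⟩
  refine ⟨ρ, ε, hρ, hε, fun b => ?_, ⟨M, jet_pow_bot fun f hf => ?_⟩, ?_,
    jet_pow_bot fun f hf => ?_⟩
  · obtain ⟨f, rfl⟩ := Ideal.Quotient.mk_surjective b
    exact ⟨_, hρ f⟩
  · exact Ideal.pow_le_self two_ne_zero (Ideal.Quotient.eq_zero_iff_mem.1 ((hρ f).symm.trans hf))
  · exact jet_sq_bot fun f hf => (hε f).symm.trans hf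
  · have h : ε (ρ (Ideal.Quotient.mk _ f)) = 0 := hf
    rwa [hρ, hε] at h

theorem jet_ker_le {D : Type u} [CommRing D] [Algebra k D] (ε : D →ₐ[k] k) {ι : Type}
    (x : ι → D) (hx : ∀ q, ε (x q) = 0) (hgen : Algebra.adjoin k (Set.range x) = ⊤) {a : D}
    (ha : ε a = 0) : a ∈ Ideal.span (Set.range x) := by
  have key : ∀ b ∈ Algebra.adjoin k (Set.range x),
      b - algebraMap k D (ε b) ∈ Ideal.span (Set.range x) := by
    intro b hb
    induction hb using Algebra.adjoin_induction with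
    | mem b hb =>
      obtain ⟨q, rfl⟩ := hb
      rw [hx, map_zero, sub_zero]
      exact Ideal.subset_span ⟨q, rfl⟩
    | algebraMap r =>
      rw [AlgHom.commutes, Algebra.algebraMap_self, RingHom.id_apply, sub_self]
      exact zero_mem _
    | add b c _ _ hb hc =>
      have e : b + c - algebraMap k D (ε (b + c)) =
          (b - algebraMap k D (ε b)) + (c - algebraMap k D (ε c)) := by
        rw [map_add, map_add]; ring
      rw [e]
      exact add_mem hb hc
    | mul b c _ _ hb hc =>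
      have e : b * c - algebraMap k D (ε (b * c)) =
          (b - algebraMap k D (ε b)) * c + algebraMap k D (ε b) * (c - algebraMap k D (ε c)) := by
        rw [map_mul, map_mul]; ring
      rw [e]
      exact add_mem (Ideal.mul_mem_right _ _ hb) (Ideal.mul_mem_left _ _ hc)
  have h := key a (hgen ▸ Algebra.mem_top)
  rwa [ha, map_zero, sub_zero] at h

theorem jet_surj {D : Type u} [CommRing D] [Algebra k D] (ε : D →ₐ[k] k) {ι : Type}
    (x : ι → D) (hx : ∀ q, ε (x q) = 0) (hgen : Algebra.adjoin k (Set.range x) = ⊤)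
    (y : Fin N → D)
    (h : ∀ q, ∃ c : Fin N → k, x q - ∑ i, c i • y i ∈ RingHom.ker (ε : D →+* k) ^ 2) (M : ℕ)
    (a : D) : ∃ A : Lam k N, a - aeval y A ∈ RingHom.ker (ε : D →+* k) ^ M := by
  have hm : ∀ b, b ∈ RingHom.ker (ε : D →+* k) ↔ ε b = 0 := fun b => Iff.rfl
  generalize RingHom.ker (ε : D →+* k) = 𝔪 at h hm ⊢
  have h0 : ∀ b, b - algebraMap k D (ε b) ∈ 𝔪 := fun b => by
    rw [hm, map_sub, AlgHom.commutes, Algebra.algebraMap_self, RingHom.id_apply, sub_self]
  have hadd : ∀ (j : ℕ) (b c : D), (∃ A : Lam k N, b - aeval y A ∈ 𝔪 ^ j) →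
      (∃ A : Lam k N, c - aeval y A ∈ 𝔪 ^ j) → ∃ A : Lam k N, b + c - aeval y A ∈ 𝔪 ^ j := by
    rintro j b c ⟨A, hA⟩ ⟨A', hA'⟩
    refine ⟨A + A', ?_⟩
    have e : b + c - aeval y (A + A') = (b - aeval y A) + (c - aeval y A') := by
      rw [map_add]; ring
    rw [e]
    exact add_mem hA hA'
  have h1 : ∀ b ∈ 𝔪, ∃ A : Lam k N, b - aeval y A ∈ 𝔪 ^ 2 := by
    intro b hb
    have hb' := jet_ker_le ε x hx hgen ((hm b).1 hb)
    clear hb
    induction hb' using Submodule.span_induction with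
    | mem b hb =>
      obtain ⟨q, rfl⟩ := hb
      obtain ⟨c, hc⟩ := h q
      refine ⟨∑ i, c i • X i, ?_⟩
      simpa only [map_sum, map_smul, aeval_X] using hc
    | zero => exact ⟨0, by simp⟩
    | add b c _ _ hb hc => exact hadd 2 b c hb hc
    | smul a b hb ih =>
      obtain ⟨A, hA⟩ := ih
      have hb' : b ∈ 𝔪 := by
        refine (Ideal.span_le.2 ?_ : Ideal.span (Set.range x) ≤ 𝔪) hb
        rintro _ ⟨q, rfl⟩
        exact (hm _).2 (hx q)
      refine ⟨C (ε a) * A, ?_⟩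
      have e : a • b - aeval y (C (ε a) * A) =
          (a - algebraMap k D (ε a)) * b + algebraMap k D (ε a) * (b - aeval y A) := by
        rw [smul_eq_mul, map_mul, aeval_C]; ring
      rw [e]
      refine add_mem ?_ (Ideal.mul_mem_left _ _ hA)
      rw [pow_two]
      exact Ideal.mul_mem_mul (h0 a) hb'
  have h2 : ∀ j, ∀ b ∈ 𝔪 ^ j, ∃ A : Lam k N, b - aeval y A ∈ 𝔪 ^ (j + 1) := by
    intro j
    induction j with
    | zero => exact fun b _ => ⟨C (ε b), by simpa using h0 b⟩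
    | succ j ih =>
      intro b hb
      rw [pow_succ] at hb
      refine Submodule.mul_induction_on hb (fun b hb c hc => ?_) (hadd _)
      obtain ⟨A, hA⟩ := ih b hb
      obtain ⟨A', hA'⟩ := h1 c hc
      refine ⟨A * A', ?_⟩
      have e : b * c - aeval y (A * A') =
          (b - aeval y A) * c + (b - (b - aeval y A)) * (c - aeval y A') := by
        rw [map_mul]; ring
      rw [e]
      refine add_mem ?_ ?_
      · rw [pow_succ]
        exact Ideal.mul_mem_mul hA hc
      · rw [add_assoc, pow_add]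
        exact Ideal.mul_mem_mul (sub_mem hb (Ideal.pow_le_pow_right (Nat.le_succ j) hA)) hA'
  induction M with
  | zero => exact ⟨0, by simp⟩
  | succ M ih =>
    obtain ⟨A, hA⟩ := ih
    obtain ⟨A', hA'⟩ := h2 M _ hA
    exact ⟨A + A', by rwa [map_add, ← sub_sub]⟩

theorem jet_lin (f : Lam k N) :
    ∃ c : Fin N → k, f - C (constantCoeff f) - ∑ i, c i • X i ∈ aug (Fin N) k ^ 2 := by
  induction f using MvPolynomial.induction_on with
  | C a => exact ⟨0, by simp⟩
  | add p q hp hq =>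
    obtain ⟨c, hc⟩ := hp
    obtain ⟨d, hd⟩ := hq
    refine ⟨c + d, ?_⟩
    convert add_mem hc hd using 1
    simp only [map_add, Pi.add_apply, add_smul, Finset.sum_add_distrib]
    ring
  | mul_X p i _ =>
    refine ⟨Pi.single i (constantCoeff p), ?_⟩
    have h1 : p - C (constantCoeff p) ∈ aug (Fin N) k := by simp
    have h2 := Ideal.mul_mem_mul h1 (jet_X_mem (k := k) i)
    rw [← pow_two] at h2
    convert h2 using 1
    rw [Finset.sum_eq_single i (fun j _ hj => by rw [Pi.single_eq_of_ne hj, zero_smul])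
      (fun h => absurd (Finset.mem_univ i) h), Pi.single_eq_same, map_mul, constantCoeff_X,
      mul_zero, map_zero, smul_eq_C_mul]
    ring

theorem jet_eps {D : Type u} [CommRing D] [Algebra k D] (ε : D →ₐ[k] k) {y : Fin N → D}
    (hy : ∀ i, ε (y i) = 0) (f : Lam k N) : ε (aeval y f) = constantCoeff f := by
  have e : ε.comp (aeval y) = aeval fun _ => 0 := algHom_ext fun i => by
    rw [AlgHom.comp_apply, aeval_X, aeval_X, hy]
  exact (DFunLike.congr_fun e f).trans (aeval_zero' f)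

/-- The classes of the `x q` span the vector space `𝔪 / 𝔪 ^ 2` (`𝔪 = ker ε`); choose a linearly
independent spanning subfamily `x (p i)`; the map from `2`-jets to `D ⧸ 𝔪 ^ 2` is bijective. -/
theorem exists_cotangent {D : Type u} [CommRing D] [Algebra k D] (ε : D →ₐ[k] k) {ι : Type}
    [Finite ι] (x : ι → D) (hx : ∀ q, ε (x q) = 0)
    (hgen : Algebra.adjoin k (Set.range x) = ⊤) :
    ∃ (N : ℕ) (p : Fin N → ι) (φ : D →ₐ[k] Jt k N 2),
      (∀ i, φ (x (p i)) = Ideal.Quotient.mk _ (X i)) ∧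
      (∀ a, ε a = 0 → ∃ g ∈ aug (Fin N) k, φ a = Ideal.Quotient.mk _ g) ∧
      ∀ q, ∃ c : Fin N → k, x q - ∑ i, c i • x (p i) ∈ RingHom.ker (ε : D →+* k) ^ 2 := by
  obtain ⟨π, hπ, hπs⟩ : ∃ π : D →ₐ[k] D ⧸ RingHom.ker (ε : D →+* k) ^ 2,
      (∀ a, π a = 0 ↔ a ∈ RingHom.ker (ε : D →+* k) ^ 2) ∧ Function.Surjective π :=
    ⟨Ideal.Quotient.mkₐ k _, fun a => Ideal.Quotient.eq_zero_iff_mem,
      Ideal.Quotient.mk_surjective⟩
  obtain ⟨κ, a, ha, hs, hl⟩ := exists_linearIndependent' k fun q => π (x q)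
  have : Finite κ := Finite.of_injective a ha
  obtain ⟨N, ⟨e⟩⟩ := Finite.exists_equiv_fin κ
  obtain ⟨p, hs, hl⟩ : ∃ p : Fin N → ι, Submodule.span k (Set.range fun i => π (x (p i))) =
      Submodule.span k (Set.range fun q => π (x q)) ∧ LinearIndependent k fun i => π (x (p i)) :=
    ⟨a ∘ e.symm, (congrArg _ (e.symm.surjective.range_comp _)).trans hs,
      hl.comp e.symm e.symm.injective⟩
  have h3 : ∀ q, ∃ c : Fin N → k,
      x q - ∑ i, c i • x (p i) ∈ RingHom.ker (ε : D →+* k) ^ 2 := fun q => by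
    obtain ⟨c, hc⟩ := (Submodule.mem_span_range_iff_exists_fun k).1
      (hs.ge (Submodule.subset_span ⟨q, rfl⟩))
    refine ⟨c, (hπ _).1 ?_⟩
    simp only [map_sub, map_sum, map_smul, hc, sub_self]
  have he := jet_eps ε fun i => hx (p i)
  have h4 : ∀ f ∈ aug (Fin N) k ^ 2, π (aeval (fun i => x (p i)) f) = 0 := fun f hf => by
    have h5 : (aug (Fin N) k).map (aeval fun i => x (p i)) ≤ RingHom.ker (ε : D →+* k) :=
      Ideal.map_le_iff_le_comap.2 fun g hg => (he g).trans hg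
    have h6 := Ideal.mem_map_of_mem (aeval fun i => x (p i)) hf
    rw [Ideal.map_pow] at h6
    exact (hπ _).2 (Ideal.pow_right_mono h5 2 h6)
  obtain ⟨ψ, hψ⟩ : ∃ ψ : Jt k N 2 →ₐ[k] D ⧸ RingHom.ker (ε : D →+* k) ^ 2,
      ∀ f, ψ (Ideal.Quotient.mk _ f) = π (aeval (fun i => x (p i)) f) :=
    ⟨Ideal.Quotient.liftₐ _ (π.comp (aeval fun i => x (p i))) h4, fun f => rfl⟩
  have hz : ∀ a, π a = 0 → ε a = 0 := fun a h => Ideal.pow_le_self two_ne_zero ((hπ a).1 h)
  have hb : Function.Bijective ψ := by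
    refine ⟨(injective_iff_map_eq_zero ψ).2 fun b hb => ?_, fun b => ?_⟩
    · obtain ⟨f, rfl⟩ := Ideal.Quotient.mk_surjective b
      rw [hψ] at hb
      have h0 : constantCoeff f = 0 := (he f).symm.trans (hz _ hb)
      obtain ⟨c, hc⟩ := jet_lin f
      rw [h0, map_zero, sub_zero] at hc
      have h5 := h4 _ hc
      simp only [map_sub, map_sum, map_smul, aeval_X, hb, zero_sub, neg_eq_zero] at h5
      have h6 := Fintype.linearIndependent_iff.1 hl c h5
      simp only [h6, zero_smul, Finset.sum_const_zero, sub_zero] at hc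
      exact Ideal.Quotient.eq_zero_iff_mem.2 hc
    · obtain ⟨b, rfl⟩ := hπs b
      obtain ⟨A, hA⟩ := jet_surj ε x hx hgen (fun i => x (p i)) h3 2 b
      refine ⟨Ideal.Quotient.mk _ A, ?_⟩
      have h5 := (hπ _).2 hA
      rw [map_sub, sub_eq_zero] at h5
      rw [hψ, h5]
  refine ⟨N, p, ((AlgEquiv.ofBijective ψ hb).symm : _ →ₐ[k] _).comp π, fun i => ?_,
    fun b h0 => ?_, h3⟩
  · refine (AlgEquiv.ofBijective ψ hb).symm_apply_eq.2 ?_
    rw [AlgEquiv.ofBijective_apply, hψ, aeval_X]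
    rfl
  · obtain ⟨g, hg⟩ := Ideal.Quotient.mk_surjective ((AlgEquiv.ofBijective ψ hb).symm (π b))
    refine ⟨g, ?_, hg.symm⟩
    have h5 := (AlgEquiv.ofBijective ψ hb).symm_apply_eq.1 hg.symm
    rw [AlgEquiv.ofBijective_apply, hψ, ← sub_eq_zero, ← map_sub] at h5
    have h6 := hz _ h5
    rw [map_sub, h0, he, zero_sub, neg_eq_zero] at h6
    exact h6

/-- `𝔪 = span (range x)`, so `𝔪 ≤ span (range y) ⊔ 𝔪 ^ 2`; by induction on `M` every element of
`𝔪 ^ j` is congruent modulo `𝔪 ^ (j+1)` to the image of a polynomial in `aug ^ j`. -/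
theorem surj_mod_pow {D : Type u} [CommRing D] [Algebra k D] (ε : D →ₐ[k] k) {ι : Type}
    (x : ι → D) (hx : ∀ q, ε (x q) = 0) (hgen : Algebra.adjoin k (Set.range x) = ⊤)
    (y : Fin N → D) (hy : ∀ i, ε (y i) = 0)
    (h : ∀ q, ∃ c : Fin N → k, x q - ∑ i, c i • y i ∈ RingHom.ker (ε : D →+* k) ^ 2) (M : ℕ)
    (a : D) : ∃ A : Lam k N, a - aeval y A ∈ RingHom.ker (ε : D →+* k) ^ M :=
  jet_surj ε x hx hgen y h M a

end Pool.Agent.MP_24718c_ag

end

end partJet

section partDom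

/-!
Minimal primes of smooth algebras.
-/

set_option linter.unusedSectionVars false
set_option linter.unusedVariables false

open MvPolynomial

universe u

noncomputable section

namespace Pool.Agent.MP_24718c_ag

variable {k : Type u} [Field k] {R : Type u} [CommRing R] [Algebra k R]

theorem dom_gens [Algebra.FiniteType k R] (x₀ : R →ₐ[k] k) :
    ∃ (n : ℕ) (x : Fin n → R), (∀ q, x₀ (x q) = 0) ∧ Algebra.adjoin k (Set.range x) = ⊤ := by
  obtain ⟨n, f, hf⟩ := Algebra.FiniteType.iff_quotient_mvPolynomial''.1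
    (inferInstance : Algebra.FiniteType k R)
  refine ⟨n, fun q => f (X q) - algebraMap k R (x₀ (f (X q))), fun q => by simp, ?_⟩
  rw [eq_top_iff]
  rintro a -
  obtain ⟨g, rfl⟩ := hf a
  induction g using MvPolynomial.induction_on with
  | C c => exact (f.commutes c).symm ▸ Subalgebra.algebraMap_mem _ c
  | add g h hg hh =>
    rw [map_add]
    exact Subalgebra.add_mem _ hg hh
  | mul_X g q hg =>
    rw [map_mul]
    refine Subalgebra.mul_mem _ hg ?_
    have e : f (X q) = (f (X q) - algebraMap k R (x₀ (f (X q)))) +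
      algebraMap k R (x₀ (f (X q))) := by ring
    rw [e]
    exact Subalgebra.add_mem _ (Algebra.subset_adjoin ⟨q, rfl⟩) (Subalgebra.algebraMap_mem _ _)

theorem dom_const {N : ℕ} (x₀ : R →ₐ[k] k) {y : Fin N → R} (hy : ∀ i, x₀ (y i) = 0)
    (A : Lam k N) : x₀ (aeval y A) = constantCoeff A := by
  have h : x₀.comp (aeval y) = aeval (0 : Fin N → k) :=
    MvPolynomial.algHom_ext fun i => by simp [hy]
  have h1 := AlgHom.congr_fun h A
  rw [AlgHom.comp_apply, aeval_zero] at h1
  exact h1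

theorem dom_map {N : ℕ} (x₀ : R →ₐ[k] k) {y : Fin N → R} (hy : ∀ i, x₀ (y i) = 0) {M : ℕ}
    {A : Lam k N} (hA : A ∈ aug (Fin N) k ^ M) : aeval y A ∈ RingHom.ker (x₀ : R →+* k) ^ M := by
  have h1 : (aug (Fin N) k).map (aeval y : Lam k N →ₐ[k] R) ≤ RingHom.ker (x₀ : R →+* k) := by
    refine Ideal.map_le_iff_le_comap.2 fun B hB => ?_
    rw [Ideal.mem_comap, RingHom.mem_ker]
    exact (dom_const x₀ hy B).trans hB
  have h2 := Ideal.mem_map_of_mem (aeval y : Lam k N →ₐ[k] R) hA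
  rw [Ideal.map_pow] at h2
  exact Ideal.pow_right_mono h1 M h2

theorem dom_jet [Algebra.FormallySmooth k R] {N : ℕ} (x₀ : R →ₐ[k] k) {y : Fin N → R}
    (hy : ∀ i, x₀ (y i) = 0) (φ : R →ₐ[k] Jt k N 2)
    (h1 : ∀ i, φ (y i) = Ideal.Quotient.mk _ (X i))
    (h2 : ∀ a, x₀ a = 0 → ∃ g ∈ aug (Fin N) k, φ a = Ideal.Quotient.mk _ g) {M : ℕ} (hM : 2 ≤ M)
    {A : Lam k N} (hA : aeval y A ∈ RingHom.ker (x₀ : R →+* k) ^ M) : A ∈ aug (Fin N) k ^ M := by
  obtain ⟨ρ, ε, hρ, hε, hsurj, hnil, -, hbot⟩ := jet_setup (k := k) (N := N) hM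
  have hl := Algebra.FormallySmooth.comp_liftOfSurjective φ ρ hsurj hnil
  set ψ := Algebra.FormallySmooth.liftOfSurjective φ ρ hsurj hnil
  have hl' : ∀ a, ρ (ψ a) = φ a := AlgHom.congr_fun hl
  refine jet_inj (ψ.comp (aeval y)) (fun i => ?_) ?_
  · obtain ⟨f, hf⟩ := Ideal.Quotient.mk_surjective (ψ (y i))
    refine ⟨f - X i, ?_, ?_⟩
    · rw [← Ideal.Quotient.eq, ← hρ, hf, hl', h1]
    · rw [AlgHom.comp_apply, aeval_X, ← hf, add_sub_cancel]
  · have h3 : (RingHom.ker (x₀ : R →+* k)).map ψ ≤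
        RingHom.ker (ε.comp ρ : Jt k N M →+* k) := by
      refine Ideal.map_le_iff_le_comap.2 fun a ha => ?_
      obtain ⟨g, hg, he⟩ := h2 a ha
      rw [Ideal.mem_comap, RingHom.mem_ker]
      show ε (ρ (ψ a)) = 0
      rw [hl', he, hε]
      exact hg
    have h4 := Ideal.mem_map_of_mem ψ hA
    rw [Ideal.map_pow] at h4
    have h5 := Ideal.pow_right_mono h3 M h4
    rw [hbot, Ideal.mem_bot] at h5
    exact h5

/-- Choose finitely many generators `x q ∈ 𝔪 = ker x₀`, apply `exists_cotangent`, `y i = x (p i)`.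
Lifting `φ` to `M`-jets (`jet_setup`, `Algebra.FormallySmooth.liftOfSurjective`) and `jet_inj` give:
`aeval y A ∈ 𝔪 ^ M → A ∈ aug ^ M`.  With `surj_mod_pow` and `mul_notMem_aug_pow`:
`a ∉ 𝔪 ^ (i+1)`, `b ∉ 𝔪 ^ (j+1)` imply `a * b ∉ 𝔪 ^ (i+j+1)`. -/
theorem isPrime_iInf_pow [Algebra.FormallySmooth k R] [Algebra.FiniteType k R] (x₀ : R →ₐ[k] k) :
    (⨅ M : ℕ, RingHom.ker (x₀ : R →+* k) ^ M).IsPrime := by
  obtain ⟨n, x, hx, hgen⟩ := dom_gens x₀
  obtain ⟨N, p, φ, h1, h2, h3⟩ := exists_cotangent x₀ x hx hgen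
  have hy : ∀ i, x₀ (x (p i)) = 0 := fun i => hx _
  refine ⟨fun h => ?_, fun {a b} hab => ?_⟩
  · have h4 : (1 : R) ∈ ⨅ M : ℕ, RingHom.ker (x₀ : R →+* k) ^ M := h ▸ Submodule.mem_top
    have h5 := Ideal.mem_iInf.1 h4 1
    rw [pow_one, RingHom.mem_ker, map_one] at h5
    exact one_ne_zero h5
  · by_contra hcon
    rw [not_or, Ideal.mem_iInf, Ideal.mem_iInf, not_forall, not_forall] at hcon
    obtain ⟨⟨i, hi⟩, ⟨j, hj⟩⟩ := hcon
    have hi' : a ∉ RingHom.ker (x₀ : R →+* k) ^ (i + 1 + 1) := fun h =>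
      hi (Ideal.pow_le_pow_right (by omega) h)
    have hj' : b ∉ RingHom.ker (x₀ : R →+* k) ^ (j + 1) := fun h =>
      hj (Ideal.pow_le_pow_right (by omega) h)
    obtain ⟨A, hA⟩ := surj_mod_pow x₀ x hx hgen (fun i => x (p i)) hy h3 (i + 1 + j + 1) a
    obtain ⟨B, hB⟩ := surj_mod_pow x₀ x hx hgen (fun i => x (p i)) hy h3 (i + 1 + j + 1) b
    have hA' : A ∉ aug (Fin N) k ^ (i + 1 + 1) := fun h => hi' (by
      have := Ideal.add_mem _ (Ideal.pow_le_pow_right (m := i + 1 + 1) (by omega) hA)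
        (dom_map x₀ hy h)
      rwa [sub_add_cancel] at this)
    have hB' : B ∉ aug (Fin N) k ^ (j + 1) := fun h => hj' (by
      have := Ideal.add_mem _ (Ideal.pow_le_pow_right (m := j + 1) (by omega) hB)
        (dom_map x₀ hy h)
      rwa [sub_add_cancel] at this)
    refine mul_notMem_aug_pow hA' hB' (dom_jet x₀ hy φ h1 h2 (by omega) ?_)
    have h6 := Ideal.mem_iInf.1 hab (i + 1 + j + 1)
    have e : aeval (fun i => x (p i)) (A * B) = a * b - (a - aeval (fun i => x (p i)) A) * b -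
        aeval (fun i => x (p i)) A * (b - aeval (fun i => x (p i)) B) := by
      rw [map_mul]
      ring
    rw [e]
    exact Ideal.sub_mem _ (Ideal.sub_mem _ h6 (Ideal.mul_mem_right _ _ hA))
      (Ideal.mul_mem_left _ _ hB)

theorem dom_iInf_le [IsNoetherianRing R] {𝔪 𝔭 : Ideal R} (h𝔪 : 𝔪 ≠ ⊤) [𝔭.IsPrime]
    (h : 𝔭 ≤ 𝔪) : (⨅ M : ℕ, 𝔪 ^ M) ≤ 𝔭 := by
  intro a ha
  have hne : 𝔪.map (Ideal.Quotient.mk 𝔭) ≠ ⊤ := by
    intro ht
    have h1 := congrArg (Ideal.comap (Ideal.Quotient.mk 𝔭)) ht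
    rw [Ideal.comap_map_of_surjective _ Ideal.Quotient.mk_surjective, ← RingHom.ker_eq_comap_bot,
      Ideal.mk_ker, sup_eq_left.2 h, Ideal.comap_top] at h1
    exact h𝔪 h1
  have h2 := Ideal.iInf_pow_eq_bot_of_isDomain _ hne
  rw [← Ideal.Quotient.eq_zero_iff_mem, ← Ideal.mem_bot, ← h2, Ideal.mem_iInf]
  intro M
  rw [← Ideal.map_pow]
  exact Ideal.mem_map_of_mem _ (Ideal.mem_iInf.1 ha M)

/-- By Krull's intersection theorem in the Noetherian domain `R ⧸ 𝔭`
(`Ideal.iInf_pow_eq_bot_of_isDomain`) the prime `⨅ 𝔪 ^ M` is contained in every prime `𝔭 ≤ 𝔪`. -/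
theorem unique_minimal [Algebra.FormallySmooth k R] [Algebra.FiniteType k R] (x₀ : R →ₐ[k] k)
    {𝔭 𝔮 : Ideal R} (h𝔭 : 𝔭 ∈ minimalPrimes R) (h𝔮 : 𝔮 ∈ minimalPrimes R)
    (h₁ : 𝔭 ≤ RingHom.ker (x₀ : R →+* k)) (h₂ : 𝔮 ≤ RingHom.ker (x₀ : R →+* k)) : 𝔭 = 𝔮 := by
  have hN : IsNoetherianRing R := Algebra.FiniteType.isNoetherianRing k R
  have hP := isPrime_iInf_pow x₀
  have key : ∀ 𝔯 ∈ minimalPrimes R, 𝔯 ≤ RingHom.ker (x₀ : R →+* k) →
      𝔯 = ⨅ M : ℕ, RingHom.ker (x₀ : R →+* k) ^ M := by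
    intro 𝔯 h𝔯 hle
    have := h𝔯.1.1
    have h3 := dom_iInf_le (RingHom.ker_ne_top _) hle
    exact le_antisymm (h𝔯.2 ⟨hP, bot_le⟩ h3) h3
  rw [key 𝔭 h𝔭 h₁, key 𝔮 h𝔮 h₂]

open IsLocalRing in
/-- the universal derivation into the cotangent space given by a coefficient field modulo the
square of the maximal ideal -/
theorem dom_delta {A : Type u} [CommRing A] [IsLocalRing A] [Algebra k A]
    [Algebra.FormallySmooth k (ResidueField A)] :
    ∃ δ : A → CotangentSpace A, (∀ a b, δ (a + b) = δ a + δ b) ∧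
      (∀ a b, δ (a * b) = a • δ b + b • δ a) ∧ (∀ c : k, δ (algebraMap k A c) = 0) ∧
      ∀ a : maximalIdeal A, δ a = (maximalIdeal A).toCotangent a := by
  let π : (A ⧸ maximalIdeal A ^ 2) →ₐ[k] ResidueField A :=
    Ideal.Quotient.liftₐ _ (IsScalarTower.toAlgHom k A (ResidueField A)) fun a ha =>
      (residue_eq_zero_iff a).2 (Ideal.pow_le_self two_ne_zero ha)
  have hπ : ∀ a : A, π (Ideal.Quotient.mk _ a) = residue A a := fun a => rfl
  have hker : ∀ z, π z = 0 ↔ z ∈ (maximalIdeal A).cotangentIdeal := by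
    intro z
    obtain ⟨a, rfl⟩ := Ideal.Quotient.mk_surjective z
    rw [hπ, residue_eq_zero_iff, Ideal.mk_mem_cotangentIdeal]
  have hsurj : Function.Surjective π := fun z => by
    obtain ⟨a, rfl⟩ := residue_surjective z
    exact ⟨_, hπ a⟩
  have hnil : IsNilpotent (RingHom.ker (π : (A ⧸ maximalIdeal A ^ 2) →+* ResidueField A)) := by
    have e : RingHom.ker (π : (A ⧸ maximalIdeal A ^ 2) →+* ResidueField A) =
      (maximalIdeal A).cotangentIdeal := Ideal.ext hker
    exact ⟨2, by rw [e]; exact Ideal.cotangentIdeal_square _⟩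
  have hl := Algebra.FormallySmooth.comp_liftOfSurjective (AlgHom.id k _) π hsurj hnil
  set s := Algebra.FormallySmooth.liftOfSurjective (AlgHom.id k _) π hsurj hnil
  have hs : ∀ z, π (s z) = z := AlgHom.congr_fun hl
  have hmem : ∀ a : A, Ideal.Quotient.mk _ a - s (residue A a) ∈
      (maximalIdeal A).cotangentIdeal := fun a => by
    rw [← hker, map_sub, hs, hπ, sub_self]
  have hex : ∀ a : A, ∃ v, (maximalIdeal A).cotangentToQuotientSquare v =
      Ideal.Quotient.mk _ a - s (residue A a) := fun a => by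
    rw [← LinearMap.mem_range, Ideal.range_cotangentToQuotientSquare]
    exact hmem a
  choose δ hδ using hex
  have hinj := (maximalIdeal A).cotangentToQuotientSquare_injective
  refine ⟨δ, fun a b => hinj ?_, fun a b => hinj ?_, fun c => hinj ?_, fun a => hinj ?_⟩
  · rw [map_add, hδ, hδ, hδ, map_add, map_add, map_add]
    ring
  · have h0 : (Ideal.Quotient.mk _ a - s (residue A a)) *
        (Ideal.Quotient.mk _ b - s (residue A b)) = 0 := by
      rw [← Ideal.mem_bot, ← Ideal.cotangentIdeal_square,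
        pow_two (maximalIdeal A).cotangentIdeal]
      exact Ideal.mul_mem_mul (hmem a) (hmem b)
    rw [map_add, map_smul, map_smul, hδ, hδ, hδ, map_mul, map_mul, map_mul, Algebra.smul_def,
      Algebra.smul_def, Ideal.Quotient.algebraMap_eq]
    linear_combination -h0
  · have e : residue A (algebraMap k A c) = algebraMap k (ResidueField A) c := rfl
    rw [hδ, e, s.commutes, map_zero]
    exact sub_self _
  · rw [hδ, (residue_eq_zero_iff _).2 a.2, map_zero, sub_zero]
    rfl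

/-- Let `𝔮 = ker θ`, `A = Localization.AtPrime 𝔮` with maximal ideal `𝔫` and residue field `κ`,
which embeds in `F`.  `κ` is formally smooth over the perfect field `k`
(`Algebra.FormallySmooth.of_perfectField`), so `A ⧸ 𝔫 ^ 2 → κ` has a `k`-algebra section `s`.  If
`𝔫 ≠ 𝔫 ^ 2`, pick a nonzero `κ`-linear functional `χ` on `𝔫 / 𝔫 ^ 2`; then
`a ↦ θ a + ε χ (a - s a)` is a `k`-algebra map lifting `θ` that does not kill `𝔮`.  So
`𝔫 = 𝔫 ^ 2`, `𝔫 = 0` by Nakayama, and `𝔮` is minimal. -/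
theorem minimal_of_versal [PerfectField k] [Algebra.FiniteType k R] {F : Type u} [Field F]
    [Algebra k F] (θ : R →ₐ[k] F)
    (h : ∀ θ' : R →ₐ[k] DualNumber F, (∀ a, (θ' a).fst = θ a) → ∀ a, θ a = 0 → θ' a = 0) :
    RingHom.ker (θ : R →+* F) ∈ minimalPrimes R := by
  have hN : IsNoetherianRing R := Algebra.FiniteType.isNoetherianRing k R
  have hP : (RingHom.ker (θ : R →+* F)).IsPrime := RingHom.ker_isPrime _
  have hq : ∀ a, a ∈ RingHom.ker (θ : R →+* F) ↔ θ a = 0 := fun a => Iff.rfl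
  generalize RingHom.ker (θ : R →+* F) = 𝔮 at hP hq
  have hE : Algebra.EssFiniteType k 𝔮.ResidueField := .comp _ R _
  have hS : Algebra.FormallySmooth k 𝔮.ResidueField := Algebra.FormallySmooth.of_perfectField
  obtain ⟨δ, hadd, hmul, hc, hm⟩ := dom_delta (k := k) (A := Localization.AtPrime 𝔮)
  let ι : 𝔮.ResidueField →ₐ[k] F := Ideal.ResidueField.liftₐ 𝔮 θ (fun a ha => (hq a).1 ha)
    fun a ha => isUnit_iff_ne_zero.2 fun h0 => ha ((hq a).2 h0)
  have hι : ∀ a : R, ι (algebraMap R _ a) = θ a := fun a =>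
    Ideal.ResidueField.liftₐ_algebraMap 𝔮 θ _ _ a
  have hzero : ∀ a ∈ 𝔮, δ (algebraMap R _ a) = 0 := by
    intro a ha
    rw [← Module.forall_dual_apply_eq_zero_iff 𝔮.ResidueField]
    intro χ
    have hχ : ∀ (b : R) (v : IsLocalRing.CotangentSpace (Localization.AtPrime 𝔮)),
        ι (χ (algebraMap R (Localization.AtPrime 𝔮) b • v)) = θ b * ι (χ v) := by
      intro b v
      rw [← algebraMap_smul 𝔮.ResidueField, map_smul, smul_eq_mul, map_mul,
        ← IsScalarTower.algebraMap_apply, hι]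
    have hone : δ 1 = 0 := by
      have := hc 1
      rwa [map_one] at this
    have hnull : δ 0 = 0 := by
      have := hc 0
      rwa [map_zero] at this
    let θ' : R →ₐ[k] DualNumber F :=
      { toFun := fun b => TrivSqZeroExt.inl (θ b) +
          TrivSqZeroExt.inr (ι (χ (δ (algebraMap R _ b))))
        map_one' := by ext <;> simp [hone]
        map_mul' := fun b c => by
          ext
          · simp
          · simp only [map_mul, hmul, map_add, hχ, TrivSqZeroExt.snd_add, TrivSqZeroExt.snd_inl,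
              TrivSqZeroExt.snd_inr, DualNumber.snd_mul, TrivSqZeroExt.fst_add,
              TrivSqZeroExt.fst_inl, TrivSqZeroExt.fst_inr]
            ring
        map_zero' := by ext <;> simp [hnull]
        map_add' := fun b c => by ext <;> simp [hadd]
        commutes' := fun c => by
          rw [← IsScalarTower.algebraMap_apply, hc]
          ext <;> simp [TrivSqZeroExt.algebraMap_eq_inl'] }
    have h1 := h θ' (fun b => by simp [θ']) a ((hq a).1 ha)
    have h2 := congrArg TrivSqZeroExt.snd h1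
    have h3 : ι (χ (δ (algebraMap R _ a))) = 0 := by simpa [θ'] using h2
    exact (map_eq_zero ι).1 h3
  have hle : IsLocalRing.maximalIdeal (Localization.AtPrime 𝔮) ≤
      IsLocalRing.maximalIdeal (Localization.AtPrime 𝔮) ^ 2 := by
    conv_lhs => rw [← Localization.AtPrime.map_eq_maximalIdeal]
    refine Ideal.map_le_iff_le_comap.2 fun a ha => ?_
    have ha' : algebraMap R (Localization.AtPrime 𝔮) a ∈ IsLocalRing.maximalIdeal _ :=
      (IsLocalization.AtPrime.to_map_mem_maximal_iff _ 𝔮 a).2 ha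
    have h4 := hm ⟨_, ha'⟩
    rw [hzero a ha] at h4
    exact (Ideal.toCotangent_eq_zero _ _).1 h4.symm
  have hbot : IsLocalRing.maximalIdeal (Localization.AtPrime 𝔮) = ⊥ := by
    refine Submodule.eq_bot_of_le_smul_of_le_jacobson_bot
      (IsLocalRing.maximalIdeal (Localization.AtPrime 𝔮)) _ (IsNoetherian.noetherian _) ?_
      (IsLocalRing.jacobson_eq_maximalIdeal _ bot_ne_top).ge
    rw [smul_eq_mul, ← pow_two]
    exact hle
  refine ⟨⟨hP, bot_le⟩, fun 𝔭 h𝔭 h𝔭q a ha => ?_⟩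
  have ha' : algebraMap R (Localization.AtPrime 𝔮) a ∈ IsLocalRing.maximalIdeal _ :=
    (IsLocalization.AtPrime.to_map_mem_maximal_iff _ 𝔮 a).2 ha
  rw [hbot, Ideal.mem_bot, IsLocalization.map_eq_zero_iff 𝔮.primeCompl] at ha'
  obtain ⟨t, ht⟩ := ha'
  have h5 : (t : R) * a ∈ 𝔭 := ht ▸ 𝔭.zero_mem
  exact (h𝔭.1.mem_or_mem h5).resolve_left fun h6 => t.2 (h𝔭q h6)

end Pool.Agent.MP_24718c_ag

end

end partDom

section partAttract

/-!
A graded algebra whose tangent weights are positive and which is unobstructed at the origin is,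
near the origin, a polynomial ring.
-/

set_option linter.unusedSectionVars false
set_option linter.unusedVariables false

open MvPolynomial

universe u

noncomputable section

namespace Pool.Agent.MP_24718c_ag

variable {k : Type u} [Field k] {ι : Type} [Finite ι] {ω : ι → ℤ} {𝔄 : Ideal (MvPolynomial ι k)}

theorem rename_component {ι κ : Type} {f : ι → κ} (ω : κ → ℤ) (t : ℤ) (g : MvPolynomial ι k) :
    weightedHomogeneousComponent ω t (rename f g) =
      rename f (weightedHomogeneousComponent (ω ∘ f) t g) := by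
  induction g using MvPolynomial.induction_on' with
  | monomial d a =>
    have e : Finsupp.weight ω (d.mapDomain f) = Finsupp.weight (ω ∘ f) d := by
      rw [Finsupp.weight_apply, Finsupp.weight_apply]
      exact Finsupp.sum_mapDomain_index (h := fun i (c : ℕ) => c • ω i) (fun _ => zero_smul _ _)
        fun _ _ _ => add_smul _ _ _
    rw [rename_monomial,
      weightedHomogeneousComponent_of_mem (isWeightedHomogeneous_monomial ω _ a e),
      weightedHomogeneousComponent_of_mem (isWeightedHomogeneous_monomial (ω ∘ f) d a rfl)]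
    split_ifs
    · rw [rename_monomial]
    · rw [map_zero]
  | add p q hp hq => rw [map_add, map_add, map_add, map_add, hp, hq]

theorem attract_exists {d : ι →₀ ℕ} (h : Finsupp.weight ω d < d.degree) :
    ∃ i, ω i ≤ 0 ∧ d i ≠ 0 := by
  by_contra hn
  push Not at hn
  refine h.not_ge ?_
  rw [Finsupp.weight_apply, Finsupp.degree_apply, Nat.cast_sum]
  refine Finset.sum_le_sum fun i hi => ?_
  have h1 : 1 ≤ ω i := by
    by_contra hc
    exact Finsupp.mem_support_iff.1 hi (hn i (by omega))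
  exact (le_mul_of_one_le_right (Nat.cast_nonneg _) h1).trans_eq (nsmul_eq_mul _ _).symm

theorem attract_comp_X (q : ι) :
    weightedHomogeneousComponent ω (ω q) (X q : MvPolynomial ι k) = X q :=
  weightedHomogeneousComponent_eq_self (isWeightedHomogeneous_X k ω q)

/-- Let `𝔑 = span {X q | ω q ≤ 0}`.  Write `X q = a + b`, `a ∈ 𝔄`, `b ∈ aug ^ 2`, and take the
component of weight `ω q ≤ 0`: every monomial of degree `≥ 2` and weight `≤ 0` lies in
`aug * 𝔑`.  So `𝔑 ≤ 𝔄 ⊔ aug * 𝔑`; Nakayama in the quotient by `𝔄`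
(`Submodule.exists_sub_one_mem_and_smul_eq_zero_of_fg_of_le_smul` or
`Submodule.exists_sub_one_mem_and_smul_le_of_fg_of_le_sup`). -/
theorem attract_kill (hhom : ∀ f ∈ 𝔄, ∀ a, weightedHomogeneousComponent ω a f ∈ 𝔄)
    (hneg : ∀ q, ω q ≤ 0 → X q ∈ 𝔄 ⊔ aug ι k ^ 2) :
    ∃ G : MvPolynomial ι k, constantCoeff G = 1 ∧ ∀ q, ω q ≤ 0 → G * X q ∈ 𝔄 := by
  classical
  have hle : Ideal.span (X '' {q | ω q ≤ 0}) ≤
      𝔄 ⊔ aug ι k • Ideal.span (X '' {q | ω q ≤ 0} : Set (MvPolynomial ι k)) := by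
    rw [Ideal.span_le]
    rintro _ ⟨q, hq, rfl⟩
    obtain ⟨a, ha, b, hb, e⟩ := Submodule.mem_sup.1 (hneg q hq)
    rw [SetLike.mem_coe, ← attract_comp_X (ω := ω) q, ← e, map_add]
    refine Submodule.add_mem_sup (hhom a ha _) ?_
    rw [weightedHomogeneousComponent_apply]
    refine Submodule.sum_mem _ fun d hd => ?_
    obtain ⟨h1, h2⟩ := Finset.mem_filter.1 hd
    have h3 := mem_aug_pow.1 hb d h1
    have hq' : ω q ≤ 0 := hq
    obtain ⟨i, hi, hdi⟩ := attract_exists (ω := ω) (d := d) (by omega)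
    have e1 : d - Finsupp.single i 1 + Finsupp.single i 1 = d :=
      tsub_add_cancel_of_le (Finsupp.single_le_iff.2 (by omega))
    have e2 : d - Finsupp.single i 1 ≠ 0 := fun h0 => by
      rw [← e1, h0, zero_add, Finsupp.degree_single] at h3
      omega
    have e3 : monomial d (coeff d b) = monomial (d - Finsupp.single i 1) (coeff d b) • X i := by
      rw [smul_eq_mul, X, monomial_mul, e1, mul_one]
    rw [e3]
    refine Submodule.smul_mem_smul ?_ (Ideal.subset_span ⟨i, hi, rfl⟩)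
    rw [RingHom.mem_ker, constantCoeff_monomial, if_neg e2]
  obtain ⟨G, h1, h2⟩ := Submodule.exists_sub_one_mem_and_smul_le_of_fg_of_le_sup
    (Submodule.fg_span ((Set.toFinite _).image _)) le_rfl hle
  refine ⟨G, ?_, fun q hq => h2 (Submodule.smul_mem_pointwise_smul _ _ _
    (Ideal.subset_span ⟨q, hq, rfl⟩))⟩
  rwa [RingHom.mem_ker, map_sub, map_one, sub_eq_zero] at h1

/-- For `0 < ω q` take `M > ω q`, write `X q - aeval (X ∘ p) A ∈ 𝔄 ⊔ aug ^ M` and pass to the
component of weight `ω q`: monomials of degree `≥ M` and weight `ω q` contain a variable of weight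
`≤ 0`; the component of `aeval (X ∘ p) A = rename p A` is again in the range of `rename p`
(it is `rename p` of a component for the weight `ω ∘ p`). -/
theorem attract_surj (hhom : ∀ f ∈ 𝔄, ∀ a, weightedHomogeneousComponent ω a f ∈ 𝔄) {N : ℕ}
    (p : Fin N → ι)
    (h : ∀ q M, ∃ A : Lam k N, X q - rename p A ∈ 𝔄 ⊔ aug ι k ^ M) (f : MvPolynomial ι k) :
    ∃ A : Lam k N, f - rename p A ∈ 𝔄 ⊔ Ideal.span (X '' {q | ω q ≤ 0}) := by
  induction f using MvPolynomial.induction_on with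
  | C a => exact ⟨C a, by rw [rename_C, sub_self]; exact Submodule.zero_mem _⟩
  | add f g hf hg =>
    obtain ⟨A, hA⟩ := hf
    obtain ⟨A', hA'⟩ := hg
    exact ⟨A + A', by rw [map_add, add_sub_add_comm]; exact Submodule.add_mem _ hA hA'⟩
  | mul_X f q hf =>
    obtain ⟨A, hA⟩ := hf
    obtain ⟨A', hA'⟩ := h q ((ω q).toNat + 1)
    obtain ⟨a, ha, b, hb, e⟩ := Submodule.mem_sup.1 hA'
    have e1 := congrArg (weightedHomogeneousComponent ω (ω q)) e
    rw [map_add, map_sub, attract_comp_X, rename_component] at e1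
    have h1 : X q - rename p (weightedHomogeneousComponent (ω ∘ p) (ω q) A') ∈
        𝔄 ⊔ Ideal.span (X '' {q | ω q ≤ 0}) := by
      rw [← e1]
      refine Submodule.add_mem_sup (hhom a ha _) (mem_ideal_span_X_image.2 fun d hd => ?_)
      rw [support_weightedHomogeneousComponent] at hd
      obtain ⟨h1, h2⟩ := Finset.mem_filter.1 hd
      have h3 := mem_aug_pow.1 hb d h1
      exact attract_exists (by omega)
    refine ⟨A * weightedHomogeneousComponent (ω ∘ p) (ω q) A', ?_⟩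
    have e2 : ∀ u v : MvPolynomial ι k, f * X q - u * v = X q * (f - u) + u * (X q - v) :=
      fun u v => by ring
    rw [map_mul, e2]
    exact Submodule.add_mem _ (Ideal.mul_mem_left _ _ hA) (Ideal.mul_mem_left _ _ h1)

theorem attract_ker {G : MvPolynomial ι k} (hG : ∀ q, ω q ≤ 0 → G * X q ∈ 𝔄) {B : Type u}
    [CommRing B] [Algebra k B] (ψ : MvPolynomial ι k →ₐ[k] B) (h1 : ∀ f ∈ 𝔄, ψ f = 0)
    (h2 : ψ G ∈ nonZeroDivisors B) {f : MvPolynomial ι k}
    (hf : f ∈ 𝔄 ⊔ Ideal.span (X '' {q | ω q ≤ 0})) : ψ f = 0 := by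
  have : 𝔄 ⊔ Ideal.span (X '' {q | ω q ≤ 0}) ≤ RingHom.ker ψ := by
    refine sup_le h1 (Ideal.span_le.2 ?_)
    rintro _ ⟨q, hq, rfl⟩
    have h3 := h1 _ (hG q hq)
    rw [map_mul] at h3
    exact (mem_nonZeroDivisors_iff.1 h2).1 _ h3
  exact this hf

/-- Apply `exists_cotangent` and `surj_mod_pow` to `D = 𝒫 ⧸ 𝔄`.  The map
`Lam → 𝒫 ⧸ (𝔄 ⊔ 𝔑)`, `X i ↦ X (p i)`, is onto by `attract_surj`; it is injective: lift the map to
`2`-jets to `M`-jets by `hlift` (`jet_setup`); the lift sends `G` to a unit, so it kills `𝔑`;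
`jet_inj` and `eq_zero_of_mem_aug_pow`.  `Φ` is the quotient map followed by the inverse. -/
theorem attract (hhom : ∀ f ∈ 𝔄, ∀ a, weightedHomogeneousComponent ω a f ∈ 𝔄)
    (h𝔪 : 𝔄 ≤ aug ι k) (hneg : ∀ q, ω q ≤ 0 → X q ∈ 𝔄 ⊔ aug ι k ^ 2)
    (hlift : ∀ (B B₁ : Type u) [CommRing B] [Algebra k B] [CommRing B₁] [Algebra k B₁]
      (ρ : B →ₐ[k] B₁) (ε : B₁ →ₐ[k] k), Function.Surjective ρ →
      IsNilpotent (RingHom.ker (ρ : B →+* B₁)) →
      RingHom.ker (ε : B₁ →+* k) * RingHom.ker (ε : B₁ →+* k) = ⊥ →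
      ∀ φ₁ : MvPolynomial ι k →ₐ[k] B₁, (∀ f ∈ 𝔄, φ₁ f = 0) → (∀ q, ε (φ₁ (X q)) = 0) →
        ∃ φ : MvPolynomial ι k →ₐ[k] B, (∀ f ∈ 𝔄, φ f = 0) ∧ ρ.comp φ = φ₁) :
    ∃ (N : ℕ) (p : Fin N → ι) (Φ : MvPolynomial ι k →ₐ[k] Lam k N) (G : MvPolynomial ι k),
      (∀ f ∈ 𝔄, Φ f = 0) ∧ (∀ i, Φ (X (p i)) = X i) ∧ (∀ q, constantCoeff (Φ (X q)) = 0) ∧
      constantCoeff G = 1 ∧
      ∀ (B : Type u) [CommRing B] [Algebra k B] (ψ : MvPolynomial ι k →ₐ[k] B),
        (∀ f ∈ 𝔄, ψ f = 0) → ψ G ∈ nonZeroDivisors B →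
        ψ = (aeval fun i => ψ (X (p i)) : Lam k N →ₐ[k] B).comp Φ := by
  obtain ⟨G, hG1, hG⟩ := attract_kill hhom hneg
  have h0 : ∀ f : MvPolynomial ι k, aeval (fun _ => (0 : k)) f = constantCoeff f :=
    fun f => aeval_zero' f
  let ε : (MvPolynomial ι k ⧸ 𝔄) →ₐ[k] k :=
    Ideal.Quotient.liftₐ 𝔄 (aeval fun _ => (0 : k)) fun f hf => (h0 f).trans (h𝔪 hf)
  have hε : ∀ f, ε (Ideal.Quotient.mk 𝔄 f) = constantCoeff f := h0
  have hx : ∀ q, ε (Ideal.Quotient.mk 𝔄 (X q)) = 0 := fun q => (hε _).trans (constantCoeff_X k q)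
  have hgen : Algebra.adjoin k (Set.range fun q => Ideal.Quotient.mk 𝔄 (X q)) = ⊤ := by
    have e : aeval (fun q => Ideal.Quotient.mk 𝔄 (X q)) = Ideal.Quotient.mkₐ k 𝔄 :=
      MvPolynomial.algHom_ext fun q => aeval_X _ q
    rw [Algebra.adjoin_range_eq_range_aeval, AlgHom.range_eq_top, e]
    exact Ideal.Quotient.mkₐ_surjective k 𝔄
  obtain ⟨N, p, φ₂, a1, a2, a3⟩ := exists_cotangent ε _ hx hgen
  have hker : RingHom.ker (ε : (MvPolynomial ι k ⧸ 𝔄) →+* k) ≤
      (aug ι k).map (Ideal.Quotient.mk 𝔄) := fun a ha => by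
    obtain ⟨f, rfl⟩ := Ideal.Quotient.mk_surjective a
    exact Ideal.mem_map_of_mem _ ((hε f).symm.trans ha)
  have hs := attract_surj hhom p fun q M => by
    obtain ⟨A, hA⟩ := surj_mod_pow ε _ hx hgen _ (fun i => hx (p i)) a3 M
      (Ideal.Quotient.mk 𝔄 (X q))
    have e : aeval (fun i => Ideal.Quotient.mk 𝔄 (X (p i))) =
        (Ideal.Quotient.mkₐ k 𝔄).comp (rename p) :=
      MvPolynomial.algHom_ext fun i => by rw [aeval_X, AlgHom.comp_apply, rename_X]; rfl
    have h1 := Ideal.pow_right_mono hker M hA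
    rw [← Ideal.map_pow, e] at h1
    refine ⟨A, ?_⟩
    rw [sup_comm]
    exact Ideal.mem_quotient_iff_mem_sup.1 h1
  set 𝔅 := 𝔄 ⊔ Ideal.span (X '' {q | ω q ≤ 0} : Set (MvPolynomial ι k)) with h𝔅
  have hinj : ∀ A : Lam k N, rename p A ∈ 𝔅 → A = 0 := fun A hA => by
    refine eq_zero_of_mem_aug_pow fun M => Ideal.pow_le_pow_right (Nat.le_add_right M 2) ?_
    obtain ⟨ρ, η, b1, b2, b3, b4, b5, b6⟩ := jet_setup (k := k) (N := N) (Nat.le_add_left 2 M)
    have c1 : ∀ q, η (φ₂ (Ideal.Quotient.mk 𝔄 (X q))) = 0 := fun q => by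
      obtain ⟨g, hg, e⟩ := a2 _ (hx q)
      rw [e, b2]
      exact hg
    obtain ⟨φ, c2, c3⟩ := hlift _ _ ρ η b3 b4 b5 (φ₂.comp (Ideal.Quotient.mkₐ k 𝔄))
      (fun f hf => by
        rw [AlgHom.comp_apply, Ideal.Quotient.mkₐ_eq_mk, Ideal.Quotient.eq_zero_iff_mem.2 hf,
          map_zero]) c1
    have c4 : ∀ f, ρ (φ f) = φ₂ (Ideal.Quotient.mk 𝔄 f) := DFunLike.congr_fun c3
    have c5 : (η.comp ρ).comp φ = aeval fun _ => (0 : k) := MvPolynomial.algHom_ext fun q => by
      rw [aeval_X, AlgHom.comp_apply, AlgHom.comp_apply, c4, c1]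
    have c6 : φ G - 1 ∈ RingHom.ker (η.comp ρ : Jt k N (M + 2) →+* k) := by
      have := (DFunLike.congr_fun c5 G).trans ((h0 G).trans hG1)
      rw [RingHom.mem_ker, map_sub, map_one, sub_eq_zero]
      exact this
    have c7 : IsUnit (φ G) := by
      have := Ideal.pow_mem_pow c6 (M + 2)
      rw [b6, Ideal.mem_bot] at this
      have h := IsNilpotent.isUnit_add_one ⟨_, this⟩
      rwa [sub_add_cancel] at h
    refine jet_inj (φ.comp (rename p)) (fun i => ?_)
      (attract_ker hG φ c2 c7.mem_nonZeroDivisors hA)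
    obtain ⟨f, hf⟩ := Ideal.Quotient.mk_surjective (φ (X (p i)))
    have c8 := c4 (X (p i))
    rw [← hf, b1, a1] at c8
    exact ⟨f - X i, Ideal.Quotient.eq.1 c8, by
      rw [AlgHom.comp_apply, rename_X, add_sub_cancel, hf]⟩
  have hbij : Function.Bijective ((Ideal.Quotient.mkₐ k 𝔅).comp (rename p)) := by
    refine ⟨(injective_iff_map_eq_zero _).2 fun A hA =>
      hinj A (Ideal.Quotient.eq_zero_iff_mem.1 hA), fun a => ?_⟩
    obtain ⟨f, rfl⟩ := Ideal.Quotient.mk_surjective a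
    obtain ⟨A, hA⟩ := hs f
    exact ⟨A, (Ideal.Quotient.eq.2 hA).symm⟩
  let Φ : MvPolynomial ι k →ₐ[k] Lam k N :=
    (AlgEquiv.ofBijective _ hbij).symm.toAlgHom.comp (Ideal.Quotient.mkₐ k 𝔅)
  have hΦ : ∀ f, f - rename p (Φ f) ∈ 𝔅 := fun f =>
    Ideal.Quotient.eq.1 ((AlgEquiv.ofBijective _ hbij).apply_symm_apply _).symm
  refine ⟨N, p, Φ, G, fun f hf => hinj _ ?_, fun i => sub_eq_zero.1 (hinj _ ?_), fun q => ?_, hG1,
    fun B _ _ ψ d1 d2 => AlgHom.ext fun f => ?_⟩
  · have := 𝔅.sub_mem (Submodule.mem_sup_left hf) (hΦ f)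
    rwa [sub_sub_cancel] at this
  · rw [map_sub, rename_X, ← neg_sub]
    exact 𝔅.neg_mem (hΦ _)
  · have hle : 𝔅 ≤ aug ι k := by
      refine sup_le h𝔪 (Ideal.span_le.2 ?_)
      rintro _ ⟨q, -, rfl⟩
      exact constantCoeff_X k q
    have := hle (hΦ (X q))
    rwa [RingHom.mem_ker, map_sub, constantCoeff_X, constantCoeff_rename, zero_sub,
      neg_eq_zero] at this
  · have e : (aeval fun i => ψ (X (p i)) : Lam k N →ₐ[k] B) = ψ.comp (rename p) :=
      MvPolynomial.algHom_ext fun i => by rw [aeval_X, AlgHom.comp_apply, rename_X]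
    have := attract_ker hG ψ d1 d2 (hΦ f)
    rw [map_sub, sub_eq_zero] at this
    rw [e]
    exact this

end Pool.Agent.MP_24718c_ag

end

end partAttract

section partUnivRing

/-!
The ring representing the functor of ideals marked in all degrees.
-/

set_option linter.unusedSectionVars false
set_option linter.unusedVariables false

open MvPolynomial

universe u

noncomputable section

namespace Pool.Agent.MP_24718c_ag

/-- pairs (monomial of the ideal, monomial of its normal form) -/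
abbrev Pr (σ : Type) : Type := (σ →₀ ℕ) × (σ →₀ ℕ)

def Valid {σ : Type} (E : Set (σ →₀ ℕ)) (p : Pr σ) : Prop :=
  p.1 ∈ E ∧ p.2 ∉ E ∧ p.2.degree = p.1.degree

/-- the weight of a pair for the linear form `a` -/
def wt {σ : Type} [Fintype σ] (a : σ → ℤ) (p : Pr σ) : ℤ := ∑ l, a l * ((p.2 l : ℤ) - (p.1 l : ℤ))

section
variable {σ : Type} [Fintype σ] [DecidableEq σ] {E : Set (σ →₀ ℕ)}

theorem Marked.coef_eq_zero {B : Type u} [CommRing B] {J : Ideal (MvPolynomial σ B)}
    (hJ : Marked E 0 J) {p : Pr σ} (hp : ¬ Valid E p) : coef E J p = 0 := by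
  unfold coef
  split_ifs with h
  · by_contra k
    exact hp ⟨h, fun e => k (mem_Nsp.1 (hJ.nf_mem (Nat.zero_le _)) _ e),
      isHomogeneous_iff_degree.1 (hJ.nf_hom (Nat.zero_le _)) _ k⟩
  · rfl

theorem univring_fin (E : Set (σ →₀ ℕ)) (d : ℕ) : {γ : σ →₀ ℕ | γ ∉ E ∧ γ.degree = d}.Finite :=
  (Finsupp.finite_of_degree_eq d).subset fun _ h => h.2

open Classical in
/-- the universal normal forms -/
def univringNu (k : Type u) [Field k] (E : Set (σ →₀ ℕ)) (α : σ →₀ ℕ) :
    MvPolynomial σ (MvPolynomial (Pr σ) k) :=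
  if α ∈ E then ∑ γ ∈ (univring_fin E α.degree).toFinset, monomial γ (X (α, γ)) else monomial α 1

open Classical in
theorem univring_coeff (k : Type u) [Field k] {α : σ →₀ ℕ} (hα : α ∈ E) (γ : σ →₀ ℕ) :
    coeff γ (univringNu k E α) = if Valid E (α, γ) then X (α, γ) else 0 := by
  rw [univringNu, if_pos hα]
  simp only [coeff_sum, coeff_monomial, Finset.sum_ite_eq', Set.Finite.mem_toFinset,
    Set.mem_ofPred_eq, Valid, hα, true_and]

theorem univring_off (k : Type u) [Field k] {α : σ →₀ ℕ} (hα : α ∉ E) :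
    univringNu k E α = monomial α 1 := if_neg hα

theorem univring_wt (a : σ → ℤ) (α β γ : σ →₀ ℕ) : wt a (α, β) + wt a (β, γ) = wt a (α, γ) := by
  simp only [wt, ← Finset.sum_add_distrib]
  exact Finset.sum_congr rfl fun l _ => by ring

theorem univring_wt_add (a : σ → ℤ) (α β γ : σ →₀ ℕ) : wt a (α + γ, β + γ) = wt a (α, β) := by
  simp only [wt, Finsupp.add_apply]
  exact Finset.sum_congr rfl fun l _ => by push_cast; ring

theorem univring_hom (k : Type u) [Field k] (a : σ → ℤ) (α γ : σ →₀ ℕ) :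
    (coeff γ (univringNu k E α)).IsWeightedHomogeneous (wt a) (wt a (α, γ)) := by
  by_cases h : α ∈ E
  · rw [univring_coeff k h]
    split_ifs
    · exact isWeightedHomogeneous_X k _ _
    · exact isWeightedHomogeneous_zero k _ _
  · rw [univring_off k h, coeff_monomial]
    split_ifs with e
    · rw [e, show wt a (γ, γ) = 0 by simp [wt]]
      exact isWeightedHomogeneous_one k _
    · exact isWeightedHomogeneous_zero k _ _

theorem univring_rel_hom (k : Type u) [Field k] (a : σ → ℤ) (α δ : σ →₀ ℕ) (i : σ) :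
    (coeff δ (hat (univringNu k E) (X i * univringNu k E α) -
      univringNu k E (α + Finsupp.single i 1))).IsWeightedHomogeneous (wt a)
        (wt a (α + Finsupp.single i 1, δ)) := by
  rw [coeff_sub]
  refine IsWeightedHomogeneous.sub ?_ (univring_hom k a _ _)
  conv => enter [2, 2, 2, 2]; rw [(univringNu k E α).as_sum]
  rw [Finset.mul_sum, map_sum, coeff_sum]
  refine IsWeightedHomogeneous.sum _ _ _ fun β _ => ?_
  rw [build_X_mul, hat_monomial, coeff_smul, smul_eq_mul,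
    ← univring_wt a _ (β + Finsupp.single i 1), univring_wt_add]
  exact (univring_hom k a _ _).mul (univring_hom k a _ _)

theorem univring_map_rel {k : Type u} [Field k] {B : Type u} [CommRing B]
    (φ : MvPolynomial (Pr σ) k →+* B) (α : σ →₀ ℕ) (i : σ) :
    MvPolynomial.map φ (hat (univringNu k E) (X i * univringNu k E α) -
      univringNu k E (α + Finsupp.single i 1)) =
    hat (fun β => MvPolynomial.map φ (univringNu k E β))
      (X i * MvPolynomial.map φ (univringNu k E α)) -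
        MvPolynomial.map φ (univringNu k E (α + Finsupp.single i 1)) := by
  rw [map_sub, ← basicb_hat_map, map_mul, map_X]

/-- Over `𝒫 = MvPolynomial (Pr σ) k` let `ν α = ∑ {C (X (α, γ)) * x^γ : γ ∉ E, |γ| = |α|}` for
`α ∈ E` and `x^α` otherwise.  `𝔄` is spanned by the `X p`, `p` not valid, and all coefficients of
`hat ν (X i * ν α) - ν (α + e_i)`, `α ∈ E`.  For `φ : 𝒫 → B` killing the invalid variables put
`ν_φ α = map φ (ν α)`; `map φ (hat ν f) = hat ν_φ (map φ f)`.  (1) For `φ = aeval (coef E J)`,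
`ν_φ = nf E J`, use `Marked.rel`.  (2) `build`.  (3) The coefficient at `δ` of the relation for
`(α, i)` is homogeneous of weight `∑ a l * (δ l - (α + e_i) l)`; an ideal spanned by weighted
homogeneous elements contains the components of its elements (`Ideal.homogeneous_span` with
`weightedGradedAlgebra`, or induction on the span). -/
theorem exists_univ_ideal (k : Type u) [Field k] (hE : IsUpperSet E) :
    ∃ 𝔄 : Ideal (MvPolynomial (Pr σ) k),
      (∀ (B : Type u) [CommRing B] [Algebra k B] (J : Ideal (MvPolynomial σ B)), Marked E 0 J →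
        ∀ f ∈ 𝔄, aeval (coef E J) f = 0) ∧
      (∀ (B : Type u) [CommRing B] [Algebra k B] (φ : MvPolynomial (Pr σ) k →ₐ[k] B),
        (∀ f ∈ 𝔄, φ f = 0) → ∃ J : Ideal (MvPolynomial σ B), Marked E 0 J ∧
          ∀ p, coef E J p = φ (X p)) ∧
      ∀ (a : σ → ℤ), ∀ f ∈ 𝔄, ∀ t : ℤ, weightedHomogeneousComponent (wt a) t f ∈ 𝔄 := by
  classical
  refine ⟨Ideal.span ({f | ∃ p, ¬ Valid E p ∧ f = X p} ∪ {f | ∃ α ∈ E, ∃ i δ, f = coeff δ
    (hat (univringNu k E) (X i * univringNu k E α) - univringNu k E (α + Finsupp.single i 1))}),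
    fun B _ _ J hJ f hf => ?_, fun B _ _ φ hφ => ?_, fun a f hf t => ?_⟩
  · have e : ∀ α, MvPolynomial.map (aeval (coef E J) : MvPolynomial (Pr σ) k →ₐ[k] B)
        (univringNu k E α) = nf E J α := fun α => by
      by_cases h : α ∈ E
      · ext γ
        rw [coeff_map, univring_coeff k h]
        have := @Marked.coef_eq_zero σ _ _ E B _ J hJ (α, γ)
        split_ifs with v
        · simp [coef, h]
        · simpa [coef, h, eq_comm] using this v
      · rw [univring_off k h, map_monomial, map_one, hJ.nf_off (Nat.zero_le _) h]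
    refine (Ideal.span_le (I := RingHom.ker
      (aeval (coef E J) : MvPolynomial (Pr σ) k →ₐ[k] B))).2 ?_ hf
    rintro _ (⟨p, hp, rfl⟩ | ⟨α, hα, i, δ, rfl⟩)
    · simpa using hJ.coef_eq_zero hp
    · have := congrArg (coeff δ) (univring_map_rel (E := E) (k := k) (B := B)
        (aeval (coef E J) : MvPolynomial (Pr σ) k →ₐ[k] B) α i)
      simp only [e] at this
      rw [hJ.rel (Nat.zero_le _), sub_self, coeff_zero, coeff_map] at this
      exact this
  · obtain ⟨J, hJ, e⟩ := build (E := E) 0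
      (fun α => MvPolynomial.map (φ : MvPolynomial (Pr σ) k →+* B) (univringNu k E α))
      (fun β h => by rw [univring_off k h, map_monomial, map_one]) (fun α h _ => by
        refine ⟨mem_Nsp.2 fun γ hγ => ?_, isHomogeneous_iff_degree.2 fun γ hγ => ?_⟩
        · rw [coeff_map, univring_coeff k h, if_neg fun v => v.2.1 hγ, map_zero]
        · by_contra c
          rw [coeff_map, univring_coeff k h, if_neg fun v => c v.2.2, map_zero] at hγ
          exact hγ rfl) fun α h _ i => by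
        rw [← sub_eq_zero, ← univring_map_rel]
        ext δ
        rw [coeff_map, coeff_zero]
        exact hφ _ (Ideal.subset_span (.inr ⟨α, h, i, δ, rfl⟩))
    refine ⟨J, hJ, fun p => ?_⟩
    by_cases v : Valid E p
    · rw [coef, if_pos v.1, e _ (Nat.zero_le _), coeff_map, univring_coeff k v.1, if_pos v]
      rfl
    · rw [hJ.coef_eq_zero v, hφ _ (Ideal.subset_span (.inl ⟨p, v, rfl⟩))]
  · let _ := weightedGradedAlgebra k (wt (σ := σ) a)
    refine weightedHomogeneousComponent_mem_of_mem k _ (Ideal.homogeneous_span _ _ ?_) hf t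
    rintro _ (⟨p, hp, rfl⟩ | ⟨α, hα, i, δ, rfl⟩)
    · exact ⟨_, isWeightedHomogeneous_X k _ p⟩
    · exact ⟨_, univring_rel_hom k a α δ i⟩

end

end Pool.Agent.MP_24718c_ag

end

end partUnivRing

section partUnivGen

/-!
Finite generation of the coefficients; a weight that is positive on the tangent space.
-/

set_option linter.unusedSectionVars false
set_option linter.unusedVariables false

open MvPolynomial

universe u

noncomputable section

namespace Pool.Agent.MP_24718c_ag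

variable {n : ℕ} {E : Set (Fin n →₀ ℕ)}

/-- minimal elements -/
def univgen_Min (E : Set (Fin n →₀ ℕ)) (α : Fin n →₀ ℕ) : Prop :=
  α ∈ E ∧ ∀ δ j, α = δ + Finsupp.single j 1 → δ ∉ E

theorem univgen_split {α : Fin n →₀ ℕ} {j : Fin n} (h : α j ≠ 0) :
    ∃ δ, α = δ + Finsupp.single j 1 :=
  ⟨α - Finsupp.single j 1, (tsub_add_cancel_of_le
    (Finsupp.single_le_iff.2 (Nat.one_le_iff_ne_zero.2 h))).symm⟩

theorem univgen_fin (hE : IsUpperSet E) : {α | univgen_Min E α}.Finite := by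
  refine WellQuasiOrderedLE.finite_of_isAntichain ?_
  intro a ha b hb hne hab
  obtain ⟨j, hj⟩ : ∃ j, a j < b j := by
    by_contra hn
    exact hne (le_antisymm hab fun j => not_lt.1 fun k => hn ⟨j, k⟩)
  obtain ⟨δ, rfl⟩ := univgen_split (α := b) (j := j) (by omega)
  refine hb.2 δ j rfl (hE (fun l => ?_) ha.1)
  have := hab l
  by_cases e : l = j
  · subst e
    rw [Finsupp.add_apply, Finsupp.single_eq_same] at hj
    omega
  · rwa [Finsupp.add_apply, Finsupp.single_eq_of_ne e, add_zero] at this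

theorem univgen_lt (hss : SSN E) {β δ : Fin n →₀ ℕ} {i j : Fin n} (hβ : β ∉ E) (hδ : δ ∈ E)
    (e : β + Finsupp.single i 1 = δ + Finsupp.single j 1) : i < j := by
  rcases lt_trichotomy i j with h | rfl | h
  · exact h
  · exact (hβ (add_right_cancel e ▸ hδ)).elim
  · have h1 := DFunLike.congr_fun e i
    rw [Finsupp.add_apply, Finsupp.add_apply, Finsupp.single_eq_same,
      Finsupp.single_eq_of_ne h.ne'] at h1
    obtain ⟨ε, rfl⟩ := univgen_split (α := δ) (j := i) (by omega)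
    rw [add_right_comm] at e
    exact (hβ (add_right_cancel e ▸ hss ε j i h hδ)).elim

theorem univgen_hat {B : Type u} [CommRing B] (ν : (Fin n →₀ ℕ) → MvPolynomial (Fin n) B)
    (i : Fin n) (f : MvPolynomial (Fin n) B) :
    hat ν (X i * f) = ∑ β ∈ f.support, coeff β f • ν (β + Finsupp.single i 1) := by
  conv_lhs => rw [f.as_sum]
  rw [Finset.mul_sum, map_sum]
  exact Finset.sum_congr rfl fun β _ => by rw [build_X_mul, hat_monomial]

/-- `T` = valid pairs whose first entry is a minimal element of `E` (finitely many by Dickson's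
lemma, `Finsupp.isPWO`, and `Finsupp.finite_of_degree_le`).  Show that all coefficients of
`nf E J α` are in the subalgebra by induction on `|α|` and, for fixed degree, downward induction on
the largest index `i` in the support.  If `α ∈ E` is not minimal then `α' = α - e_i ∈ E` by strong
stability, and `nf α = ∑ coeff β (nf α') • nf (β + e_i)` (`Marked.rel`); for `β ∉ E` the exponent
`β + e_i` is outside `E`, or minimal in `E`, or has largest index `> i`. -/
theorem exists_gen_pairs (hE : IsUpperSet E) (hss : SSN E) :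
    ∃ T : Finset (Pr (Fin n)), (∀ q ∈ T, Valid E q) ∧
      ∀ (k B : Type u) [Field k] [CommRing B] [Algebra k B] (J : Ideal (MvPolynomial (Fin n) B)),
        Marked E 0 J → ∀ p, coef E J p ∈ Algebra.adjoin k (coef E J '' T) := by
  classical
  have hfin : {q : Pr (Fin n) | univgen_Min E q.1 ∧ Valid E q}.Finite :=
    ((univgen_fin hE).biUnion fun α _ =>
      (Finsupp.finite_of_degree_le α.degree).image (Prod.mk α)).subset fun q hq =>
        Set.mem_biUnion hq.1 ⟨q.2, hq.2.2.2.le, rfl⟩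
  refine ⟨hfin.toFinset, fun q hq => (hfin.mem_toFinset.1 hq).2, fun k B _ _ _ J hJ p => ?_⟩
  let A := Algebra.adjoin k (coef E J '' (hfin.toFinset : Set (Pr (Fin n))))
  have off : ∀ α, α ∉ E → ∀ γ, coeff γ (nf E J α) ∈ A := fun α h γ => by
    rw [hJ.nf_off (Nat.zero_le _) h, coeff_monomial]
    split_ifs
    exacts [A.one_mem, A.zero_mem]
  have mn : ∀ α, univgen_Min E α → ∀ γ, coeff γ (nf E J α) ∈ A := fun α h γ => by
    have e : coef E J (α, γ) = coeff γ (nf E J α) := if_pos h.1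
    rw [← e]
    by_cases v : Valid E (α, γ)
    · exact Algebra.subset_adjoin ⟨_, hfin.mem_toFinset.2 ⟨h, v⟩, rfl⟩
    · rw [hJ.coef_eq_zero v]
      exact A.zero_mem
  have key : ∀ d, ∀ α : Fin n →₀ ℕ, α.degree = d → ∀ γ, coeff γ (nf E J α) ∈ A := by
    intro d
    induction d with
    | zero =>
      intro α hα
      by_cases h : α ∈ E
      · refine mn α ⟨h, fun δ j e => ?_⟩
        rw [e, map_add, Finsupp.degree_single] at hα
        omega
      · exact off α h
    | succ d ih =>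
      have inner : ∀ i : Fin n, ∀ α ∈ E, α.degree = d →
          ∀ γ, coeff γ (nf E J (α + Finsupp.single i 1)) ∈ A := by
        intro i
        induction i using WellFoundedGT.induction with
        | ind i ih2 =>
          intro α hα hd γ
          rw [← hJ.rel (Nat.zero_le _) i, univgen_hat, coeff_sum]
          refine A.sum_mem fun β hβ => ?_
          rw [coeff_smul, smul_eq_mul]
          refine A.mul_mem (ih α hd β) ?_
          have b1 : β ∉ E := fun h =>
            mem_support_iff.1 hβ (mem_Nsp.1 (hJ.nf_mem (Nat.zero_le _)) β h)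
          have b2 : β.degree = d := hd ▸ basicb_deg (hJ.nf_hom (Nat.zero_le _)) hβ
          by_cases h : β + Finsupp.single i 1 ∈ E
          · by_cases m : univgen_Min E (β + Finsupp.single i 1)
            · exact mn _ m γ
            · obtain ⟨δ, j, e, c⟩ : ∃ δ j, β + Finsupp.single i 1 = δ + Finsupp.single j 1 ∧
                  δ ∈ E := by
                by_contra hn
                exact m ⟨h, fun δ j e c => hn ⟨δ, j, e, c⟩⟩
              have e2 := congrArg Finsupp.degree e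
              rw [map_add, map_add, Finsupp.degree_single, Finsupp.degree_single] at e2
              rw [e]
              exact ih2 j (univgen_lt hss b1 c e) δ c (by omega) γ
          · exact off _ h γ
      intro α hα
      by_cases h : α ∈ E
      · by_cases m : univgen_Min E α
        · exact mn α m
        · obtain ⟨δ, j, e, c⟩ : ∃ δ j, α = δ + Finsupp.single j 1 ∧ δ ∈ E := by
            by_contra hn
            exact m ⟨h, fun δ j e c => hn ⟨δ, j, e, c⟩⟩
          rw [e, map_add, Finsupp.degree_single] at hα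
          rw [e]
          exact inner j δ c (by omega)
      · exact off α h
  unfold coef
  split_ifs
  exacts [key _ _ rfl _, A.zero_mem]

theorem univgen_move (hss : SSN E) {γ : Fin n →₀ ℕ} (l : Fin n) (m : ℕ) (α : Fin n →₀ ℕ)
    (hα : α ∈ E) (hd : γ.degree = α.degree) (h1 : ∀ j, j ≠ l → α j ≤ γ j)
    (h2 : ∀ j, l < j → α j = γ j) (h3 : α l = γ l + m) : γ ∈ E := by
  induction m generalizing α with
  | zero =>
    have h4 : ∀ j, α j ≤ γ j := fun j => by
      by_cases e : j = l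
      · rw [e]
        omega
      · exact h1 j e
    rw [Finsupp.degree_eq_sum, Finsupp.degree_eq_sum] at hd
    have := (Finset.sum_eq_sum_iff_of_le fun j _ => h4 j).1 hd.symm
    exact (Finsupp.ext fun j => this j (Finset.mem_univ _) : α = γ) ▸ hα
  | succ m ih =>
    obtain ⟨j, hj⟩ : ∃ j, α j < γ j := by
      by_contra hn
      rw [Finsupp.degree_eq_sum, Finsupp.degree_eq_sum] at hd
      exact (Finset.sum_lt_sum (fun j _ => not_lt.1 fun k => hn ⟨j, k⟩)
        ⟨l, Finset.mem_univ _, by omega⟩).ne hd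
    have hjl : j < l := by
      rcases lt_trichotomy j l with k | rfl | k
      · exact k
      · omega
      · exact (hj.ne (h2 j k)).elim
    obtain ⟨δ, rfl⟩ := univgen_split (α := α) (j := l) (by omega)
    refine ih (δ + Finsupp.single j 1) (hss δ j l hjl hα) ?_ (fun i hi => ?_) (fun i hi => ?_) ?_
    · rw [hd, map_add, map_add, Finsupp.degree_single, Finsupp.degree_single]
    · have := h1 i hi
      rw [Finsupp.add_apply, Finsupp.single_eq_of_ne hi, add_zero] at this
      by_cases e : i = j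
      · subst e
        rw [Finsupp.add_apply, Finsupp.single_eq_of_ne hi] at hj
        rw [Finsupp.add_apply, Finsupp.single_eq_same]
        omega
      · rwa [Finsupp.add_apply, Finsupp.single_eq_of_ne e, add_zero]
    · have := h2 i hi
      rw [Finsupp.add_apply, Finsupp.single_eq_of_ne hi.ne'] at this
      rwa [Finsupp.add_apply, Finsupp.single_eq_of_ne (hjl.trans hi).ne']
    · rw [Finsupp.add_apply, Finsupp.single_eq_same] at h3
      rw [Finsupp.add_apply, Finsupp.single_eq_of_ne hjl.ne']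
      omega

/-- If the last coordinate where `α` and `γ` differ had `γ l < α l`, it would be the only such
coordinate and `γ` would arise from `α` by moving copies of `x_l` to smaller indices. -/
theorem last_pos (hss : SSN E) {q : Pr (Fin n)} (hq : Valid E q)
    (h : ∀ i j, i ≠ j → q.2 i < q.1 i → q.2 j < q.1 j → False) :
    ∃ l, q.1 l < q.2 l ∧ ∀ j, l < j → q.1 j = q.2 j := by
  classical
  obtain ⟨h1, h2, h3⟩ := hq
  have hne : (Finset.univ.filter fun j => q.1 j ≠ q.2 j).Nonempty := by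
    by_contra hn
    refine h2 ((Finsupp.ext fun j => ?_ : q.1 = q.2) ▸ h1)
    by_contra k
    exact hn ⟨j, Finset.mem_filter.2 ⟨Finset.mem_univ _, k⟩⟩
  have a1 := (Finset.mem_filter.1 (Finset.max'_mem _ hne)).2
  have a2 : ∀ j, Finset.max' _ hne < j → q.1 j = q.2 j := fun j hj => by
    by_contra k
    exact hj.not_ge (Finset.le_max' _ j (Finset.mem_filter.2 ⟨Finset.mem_univ _, k⟩))
  refine ⟨_, lt_of_le_of_ne (not_lt.1 fun k => h2 ?_) a1, a2⟩
  exact univgen_move hss _ _ q.1 h1 h3 (fun j hj => not_lt.1 fun c => h j _ hj c k) a2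
    (Nat.add_sub_cancel' k.le).symm

/-- `a l = M ^ l` with `M` larger than all degrees occurring in `T` -/
theorem exists_weight (T : Finset (Pr (Fin n))) : ∃ a : Fin n → ℤ, ∀ q ∈ T,
    (∃ l, q.1 l < q.2 l ∧ ∀ j, l < j → q.1 j = q.2 j) → 0 < wt a q := by
  obtain ⟨M, hM⟩ : ∃ M : ℕ, M = (T.sup fun q => q.1.degree) + 1 := ⟨_, rfl⟩
  refine ⟨fun l => (M : ℤ) ^ l.1, ?_⟩
  rintro q hq ⟨l, h1, h2⟩
  have h3 : q.1.degree < M := hM ▸ Nat.lt_succ_of_le (Finset.le_sup (f := fun q => q.1.degree) hq)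
  have h4 : (1 : ℤ) ≤ M := by omega
  have h5 : (0 : ℤ) < (M : ℤ) ^ l.1 := by positivity
  refine pos_of_mul_pos_right (a := (M : ℤ)) (lt_of_lt_of_le (b := ∑ j : Fin n,
    ((if j = l then (M : ℤ) ^ l.1 * M else 0) - (M : ℤ) ^ l.1 * q.1 j)) ?_ ?_) (by omega)
  · rw [Finset.sum_sub_distrib, Finset.sum_ite_eq', if_pos (Finset.mem_univ _), ← Finset.mul_sum,
      ← mul_sub, ← Nat.cast_sum, ← Finsupp.degree_eq_sum]
    exact mul_pos h5 (by omega)
  · rw [wt, Finset.mul_sum]
    refine Finset.sum_le_sum fun j _ => ?_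
    have a1 : (0 : ℤ) ≤ q.1 j := by positivity
    have a2 : (0 : ℤ) ≤ q.2 j := by positivity
    rcases lt_trichotomy j l with k | rfl | k
    · rw [if_neg k.ne]
      have a3 : (M : ℤ) * M ^ j.1 ≤ M ^ l.1 := by
        rw [← pow_succ']
        exact pow_le_pow_right₀ h4 k
      have a4 : (0 : ℤ) ≤ (M : ℤ) * M ^ j.1 := by positivity
      nlinarith [mul_nonneg a4 a2, mul_le_mul_of_nonneg_right a3 a1]
    · rw [if_pos rfl]
      have a3 : (1 : ℤ) ≤ (q.2 j : ℤ) - q.1 j := by omega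
      have a4 : (0 : ℤ) ≤ (M : ℤ) * M ^ j.1 := by positivity
      nlinarith [mul_le_mul_of_nonneg_left a3 a4, mul_nonneg h5.le a1]
    · rw [if_neg k.ne', h2 j k, sub_self, mul_zero, mul_zero, zero_sub, neg_nonpos]
      positivity

end Pool.Agent.MP_24718c_ag

end

end partUnivGen

section partUniv

/-!
The affine cell and its universal family.
-/

set_option linter.unusedSectionVars false
set_option linter.unusedVariables false

open MvPolynomial

universe u

noncomputable section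

namespace Pool.Agent.MP_24718c_ag

variable {k : Type u} [Field k]

/-- an algebra map killing the variables kills the polynomials without constant term -/
theorem univ_aug {ι : Type} (χ : MvPolynomial ι k →ₐ[k] k) (h : ∀ q, χ (X q) = 0)
    (f : MvPolynomial ι k) : χ f = constantCoeff f := by
  induction f using MvPolynomial.induction_on with
  | C a => rw [constantCoeff_C]; exact χ.commutes a
  | add f g hf hg => rw [map_add, map_add, hf, hg]
  | mul_X f q _ => rw [map_mul, map_mul, h, constantCoeff_X, mul_zero, mul_zero]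

/-- a section of the inclusion of the generating variables -/
theorem univ_sec {κ : Type} (𝔄 : Ideal (MvPolynomial κ k)) (T : Finset κ)
    (h : ∀ p, Ideal.Quotient.mkₐ k 𝔄 (X p) ∈
      Algebra.adjoin k ((fun p => Ideal.Quotient.mkₐ k 𝔄 (X p)) '' T)) :
    ∃ s : MvPolynomial κ k →ₐ[k] MvPolynomial T k,
      ∀ f, rename Subtype.val (s f) - f ∈ 𝔄 := by
  have h1 : ∀ p, ∃ g : MvPolynomial T k,
      Ideal.Quotient.mkₐ k 𝔄 (rename Subtype.val g) = Ideal.Quotient.mkₐ k 𝔄 (X p) := by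
    intro p
    have h2 : Algebra.adjoin k ((fun p => Ideal.Quotient.mkₐ k 𝔄 (X p)) '' T) ≤
        ((Ideal.Quotient.mkₐ k 𝔄).comp (rename (Subtype.val : T → κ))).range := by
      refine Algebra.adjoin_le ?_
      rintro _ ⟨t, ht, rfl⟩
      exact ⟨X ⟨t, ht⟩, by simp⟩
    exact h2 (h p)
  choose g hg using h1
  refine ⟨aeval g, fun f => ?_⟩
  have h3 : ((Ideal.Quotient.mkₐ k 𝔄).comp (rename (Subtype.val : T → κ))).comp (aeval g) =
      Ideal.Quotient.mkₐ k 𝔄 := algHom_ext fun p => by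
    rw [AlgHom.comp_apply, aeval_X, AlgHom.comp_apply, hg]
  exact Ideal.Quotient.eq.1 (DFunLike.congr_fun h3 f)

/-- the marked functor is represented by a quotient of the ring of the generating pairs -/
theorem univ_rep {n : ℕ} {E : Set (Fin n →₀ ℕ)} (hE : IsUpperSet E) (hss : SSN E) :
    ∃ (T : Finset (Pr (Fin n))) (𝔄 : Ideal (MvPolynomial T k))
      (g : Pr (Fin n) → MvPolynomial T k), (∀ q ∈ T, Valid E q) ∧
      (∀ (a : Fin n → ℤ), ∀ f ∈ 𝔄, ∀ t : ℤ,
        weightedHomogeneousComponent (fun q : T => wt a q.1) t f ∈ 𝔄) ∧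
      𝔄 ≤ aug T k ∧ (∀ p, constantCoeff (g p) = 0) ∧ (∀ q : T, g q.1 - X q ∈ 𝔄) ∧
      (∀ (B : Type u) [CommRing B] [Algebra k B] (J : Ideal (MvPolynomial (Fin n) B)),
        Marked E 0 J → (∀ f ∈ 𝔄, aeval (fun q : T => coef E J q.1) f = 0) ∧
          ∀ p, aeval (fun q : T => coef E J q.1) (g p) = coef E J p) ∧
      ∀ (B : Type u) [CommRing B] [Algebra k B] (φ : MvPolynomial T k →ₐ[k] B),
        (∀ f ∈ 𝔄, φ f = 0) → ∃ J : Ideal (MvPolynomial (Fin n) B), Marked E 0 J ∧
          ∀ p, coef E J p = φ (g p) := by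
  obtain ⟨𝔄, h1, h2, h3⟩ := exists_univ_ideal k hE
  obtain ⟨T, hT, hgen⟩ := exists_gen_pairs hE hss
  obtain ⟨J₀, hJ₀, e₀⟩ := h2 _ (Ideal.Quotient.mkₐ k 𝔄) fun f hf =>
    Ideal.Quotient.eq_zero_iff_mem.2 hf
  obtain ⟨s, hs⟩ := univ_sec 𝔄 T fun p => by
    have := hgen k _ J₀ hJ₀ p
    rwa [funext e₀] at this
  have h0 : ∀ f ∈ 𝔄, constantCoeff f = 0 := fun f hf => by
    rw [← h1 k _ (marked_monI hE) f hf]
    refine (univ_aug _ (fun p => ?_) f).symm
    rw [aeval_X, coef]
    split_ifs with c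
    · rw [nf_monI hE c, coeff_zero]
    · rfl
  have hr : ∀ (B : Type u) [CommRing B] [Algebra k B] (c : Pr (Fin n) → B) (f : MvPolynomial T k),
      aeval (fun q : T => c q.1) f = aeval c (rename Subtype.val f) := fun B _ _ c f => by
    rw [aeval_rename]; rfl
  refine ⟨T, 𝔄.comap (rename Subtype.val : MvPolynomial T k →ₐ[k] _), fun p => s (X p), hT,
    fun a f hf t => ?_, fun f hf => ?_, fun p => ?_, fun q => ?_,
    fun B _ _ J hJ => ⟨fun f hf => ?_, fun p => ?_⟩, fun B _ _ φ hφ => ?_⟩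
  · have := h3 a _ (Ideal.mem_comap.1 hf) t
    rw [rename_component] at this
    exact Ideal.mem_comap.2 this
  · have := h0 _ (Ideal.mem_comap.1 hf)
    rw [constantCoeff_rename] at this
    exact this
  · have := h0 _ (hs (X p))
    rwa [map_sub, constantCoeff_rename, constantCoeff_X, sub_zero] at this
  · refine Ideal.mem_comap.2 ?_
    rw [map_sub, rename_X]
    exact hs _
  · rw [hr]
    exact h1 B J hJ _ (Ideal.mem_comap.1 hf)
  · have := h1 B J hJ _ (hs (X p))
    rw [map_sub, aeval_X, sub_eq_zero] at this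
    rw [hr, this]
  · exact h2 B (φ.comp s) fun f hf => hφ _ (Ideal.mem_comap.2 (by
      simpa using 𝔄.add_mem (hs f) hf))

/-- Take `𝔄` (`exists_univ_ideal`), `T` (`exists_gen_pairs`), `a` (`exists_weight`), `ι = ↥T`,
`r = rename Subtype.val`, `𝔄' = comap r 𝔄`.  Applying `exists_gen_pairs` to the universal family
over `𝒫 ⧸ 𝔄` gives an algebra map `s : 𝒫 → MvPolynomial ι k` with `r (s f) - f ∈ 𝔄`; so
`φ ↦ φ.comp s` turns maps killing `𝔄'` into maps killing `𝔄` with the same values on `T`.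
`𝔄 ≤ aug` by (1) for `monI` (`nf_monI`).  `hneg`: the family over the quotient by
`𝔄' ⊔ aug ^ 2` is first order, `Marked.tan`, `N1N`, `last_pos`.  `hlift`: `Unob`, `eq_of_le`,
`coef_bc`.  Output: `𝓤` is the family of `Φ.comp s`, `q i = (p i).val`, `G` is renamed;
conclude with `eq_of_coef`. -/
theorem exists_univData {n : ℕ} {E : Set (Fin n →₀ ℕ)} (hE : IsUpperSet E) (hss : SSN E)
    (hN1 : N1N E) (hU : Unob k E) :
    ∃ (N : ℕ) (𝓤 : Ideal (MvPolynomial (Fin n) (MvPolynomial (Fin N) k)))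
      (q : Fin N → Pr (Fin n)) (G : MvPolynomial (Pr (Fin n)) k), UnivData k E 𝓤 q G := by
  obtain ⟨T, 𝔄, g, hT, hhom, h𝔪, hg0, hgX, h1, h2⟩ := univ_rep (k := k) hE hss
  obtain ⟨a, ha⟩ := exists_weight T
  have hX : ∀ (B : Type u) [CommRing B] [Algebra k B] (φ : MvPolynomial T k →ₐ[k] B),
      (∀ f ∈ 𝔄, φ f = 0) → ∀ q : T, φ (g q.1) = φ (X q) := fun B _ _ φ hφ q => by
    rw [← sub_eq_zero, ← map_sub]
    exact hφ _ (hgX q)
  obtain ⟨N, p, Φ, G, c1, c2, c3, c4, c5⟩ := attract (ω := fun q : T => wt a q.1) (hhom a) h𝔪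
    (fun q hq => by
      by_contra hc
      have k0 : ∀ f ∈ 𝔄, Ideal.Quotient.mkₐ k (𝔄 ⊔ aug T k ^ 2) f = 0 := fun f hf =>
        Ideal.Quotient.eq_zero_iff_mem.2 (Ideal.mem_sup_left hf)
      obtain ⟨J, hJ, e⟩ := h2 _ _ k0
      have hK : (aug T k).map (Ideal.Quotient.mk (𝔄 ⊔ aug T k ^ 2)) *
          (aug T k).map (Ideal.Quotient.mk (𝔄 ⊔ aug T k ^ 2)) = ⊥ := by
        rw [← Ideal.map_mul, ← pow_two, Ideal.map_eq_bot_iff_le_ker, Ideal.mk_ker]
        exact le_sup_right
      have ht := hJ.tan hE hK (hJ.red_iff.2 fun p => by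
        rw [e]
        exact Ideal.mem_map_of_mem _ (hg0 p))
      have hne : coef E J (q.1.1, q.1.2) ≠ 0 := by
        rw [e, hX _ _ k0]
        exact fun h => hc (Ideal.Quotient.eq_zero_iff_mem.1 h)
      exact absurd (ha q.1 q.2 (last_pos hss (hT _ q.2) (hN1 _ ht _ _ hne))) (not_lt.2 hq))
    (fun B B₁ _ _ _ _ ρ ε b1 b2 b3 φ₁ b4 b5 => by
      obtain ⟨J₁, hJ₁, e⟩ := h2 _ φ₁ b4
      obtain ⟨I, hI, hle⟩ := hU B B₁ ρ ε b1 b2 b3 J₁ hJ₁ (hJ₁.red_iff.2 fun p => by
        rw [e]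
        exact (univ_aug (ε.comp φ₁) b5 _).trans (hg0 p))
      have e1 := (hI.bc _).eq_of_le hJ₁ hle
      refine ⟨_, (h1 B I hI).1, algHom_ext fun q => ?_⟩
      rw [AlgHom.comp_apply, aeval_X, ← hX _ _ b4, ← e, ← e1, hI.coef_bc]
      rfl)
  obtain ⟨𝓤, h𝓤, e⟩ := h2 _ Φ c1
  refine ⟨N, 𝓤, fun i => (p i).1, rename Subtype.val G, h𝓤, fun q => ?_, fun i => ?_, ?_,
    fun B _ _ J hJ hG => ?_⟩
  · rw [e, ← univ_aug (aeval fun _ => 0) (fun _ => aeval_X _ _)]
    refine (univ_aug ((aeval fun _ => 0).comp Φ) (fun t => ?_) _).trans (hg0 q)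
    rw [AlgHom.comp_apply, univ_aug _ (fun _ => aeval_X _ _), c3]
  · rw [e, hX _ _ c1, c2]
  · rw [constantCoeff_rename, c4]
  · rw [aeval_rename] at hG
    have e1 := c5 B _ (h1 B J hJ).1 hG
    simp only [aeval_X] at e1
    refine hJ.eq_of_coef (h𝓤.bc _) fun q => ?_
    rw [h𝓤.coef_bc, e, ← (h1 B J hJ).2 q, e1]
    rfl

end Pool.Agent.MP_24718c_ag

end

end partUniv

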