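import Mathlib

section partCombA

/-!
Combinatorics of strongly stable sets of lattice points and their tangent sets.
Index `0` is the largest variable.  A tangent set `M` of weight `w` encodes the homomorphism
`x^v ↦ 1_M(v) x^(v+w)` from the monomial ideal of `A` (truncated at degree `r`) to the quotient.
-/

set_option linter.unusedSectionVars false
set_option linter.unusedVariables false

open MvPolynomial

universe u

noncomputable section

namespace Pool.Agent.MP_24718c_ag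

/-- lattice points -/
abbrev Lt (m : ℕ) : Type := Fin m → ℤ

/-- unit vector -/
def ev {m : ℕ} (i : Fin m) : Lt m := Pi.single i 1

/-- the last index -/
def zi (m : ℕ) : Fin (m + 2) := Fin.last (m + 1)

/-- the second to last index -/
def yi (m : ℕ) : Fin (m + 2) := (Fin.last m).castSucc

section
variable {m : ℕ}

/-- strongly stable upper set of nonnegative lattice points -/
structure SS (A : Set (Lt m)) : Prop where
  nonneg : ∀ v ∈ A, 0 ≤ v
  up : ∀ v ∈ A, ∀ i, v + ev i ∈ A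
  stab : ∀ v ∈ A, ∀ i j, i < j → 1 ≤ v j → v - ev j + ev i ∈ A

def Free (A : Set (Lt m)) (i : Fin m) : Prop := ∀ v, 0 ≤ v → v + ev i ∈ A → v ∈ A

structure TanSet (A : Set (Lt m)) (r : ℤ) (w : Lt m) (M : Set (Lt m)) : Prop where
  mem : ∀ v ∈ M, v ∈ A ∧ r ≤ ∑ i, v i ∧ 0 ≤ v + w ∧ v + w ∉ A
  edge : ∀ v ∈ A, r ≤ ∑ i, v i → ∀ i, v + ev i + w ∉ A → (v + ev i ∈ M ↔ v ∈ M)

/-- no tangent vector of degree `≤ 0` has a weight with two negative coordinates -/
def N1 (A : Set (Lt m)) : Prop :=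
  ∀ w M, TanSet A 0 w M → ∑ i, w i ≤ 0 → ∀ i j, i ≠ j → w i < 0 → w j < 0 → ∀ v, v ∉ M

/-- generator `g`, socle element `t`: not smaller in two coordinates -/
def SG (A : Set (Lt m)) (z : Fin m) : Prop :=
  ∀ g ∈ A, (∀ i, g - ev i ∉ A) → ∀ t, 0 ≤ t → t ∉ A → (∀ i, i ≠ z → t + ev i ∈ A) →
    ∀ i j, i ≠ j → i ≠ z → j ≠ z → t i < g i → t j < g j → False

/-- the consequence of smoothness proved in `T1` -/
def T1L (A : Set (Lt m)) (z : Fin m) : Prop :=
  ∀ r w M, 0 ≤ r → TanSet A r w M → ∑ i, w i = 0 → ∀ l i, l < i → i ≠ z → w l < 0 → w i < 0 →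
    ∀ v, v ∉ M

def satZ (A : Set (Lt m)) (y : Fin m) : Set (Lt m) :=
  {v | 0 ≤ v ∧ ∃ N : ℕ, v + (N : ℤ) • ev y ∈ A}

/-- the candidate tangent set from the fibre over `θ₁` to the fibre over `θ₂` at level `l` -/
def Mb (A : Set (Lt m)) (l : Fin m) (θ₁ θ₂ : Lt m) (β : ℤ) : Set (Lt m) :=
  {v | v ∈ A ∧ (∀ i, i < l → v i = θ₁ i) ∧ β ≤ v l ∧ v + (θ₂ - θ₁ - β • ev l) ∉ A}

/-- `θ` is supported on indices `< l` -/
def Below (θ : Lt m) (l : Fin m) : Prop := ∀ i, l ≤ i → θ i = 0

/-- the point `x_0^(s+j) x_1^(lam j)` -/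
def gz (s : ℕ) (lam : ℕ → ℕ) (j : ℕ) : Lt (m + 3) :=
  ((s + j : ℕ) : ℤ) • ev 0 + ((lam j : ℕ) : ℤ) • ev 1

/-- the saturation of `A` with respect to `x_2` is generated by the `gz s lam j`, `j ≤ r` -/
structure Layers (A : Set (Lt (m + 3))) (s r : ℕ) (lam : ℕ → ℕ) : Prop where
  anti : ∀ j, j < r → lam (j + 1) < lam j
  last : lam r = 0
  mem : ∀ v : Lt (m + 3), 0 ≤ v →
    ((∃ N : ℕ, v + (N : ℤ) • ev 2 ∈ A) ↔ ∃ j, j ≤ r ∧ gz s lam j ≤ v)

/-- the part of `A : g` not involving `x_0` -/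
def slice (A : Set (Lt (m + 1))) (g : Lt (m + 1)) : Set (Lt m) :=
  {u | 0 ≤ u ∧ g + Fin.cons 0 u ∈ A}

/-- the exponent set of `(x_0) + C` -/
def coneZ (C : Set (Lt m)) : Set (Lt (m + 1)) := {v | 0 ≤ v ∧ (1 ≤ v 0 ∨ Fin.tail v ∈ C)}

/-- Hilbert-Burch ideal with one generator multiplied by the ideal `C` -/
structure HBZ (A C : Set (Lt (m + 3))) (s r : ℕ) (lam : ℕ → ℕ) (js N : ℕ) : Prop where
  anti : ∀ j, j < r → lam (j + 1) < lam j
  last : lam r = 0
  js_le : js ≤ r
  nonneg : ∀ u ∈ C, 0 ≤ u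
  up : ∀ u ∈ C, ∀ i, u + ev i ∈ C
  c0 : ev 0 ∈ C
  c1 : ∀ j, j + 1 = js → ((lam j - lam js : ℕ) : ℤ) • ev 1 ∈ C
  c2 : (N : ℤ) • ev 2 ∈ C
  mem : ∀ v, v ∈ A ↔ ∃ j, j ≤ r ∧ gz s lam j ≤ v ∧ (j = js → v - gz s lam j ∈ C)

end

/-- towers of Hilbert-Burch attachments -/
inductive Nice : (m : ℕ) → Set (Lt m) → Prop
  | univ (m : ℕ) : Nice m {v | 0 ≤ v}
  | cone (m : ℕ) (C : Set (Lt m)) : Nice m C → Nice (m + 1) (coneZ C)
  | hb (m : ℕ) (A C : Set (Lt (m + 3))) (s r : ℕ) (lam : ℕ → ℕ) (js N : ℕ) :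
      Nice (m + 3) C → HBZ A C s r lam js N → N1 A → Nice (m + 3) A

section
variable {m : ℕ} {A M : Set (Lt m)} {v v' w θ θ₁ θ₂ : Lt m}

theorem ev_apply (i j : Fin m) : ev i j = if j = i then 1 else 0 := by
  simp [ev, Pi.single_apply]

theorem sum_ev (i : Fin m) : ∑ j, ev i j = 1 := by
  simp [ev_apply]

theorem comba_ev_nonneg (i : Fin m) : (0 : Lt m) ≤ ev i := fun j => by
  rw [ev_apply]; split_ifs <;> simp

theorem comba_smul_nonneg (i : Fin m) {c : ℤ} (hc : 0 ≤ c) : (0 : Lt m) ≤ c • ev i :=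
  smul_nonneg hc (comba_ev_nonneg i)

theorem comba_sum_add_ev (u : Lt m) (i : Fin m) : ∑ j, (u + ev i) j = ∑ j, u j + 1 := by
  simp only [Pi.add_apply, Finset.sum_add_distrib, sum_ev]

theorem comba_sum_add_smul (u : Lt m) (c : ℤ) (i : Fin m) :
    ∑ j, (u + c • ev i) j = ∑ j, u j + c := by
  simp only [Pi.add_apply, Pi.smul_apply, smul_eq_mul, Finset.sum_add_distrib, ← Finset.mul_sum,
    sum_ev, mul_one]

theorem comba_step {u u' : Lt m} (hle : u ≤ u') (hne : u ≠ u') : ∃ i, u + ev i ≤ u' := by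
  obtain ⟨i, hi⟩ : ∃ i, u i ≠ u' i := by
    by_contra hc
    push Not at hc
    exact hne (funext hc)
  refine ⟨i, fun j => ?_⟩
  have h1 : u j ≤ u' j := hle j
  show u j + ev i j ≤ u' j
  rw [ev_apply]
  split_ifs with hj
  · subst hj
    exact Int.add_one_le_of_lt (lt_of_le_of_ne h1 hi)
  · rwa [add_zero]

/-- induction along monotone lattice paths towards a fixed end point -/
theorem comba_ind {u' : Lt m} {P : Lt m → Prop} (h0 : P u')
    (hs : ∀ u i, u + ev i ≤ u' → P (u + ev i) → P u) : ∀ u, u ≤ u' → P u := by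
  have key : ∀ n : ℕ, ∀ u, u ≤ u' → ∑ j, u' j - ∑ j, u j = n → P u := by
    intro n
    induction n with
    | zero =>
      intro u hu hn
      by_cases hne : u = u'
      · exact hne ▸ h0
      obtain ⟨i, hi⟩ := comba_step hu hne
      have h1 : ∑ j, (u + ev i) j ≤ ∑ j, u' j := Finset.sum_le_sum fun j _ => hi j
      rw [comba_sum_add_ev] at h1
      omega
    | succ n ih =>
      intro u hu hn
      by_cases hne : u = u'
      · exact hne ▸ h0
      obtain ⟨i, hi⟩ := comba_step hu hne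
      refine hs u i hi (ih _ hi ?_)
      rw [comba_sum_add_ev]
      push_cast at hn
      omega
  intro u hu
  have h1 : ∑ j, u j ≤ ∑ j, u' j := Finset.sum_le_sum fun j _ => hu j
  exact key (∑ j, u' j - ∑ j, u j).toNat u hu (by omega)

theorem SS.up_le (h : SS A) (hv : v ∈ A) (hle : v ≤ v') : v' ∈ A :=
  comba_ind (u' := v') (P := fun u => u ∈ A → v' ∈ A) id
    (fun u i _ ih hu => ih (h.up u hu i)) v hle hv

theorem SS.move (h : SS A) (hv : v ∈ A) {i j : Fin m} (hij : i ≤ j) {c : ℤ} (hc : 0 ≤ c)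
    (hcj : c ≤ v j) : v - c • ev j + c • ev i ∈ A := by
  rcases hij.eq_or_lt with rfl | hlt
  · simpa using hv
  obtain ⟨n, rfl⟩ := Int.eq_ofNat_of_zero_le hc
  induction n with
  | zero => simpa using hv
  | succ n ih =>
    push_cast at hcj
    have h1 := ih (by positivity) (by omega)
    have h2 := h.stab _ h1 i j hlt (by
      simp only [Pi.add_apply, Pi.sub_apply, Pi.smul_apply, smul_eq_mul, ev_apply, if_true,
        if_neg hlt.ne']
      omega)
    convert h2 using 1
    push_cast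
    module

/-- Borel (dominance) order.  Induct on `∑ i, i * v i` or on the sum of the differences of the
partial sums; or first move mass down index by index. -/
theorem SS.dom (h : SS A) (hv : v ∈ A) (hv' : 0 ≤ v')
    (hle : ∀ t : Fin m, ∑ i ∈ Finset.univ.filter (· ≤ t), v i ≤
      ∑ i ∈ Finset.univ.filter (· ≤ t), v' i) : v' ∈ A := by
  have hev : ∀ (a t : Fin m), ∑ i ∈ Finset.univ.filter (· ≤ t), ev a i =
      if a ≤ t then 1 else 0 := by
    intro a t
    simp [ev_apply]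
  have key : ∀ n : ℕ, ∀ u ∈ A, (∀ t : Fin m, ∑ i ∈ Finset.univ.filter (· ≤ t), u i ≤
      ∑ i ∈ Finset.univ.filter (· ≤ t), v' i) →
      ∑ t : Fin m, (∑ i ∈ Finset.univ.filter (· ≤ t), v' i -
        ∑ i ∈ Finset.univ.filter (· ≤ t), u i) ≤ n → v' ∈ A := by
    intro n
    induction n using Nat.strong_induction_on with
    | _ n ih =>
      intro u hu hu' hn
      by_cases hc : u ≤ v'
      · exact h.up_le hu hc
      obtain ⟨j, hj⟩ : ∃ j, v' j < u j := by
        by_contra hc'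
        push Not at hc'
        exact hc hc'
      have hj0 : 0 ≤ v' j := hv' j
      have hjpos : 0 < j.val := by
        by_contra h0
        have e : Finset.univ.filter (· ≤ j) = {j} := by
          ext a
          simp only [Finset.mem_filter, Finset.mem_univ, true_and, Finset.mem_singleton,
            Fin.le_def, Fin.ext_iff]
          omega
        have := hu' j
        rw [e, Finset.sum_singleton, Finset.sum_singleton] at this
        omega
      let i : Fin m := ⟨j.val - 1, by omega⟩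
      have hij : i < j := by simp only [i, Fin.lt_def]; omega
      have e : Finset.univ.filter (· ≤ j) = insert j (Finset.univ.filter (· ≤ i)) := by
        ext a
        simp only [i, Finset.mem_filter, Finset.mem_univ, true_and, Finset.mem_insert,
          Fin.le_def, Fin.ext_iff]
        omega
      have hnot : j ∉ Finset.univ.filter (· ≤ i) := by simpa using hij
      have hgap := hu' j
      rw [e, Finset.sum_insert hnot, Finset.sum_insert hnot] at hgap
      have hnew : ∀ t : Fin m, ∑ a ∈ Finset.univ.filter (· ≤ t), (u - ev j + ev i) a =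
          ∑ a ∈ Finset.univ.filter (· ≤ t), u a + if t = i then 1 else 0 := by
        intro t
        simp only [Pi.add_apply, Pi.sub_apply, Finset.sum_add_distrib, Finset.sum_sub_distrib, hev]
        simp only [i, Fin.le_def, Fin.ext_iff]
        split_ifs <;> omega
      have hpos : ∀ t : Fin m, ∑ a ∈ Finset.univ.filter (· ≤ t), (u - ev j + ev i) a ≤
          ∑ a ∈ Finset.univ.filter (· ≤ t), v' a := by
        intro t
        rw [hnew]
        have := hu' t
        split_ifs with ht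
        · subst ht; omega
        · omega
      have hsum : ∑ t : Fin m, (∑ a ∈ Finset.univ.filter (· ≤ t), v' a -
          ∑ a ∈ Finset.univ.filter (· ≤ t), (u - ev j + ev i) a) =
          ∑ t : Fin m, (∑ a ∈ Finset.univ.filter (· ≤ t), v' a -
            ∑ a ∈ Finset.univ.filter (· ≤ t), u a) - 1 := by
        simp only [hnew, Finset.sum_sub_distrib, Finset.sum_add_distrib, Finset.sum_ite_eq',
          Finset.mem_univ, if_true]
        ring
      have hnn : 0 ≤ ∑ t : Fin m, (∑ a ∈ Finset.univ.filter (· ≤ t), v' a -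
          ∑ a ∈ Finset.univ.filter (· ≤ t), (u - ev j + ev i) a) :=
        Finset.sum_nonneg fun t _ => sub_nonneg.2 (hpos t)
      exact ih (n - 1) (by omega) _ (h.stab u hu i j hij (by omega)) hpos (by omega)
  exact key (∑ t : Fin m, (∑ i ∈ Finset.univ.filter (· ≤ t), v' i -
    ∑ i ∈ Finset.univ.filter (· ≤ t), v i)).toNat v hv hle (Int.self_le_toNat _)

/-- collapse all coordinates `≥ l` onto `l` -/
theorem SS.collapse (h : SS A) (hv : v ∈ A) (l : Fin m) (hv' : 0 ≤ v')
    (hlt : ∀ i, i < l → v i ≤ v' i) : ∃ N : ℕ, v' + (N : ℤ) • ev l ∈ A := by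
  refine ⟨(∑ i, v i).toNat, h.dom hv (add_nonneg hv' (comba_smul_nonneg l (by positivity))) ?_⟩
  intro t
  by_cases ht : t < l
  · refine Finset.sum_le_sum fun i hi => ?_
    have hi' : i < l := lt_of_le_of_lt (by simpa using hi) ht
    simp only [Pi.add_apply, Pi.smul_apply, smul_eq_mul, ev_apply, if_neg hi'.ne]
    have := hlt i hi'
    omega
  · have h1 : ∑ i ∈ Finset.univ.filter (· ≤ t), v i ≤ ∑ i, v i :=
      Finset.sum_le_sum_of_subset_of_nonneg (Finset.subset_univ _) fun i _ _ => h.nonneg v hv i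
    have h2 : 0 ≤ ∑ i ∈ Finset.univ.filter (· ≤ t), v' i := Finset.sum_nonneg fun i _ => hv' i
    have h3 : ∑ i ∈ Finset.univ.filter (· ≤ t), ev l i = 1 := by
      simp [ev_apply, not_lt.1 ht]
    simp only [Pi.add_apply, Pi.smul_apply, smul_eq_mul, Finset.sum_add_distrib, ← Finset.mul_sum,
      h3]
    omega

theorem Free.add_smul {i : Fin m} (h : Free A i) (hv : 0 ≤ v) {c : ℤ} (hc : 0 ≤ c)
    (hm : v + c • ev i ∈ A) : v ∈ A := by
  obtain ⟨n, rfl⟩ := Int.eq_ofNat_of_zero_le hc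
  induction n with
  | zero => simpa using hm
  | succ n ih =>
    refine ih (by positivity) (h _ (add_nonneg hv (comba_smul_nonneg i (by positivity))) ?_)
    convert hm using 1
    push_cast
    module

/-- the first point of `A` on a ray -/
theorem exists_first {i : Fin m} (hv : v ∉ A) {N : ℕ} (hN : v + (N : ℤ) • ev i ∈ A) :
    ∃ c : ℕ, c < N ∧ v + (c : ℤ) • ev i ∉ A ∧ v + (c : ℤ) • ev i + ev i ∈ A := by
  induction N with
  | zero => exact absurd (by simpa using hN) hv
  | succ N ih =>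
    by_cases hc : v + (N : ℤ) • ev i ∈ A
    · obtain ⟨c, h1, h2⟩ := ih hc
      exact ⟨c, by omega, h2⟩
    · refine ⟨N, by omega, hc, ?_⟩
      convert hN using 1
      push_cast
      module

/-- below every point of `A` there is a minimal one -/
theorem exists_minimal_le (hA : ∀ u ∈ A, 0 ≤ u) (hv : v ∈ A) :
    ∃ g ∈ A, g ≤ v ∧ ∀ i, g - ev i ∉ A := by
  have key : ∀ n : ℕ, ∀ u ∈ A, ∑ j, u j ≤ n → ∃ g ∈ A, g ≤ u ∧ ∀ i, g - ev i ∉ A := by
    intro n
    induction n using Nat.strong_induction_on with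
    | _ n ih =>
      intro u hu hn
      by_cases hc : ∀ i, u - ev i ∉ A
      · exact ⟨u, hu, le_rfl, hc⟩
      push Not at hc
      obtain ⟨i, hi⟩ := hc
      have h1 : ∑ j, u j = ∑ j, (u - ev i) j + 1 := by
        rw [← comba_sum_add_ev _ i, sub_add_cancel]
      have h2 : 0 ≤ ∑ j, (u - ev i) j := Finset.sum_nonneg fun j _ => hA _ hi j
      obtain ⟨g, hg, hle, hmin⟩ := ih (n - 1) (by omega) _ hi (by omega)
      exact ⟨g, hg, hle.trans (sub_le_self _ (comba_ev_nonneg i)), hmin⟩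
  exact key (∑ j, v j).toNat v hv (Int.self_le_toNat _)

theorem TanSet.down (h : SS A) (hT : TanSet A 0 w M) (hv : v ∈ M) (hle : v' ≤ v) (hv' : v' ∈ A) :
    v' ∈ M := by
  refine comba_ind (u' := v) (P := fun u => u ∈ A → u ∈ M) (fun _ => hv) ?_ v' hle hv'
  intro u i hi ih hu
  refine (hT.edge u hu (Finset.sum_nonneg fun j _ => h.nonneg u hu j) i fun hc => ?_).1
    (ih (h.up u hu i))
  exact (hT.mem v hv).2.2.2 (h.up_le hc (add_le_add_left hi w))

theorem TanSet.up (h : SS A) (hT : TanSet A 0 w M) (hv : v ∈ M) (hle : v ≤ v')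
    (hv' : v' + w ∉ A) : v' ∈ M := by
  refine comba_ind (u' := v') (P := fun u => u ∈ M → v' ∈ M) id ?_ v hle hv
  intro u i hi ih hu
  have hA := (hT.mem u hu).1
  refine ih ((hT.edge u hA (Finset.sum_nonneg fun j _ => h.nonneg u hA j) i fun hc => ?_).2 hu)
  exact hv' (h.up_le hc (add_le_add_left hi w))

/-- Induct on `v j`.  Let `c` be maximal with `v - c e_j + N e_k ∈ A` for some `N`, and
`v'' = v - c e_j + N e_k`, which lies in `M` (up along `k`, then down along `j`).  Then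
`1 ≤ v'' j` (as `0 ≤ v'' + w`), the target of `v'' + e_i` stays outside `A` after adding any
multiple of `e_k` (else `collapse` contradicts the maximality of `c`), so `v'' + e_i ∈ M`, and
`v'' + e_i - e_j ∈ A` by `stab`, hence in `M` by `down`, with a target that is still outside. -/
theorem TanSet.chain (h : SS A) (hT : TanSet A 0 w M) {i j k : Fin m} (hij : i < j) (hjk : j < k)
    (hi : w i < 0) (hj : w j < 0) (hw : ∀ l, l < k → w l ≤ 0) (hv : v ∈ M)
    (hout : ∀ N : ℕ, v + w + (N : ℤ) • ev k ∉ A) : False := by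
  have key : ∀ n : ℕ, ∀ u ∈ M, (∀ N : ℕ, u + w + (N : ℤ) • ev k ∉ A) → u j ≤ n → False := by
    intro n
    induction n using Nat.strong_induction_on with
    | _ n ih =>
      intro u hu ho hn
      obtain ⟨huA, -, hnn, -⟩ := hT.mem u hu
      have hj1 : 1 ≤ u j := by
        have : 0 ≤ u j + w j := hnn j
        omega
      by_cases hc : ∃ N : ℕ, u - ev j + (N : ℤ) • ev k ∈ A
      · obtain ⟨N, hN⟩ := hc
        have h1 : u + (N : ℤ) • ev k ∈ M := by
          refine hT.up h hu (le_add_of_nonneg_right (comba_smul_nonneg k (by positivity))) ?_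
          convert ho N using 2
          module
        have h2 : u - ev j + (N : ℤ) • ev k ∈ M :=
          hT.down h h1 (add_le_add_left (sub_le_self _ (comba_ev_nonneg j)) _) hN
        refine ih (n - 1) (by omega) _ h2 (fun N' hN' => ho (N + N') (h.up_le hN' ?_)) ?_
        · have : u + w + ((N + N' : ℕ) : ℤ) • ev k =
              u - ev j + (N : ℤ) • ev k + w + (N' : ℤ) • ev k + ev j := by
            push_cast
            module
          rw [this]
          exact le_add_of_nonneg_right (comba_ev_nonneg j)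
        · simp only [Pi.add_apply, Pi.sub_apply, Pi.smul_apply, smul_eq_mul, ev_apply, if_true,
            if_neg hjk.ne]
          omega
      · have hout' : ∀ N : ℕ, u + ev i + w + (N : ℤ) • ev k ∉ A := by
          intro N hN
          refine hc (h.collapse hN k (fun a => ?_) fun a ha => ?_)
          · have : 0 ≤ u a := h.nonneg u huA a
            simp only [Pi.sub_apply, Pi.zero_apply, ev_apply]
            split_ifs with haj
            · subst haj; omega
            · omega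
          · have := hw a ha
            simp only [Pi.add_apply, Pi.sub_apply, Pi.smul_apply, smul_eq_mul, ev_apply,
              if_neg ha.ne]
            by_cases hai : a = i
            · subst hai
              rw [if_pos rfl, if_neg hij.ne]
              omega
            · rw [if_neg hai]
              split_ifs with haj
              · subst haj; omega
              · omega
        have h1 : u + ev i ∈ M :=
          hT.up h hu (le_add_of_nonneg_right (comba_ev_nonneg i)) (by simpa using hout' 0)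
        have hle : u - ev j + ev i ≤ u + ev i :=
          add_le_add_left (sub_le_self _ (comba_ev_nonneg j)) _
        have h2 : u - ev j + ev i ∈ M := hT.down h h1 hle (h.stab u huA i j hij hj1)
        refine ih (n - 1) (by omega) _ h2
          (fun N hN => hout' N (h.up_le hN (add_le_add_left (add_le_add_left hle _) _))) ?_
        simp only [Pi.add_apply, Pi.sub_apply, ev_apply, if_true, if_neg hij.ne']
        omega
  exact key (v j).toNat v hv hout (Int.self_le_toNat _)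

/-- `N1`: if `w z < 0` go down along `z`; else add `- ∑ w` to `w z`.
`SG`: `g z = 0`; take `c = ∑ g - ∑ t`, `w = t - g + c e_z`, `r = ∑ g + |c|`,
`M = {g + k e_z : 0 ≤ k, r ≤ ∑ g + k}`. -/
theorem n1_sg_of_t1 {z : Fin m} (hz : ∀ i, i ≤ z) (h : SS A) (hf : Free A z) (ht : T1L A z) :
    N1 A ∧ SG A z := by
  have two : ∀ r w M, 0 ≤ r → TanSet A r w M → ∑ i, w i = 0 → ∀ i j, i ≠ j → i ≠ z → j ≠ z →
      w i < 0 → w j < 0 → ∀ v, v ∉ M := by
    intro r w M hr hT hs i j hij hi hj hwi hwj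
    rcases lt_or_gt_of_ne hij with hlt | hlt
    · exact ht r w M hr hT hs i j hlt hj hwi hwj
    · exact ht r w M hr hT hs j i hlt hi hwj hwi
  constructor
  · intro w M hT hs i j hij hwi hwj v hv
    by_cases hwz : w z < 0
    · obtain ⟨hvA, -, -, -⟩ := hT.mem v hv
      have hvz : 0 ≤ v z := h.nonneg v hvA z
      have hle : v - (v z) • ev z ≤ v := sub_le_self _ (comba_smul_nonneg z hvz)
      have h0 : 0 ≤ v - (v z) • ev z := fun a => by
        have : 0 ≤ v a := h.nonneg v hvA a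
        simp only [Pi.sub_apply, Pi.zero_apply, Pi.smul_apply, smul_eq_mul, ev_apply]
        split_ifs with ha
        · subst ha; omega
        · omega
      have h1 := hT.down h hv hle (hf.add_smul h0 hvz (by simpa using hvA))
      have h2 : 0 ≤ (v - (v z) • ev z + w) z := (hT.mem _ h1).2.2.1 z
      simp only [Pi.add_apply, Pi.sub_apply, Pi.smul_apply, smul_eq_mul, ev_apply, if_true] at h2
      omega
    · have hi : i ≠ z := fun e => hwz (e ▸ hwi)
      have hj : j ≠ z := fun e => hwz (e ▸ hwj)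
      have hc : 0 ≤ -∑ a, w a := by omega
      have hle : ∀ u : Lt m, u + w ≤ u + (w + (-∑ a, w a) • ev z) := fun u =>
        add_le_add_right (le_add_of_nonneg_right (comba_smul_nonneg z hc)) u
      refine two 0 (w + (-∑ a, w a) • ev z) M le_rfl ⟨fun u hu => ?_, fun u hu hr a ha => ?_⟩
        (by rw [comba_sum_add_smul]; ring) i j hij hi hj ?_ ?_ v hv
      · obtain ⟨h1, h2, h3, h4⟩ := hT.mem u hu
        exact ⟨h1, h2, h3.trans (hle u), fun h5 => h4 (hf.add_smul h3 hc (by rwa [add_assoc]))⟩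
      · exact hT.edge u hu hr a fun h5 => ha (h.up_le h5 (hle _))
      · simpa [ev_apply, hi] using hwi
      · simpa [ev_apply, hj] using hwj
  · intro g hg hmin t ht0 htA hsoc i j hij hi hj hti htj
    obtain ⟨c, hc⟩ : ∃ c : ℤ, c = ∑ a, g a - ∑ a, t a := ⟨_, rfl⟩
    have hg0 : 0 ≤ ∑ a, g a := Finset.sum_nonneg fun a _ => h.nonneg g hg a
    have hc1 := abs_nonneg c
    have hc2 := neg_abs_le c
    have htar : ∀ k : ℤ, g + k • ev z + (t - g + c • ev z) = t + (k + c) • ev z := fun k => by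
      module
    refine two (∑ a, g a + |c|) (t - g + c • ev z) {u | ∃ k : ℤ, |c| ≤ k ∧ u = g + k • ev z}
      (by omega) ⟨?_, ?_⟩ ?_ i j hij hi hj ?_ ?_ (g + |c| • ev z) ⟨_, le_rfl, rfl⟩
    · rintro u ⟨k, hk, rfl⟩
      refine ⟨h.up_le hg (le_add_of_nonneg_right (comba_smul_nonneg z (by omega))), ?_, ?_, ?_⟩
      · rw [comba_sum_add_smul]; omega
      · rw [htar]
        exact add_nonneg ht0 (comba_smul_nonneg z (by omega))
      · rw [htar]
        exact fun h5 => htA (hf.add_smul ht0 (by omega) h5)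
    · intro u hu hr a ha
      constructor
      · rintro ⟨k, hk, he⟩
        by_cases haz : a = z
        · subst haz
          have he' : u = g + (k - 1) • ev a := by
            rw [← add_sub_cancel_right u (ev a), he]
            module
          refine ⟨k - 1, ?_, he'⟩
          rw [he', comba_sum_add_smul] at hr
          omega
        · exfalso
          have he' : u = g - ev a + k • ev z := by
            rw [← add_sub_cancel_right u (ev a), he]
            module
          refine hmin a (hf.add_smul (fun b => ?_) (by omega) (he' ▸ hu))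
          have h1 : 0 ≤ g b := h.nonneg g hg b
          have h2 : 0 ≤ u b := h.nonneg u hu b
          simp only [Pi.sub_apply, Pi.zero_apply, ev_apply]
          split_ifs with hb
          · subst hb
            rw [he'] at h2
            simpa [ev_apply, haz] using h2
          · omega
      · rintro ⟨k, hk, rfl⟩
        by_cases haz : a = z
        · subst haz
          exact ⟨k + 1, by omega, by module⟩
        · refine absurd (h.up_le (hsoc a haz) ?_) ha
          have : g + k • ev z + ev a + (t - g + c • ev z) = t + ev a + (k + c) • ev z := by module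
          rw [this]
          exact le_add_of_nonneg_right (comba_smul_nonneg z (by omega))
    · rw [comba_sum_add_smul]
      simp only [Pi.sub_apply, Finset.sum_sub_distrib]
      omega
    · simpa [ev_apply, hi] using hti
    · simpa [ev_apply, hj] using htj

theorem SS.satZ (h : SS A) (y : Fin m) : SS (satZ A y) := by
  refine ⟨fun u hu => hu.1, ?_, ?_⟩
  · rintro u ⟨h0, N, hN⟩ i
    refine ⟨add_nonneg h0 (comba_ev_nonneg i), N, ?_⟩
    rw [add_right_comm]
    exact h.up _ hN i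
  · rintro u ⟨h0, N, hN⟩ i j hij hj
    refine ⟨add_nonneg (fun a => ?_) (comba_ev_nonneg i), N, ?_⟩
    · have : 0 ≤ u a := h0 a
      simp only [Pi.sub_apply, Pi.zero_apply, ev_apply]
      split_ifs with ha
      · subst ha; omega
      · omega
    · have h1 : 0 ≤ ((N : ℤ) • ev y) j := comba_smul_nonneg y (by positivity) j
      convert h.stab _ hN i j hij (by rw [Pi.add_apply]; omega) using 1
      module

theorem SS.subset_satZ (h : SS A) (y : Fin m) : A ⊆ Pool.Agent.MP_24718c_ag.satZ A y :=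
  fun u hu => ⟨h.nonneg u hu, 0, by simpa using hu⟩

theorem free_satZ (y : Fin m) : Free (satZ A y) y := by
  rintro u h0 ⟨-, N, hN⟩
  refine ⟨h0, N + 1, ?_⟩
  convert hN using 1
  push_cast
  module

theorem Free.satZ {z : Fin m} (h : Free A z) (y : Fin m) : Free (satZ A y) z := by
  rintro u h0 ⟨-, N, hN⟩
  refine ⟨h0, N, h _ (add_nonneg h0 (comba_smul_nonneg y (by positivity))) ?_⟩
  rwa [add_right_comm]

end

end Pool.Agent.MP_24718c_ag

end

end partCombA

section partCombW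

/-!
The swap lemmas `V`, `W`, `Z`.
-/

set_option linter.unusedSectionVars false
set_option linter.unusedVariables false

open MvPolynomial

universe u

noncomputable section

namespace Pool.Agent.MP_24718c_ag

section
variable {m : ℕ} {A M : Set (Lt m)} {v v' w θ θ₁ θ₂ : Lt m} {l : Fin m}

theorem combw_ev_self (i : Fin m) : ev i i = 1 := by rw [ev_apply, if_pos rfl]

theorem combw_ev_ne {i j : Fin m} (hij : j ≠ i) : ev i j = 0 := by rw [ev_apply, if_neg hij]

theorem combw_ev_nonneg (i : Fin m) : 0 ≤ ev i := by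
  intro j
  rw [ev_apply]
  split_ifs <;> simp

theorem combw_le (h : SS A) (h₁ : Below θ₁ l) (h₂ : Below θ₂ l) {β : ℤ} (hv : v ∈ A)
    (hh : ∀ i, i < l → v i = θ₁ i) (hβ : β ≤ v l) : θ₂ ≤ v + (θ₂ - θ₁ - β • ev l) := by
  intro i
  have hvi : 0 ≤ v i := h.nonneg v hv i
  simp only [Pi.add_apply, Pi.sub_apply, Pi.smul_apply, smul_eq_mul]
  rcases lt_trichotomy i l with hil | hil | hil
  · rw [combw_ev_ne hil.ne, hh i hil]
    omega
  · subst hil
    rw [combw_ev_self, h₁ i le_rfl]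
    omega
  · rw [combw_ev_ne hil.ne', h₁ i hil.le]
    omega

theorem combw_mem (h : SS A) (h₁ : Below θ₁ l) (h₂ : Below θ₂ l) (h0 : 0 ≤ θ₂) {β : ℤ}
    (hv : v ∈ Mb A l θ₁ θ₂ β) :
    v ∈ A ∧ 0 ≤ ∑ i, v i ∧ 0 ≤ v + (θ₂ - θ₁ - β • ev l) ∧ v + (θ₂ - θ₁ - β • ev l) ∉ A := by
  obtain ⟨hA, hh, hβ, hn⟩ := hv
  exact ⟨hA, Finset.sum_nonneg fun i _ => h.nonneg v hA i,
    le_trans h0 (combw_le h h₁ h₂ hA hh hβ), hn⟩

theorem combw_not (h : SS A) {i : Fin m} (hn : v + ev i + w ∉ A) : v + w ∉ A := by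
  intro hc
  apply hn
  have := h.up _ hc i
  rwa [add_right_comm] at this

theorem combw_edge_gt (h : SS A) {β : ℤ} (hv : v ∈ A) {i : Fin m} (hli : l < i)
    (hn : v + ev i + (θ₂ - θ₁ - β • ev l) ∉ A) :
    v + ev i ∈ Mb A l θ₁ θ₂ β ↔ v ∈ Mb A l θ₁ θ₂ β := by
  have e1 : ∀ j, j ≤ l → (v + ev i) j = v j := by
    intro j hj
    rw [Pi.add_apply, combw_ev_ne (ne_of_lt (lt_of_le_of_lt hj hli)), add_zero]
  constructor
  · rintro ⟨-, hh, hβ, -⟩
    refine ⟨hv, fun j hj => ?_, ?_, combw_not h hn⟩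
    · rw [← e1 j hj.le]
      exact hh j hj
    · rwa [e1 l le_rfl] at hβ
  · rintro ⟨-, hh, hβ, -⟩
    refine ⟨h.up v hv i, fun j hj => ?_, ?_, hn⟩
    · rw [e1 j hj.le]
      exact hh j hj
    · rwa [e1 l le_rfl]

theorem combw_top (h₁ : Below θ₁ l) (hn : θ₂ ∉ A) {N : ℕ} (hN : θ₁ + (N : ℤ) • ev l ∈ A) :
    θ₁ + (N : ℤ) • ev l ∈ Mb A l θ₁ θ₂ N := by
  refine ⟨hN, fun i hi => ?_, ?_, ?_⟩
  · simp only [Pi.add_apply, Pi.smul_apply, smul_eq_mul, combw_ev_ne hi.ne, mul_zero, add_zero]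
  · simp only [Pi.add_apply, Pi.smul_apply, smul_eq_mul, combw_ev_self, h₁ l le_rfl]
    omega
  · have : θ₁ + (N : ℤ) • ev l + (θ₂ - θ₁ - (N : ℤ) • ev l) = θ₂ := by abel
    rwa [this]

theorem combw_sum (β : ℤ) :
    ∑ j, (θ₂ - θ₁ - β • ev l) j = ∑ j, θ₂ j - ∑ j, θ₁ j - β := by
  simp only [Pi.sub_apply, Pi.smul_apply, smul_eq_mul, Finset.sum_sub_distrib]
  rw [← Finset.mul_sum, sum_ev, mul_one]

/-- Write `v = θ₁ + μ`.  Emptiness of `Mb (β - 1)` says: `v ∈ A` with head `θ₁` and `β - 1 ≤ v l`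
imply `v + w + e_l ∈ A`, hence `v + w + e_i ∈ A` for `i ≤ l` when `β ≤ v l`.  If `i ≤ l`,
`v + e_i ∈ Mb β` and `v ∈ A`, then `v + e_i - e_l ∈ A` (by `stab`, or `i = l`) has head `θ₁`,
which gives `v + e_i + w ∈ A`, a contradiction.  Edges with `l < i` are immediate. -/
theorem tanV (h : SS A) (h₁ : Below θ₁ l) (h₂ : Below θ₂ l) (h0 : 0 ≤ θ₂) {β : ℤ} (hβ : 1 ≤ β)
    (he : ∀ v, v ∉ Mb A l θ₁ θ₂ (β - 1)) :
    TanSet A 0 (θ₂ - θ₁ - β • ev l) (Mb A l θ₁ θ₂ β) := by
  have key : ∀ u ∈ A, (∀ i, i < l → u i = θ₁ i) → β - 1 ≤ u l →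
      u + (θ₂ - θ₁ - β • ev l) + ev l ∈ A := by
    intro u hu hh hb
    by_contra hc
    apply he u
    refine ⟨hu, hh, hb, ?_⟩
    have : u + (θ₂ - θ₁ - (β - 1) • ev l) = u + (θ₂ - θ₁ - β • ev l) + ev l := by
      rw [sub_smul, one_smul]
      abel
    rwa [this]
  refine ⟨fun v hv => combw_mem h h₁ h₂ h0 hv, fun v hv _ i hn => ?_⟩
  rcases lt_trichotomy l i with hli | hli | hli
  · exact combw_edge_gt h hv hli hn
  · subst hli
    have e1 : ∀ j, j < l → (v + ev l) j = v j := by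
      intro j hj
      rw [Pi.add_apply, combw_ev_ne hj.ne, add_zero]
    have e2 : (v + ev l) l = v l + 1 := by rw [Pi.add_apply, combw_ev_self]
    constructor
    · rintro ⟨-, hh, hb, -⟩
      exfalso
      apply hn
      rw [add_right_comm]
      refine key v hv (fun j hj => ?_) (by omega)
      rw [← e1 j hj]
      exact hh j hj
    · rintro ⟨-, hh, hb, -⟩
      exfalso
      apply hn
      rw [add_right_comm]
      exact key v hv hh (by omega)
  · constructor
    · rintro ⟨-, hh, hb, -⟩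
      exfalso
      apply hn
      have e2 : (v + ev i) l = v l := by rw [Pi.add_apply, combw_ev_ne hli.ne', add_zero]
      have hu := h.stab v hv i l hli (by omega)
      have hk := key _ hu (fun j hj => ?_) ?_
      · have : v - ev l + ev i + (θ₂ - θ₁ - β • ev l) + ev l =
            v + ev i + (θ₂ - θ₁ - β • ev l) := by abel
        rwa [this] at hk
      · rw [← hh j hj]
        simp only [Pi.add_apply, Pi.sub_apply, combw_ev_ne hj.ne, sub_zero]
      · simp only [Pi.add_apply, Pi.sub_apply, combw_ev_ne hli.ne', combw_ev_self]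
        omega
    · rintro ⟨-, hh, hb, -⟩
      exfalso
      apply hn
      have hk := key v hv hh (by omega)
      have hs := h.stab _ hk i l hli ?_
      · have : v + (θ₂ - θ₁ - β • ev l) + ev l - ev l + ev i =
            v + ev i + (θ₂ - θ₁ - β • ev l) := by abel
        rwa [this] at hs
      · simp only [Pi.add_apply, Pi.sub_apply, Pi.smul_apply, smul_eq_mul, combw_ev_self,
          h₁ l le_rfl, h₂ l le_rfl]
        omega

/-- `θ₁ + N e_l ∈ Mb N` and `r ≤ N`.  Take the least `β ≥ r` with `Mb β` nonempty; if `r < β` use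
`tanV`, if `β = r` check the edges with `hS`, `hT`, `hr`. -/
theorem tanW (h : SS A) (h₁ : Below θ₁ l) (h₂ : Below θ₂ l) (h0 : 0 ≤ θ₂) (hn : θ₂ ∉ A) {N : ℕ}
    (hN : θ₁ + (N : ℤ) • ev l ∈ A)
    (hS : ∀ v ∈ A, ∀ i, i < l → ¬ ∀ j, j < l → v j = (θ₁ - ev i) j)
    (hT : ∀ i, i < l → θ₂ + ev i ∈ A) {r : ℤ} (hr0 : 0 ≤ r)
    (hr : ∀ v ∈ A, (∀ i, i < l → v i = θ₁ i) → r ≤ v l) :
    ∃ β, r ≤ β ∧ TanSet A 0 (θ₂ - θ₁ - β • ev l) (Mb A l θ₁ θ₂ β) ∧
      ∃ v, v ∈ Mb A l θ₁ θ₂ β := by
  have htop := combw_top h₁ hn hN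
  have hrN : r ≤ N := by
    have := hr _ hN htop.2.1
    simp only [Pi.add_apply, Pi.smul_apply, smul_eq_mul, combw_ev_self, h₁ l le_rfl] at this
    omega
  obtain ⟨β, ⟨hrβ, hne⟩, hmin⟩ := Int.exists_least_of_bdd
    (P := fun β => r ≤ β ∧ ∃ v, v ∈ Mb A l θ₁ θ₂ β) ⟨r, fun z hz => hz.1⟩ ⟨N, hrN, _, htop⟩
  refine ⟨β, hrβ, ?_, hne⟩
  rcases lt_or_eq_of_le hrβ with hlt | heq
  · refine tanV h h₁ h₂ h0 (by omega) fun v hv => ?_
    have := hmin (β - 1) ⟨by omega, v, hv⟩
    omega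
  · subst heq
    refine ⟨fun v hv => combw_mem h h₁ h₂ h0 hv, fun v hv _ i hn' => ?_⟩
    rcases lt_trichotomy l i with hli | hli | hli
    · exact combw_edge_gt h hv hli hn'
    · subst hli
      have e1 : ∀ j, j < l → (v + ev l) j = v j := by
        intro j hj
        rw [Pi.add_apply, combw_ev_ne hj.ne, add_zero]
      have e2 : (v + ev l) l = v l + 1 := by rw [Pi.add_apply, combw_ev_self]
      constructor
      · rintro ⟨-, hh, hb, -⟩
        have hh' : ∀ j, j < l → v j = θ₁ j := by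
          intro j hj
          rw [← e1 j hj]
          exact hh j hj
        exact ⟨hv, hh', hr v hv hh', combw_not h hn'⟩
      · rintro ⟨-, hh, hb, -⟩
        refine ⟨h.up v hv l, fun j hj => ?_, by omega, hn'⟩
        rw [e1 j hj]
        exact hh j hj
    · constructor
      · rintro ⟨-, hh, hb, -⟩
        exfalso
        refine hS v hv i hli fun j hj => ?_
        have := hh j hj
        simp only [Pi.add_apply, Pi.sub_apply] at this ⊢
        omega
      · rintro ⟨-, hh, hb, -⟩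
        exfalso
        apply hn'
        refine h.up_le (hT i hli) ?_
        rw [add_right_comm]
        exact add_le_add_left (combw_le h h₁ h₂ hv hh hb) _

theorem tanWN (h : SS A) (hN1 : N1 A) (h₁ : Below θ₁ l) (h₂ : Below θ₂ l) (h0 : 0 ≤ θ₂)
    (hn : θ₂ ∉ A) {N : ℕ} (hN : θ₁ + (N : ℤ) • ev l ∈ A)
    (hS : ∀ v ∈ A, ∀ i, i < l → ¬ ∀ j, j < l → v j = (θ₁ - ev i) j)
    (hT : ∀ i, i < l → θ₂ + ev i ∈ A) {r : ℤ} (hr0 : 0 ≤ r)
    (hr : ∀ v ∈ A, (∀ i, i < l → v i = θ₁ i) → r ≤ v l)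
    {i : Fin m} (hi : θ₂ i < θ₁ i) (h2 : 1 ≤ r ∨ ∃ j, j ≠ i ∧ θ₂ j < θ₁ j) :
    r < ∑ j, θ₂ j - ∑ j, θ₁ j := by
  obtain ⟨β, hrβ, hT', v, hv⟩ := tanW h h₁ h₂ h0 hn hN hS hT hr0 hr
  by_contra hc
  have hneg : ∀ j, θ₂ j < θ₁ j → (θ₂ - θ₁ - β • ev l) j < 0 := by
    intro j hj
    have h1 : 0 ≤ β * ev l j := mul_nonneg (by omega) (combw_ev_nonneg l j)
    simp only [Pi.sub_apply, Pi.smul_apply, smul_eq_mul]
    omega
  have hsum : ∑ j, (θ₂ - θ₁ - β • ev l) j ≤ 0 := by
    rw [combw_sum]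
    omega
  rcases h2 with h2 | ⟨j, hji, hj⟩
  · have hil : i ≠ l := by
      rintro rfl
      rw [h₁ i le_rfl, h₂ i le_rfl] at hi
      omega
    refine hN1 _ _ hT' hsum i l hil (hneg i hi) ?_ v hv
    simp only [Pi.sub_apply, Pi.smul_apply, smul_eq_mul, combw_ev_self, h₁ l le_rfl, h₂ l le_rfl]
    omega
  · exact hN1 _ _ hT' hsum j i hji (hneg j hj) (hneg i hi) v hv

/-- Otherwise apply `tanV` to `θ₁ = θ + e_i'`, `θ₂ = θ + e_i` and the least `β` with `Mb β`
nonempty (`Mb 0` is empty by `stab`, `Mb N` is not): the weight `e_i - e_i' - β e_l` contradicts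
`N1`. -/
theorem lemZ (h : SS A) (hN1 : N1 A) (hθ : Below θ l) (h0 : 0 ≤ θ) {i i' : Fin m} (hi : i < i')
    (hi' : i' < l) {N : ℕ} (hN : θ + ev i' + (N : ℤ) • ev l ∈ A) : θ + ev i ∈ A := by
  by_contra hn
  have h₁ : Below (θ + ev i') l := by
    intro j hj
    rw [Pi.add_apply, hθ j hj, combw_ev_ne (ne_of_gt (lt_of_lt_of_le hi' hj)), add_zero]
  have h₂ : Below (θ + ev i) l := by
    intro j hj
    rw [Pi.add_apply, hθ j hj, combw_ev_ne (ne_of_gt (lt_of_lt_of_le (hi.trans hi') hj)),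
      add_zero]
  have h0' : 0 ≤ θ + ev i := add_nonneg h0 (combw_ev_nonneg i)
  have htop := combw_top h₁ hn hN
  obtain ⟨β, ⟨hβ0, v, hv⟩, hmin⟩ := Int.exists_least_of_bdd
    (P := fun β => 0 ≤ β ∧ ∃ v, v ∈ Mb A l (θ + ev i') (θ + ev i) β) ⟨0, fun z hz => hz.1⟩
    ⟨N, Int.natCast_nonneg N, _, htop⟩
  have hβ1 : 1 ≤ β := by
    rcases lt_or_eq_of_le hβ0 with hlt | heq
    · omega
    · exfalso
      subst heq
      obtain ⟨hA, hh, -, hout⟩ := hv
      apply hout
      have h1 : 1 ≤ v i' := by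
        have h3 : 0 ≤ θ i' := h0 i'
        rw [hh i' hi', Pi.add_apply, combw_ev_self]
        omega
      have hs := h.stab v hA i i' hi h1
      have : v + (θ + ev i - (θ + ev i') - (0 : ℤ) • ev l) = v - ev i' + ev i := by
        rw [zero_smul]
        abel
      rwa [this]
  have hT := tanV h h₁ h₂ h0' hβ1 fun u hu => by
    have := hmin (β - 1) ⟨by omega, u, hu⟩
    omega
  refine hN1 _ _ hT ?_ i' l hi'.ne ?_ ?_ v hv
  · rw [combw_sum]
    simp only [Pi.add_apply, Finset.sum_add_distrib, sum_ev]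
    omega
  · simp only [Pi.add_apply, Pi.sub_apply, Pi.smul_apply, smul_eq_mul, combw_ev_self,
      combw_ev_ne hi.ne', combw_ev_ne hi'.ne]
    omega
  · rw [Pi.sub_apply, Pi.sub_apply, h₁ l le_rfl, h₂ l le_rfl, Pi.smul_apply, smul_eq_mul,
      combw_ev_self]
    omega

/-- `p, q, q'` are consecutive indices.  Move `c e_q` to `c e_p`, add `e_q`, apply `lemZ` to
`θ + c e_p` with `i = p`, `i' = q`, `l = q'`. -/
theorem lemZ2 (h : SS A) (hN1 : N1 A) {p q q' : Fin m} (hpq : p.val + 1 = q.val)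
    (hqq : q.val + 1 = q'.val) (hθ : Below θ q) (h0 : 0 ≤ θ) {c : ℤ} (hc : 0 ≤ c) {N : ℕ}
    (hN : θ + c • ev q + (N : ℤ) • ev q' ∈ A) : θ + (c + 1) • ev p ∈ A := by
  have hpq' : p < q := by
    rw [Fin.lt_def]
    omega
  have hqq' : q < q' := by
    rw [Fin.lt_def]
    omega
  have hm := h.move hN hpq'.le hc (by
    simp only [Pi.add_apply, Pi.smul_apply, smul_eq_mul, combw_ev_self, combw_ev_ne hqq'.ne,
      hθ q le_rfl]
    omega)
  have hu := h.up _ hm q
  have e : θ + c • ev q + (N : ℤ) • ev q' - c • ev q + c • ev p + ev q =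
      θ + c • ev p + ev q + (N : ℤ) • ev q' := by abel
  rw [e] at hu
  have hB : Below (θ + c • ev p) q' := by
    intro j hj
    have h1 : q < j := lt_of_lt_of_le hqq' hj
    simp only [Pi.add_apply, Pi.smul_apply, smul_eq_mul, hθ j h1.le,
      combw_ev_ne (hpq'.trans h1).ne', mul_zero, add_zero]
  have hz := lemZ h hN1 hB (add_nonneg h0 (smul_nonneg hc (combw_ev_nonneg p))) hpq' hqq' hu
  rwa [add_smul, one_smul, ← add_assoc]

/-- minimal `l`-th coordinate in the fibre over the head of `θ`; `q'` is the next index -/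
theorem exists_min_fibre (h : SS A) {q q' : Fin m} (hqq : q.val + 1 = q'.val) (hθ : Below θ q)
    {N : ℕ} (hN : θ + (N : ℤ) • ev q ∈ A) :
    ∃ p : ℤ, 0 ≤ p ∧ (∀ v ∈ A, (∀ i, i < q → v i = θ i) → p ≤ v q) ∧
      ∃ N' : ℕ, θ + p • ev q + (N' : ℤ) • ev q' ∈ A := by
  have hhead : ∀ i, i < q → (θ + (N : ℤ) • ev q) i = θ i := by
    intro i hi
    simp only [Pi.add_apply, Pi.smul_apply, smul_eq_mul, combw_ev_ne hi.ne, mul_zero, add_zero]
  have h0 : 0 ≤ θ := by
    intro i
    rcases lt_or_ge i q with hi | hi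
    · rw [← hhead i hi]
      exact h.nonneg _ hN i
    · rw [hθ i hi]
      exact le_rfl
  obtain ⟨p, ⟨v, hv, hh, hp⟩, hmin⟩ := Int.exists_least_of_bdd
    (P := fun p => ∃ v ∈ A, (∀ i, i < q → v i = θ i) ∧ v q = p)
    ⟨0, by
      rintro z ⟨v, hv, -, rfl⟩
      exact h.nonneg v hv q⟩ ⟨_, _, hN, hhead, rfl⟩
  have hp0 : 0 ≤ p := by
    rw [← hp]
    exact h.nonneg v hv q
  refine ⟨p, hp0, fun u hu hh' => hmin _ ⟨u, hu, hh', rfl⟩, ?_⟩
  refine h.collapse hv q' (add_nonneg h0 (smul_nonneg hp0 (combw_ev_nonneg q))) fun i hi => ?_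
  have hiq : i ≤ q := by
    rw [Fin.lt_def] at hi
    rw [Fin.le_def]
    omega
  rcases lt_or_eq_of_le hiq with h1 | h1
  · simp only [Pi.add_apply, Pi.smul_apply, smul_eq_mul, combw_ev_ne h1.ne, hh i h1]
    omega
  · subst h1
    simp only [Pi.add_apply, Pi.smul_apply, smul_eq_mul, combw_ev_self, hθ i le_rfl]
    omega

end

end Pool.Agent.MP_24718c_ag

end

end partCombW

section partCombB

/-!
The layer structure.
-/

set_option linter.unusedSectionVars false
set_option linter.unusedVariables false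

open MvPolynomial

universe u

noncomputable section

namespace Pool.Agent.MP_24718c_ag

section
variable {m : ℕ} {A : Set (Lt (m + 3))} {s r : ℕ} {lam : ℕ → ℕ}

theorem combb_cases (i : Fin (m + 3)) : i = 0 ∨ i = 1 ∨ 2 ≤ i.val := by
  rcases Nat.lt_or_ge i.val 2 with h | h
  · rcases Nat.lt_or_ge i.val 1 with k | k
    · exact Or.inl (Fin.ext (by simp only [Fin.val_zero]; omega))
    · exact Or.inr (Or.inl (Fin.ext (by simp only [Fin.val_one]; omega)))
  · exact Or.inr (Or.inr h)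

theorem combb_ne {i : Fin (m + 3)} (hi : 2 ≤ i.val) : i ≠ 0 ∧ i ≠ 1 :=
  ⟨fun e => by rw [e, Fin.val_zero] at hi; omega, fun e => by rw [e, Fin.val_one] at hi; omega⟩

theorem combb_ev {i : Fin (m + 3)} (hi : 2 ≤ i.val) :
    (ev i : Lt (m + 3)) 0 = 0 ∧ (ev i : Lt (m + 3)) 1 = 0 :=
  ⟨by rw [ev_apply, if_neg (combb_ne hi).1.symm], by rw [ev_apply, if_neg (combb_ne hi).2.symm]⟩

theorem combb_coll (h : SS A) {u v : Lt (m + 3)} (hu : u ∈ A) (hv : 0 ≤ v) (h0 : u 0 ≤ v 0)
    (h1 : u 1 ≤ v 1) : ∃ N : ℕ, v + (N : ℤ) • ev 2 ∈ A := by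
  refine h.collapse hu 2 hv fun i hi => ?_
  rcases combb_cases i with rfl | rfl | k
  exacts [h0, h1, absurd hi (not_lt.2 k)]

theorem combb_add {y : Fin (m + 3)} (hy : 2 ≤ y.val) (v : Lt (m + 3)) (c : ℤ) :
    (v + c • ev y : Lt (m + 3)) 0 = v 0 ∧ (v + c • ev y : Lt (m + 3)) 1 = v 1 := by
  simp only [Pi.add_apply, Pi.smul_apply, (combb_ev hy).1, (combb_ev hy).2, smul_zero, add_zero,
    and_self]

theorem gz_zero (j : ℕ) : (gz s lam j : Lt (m + 3)) 0 = (s + j : ℕ) := by
  simp [gz, ev_apply]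
theorem gz_one (j : ℕ) : (gz s lam j : Lt (m + 3)) 1 = (lam j : ℕ) := by
  simp [gz, ev_apply]
theorem gz_of_two_le (j : ℕ) {i : Fin (m + 3)} (hi : 2 ≤ i.val) :
    (gz s lam j : Lt (m + 3)) i = 0 := by
  simp [gz, ev_apply, (combb_ne hi).1, (combb_ne hi).2]
theorem gz_nonneg (j : ℕ) : 0 ≤ (gz s lam j : Lt (m + 3)) := fun i => by
  rcases combb_cases i with rfl | rfl | k
  · rw [gz_zero]
    exact Int.natCast_nonneg _
  · rw [gz_one]
    exact Int.natCast_nonneg _
  · exact (gz_of_two_le j k).ge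
theorem sum_gz (j : ℕ) : ∑ i, (gz s lam j : Lt (m + 3)) i = (s + j + lam j : ℕ) := by
  simp only [gz, Pi.add_apply, Pi.smul_apply, smul_eq_mul, Finset.sum_add_distrib,
    ← Finset.mul_sum, sum_ev]
  push_cast
  ring
theorem gz_le_iff {v : Lt (m + 3)} (hv : 0 ≤ v) (j : ℕ) :
    gz s lam j ≤ v ↔ ((s + j : ℕ) : ℤ) ≤ v 0 ∧ ((lam j : ℕ) : ℤ) ≤ v 1 := by
  refine ⟨fun h => ⟨gz_zero (m := m) j ▸ h 0, gz_one (m := m) (s := s) j ▸ h 1⟩, fun h i => ?_⟩
  rcases combb_cases i with rfl | rfl | k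
  · exact (gz_zero j).trans_le h.1
  · exact (gz_one j).trans_le h.2
  · exact (gz_of_two_le j k).trans_le (hv i)

theorem lam_add_le (hanti : ∀ j, j < r → lam (j + 1) < lam j) {a b : ℕ} (hab : a ≤ b)
    (hb : b ≤ r) : lam b + (b - a) ≤ lam a := by
  induction b, hab using Nat.le_induction with
  | base => simp
  | succ b hab ih =>
    have h1 := ih (by omega)
    have h2 := hanti b (by omega)
    omega

/-- `s` = least `0`-th coordinate in `A`; `lam j` = least `c` such that
`(s + j) e_0 + c e_1 + N e_2 ∈ A` for some `N`; `lam (j+1) < lam j` while `0 < lam j` by `stab`;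
`r` = first `j` with `lam j = 0`.  Use `SS.collapse`. -/
theorem exists_layers (h : SS A) (hne : A.Nonempty) : ∃ s r lam, Layers A s r lam := by
  classical
  have h2 : 2 ≤ (2 : Fin (m + 3)).val := le_rfl
  have e1 : ∃ s : ℕ, ∃ v ∈ A, v 0 = s :=
    let ⟨v, hv⟩ := hne
    ⟨(v 0).toNat, v, hv, (Int.toNat_of_nonneg (h.nonneg v hv 0)).symm⟩
  obtain ⟨s, ⟨v0, hv0, hs0⟩, hs⟩ : ∃ s : ℕ, (∃ v ∈ A, v 0 = s) ∧ ∀ v ∈ A, (s : ℤ) ≤ v 0 := by
    refine ⟨Nat.find e1, Nat.find_spec e1, fun v hv => ?_⟩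
    have k := Int.toNat_of_nonneg (h.nonneg v hv 0)
    have := Nat.find_min' e1 ⟨v, hv, k.symm⟩
    omega
  have key : ∀ u ∈ A, ∀ j c : ℕ, u 0 ≤ (s + j : ℕ) → u 1 ≤ c →
      ∃ N : ℕ, gz s (fun _ => c) j + (N : ℤ) • ev 2 ∈ A := fun u hu j c a b =>
    combb_coll h hu (gz_nonneg j) (a.trans_eq (gz_zero j).symm)
      (b.trans_eq (gz_one (lam := fun _ => c) j).symm)
  have e2 : ∀ j, ∃ c : ℕ, ∃ N : ℕ, gz s (fun _ => c) j + (N : ℤ) • ev 2 ∈ A := fun j =>
    ⟨(v0 1).toNat, key v0 hv0 j _ (by omega) (Int.self_le_toNat _)⟩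
  obtain ⟨lam, hl1, hl2⟩ : ∃ lam : ℕ → ℕ, (∀ j, ∃ N : ℕ, gz s lam j + (N : ℤ) • ev 2 ∈ A) ∧
      ∀ u ∈ A, ∀ j c : ℕ, u 0 ≤ (s + j : ℕ) → u 1 ≤ c → lam j ≤ c :=
    ⟨fun j => Nat.find (e2 j), fun j => Nat.find_spec (e2 j),
      fun u hu j c a b => Nat.find_min' (e2 j) (key u hu j c a b)⟩
  have hdec : ∀ j, lam j ≠ 0 → lam (j + 1) < lam j := fun j hj => by
    obtain ⟨N, hN⟩ := hl1 j
    obtain ⟨a0, a1⟩ := combb_add h2 (gz s lam j) (N : ℤ)
    rw [gz_zero] at a0
    rw [gz_one] at a1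
    have k := hl2 _ (h.stab _ hN 0 1 Fin.zero_lt_one (by omega)) (j + 1) (lam j - 1)
      (by
        simp only [Pi.add_apply, Pi.sub_apply, ev_apply] at a0 ⊢
        simp only [a0, if_true, Fin.zero_eq_one_iff]
        rw [if_neg (by omega)]
        omega)
      (by
        simp only [Pi.add_apply, Pi.sub_apply, ev_apply] at a1 ⊢
        simp only [a1, if_true, Fin.one_eq_zero_iff]
        rw [if_neg (by omega)]
        omega)
    omega
  have e3 : ∃ j, lam j = 0 := by
    by_contra hc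
    push Not at hc
    have := lam_add_le (r := lam 0 + 1) (fun j _ => hdec j (hc j)) (Nat.zero_le _) le_rfl
    omega
  refine ⟨s, Nat.find e3, lam, fun j hj => hdec j (Nat.find_min e3 hj), Nat.find_spec e3,
    fun v hv => ⟨fun ⟨N, hN⟩ => ?_, fun ⟨j, _, hj⟩ => ?_⟩⟩
  · obtain ⟨a0, a1⟩ := combb_add h2 v (N : ℤ)
    have b0 := hs _ hN
    have b1 : 0 ≤ v 1 := hv 1
    by_cases k : (v 0).toNat - s ≤ Nat.find e3
    · have := hl2 _ hN ((v 0).toNat - s) (v 1).toNat (by omega) (by omega)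
      exact ⟨_, k, (gz_le_iff hv _).2 ⟨by omega, by omega⟩⟩
    · have := Nat.find_spec e3
      exact ⟨_, le_rfl, (gz_le_iff hv _).2 ⟨by omega, by omega⟩⟩
  · obtain ⟨N, hN⟩ := hl1 j
    exact ⟨N, h.up_le hN (add_le_add_left hj _)⟩

theorem Layers.exists_le (hL : Layers A s r lam) (h : SS A) {v : Lt (m + 3)} (hv : v ∈ A) :
    ∃ j, j ≤ r ∧ gz s lam j ≤ v :=
  (hL.mem v (h.nonneg v hv)).1 ⟨0, by simpa using hv⟩

theorem Layers.gz_add (hL : Layers A s r lam) {j : ℕ} (hj : j ≤ r) :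
    ∃ N : ℕ, gz s lam j + (N : ℤ) • ev 2 ∈ A :=
  (hL.mem _ (gz_nonneg j)).2 ⟨j, hj, le_rfl⟩

/-- a point of layer `j` (or beyond the last layer) of the saturation dominates `gz j` -/
theorem Layers.le_of_layer (hL : Layers A s r lam) {v : Lt (m + 3)} (hv : 0 ≤ v) {N : ℕ}
    (hN : v + (N : ℤ) • ev 2 ∈ A) {j : ℕ} (hj : j ≤ r)
    (h0 : v 0 = (s + j : ℕ) ∨ (j = r ∧ ((s + j : ℕ) : ℤ) ≤ v 0)) : gz s lam j ≤ v := by
  obtain ⟨j', h1, h2⟩ := (hL.mem v hv).1 ⟨N, hN⟩
  obtain ⟨h3, h4⟩ := (gz_le_iff hv j').1 h2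
  refine (gz_le_iff hv j).2 ?_
  rcases h0 with h0 | ⟨rfl, h0⟩
  · have := lam_add_le hL.anti (show j' ≤ j by omega) hj
    exact ⟨h0.ge, by omega⟩
  · have h5 := hL.last
    exact ⟨h0, by omega⟩

/-- `lemZ` with `i = 0`, `i' = 1`, `l = 2` -/
theorem Layers.c1 (hL : Layers A s r lam) (h : SS A) (hN1 : N1 A) {j : ℕ} (hj : j ≤ r) :
    gz s lam j + ev 0 ∈ A := by
  obtain ⟨N, hN⟩ := hL.gz_add hj
  refine lemZ (l := 2) (i' := 1) (N := N) h hN1 (fun i hi => gz_of_two_le j hi) (gz_nonneg j)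
    Fin.zero_lt_one (Fin.lt_def.2 Nat.one_lt_two) ?_
  rw [add_right_comm]
  exact h.up _ hN 1

/-- condition `hS` of `tanW` for `θ₁ = gz j` -/
theorem Layers.condS (hL : Layers A s r lam) (h : SS A) {j : ℕ} (hj : j ≤ r) {l : Fin (m + 3)}
    (hl : 2 ≤ l.val) : ∀ v ∈ A, ∀ i, i < l →
      ¬ ∀ i', i' < l → v i' = (gz s lam j - ev i : Lt (m + 3)) i' := by
  intro v hv i hi H
  have hv0 := h.nonneg v hv
  obtain ⟨j', h1, h2⟩ := hL.exists_le h hv
  obtain ⟨h3, h4⟩ := (gz_le_iff hv0 j').1 h2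
  have a0 := H 0 (Fin.lt_def.2 (by rw [Fin.val_zero]; omega))
  have a1 := H 1 (Fin.lt_def.2 (by rw [Fin.val_one]; omega))
  rw [Pi.sub_apply, gz_zero, ev_apply] at a0
  rw [Pi.sub_apply, gz_one, ev_apply] at a1
  rcases combb_cases i with rfl | rfl | k
  · rw [if_pos rfl] at a0
    rw [if_neg Fin.zero_lt_one.ne'] at a1
    have := lam_add_le hL.anti (show j' ≤ j by omega) hj
    omega
  · rw [if_neg Fin.zero_lt_one.ne] at a0
    rw [if_pos rfl] at a1
    have := lam_add_le hL.anti (show j' ≤ j by omega) hj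
    omega
  · have a2 := H i hi
    rw [Pi.sub_apply, gz_of_two_le j k, ev_apply, if_pos rfl] at a2
    have : 0 ≤ v i := hv0 i
    omega

theorem layers_satZ (h : SS A) {y : Fin (m + 3)} (hy : 2 ≤ y.val) :
    Layers (satZ A y) s r lam ↔ Layers A s r lam := by
  have key : ∀ v : Lt (m + 3), 0 ≤ v → ((∃ N : ℕ, v + (N : ℤ) • ev 2 ∈ satZ A y) ↔
      ∃ N : ℕ, v + (N : ℤ) • ev 2 ∈ A) := fun v hv => by
    refine ⟨fun ⟨N, _, N', hN⟩ => ?_, fun ⟨N, hN⟩ => ⟨N, h.subset_satZ y hN⟩⟩
    obtain ⟨a0, a1⟩ := combb_add (y := 2) le_rfl v (N : ℤ)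
    obtain ⟨b0, b1⟩ := combb_add hy (v + (N : ℤ) • ev 2) (N' : ℤ)
    exact combb_coll h hN hv (b0.trans a0).le (b1.trans a1).le
  exact ⟨fun k => ⟨k.anti, k.last, fun v hv => (key v hv).symm.trans (k.mem v hv)⟩,
    fun k => ⟨k.anti, k.last, fun v hv => (key v hv).trans (k.mem v hv)⟩⟩

/-- the largest index `q` with a pure power `x_q^N` in `A : g` -/
theorem exists_top (h : SS A) {g : Lt (m + 3)} (h0 : 0 ≤ g) {N : ℕ}
    (hN : g + (N : ℤ) • ev 2 ∈ A) : ∃ q : Fin (m + 3), 2 ≤ q.val ∧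
      (∃ N : ℕ, g + (N : ℤ) • ev q ∈ A) ∧ ∀ q', q < q' → ∀ N : ℕ, g + (N : ℤ) • ev q' ∉ A := by
  obtain ⟨q, h1, h2⟩ := Set.Finite.exists_maximal
    (Set.toFinite {q : Fin (m + 3) | ∃ N : ℕ, g + (N : ℤ) • ev q ∈ A}) ⟨2, N, hN⟩
  refine ⟨q, ?_, h1, fun q' hq N' hN' => (h2 ⟨N', hN'⟩ hq.le).not_gt hq⟩
  by_contra k
  have k2 : q < 2 := Fin.lt_def.2 (not_le.1 k)
  exact (h2 ⟨N, hN⟩ k2.le).not_gt k2

end

end Pool.Agent.MP_24718c_ag

end

end partCombB

section partCombT

/-!
Two attachments are incompatible (`lemTA`).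
-/

set_option linter.unusedSectionVars false
set_option linter.unusedVariables false

open MvPolynomial

universe u

noncomputable section

namespace Pool.Agent.MP_24718c_ag

variable {m : ℕ} {A : Set (Lt (m + 3))} {s r : ℕ} {lam : ℕ → ℕ}

theorem combt_ev_same {n : ℕ} (i : Fin n) : ev i i = 1 := by rw [ev_apply, if_pos rfl]

theorem combt_ev_ne {n : ℕ} {i j : Fin n} (h : j ≠ i) : ev i j = 0 := by rw [ev_apply, if_neg h]

theorem combt_ev_nonneg {n : ℕ} (i j : Fin n) : 0 ≤ ev i j := by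
  rw [ev_apply]; split_ifs <;> norm_num

theorem combt_sum_ray {n : ℕ} (θ : Lt n) (c : ℤ) (i : Fin n) :
    ∑ j, (θ + c • ev i) j = ∑ j, θ j + c := by
  simp only [Pi.add_apply, Pi.smul_apply, smul_eq_mul, Finset.sum_add_distrib,
    ← Finset.mul_sum, sum_ev, mul_one]

theorem combt_ray_ne {n : ℕ} (θ : Lt n) (c : ℤ) {i j : Fin n} (h : j ≠ i) :
    (θ + c • ev i) j = θ j := by
  simp only [Pi.add_apply, Pi.smul_apply, smul_eq_mul, combt_ev_ne h, mul_zero, add_zero]

theorem combt_ray_nonneg {n : ℕ} {θ : Lt n} (h : 0 ≤ θ) {c : ℤ} (hc : 0 ≤ c) (i : Fin n) :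
    0 ≤ θ + c • ev i := fun j => by
  simp only [Pi.add_apply, Pi.smul_apply, smul_eq_mul, Pi.zero_apply]
  exact add_nonneg (h j) (mul_nonneg hc (combt_ev_nonneg i j))

theorem combt_ray_below {n : ℕ} {θ : Lt n} {p q : Fin n} (h : Below θ q) (hp : p < q) (c : ℤ) :
    Below (θ + c • ev p) q := fun j hj => by
  rw [combt_ray_ne θ c (ne_of_gt (hp.trans_le hj)), h j hj]

theorem combt_hT {n : ℕ} {B : Set (Lt n)} (h : SS B) {θ : Lt n} (h0 : 0 ≤ θ) {p q : Fin n}
    (hpq : p.val + 1 = q.val) (hp : θ + ev p ∈ B) : ∀ i, i < q → θ + ev i ∈ B := by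
  intro i hi
  have hip : i ≤ p := by
    rw [Fin.le_def]; rw [Fin.lt_def] at hi; omega
  have := h.move hp hip (c := 1) zero_le_one (by
    have : (0 : ℤ) ≤ θ p := h0 p
    rw [Pi.add_apply, combt_ev_same]; omega)
  rwa [one_smul, one_smul, add_sub_cancel_right] at this

theorem combt_sum_ge (w : Lt (m + 3)) (hw : ∀ j : Fin (m + 3), 2 ≤ j.val → 0 ≤ w j) :
    w 0 + w 1 ≤ ∑ j, w j := by
  rw [Fin.sum_univ_succ, Fin.sum_univ_succ]
  refine add_le_add le_rfl (le_add_of_nonneg_right (Finset.sum_nonneg fun j _ => hw _ ?_))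
  simp only [Fin.val_succ]; omega

theorem combt_gz_ev_le {j : ℕ} {θ : Lt (m + 3)} (h0 : 0 ≤ θ) (h1 : ((s + j : ℕ) : ℤ) < θ 0)
    (h2 : ((lam j : ℕ) : ℤ) ≤ θ 1) : gz s lam j + ev 0 ≤ θ := by
  intro i
  show (gz s lam j i + ev 0 i : ℤ) ≤ θ i
  by_cases e0 : i = 0
  · subst e0; rw [gz_zero, combt_ev_same]; omega
  rw [combt_ev_ne e0, add_zero]
  by_cases e1 : i = 1
  · subst e1; rw [gz_one]; exact h2
  have : 2 ≤ i.val := by
    have a0 : i.val ≠ 0 := fun e => e0 (Fin.ext e)
    have a1 : i.val ≠ 1 := fun e => e1 (Fin.ext e)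
    omega
  rw [gz_of_two_le j this]; exact h0 i

/-- Write `g = gz a`.  `q < z` (freeness and `g ∉ A`), let `q'` be the next and `p` the previous
index.  Let `P` be the minimal `q`-th coordinate over the head `g` (`exists_min_fibre`); `1 ≤ P`
by the maximality of `q`, and `g + (P+1) e_p ∈ A` by `lemZ2`.
Let `𝒯` be the set of `θ ≥ 0` with `Below θ q`, `θ 0 = s + b`, `lam b ≤ θ 1`, `θ ∉ A`,
`θ + e_p ∈ A`.  It is nonempty: truncate `t` to the indices `< q` (still outside `A`), `collapse`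
`t + e_h` onto `p` (note `1 ≤ p ≤ h`), then `exists_first` along `p`.  Take `θ₂ ∈ 𝒯` with
minimal coordinate sum.  By `c1` for `b - 1`: `θ₂ 1 < lam (b-1) ≤ lam a - (b - 1 - a)`.
(→) `tanWN` at level `q` with `θ₁ = g`, `condS`, negative coordinate `1`: `P < ∑ θ₂ - ∑ g`.
If `q = 2` then `∑ θ₂ = s + b + θ₂ 1 ≤ ∑ g`, contradiction.  So `2 ≤ p`.
(←) Let `θ₂' = g + c e_p` be the last point outside `A` on the ray (`c ≤ P`), and `θ₁'` minimal
below `θ₂ + e_p` in the set `{θ ≥ 0 | Below θ q ∧ ∃ N, θ + N e_q ∈ A}` (`exists_minimal_le`; this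
gives `hS` via `collapse`).  `θ₁'` dominates some `gz j`, `j ≤ b`, and `θ₁' 1 ≤ θ₂ 1`; if
`j < b` then `gz j + e_0 ≤ θ₂`, contradicting `c1`; so `j = b`, `θ₁' 0 = s + b`,
`lam b ≤ θ₁' 1`.  Let `R` be the minimal `q`-th
coordinate over the head `θ₁'`; `θ₁' + (R+1) e_p ∈ A` by `lemZ2`.  If `θ₁' ∉ A`, the last point
outside `A` on the ray from `θ₁'` along `p` is in `𝒯`, so `∑ θ₂ ≤ ∑ θ₁' + R`; if `θ₁' ∈ A` then
`1 ≤ θ₁' p` and `θ₁' - e_p ∈ 𝒯`, so `∑ θ₂ ≤ ∑ θ₁' - 1`.  In both cases
`∑ θ₂' - ∑ θ₁' ≤ ∑ g + P - ∑ θ₁' < ∑ θ₂ - ∑ θ₁' ≤ R`.  Apply `tanWN` with negative coordinate `0`;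
if `R = 0` a second negative coordinate exists, since otherwise
`∑ θ₂' - ∑ θ₁' ≥ (a - b) + (lam a - θ₁' 1) ≥ 0`. -/
theorem lemTA (h : SS A) (hz : Free A (zi (m + 1))) (hN1 : N1 A) (hL : Layers A s r lam)
    {a b : ℕ} (hab : a < b) (hb : b ≤ r) (ha : gz s lam a ∉ A) {q : Fin (m + 3)}
    (hq : ∃ N : ℕ, gz s lam a + (N : ℤ) • ev q ∈ A)
    (hq' : ∀ q', q < q' → ∀ N : ℕ, gz s lam a + (N : ℤ) • ev q' ∉ A)
    {t : Lt (m + 3)} (ht : gz s lam b ≤ t) (ht0 : t 0 = (s + b : ℕ)) (htA : t ∉ A)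
    {k : Fin (m + 3)} (hk : q.val ≤ k.val + 1) (htk : t + ev k ∈ A) : False := by
  have har : a ≤ r := by omega
  have hq2 : 2 ≤ q.val := by
    by_contra hlt
    obtain ⟨N, hN⟩ := hL.gz_add har
    refine hq' 2 ?_ N hN
    rw [Fin.lt_def]
    have : (2 : Fin (m + 3)).val = 2 := rfl
    omega
  obtain ⟨Nq, hNq⟩ := hq
  have g0 : 0 ≤ (gz s lam a : Lt (m + 3)) := gz_nonneg a
  have hqz : q.val < m + 2 := by
    by_contra hlt
    have e : q = zi (m + 1) := Fin.ext (by
      have := q.isLt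
      have e' : (zi (m + 1)).val = m + 2 := rfl
      omega)
    rw [e] at hNq
    exact ha (hz.add_smul g0 (Int.natCast_nonneg _) hNq)
  obtain ⟨q', hqq⟩ : ∃ q' : Fin (m + 3), q.val + 1 = q'.val := ⟨⟨q.val + 1, by omega⟩, rfl⟩
  obtain ⟨p, hpq⟩ : ∃ p : Fin (m + 3), p.val + 1 = q.val :=
    ⟨⟨q.val - 1, by omega⟩, by simp only []; omega⟩
  have hpltq : p < q := by rw [Fin.lt_def]; omega
  have v0 : (0 : Fin (m + 3)).val = 0 := rfl
  have v1 : (1 : Fin (m + 3)).val = 1 := rfl
  have hp0 : (0 : Fin (m + 3)) ≠ p := fun e => by rw [← e] at hpq; omega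
  have gB : Below (gz s lam a : Lt (m + 3)) q := fun i hi =>
    gz_of_two_le a (by rw [Fin.le_def] at hi; omega)
  obtain ⟨P, hP0, hP, NP, hNP⟩ := exists_min_fibre h hqq gB hNq
  have hP1 : 1 ≤ P := by
    by_contra hlt
    have e : P = 0 := by omega
    rw [e, zero_smul, add_zero] at hNP
    exact hq' q' (by rw [Fin.lt_def]; omega) NP hNP
  have hgP := lemZ2 h hN1 hpq hqq gB g0 hP0 hNP
  let T : Lt (m + 3) → Prop := fun θ => 0 ≤ θ ∧ Below θ q ∧ θ 0 = (s + b : ℕ) ∧
    ((lam b : ℕ) : ℤ) ≤ θ 1 ∧ θ ∉ A ∧ θ + ev p ∈ A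
  have t0 : 0 ≤ t := (gz_nonneg b).trans ht
  have hTne : ∃ θ, T θ := by
    let u : Lt (m + 3) := fun i => if i < q then t i else 0
    have u0 : 0 ≤ u := fun i => by
      simp only [u, Pi.zero_apply]; split_ifs
      · exact t0 i
      · exact le_rfl
    have ut : u ≤ t := fun i => by
      simp only [u]; split_ifs
      · exact le_rfl
      · exact t0 i
    have uA : u ∉ A := fun e => htA (h.up_le e ut)
    have uB : Below u q := fun i hi => if_neg (not_lt.2 hi)
    obtain ⟨N, hN⟩ := h.collapse htk p u0 (fun i hi => by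
      have : i ≠ k := fun e => by rw [Fin.lt_def, e] at hi; omega
      rw [Pi.add_apply, combt_ev_ne this, add_zero]
      exact (if_pos (hi.trans hpltq)).ge)
    obtain ⟨c, -, hc1, hc2⟩ := exists_first uA hN
    refine ⟨u + (c : ℤ) • ev p, combt_ray_nonneg u0 (Int.natCast_nonneg _) p,
      combt_ray_below uB hpltq _, ?_, ?_, hc1, hc2⟩
    · rw [combt_ray_ne u _ hp0, ← ht0]
      exact if_pos (by rw [Fin.lt_def]; omega)
    · have e1 : u 1 = t 1 := if_pos (by rw [Fin.lt_def]; omega)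
      have e2 : (gz s lam b 1 : ℤ) ≤ t 1 := ht 1
      rw [gz_one] at e2
      have e3 := mul_nonneg (Int.natCast_nonneg c) (combt_ev_nonneg p 1)
      simp only [Pi.add_apply, Pi.smul_apply, smul_eq_mul]
      omega
  obtain ⟨z, ⟨θ₂, hθ₂, hz2⟩, hmin⟩ := Int.exists_least_of_bdd
    (P := fun z => ∃ θ, T θ ∧ ∑ i, θ i = z)
    ⟨0, by rintro z ⟨θ, a, rfl⟩; exact Finset.sum_nonneg fun i _ => a.1 i⟩
    (let ⟨θ, a⟩ := hTne; ⟨_, θ, a, rfl⟩)
  have hmin' : ∀ θ, T θ → ∑ i, θ₂ i ≤ ∑ i, θ i := fun θ a => hz2 ▸ hmin _ ⟨θ, a, rfl⟩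
  obtain ⟨x0, xB, x00, x1, xA, xp⟩ := hθ₂
  have hlow : ∀ j, j < b → θ₂ 1 < ((lam j : ℕ) : ℤ) := fun j hj => by
    by_contra hn
    refine xA (h.up_le (hL.c1 h hN1 (j := j) (by omega)) (combt_gz_ev_le x0 ?_ (not_lt.1 hn)))
    rw [x00]; push_cast; omega
  have hl1 := hlow (b - 1) (by omega)
  have hl2 := lam_add_le hL.anti (a := a) (b := b - 1) (by omega) (by omega)
  have hkey : θ₂ 1 + b ≤ (lam a : ℤ) + a := by omega
  have hA : P < ∑ j, θ₂ j - ∑ j, (gz s lam a : Lt (m + 3)) j :=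
    tanWN h hN1 gB xB x0 xA hNq (hL.condS h har hq2) (combt_hT h x0 hpq xp) hP0 hP (i := 1)
      (by rw [gz_one]; omega) (Or.inl hP1)
  rw [sum_gz] at hA
  have hq3 : 3 ≤ q.val := by
    by_contra hlt
    have := combt_sum_ge (-θ₂) (fun j hj => by
      rw [Pi.neg_apply, xB j (by rw [Fin.le_def]; omega)]; exact le_rfl)
    simp only [Pi.neg_apply, Finset.sum_neg_distrib] at this
    rw [x00] at this
    push_cast at this hA
    omega
  have hp1 : (1 : Fin (m + 3)) ≠ p := fun e => by rw [← e] at hpq; omega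
  obtain ⟨c, hc0, hc1, hc2⟩ := exists_first ha (N := (P + 1).toNat) (i := p)
    (by rwa [Int.toNat_of_nonneg (by omega)])
  have y0 := combt_ray_nonneg g0 (Int.natCast_nonneg c) p
  have yB := combt_ray_below gB hpltq (c : ℤ)
  let S : Set (Lt (m + 3)) := {θ | 0 ≤ θ ∧ Below θ q ∧ ∃ N : ℕ, θ + (N : ℤ) • ev q ∈ A}
  have hSA : ∀ θ ∈ A, Below θ q → θ ∈ S := fun θ a b =>
    ⟨h.nonneg θ a, b, 0, by rwa [Nat.cast_zero, zero_smul, add_zero]⟩
  obtain ⟨θ₁, ⟨w0, wB, Nw, hNw⟩, wle, wmin⟩ := exists_minimal_le (A := S) (v := θ₂ + ev p)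
    (fun u a => a.1) (hSA _ xp (by simpa only [one_smul] using combt_ray_below xB hpltq 1))
  have hS : ∀ v ∈ A, ∀ i, i < q → ¬ ∀ j, j < q → v j = (θ₁ - ev i) j := by
    intro v hv i hi H
    have uB : Below (θ₁ - ev i) q := fun j hj => by
      rw [Pi.sub_apply, wB j hj, combt_ev_ne (ne_of_gt (hi.trans_le hj)), sub_zero]
    have u0 : 0 ≤ θ₁ - ev i := fun j => by
      rcases lt_or_ge j q with hj | hj
      · rw [← H j hj]; exact h.nonneg v hv j
      · rw [uB j hj]; exact le_rfl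
    exact wmin i ⟨u0, uB, h.collapse hv q u0 fun j hj => (H j hj).le⟩
  have wle' : ∀ j, j ≠ p → (θ₁ j : ℤ) ≤ θ₂ j := fun j hj => by
    have := wle j
    rwa [Pi.add_apply, combt_ev_ne hj, add_zero] at this
  have w00 := wle' 0 hp0
  have w01 := wle' 1 hp1
  obtain ⟨j, hjr, hj⟩ := hL.exists_le h hNw
  have hj0 : (gz s lam j 0 : ℤ) ≤ (θ₁ + (Nw : ℤ) • ev q) 0 := hj 0
  have hj1 : (gz s lam j 1 : ℤ) ≤ (θ₁ + (Nw : ℤ) • ev q) 1 := hj 1
  rw [gz_zero, combt_ray_ne θ₁ _ (fun e => by rw [← e] at hq2; omega)] at hj0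
  rw [gz_one, combt_ray_ne θ₁ _ (fun e => by rw [← e] at hq2; omega)] at hj1
  have hjb : j = b := by
    rcases lt_trichotomy j b with e | e | e
    · have := hlow j e; omega
    · exact e
    · rw [x00] at w00; push_cast at w00 hj0; omega
  subst hjb
  have w0e : θ₁ 0 = (s + j : ℕ) := le_antisymm (x00 ▸ w00) hj0
  obtain ⟨R, hR0, hR, NR, hNR⟩ := exists_min_fibre h hqq wB hNw
  have hwR := lemZ2 h hN1 hpq hqq wB w0 hR0 hNR
  have hsum : ∑ i, θ₂ i ≤ ∑ i, θ₁ i + R := by
    by_cases hw : θ₁ ∈ A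
    · have hp' : 1 ≤ θ₁ p := by
        by_contra hn
        refine xA (h.up_le hw fun i => ?_)
        by_cases e : i = p
        · have : (0 : ℤ) ≤ θ₂ p := x0 p
          rw [e]
          show (θ₁ p : ℤ) ≤ θ₂ p
          omega
        · exact wle' i e
      have e : θ₁ - ev p = θ₁ + (-1 : ℤ) • ev p := by rw [neg_smul, one_smul, sub_eq_add_neg]
      have uB : Below (θ₁ - ev p) q := e ▸ combt_ray_below wB hpltq _
      have := hmin' (θ₁ - ev p) ⟨fun i => ?_, uB, ?_, ?_, fun a => wmin p (hSA _ a uB),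
        by rwa [sub_add_cancel]⟩
      · rw [e, combt_sum_ray] at this; omega
      · by_cases e' : i = p
        · rw [e']
          show (0 : ℤ) ≤ θ₁ p - ev p p
          rw [combt_ev_same]; omega
        · rw [Pi.sub_apply, combt_ev_ne e', sub_zero]; exact w0 i
      · rw [e, combt_ray_ne θ₁ _ hp0, w0e]
      · rw [e, combt_ray_ne θ₁ _ hp1]; exact hj1
    · obtain ⟨d, hd0, hd1, hd2⟩ := exists_first hw (N := (R + 1).toNat) (i := p)
        (by rwa [Int.toNat_of_nonneg (by omega)])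
      have := hmin' (θ₁ + (d : ℤ) • ev p) ⟨combt_ray_nonneg w0 (Int.natCast_nonneg d) p,
        combt_ray_below wB hpltq _, by rw [combt_ray_ne θ₁ _ hp0, w0e],
        by rw [combt_ray_ne θ₁ _ hp1]; exact hj1, hd1, hd2⟩
      rw [combt_sum_ray] at this
      omega
  have ys : ∑ i, (gz s lam a + (c : ℤ) • ev p : Lt (m + 3)) i = (s + a + lam a : ℕ) + c := by
    rw [combt_sum_ray, sum_gz]
  have y00 : (gz s lam a + (c : ℤ) • ev p : Lt (m + 3)) 0 = (s + a : ℕ) := by
    rw [combt_ray_ne _ _ hp0, gz_zero]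
  have y01 : (gz s lam a + (c : ℤ) • ev p : Lt (m + 3)) 1 = (lam a : ℕ) := by
    rw [combt_ray_ne _ _ hp1, gz_one]
  have hB : R < ∑ i, (gz s lam a + (c : ℤ) • ev p : Lt (m + 3)) i - ∑ i, θ₁ i := by
    refine tanWN h hN1 wB yB y0 hc1 hNw hS (combt_hT h y0 hpq hc2) hR0 hR (i := 0)
      (by rw [y00, w0e]; push_cast; omega) ?_
    by_contra hn
    rw [not_or, not_exists] at hn
    have := combt_sum_ge ((gz s lam a + (c : ℤ) • ev p : Lt (m + 3)) - θ₁) (fun i hi => by
      have := hn.2 i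
      rw [not_and, not_lt] at this
      rw [Pi.sub_apply, sub_nonneg]
      exact this fun e => by rw [e] at hi; omega)
    simp only [Pi.sub_apply, Finset.sum_sub_distrib] at this
    rw [ys, y00, y01, w0e] at this
    have h1 := hn.1
    push_cast at this hA
    omega
  rw [ys] at hB
  push_cast at hA hB
  omega

end Pool.Agent.MP_24718c_ag

end

end partCombT

section partCombC

/-!
Single attachment, slices.
-/

set_option linter.unusedSectionVars false
set_option linter.unusedVariables false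

open MvPolynomial

universe u

noncomputable section

namespace Pool.Agent.MP_24718c_ag

variable {m : ℕ} {A : Set (Lt (m + 3))} {s r : ℕ} {lam : ℕ → ℕ}

theorem combc_ev_nonneg {n : ℕ} (i : Fin n) : (0 : Lt n) ≤ ev i := by
  intro j
  rw [ev_apply]
  split_ifs <;> simp

theorem combc_cons_add {n : ℕ} (u v : Lt n) :
    (Fin.cons 0 (u + v) : Lt (n + 1)) = Fin.cons 0 u + Fin.cons 0 v := by
  funext i
  refine Fin.cases ?_ (fun k => ?_) i <;> simp

theorem combc_cons_sub {n : ℕ} (u v : Lt n) :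
    (Fin.cons 0 (u - v) : Lt (n + 1)) = Fin.cons 0 u - Fin.cons 0 v := by
  funext i
  refine Fin.cases ?_ (fun k => ?_) i <;> simp

theorem combc_cons_smul {n : ℕ} (c : ℤ) (u : Lt n) :
    (Fin.cons 0 (c • u) : Lt (n + 1)) = c • (Fin.cons 0 u : Lt (n + 1)) := by
  funext i
  refine Fin.cases ?_ (fun k => ?_) i <;> simp

theorem combc_cons_ev {n : ℕ} (i : Fin n) :
    (Fin.cons 0 (ev i) : Lt (n + 1)) = ev i.succ := by
  funext j
  refine Fin.cases ?_ (fun k => ?_) j
  · rw [ev_apply, if_neg (Fin.succ_ne_zero i).symm]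
    simp
  · rw [ev_apply, Fin.cons_succ, ev_apply]
    simp [Fin.succ_inj]

theorem combc_cons_nonneg {n : ℕ} {u : Lt n} (hu : 0 ≤ u) : (0 : Lt (n + 1)) ≤ Fin.cons 0 u := by
  intro j
  refine Fin.cases ?_ (fun k => ?_) j
  · simp
  · simpa using hu k

theorem combc_sum_cons {n : ℕ} (u : Lt n) :
    ∑ i, (Fin.cons 0 u : Lt (n + 1)) i = ∑ i, u i := by
  rw [Fin.sum_univ_succ]
  simp

theorem combc_ev_succ_zero {n : ℕ} (i : Fin n) : (ev i.succ : Lt (n + 1)) 0 = 0 := by
  rw [ev_apply, if_neg (Fin.succ_ne_zero i).symm]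

theorem combc_ev_zero_succ {n : ℕ} (i : Fin n) : (ev 0 : Lt (n + 1)) i.succ = 0 := by
  rw [ev_apply, if_neg (Fin.succ_ne_zero i)]

theorem combc_yi_val (n : ℕ) : (yi n).val = n := by simp [yi]

theorem combc_zi_val (n : ℕ) : (zi n).val = n + 1 := by simp [zi]

/-- moving one unit to a larger variable -/
theorem combc_move_one {n : ℕ} {B : Set (Lt n)} (h : SS B) {v : Lt n} (hv : 0 ≤ v) {i j : Fin n}
    (hij : i ≤ j) {c : ℤ} (hc : 0 ≤ c) (hm : v + c • ev j ∈ B) : v + c • ev i ∈ B := by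
  have h1 : c ≤ (v + c • ev j) j := by
    have := hv j
    simp only [Pi.add_apply, Pi.smul_apply, ev_apply, if_true, smul_eq_mul, mul_one]
    simpa using this
  have h2 := h.move hm hij hc h1
  have e : v + c • ev j - c • ev j + c • ev i = v + c • ev i := by abel
  rwa [e] at h2

/-- a point of `A` in layer `j` dominates `gz j` -/
theorem combc_dom (h : SS A) (hL : Layers A s r lam) {j : ℕ} (hj : j ≤ r) {v : Lt (m + 3)}
    (hv : v ∈ A) (h0 : v 0 = (s + j : ℕ)) : gz s lam j ≤ v :=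
  hL.le_of_layer (h.nonneg v hv) (N := 0) (by simpa using hv) hj (Or.inl h0)

/-- `2 ≤ y` (else `y = 1`, `z = 2` and freeness puts `gz js` in `A`).  `μ + e_2 ∈ A`, so `μ`
dominates some `gz j`; by `c1` for `r`, `μ 0 = s + b` with `b ≤ r`, and `gz b ≤ μ`, `gz b ∉ A`.
Let `q`, `q_b` be the top indices (`exists_top`) of `gz js`, `gz b`; `q < y`.
If `js < b`: `lemTA` with `t = μ`, `k = y`.  If `b < js` and `q_b ≤ q + 1`: `lemTA` for the pair
`(b, js)` with `t` the last point outside `A` on the ray from `gz js` along `q`.  If `b < js` and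
`q + 2 ≤ q_b`: `lemZ` gives `gz b + e_q ∈ A`, so `μ q = 0`; a minimal point `g` of `A` below
`gz js + N e_q` has `g 0 = s + js` and `1 ≤ g q`; `μ` is a socle point (`stab`), and `SG` fails
in the coordinates `0`, `q`. -/
theorem attach_key (h : SS A) (hz : Free A (zi (m + 1))) (hN1 : N1 A) (hSG : SG A (zi (m + 1)))
    (hL : Layers A s r lam) {js : ℕ} (hjs : js ≤ r) (hg : gz s lam js ∉ satZ A (yi (m + 1)))
    {μ : Lt (m + 3)} (h0 : 0 ≤ μ) (hμ : μ ∉ A) (hμy : μ + ev (yi (m + 1)) ∈ A) :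
    gz s lam js ≤ μ ∧ μ 0 = (s + js : ℕ) := by
  have hgA : gz s lam js ∉ A := fun hh => hg (h.subset_satZ _ hh)
  have hyv : (yi (m + 1)).val = m + 1 := combc_yi_val _
  have hzv : (zi (m + 1)).val = m + 2 := combc_zi_val _
  have h2v : (2 : Fin (m + 3)).val = 2 := rfl
  obtain ⟨N0, hN0⟩ := hL.gz_add hjs
  have hm : 1 ≤ m := by
    by_contra hm
    have hm0 : m = 0 := by omega
    have e : (2 : Fin (m + 3)) = zi (m + 1) := Fin.ext (by rw [h2v, hzv]; omega)
    rw [e] at hN0
    exact hgA (hz.add_smul (gz_nonneg js) (Int.natCast_nonneg _) hN0)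
  have hμi : ∀ i : Fin (m + 3), i ≤ yi (m + 1) → μ + ev i ∈ A := by
    intro i hi
    have := combc_move_one h h0 hi (c := 1) zero_le_one (by simpa using hμy)
    simpa using this
  have hμ2 : μ + ((1 : ℕ) : ℤ) • ev 2 ∈ A := by
    have := hμi 2 (by rw [Fin.le_def, h2v, hyv]; omega)
    simpa using this
  obtain ⟨j, hj, hjμ⟩ := (hL.mem μ h0).1 ⟨1, hμ2⟩
  have hj0 := ((gz_le_iff h0 j).1 hjμ).1
  have hup : μ 0 ≤ ((s + r : ℕ) : ℤ) := by
    by_contra hc
    apply hμ
    refine h.up_le (hL.c1 h hN1 le_rfl) ?_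
    intro i
    by_cases hi0 : i = 0
    · subst hi0
      simp only [Pi.add_apply, gz_zero, ev_apply, if_true]
      omega
    · have e1 : (ev 0 : Lt (m + 3)) i = 0 := by rw [ev_apply, if_neg hi0]
      have h0i : (0 : ℤ) ≤ μ i := h0 i
      by_cases hi1 : i = 1
      · subst hi1
        simp only [Pi.add_apply, gz_one, e1, hL.last]
        simpa using h0i
      · have hi2 : 2 ≤ i.val := by
          have a0 : i.val ≠ 0 := fun hh => hi0 (Fin.ext hh)
          have a1 : i.val ≠ 1 := fun hh => hi1 (Fin.ext hh)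
          omega
        simp only [Pi.add_apply, gz_of_two_le _ hi2, e1]
        simpa using h0i
  obtain ⟨b, hb, hμb⟩ : ∃ b : ℕ, b ≤ r ∧ μ 0 = ((s + b : ℕ) : ℤ) :=
    ⟨(μ 0 - s).toNat, by omega, by omega⟩
  have hbμ : gz s lam b ≤ μ := hL.le_of_layer h0 hμ2 hb (Or.inl hμb)
  have hbA : gz s lam b ∉ A := fun hh => hμ (h.up_le hh hbμ)
  obtain ⟨q, hq2, ⟨Nq, hNq⟩, hqtop⟩ := exists_top h (gz_nonneg js) hN0
  have hqy : q < yi (m + 1) := by
    by_contra hc
    exact hg ⟨gz_nonneg js, Nq,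
      combc_move_one h (gz_nonneg js) (not_lt.1 hc) (Int.natCast_nonneg _) hNq⟩
  have hq0 : (0 : Fin (m + 3)) ≠ q := by
    intro hh
    rw [← hh] at hq2
    simp at hq2
  rcases lt_trichotomy js b with hlt | heq | hlt
  · exact (lemTA h hz hN1 hL hlt hb hgA ⟨Nq, hNq⟩ hqtop hbμ hμb hμ
      (k := yi (m + 1)) (by rw [Fin.lt_def] at hqy; omega) hμy).elim
  · subst heq
    exact ⟨hbμ, hμb⟩
  · exfalso
    obtain ⟨Nb, hNb⟩ := hL.gz_add hb
    obtain ⟨qb, hqb2, ⟨Nqb, hNqb⟩, hqbtop⟩ := exists_top h (gz_nonneg b) hNb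
    by_cases hc : qb.val ≤ q.val + 1
    · obtain ⟨c, -, hc1, hc2⟩ := exists_first hgA hNq
      refine lemTA h hz hN1 hL hlt hjs hbA ⟨Nqb, hNqb⟩ hqbtop ?_ ?_ hc1 hc hc2
      · exact le_add_of_nonneg_right (smul_nonneg (Int.natCast_nonneg _) (combc_ev_nonneg q))
      · simp only [Pi.add_apply, Pi.smul_apply, gz_zero, ev_apply, if_neg hq0, smul_eq_mul,
          mul_zero, add_zero]
    · have hq1 : q.val + 1 < m + 3 := by have := qb.isLt; omega
      have hbel : Below (gz s lam b : Lt (m + 3)) qb := by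
        intro i hi
        rw [Fin.le_def] at hi
        exact gz_of_two_le b (by omega)
      have hmem : gz s lam b + ev (⟨q.val + 1, hq1⟩ : Fin (m + 3)) + (Nqb : ℤ) • ev qb ∈ A := by
        have := h.up _ hNqb ⟨q.val + 1, hq1⟩
        rwa [add_right_comm] at this
      have hbq : gz s lam b + ev q ∈ A :=
        lemZ h hN1 hbel (gz_nonneg b) (i := q) (i' := ⟨q.val + 1, hq1⟩)
          (by rw [Fin.lt_def]; simp) (by rw [Fin.lt_def]; simp; omega) hmem
      have hμq : μ q ≤ 0 := by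
        by_contra hc'
        apply hμ
        refine h.up_le hbq ?_
        intro i
        by_cases hi : i = q
        · subst hi
          simp only [Pi.add_apply, gz_of_two_le _ hq2, ev_apply, if_true]
          omega
        · have := hbμ i
          simp only [Pi.add_apply, ev_apply, if_neg hi, add_zero]
          exact this
      obtain ⟨g, hgA', hgle, hgmin⟩ := exists_minimal_le h.nonneg hNq
      have hg0 := h.nonneg g hgA'
      obtain ⟨j', hj', hj'g⟩ := hL.exists_le h hgA'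
      obtain ⟨hj'0, hj'1⟩ := (gz_le_iff hg0 j').1 hj'g
      have hq1' : (1 : Fin (m + 3)) ≠ q := by
        intro hh
        rw [← hh] at hq2
        simp at hq2
      have hg1 : g 1 ≤ (lam js : ℤ) := by
        have := hgle 1
        simpa only [Pi.add_apply, Pi.smul_apply, gz_one, ev_apply, if_neg hq1', smul_eq_mul,
          mul_zero, add_zero] using this
      have hjj : js ≤ j' := by
        by_contra hc'
        have := lam_add_le hL.anti (a := j') (b := js) (by omega) hjs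
        omega
      have hgq : 1 ≤ g q := by
        by_contra hc'
        apply hgA
        refine h.up_le hgA' ?_
        intro i
        by_cases hi : i = q
        · subst hi
          have a1 : g i ≤ (0 : ℤ) := by omega
          rw [gz_of_two_le _ hq2]
          exact a1
        · have := hgle i
          simpa only [Pi.add_apply, Pi.smul_apply, ev_apply, if_neg hi, smul_eq_mul,
            mul_zero, add_zero] using this
      refine hSG g hgA' hgmin μ h0 hμ ?_ 0 q hq0 ?_ ?_ ?_ ?_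
      · intro i hi
        apply hμi
        have a1 : i.val ≠ m + 2 := fun hh => hi (Fin.ext (hh.trans hzv.symm))
        have := i.isLt
        rw [Fin.le_def, hyv]
        omega
      · intro hh
        have := congrArg Fin.val hh
        rw [hzv] at this
        simp at this
      · intro hh
        rw [hh, Fin.lt_def, hyv, hzv] at hqy
        omega
      · rw [hμb]
        push_cast at hj'0 ⊢
        omega
      · omega

/-- If `gz j ∉ satZ`, apply `attach_key` for `j` and `js` to a witness of `¬ Free`; otherwise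
apply it to the last point outside `A` on the ray from `gz j` along `y`. -/
theorem attach_others (h : SS A) (hz : Free A (zi (m + 1))) (hy : ¬ Free A (yi (m + 1)))
    (hN1 : N1 A) (hSG : SG A (zi (m + 1))) (hL : Layers A s r lam) {js : ℕ} (hjs : js ≤ r)
    (hg : gz s lam js ∉ satZ A (yi (m + 1))) {j : ℕ} (hj : j ≤ r) (hne : j ≠ js) :
    gz s lam j ∈ A := by
  by_contra hjA
  by_cases hsat : gz s lam j ∈ satZ A (yi (m + 1))
  · obtain ⟨-, N, hN⟩ := hsat
    obtain ⟨c, -, hc1, hc2⟩ := exists_first hjA hN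
    have hy0 : (0 : Fin (m + 3)) ≠ yi (m + 1) := by
      intro hh
      have := congrArg Fin.val hh
      rw [combc_yi_val] at this
      simp at this
    have h1 := (attach_key h hz hN1 hSG hL hjs hg
      (add_nonneg (gz_nonneg j) (smul_nonneg (Int.natCast_nonneg c) (combc_ev_nonneg _)))
      hc1 hc2).2
    simp only [Pi.add_apply, Pi.smul_apply, gz_zero, ev_apply, if_neg hy0, smul_eq_mul,
      mul_zero, add_zero] at h1
    omega
  · unfold Free at hy
    push Not at hy
    obtain ⟨v, hv0, hvy, hv⟩ := hy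
    have h1 := (attach_key h hz hN1 hSG hL hjs hg hv0 hv hvy).2
    have h2 := (attach_key h hz hN1 hSG hL hj hsat hv0 hv hvy).2
    omega

theorem SS.slice {n : ℕ} {A : Set (Lt (n + 1))} (h : SS A) {g : Lt (n + 1)} (hg : 0 ≤ g) :
    SS (slice A g) := by
  refine ⟨fun v hv => hv.1, fun v hv i => ⟨add_nonneg hv.1 (combc_ev_nonneg i), ?_⟩,
    fun v hv i j hij h1 => ⟨?_, ?_⟩⟩
  · rw [combc_cons_add, combc_cons_ev, ← add_assoc]
    exact h.up _ hv.2 _
  · refine add_nonneg ?_ (combc_ev_nonneg i)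
    intro k
    have hk : (0 : ℤ) ≤ v k := hv.1 k
    by_cases hkj : k = j
    · subst hkj
      simp only [Pi.sub_apply, Pi.zero_apply, ev_apply, if_true]
      omega
    · simp only [Pi.sub_apply, Pi.zero_apply, ev_apply, if_neg hkj]
      omega
  · have h2 : 1 ≤ (g + Fin.cons 0 v : Lt (n + 1)) j.succ := by
      have : (0 : ℤ) ≤ g j.succ := hg j.succ
      simp only [Pi.add_apply, Fin.cons_succ]
      omega
    have h3 := h.stab _ hv.2 i.succ j.succ (Fin.succ_lt_succ_iff.2 hij) h2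
    rw [combc_cons_add, combc_cons_sub, combc_cons_ev, combc_cons_ev]
    have e : g + (Fin.cons 0 v - ev j.succ + ev i.succ) =
        g + Fin.cons 0 v - ev j.succ + ev i.succ := by abel
    rw [e]
    exact h3

theorem Free.slice {n : ℕ} {A : Set (Lt (n + 1))} {i : Fin n} (h : Free A i.succ)
    {g : Lt (n + 1)} (hg : 0 ≤ g) : Free (slice A g) i := by
  intro v hv hm
  refine ⟨hv, h _ (add_nonneg hg (combc_cons_nonneg hv)) ?_⟩
  have h2 := hm.2
  rwa [combc_cons_add, combc_cons_ev, ← add_assoc] at h2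

theorem slice_satZ {n : ℕ} {A : Set (Lt (n + 1))} (i : Fin n) {g : Lt (n + 1)} (hg : 0 ≤ g) :
    slice (satZ A i.succ) g = satZ (slice A g) i := by
  ext u
  constructor
  · rintro ⟨hu, -, N, hN⟩
    refine ⟨hu, N, add_nonneg hu (smul_nonneg (Int.natCast_nonneg N) (combc_ev_nonneg i)), ?_⟩
    rwa [combc_cons_add, combc_cons_smul, combc_cons_ev, ← add_assoc]
  · rintro ⟨hu, N, -, hN⟩
    refine ⟨hu, add_nonneg hg (combc_cons_nonneg hu), N, ?_⟩
    rwa [combc_cons_add, combc_cons_smul, combc_cons_ev, ← add_assoc] at hN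

theorem succ_zi (m : ℕ) : (zi m).succ = zi (m + 1) := by
  apply Fin.ext
  rw [Fin.val_succ, combc_zi_val, combc_zi_val]
theorem succ_yi (m : ℕ) : (yi m).succ = yi (m + 1) := by
  apply Fin.ext
  rw [Fin.val_succ, combc_yi_val, combc_yi_val]

/-- From a tangent set `M` of the slice with weight `w` build `{g + cons 0 u | u ∈ M}` with weight
`cons 0 w`.  Edge `i = 0`: targets plus `e_0` are in `A` by `c1`; if `g - e_0 + cons 0 u ∈ A` with
`u ∈ M`, this point is in layer `js - 1`, so it dominates `gz (js - 1) ∈ A`; then `u` can be lowered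
to `0` in a negative coordinate of `w` other than the first one staying in the slice
(`gz (js-1) + e_0 ≤ g + cons 0 u'`), and `TanSet.down` contradicts nonnegativity.  Edge `i = 1`:
points of `A` in layer `js` dominate `g`. -/
theorem n1_slice (h : SS A) (hN1 : N1 A) (hL : Layers A s r lam) {js : ℕ} (hjs : js ≤ r)
    (ho : ∀ j, j ≤ r → j ≠ js → gz s lam j ∈ A) : N1 (slice A (gz s lam js)) := by
  intro w M hT hw i j hij hi hj u0 hu0
  have hg0 : (0 : Lt (m + 3)) ≤ gz s lam js := gz_nonneg js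
  have hB : SS (slice A (gz s lam js)) := h.slice hg0
  obtain ⟨k, hk0, hk⟩ : ∃ k : Fin (m + 2), k ≠ 0 ∧ w k < 0 := by
    by_cases hi0 : i = 0
    · exact ⟨j, fun hh => hij (hi0.trans hh.symm), hj⟩
    · exact ⟨i, hi0, hi⟩
  have hT' : TanSet A 0 (Fin.cons 0 w)
      {v | ∃ u ∈ M, v = gz s lam js + (Fin.cons 0 u : Lt (m + 3))} := by
    constructor
    · rintro v ⟨u, hu, rfl⟩
      obtain ⟨huB, -, huw, huw'⟩ := hT.mem u hu
      refine ⟨huB.2, Finset.sum_nonneg (fun l _ => h.nonneg _ huB.2 l), ?_, ?_⟩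
      · rw [add_assoc, ← combc_cons_add]
        exact add_nonneg hg0 (combc_cons_nonneg huw)
      · rw [add_assoc, ← combc_cons_add]
        exact fun hh => huw' ⟨huw, hh⟩
    · intro v hv _ l
      refine Fin.cases ?_ (fun l' => ?_) l
      · intro hout
        constructor
        · rintro ⟨u, hu, hvu⟩
          exfalso
          have huB := (hT.mem u hu).1
          have hv0 : v 0 + 1 = ((s + js : ℕ) : ℤ) := by
            have := congrFun hvu 0
            simpa only [Pi.add_apply, ev_apply, if_true, gz_zero, Fin.cons_zero, add_zero]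
              using this
          have hv1 : v 1 = (lam js : ℤ) + u 0 := by
            have := congrFun hvu (Fin.succ 0)
            rw [Pi.add_apply, Pi.add_apply, combc_ev_zero_succ, Fin.cons_succ, add_zero] at this
            have e : (Fin.succ 0 : Fin (m + 3)) = 1 := rfl
            rwa [e, gz_one] at this
          obtain ⟨j', hj', hj'v⟩ := hL.exists_le h hv
          have hj'0 := ((gz_le_iff (h.nonneg v hv) j').1 hj'v).1
          obtain ⟨a, rfl⟩ : ∃ a, js = a + 1 := ⟨js - 1, by omega⟩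
          have hav : gz s lam a ≤ v := combc_dom h hL (by omega) hv (by omega)
          have hav1 := ((gz_le_iff (h.nonneg v hv) a).1 hav).2
          have haA : gz s lam a ∈ A := ho a (by omega) (by omega)
          have hu'0 : (0 : Lt (m + 2)) ≤ Function.update u k 0 := by
            intro l
            by_cases hl : l = k
            · subst hl
              simp
            · rw [Function.update_of_ne hl]
              exact huB.1 l
          have hu'le : Function.update u k 0 ≤ u := by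
            intro l
            by_cases hl : l = k
            · subst hl
              rw [Function.update_self]
              exact huB.1 l
            · rw [Function.update_of_ne hl]
          have hu'B : Function.update u k 0 ∈ slice A (gz s lam (a + 1)) := by
            refine ⟨hu'0, h.up_le haA ?_⟩
            rw [gz_le_iff (add_nonneg hg0 (combc_cons_nonneg hu'0))]
            constructor
            · rw [Pi.add_apply, gz_zero, Fin.cons_zero]
              omega
            · have e : (1 : Fin (m + 3)) = Fin.succ 0 := rfl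
              rw [Pi.add_apply, gz_one, e, Fin.cons_succ, Function.update_of_ne hk0.symm]
              omega
          have hu'M := hT.down hB hu hu'le hu'B
          have h5 : (0 : ℤ) ≤ (Function.update u k 0 + w) k := (hT.mem _ hu'M).2.2.1 k
          rw [Pi.add_apply, Function.update_self] at h5
          omega
        · rintro ⟨u, hu, rfl⟩
          exfalso
          apply hout
          refine h.up_le (hL.c1 h hN1 hjs) ?_
          have e : gz s lam js + (Fin.cons 0 u : Lt (m + 3)) + ev 0 + Fin.cons 0 w =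
              gz s lam js + ev 0 + Fin.cons 0 (u + w) := by
            rw [combc_cons_add]
            abel
          rw [e]
          exact le_add_of_nonneg_right (combc_cons_nonneg (hT.mem u hu).2.2.1)
      · intro hout
        constructor
        · rintro ⟨u, hu, hvu⟩
          have hv' : v = gz s lam js + (Fin.cons 0 (u - ev l') : Lt (m + 3)) := by
            rw [combc_cons_sub, combc_cons_ev, ← add_sub_assoc, ← hvu]
            abel
          have hdom : gz s lam js ≤ v := by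
            refine combc_dom h hL hjs hv ?_
            rw [hv', Pi.add_apply, gz_zero, Fin.cons_zero, add_zero]
          have hu'0 : (0 : Lt (m + 2)) ≤ u - ev l' := by
            intro l
            have := hdom l.succ
            rw [hv', Pi.add_apply, Fin.cons_succ] at this
            exact (le_add_iff_nonneg_right _).1 this
          exact ⟨u - ev l', hT.down hB hu (sub_le_self _ (combc_ev_nonneg l'))
            ⟨hu'0, hv' ▸ hv⟩, hv'⟩
        · rintro ⟨u, hu, rfl⟩
          refine ⟨u + ev l', hT.up hB hu (le_add_of_nonneg_right (combc_ev_nonneg l')) ?_, ?_⟩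
          · intro hh
            apply hout
            have h2 := hh.2
            rwa [combc_cons_add, combc_cons_add, combc_cons_ev, ← add_assoc, ← add_assoc] at h2
          · rw [combc_cons_add, combc_cons_ev, add_assoc]
  exact hN1 _ _ hT' (by rwa [combc_sum_cons]) i.succ j.succ
    (fun hh => hij (Fin.succ_injective _ hh)) (by rwa [Fin.cons_succ]) (by rwa [Fin.cons_succ])
    _ ⟨u0, hu0, rfl⟩

/-- `g + cons 0 u` is a generator of `A` (if `g + cons 0 u - e_0 ∈ A` move a variable occurring in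
`u` to `x_0`), `g + cons 0 t` is a socle point by `c1`. -/
theorem sg_slice (h : SS A) (hN1 : N1 A) (hSG : SG A (zi (m + 1))) (hL : Layers A s r lam)
    {js : ℕ} (hjs : js ≤ r) : SG (slice A (gz s lam js)) (zi m) := by
  intro u hu hmin t ht0 ht hsoc i j hij hi hj hti htj
  have hg0 : (0 : Lt (m + 3)) ≤ gz s lam js := gz_nonneg js
  have hne : ∀ k : Fin (m + 2), k ≠ zi m → k.succ ≠ zi (m + 1) := by
    intro k hk hh
    rw [← succ_zi] at hh
    exact hk (Fin.succ_injective _ hh)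
  have hsucc : ∀ k : Fin (m + 2),
      gz s lam js + (Fin.cons 0 u : Lt (m + 3)) - ev k.succ ∉ A := by
    intro k hk
    have e : gz s lam js + (Fin.cons 0 u : Lt (m + 3)) - ev k.succ =
        gz s lam js + (Fin.cons 0 (u - ev k) : Lt (m + 3)) := by
      rw [combc_cons_sub, combc_cons_ev, add_sub_assoc]
    rw [e] at hk
    have hdom := combc_dom h hL hjs hk (by rw [Pi.add_apply, gz_zero, Fin.cons_zero, add_zero])
    refine hmin k ⟨?_, hk⟩
    intro l
    have := hdom l.succ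
    rw [Pi.add_apply, Fin.cons_succ] at this
    exact (le_add_iff_nonneg_right _).1 this
  refine hSG _ hu.2 ?_ (gz s lam js + (Fin.cons 0 t : Lt (m + 3)))
    (add_nonneg hg0 (combc_cons_nonneg ht0)) (fun hh => ht ⟨ht0, hh⟩) ?_ i.succ j.succ
    (fun hh => hij (Fin.succ_injective _ hh)) (hne i hi) (hne j hj) ?_ ?_
  · intro l
    refine Fin.cases ?_ (fun k => hsucc k) l
    intro hh
    have h1 : 1 ≤ (gz s lam js + Fin.cons 0 u - ev 0 : Lt (m + 3)) i.succ := by
      have a1 : (0 : ℤ) ≤ gz s lam js i.succ := hg0 i.succ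
      have a2 : (0 : ℤ) ≤ t i := ht0 i
      rw [Pi.sub_apply, Pi.add_apply, Fin.cons_succ, combc_ev_zero_succ]
      omega
    have h2 := h.stab _ hh 0 i.succ (Fin.succ_pos i) h1
    apply hsucc i
    have e : gz s lam js + (Fin.cons 0 u : Lt (m + 3)) - ev 0 - ev i.succ + ev 0 =
        gz s lam js + (Fin.cons 0 u : Lt (m + 3)) - ev i.succ := by abel
    rwa [e] at h2
  · intro l
    refine Fin.cases ?_ (fun k => ?_) l
    · intro _
      refine h.up_le (hL.c1 h hN1 hjs) ?_
      rw [add_right_comm]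
      exact le_add_of_nonneg_right (combc_cons_nonneg ht0)
    · intro hk
      have hk' : k ≠ zi m := fun hh => hk (by rw [hh, succ_zi])
      have h2 := (hsoc k hk').2
      rwa [combc_cons_add, combc_cons_ev, ← add_assoc] at h2
  · rw [Pi.add_apply, Pi.add_apply, Fin.cons_succ, Fin.cons_succ]
    omega
  · rw [Pi.add_apply, Pi.add_apply, Fin.cons_succ, Fin.cons_succ]
    omega

theorem not_free_slice (h : SS A) (hz : Free A (zi (m + 1))) (hy : ¬ Free A (yi (m + 1)))
    (hN1 : N1 A) (hSG : SG A (zi (m + 1))) (hL : Layers A s r lam) {js : ℕ} (hjs : js ≤ r)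
    (hg : gz s lam js ∉ satZ A (yi (m + 1))) : ¬ Free (slice A (gz s lam js)) (yi m) := by
  intro hF
  apply hy
  intro v hv0 hvy
  by_contra hv
  obtain ⟨h1, h2⟩ := attach_key h hz hN1 hSG hL hjs hg hv0 hv hvy
  have hu0 : (0 : Lt (m + 2)) ≤ Fin.tail (v - gz s lam js) := fun l => sub_nonneg.2 (h1 l.succ)
  have e : gz s lam js + (Fin.cons 0 (Fin.tail (v - gz s lam js)) : Lt (m + 3)) = v := by
    funext l
    refine Fin.cases ?_ (fun k => ?_) l
    · rw [Pi.add_apply, gz_zero, Fin.cons_zero, add_zero, h2]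
    · rw [Pi.add_apply, Fin.cons_succ]
      simp [Fin.tail]
  apply hv
  rw [← e]
  refine (hF _ hu0 ⟨add_nonneg hu0 (combc_ev_nonneg _), ?_⟩).2
  rw [combc_cons_add, combc_cons_ev, ← add_assoc, e, succ_yi]
  exact hvy

end Pool.Agent.MP_24718c_ag

end

end partCombC

section partCombN

/-!
The property `N1` for the saturation.
-/

set_option linter.unusedSectionVars false
set_option linter.unusedVariables false

open MvPolynomial

universe u

noncomputable section

namespace Pool.Agent.MP_24718c_ag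

section
variable {m : ℕ} {A : Set (Lt (m + 3))} {s r : ℕ} {lam : ℕ → ℕ}

/-- no generator of the saturation lies below the head `(a, b)` -/
def CombnOut (s r : ℕ) (lam : ℕ → ℕ) (a b : ℤ) : Prop :=
  ∀ j, j ≤ r → ((s + j : ℕ) : ℤ) ≤ a → b < (lam j : ℕ)

theorem combn_self {n : ℕ} (i : Fin n) : ev i i = 1 := by simp [ev_apply]

theorem combn_ne {n : ℕ} {i j : Fin n} (h : j.val ≠ i.val) : ev i j = 0 := by
  rw [ev_apply, if_neg fun e => h (congrArg Fin.val e)]

theorem combn_nonneg {n : ℕ} (i : Fin n) : 0 ≤ ev i := fun j => by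
  rw [ev_apply]
  split_ifs <;> simp

theorem combn_01 : (0 : Fin (m + 3)) < 1 := Nat.zero_lt_one

theorem combn_12 : (1 : Fin (m + 3)) < 2 := Nat.one_lt_two

theorem combn_not (h : SS A) (hL : Layers A s r lam) {x : Lt (m + 3)}
    (ho : CombnOut s r lam (x 0) (x 1)) : x ∉ A := fun hx => by
  obtain ⟨j, hj, e⟩ := hL.exists_le h hx
  have e' := (gz_le_iff (h.nonneg x hx) j).1 e
  exact (ho j hj e'.1).not_ge e'.2

theorem combn_layer (hL : Layers A s r lam) {b : ℕ} (hb : b ≤ r) {x y : ℤ}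
    (h0 : x = (s + b : ℕ)) (h1 : y < (lam b : ℕ)) : CombnOut s r lam x y := fun j hj e => by
  have := lam_add_le hL.anti (a := j) (b := b) (by omega) hb
  omega

theorem combn_upd {v : Lt (m + 3)} (hv : 0 ≤ v) (k : Fin (m + 3)) {c : ℤ} (h0 : 0 ≤ c)
    (hc : c ≤ v k) : 0 ≤ Function.update v k c ∧ Function.update v k c ≤ v :=
  ⟨fun i => by
    by_cases e : i = k
    · subst e
      simpa using h0
    · simpa [e] using hv i, fun i => by
    by_cases e : i = k
    · subst e
      simpa using hc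
    · simp [e]⟩

theorem combn_lower {w v : Lt (m + 3)} {M : Set (Lt (m + 3))} (h : SS A) (hT : TanSet A 0 w M)
    (hv : v ∈ M) {k : Fin (m + 3)} (hk : w k < 0) (hA : Function.update v k 0 ∈ A) : False := by
  have h0 := h.nonneg v (hT.mem v hv).1
  have h1 := (hT.mem _ (hT.down h hv (combn_upd h0 k le_rfl (h0 k)).2 hA)).2.2.1 k
  simp only [Pi.add_apply, Function.update_self, Pi.zero_apply] at h1
  omega

theorem combn_head {v : Lt (m + 3)} {k : Fin (m + 3)} (hk : 2 ≤ k.val) (c : ℤ) :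
    Function.update v k c 0 = v 0 ∧ Function.update v k c 1 = v 1 :=
  ⟨Function.update_of_ne (fun e => by rw [← e] at hk; exact absurd hk (by simp)) _ _,
    Function.update_of_ne (fun e => by rw [← e] at hk; exact absurd hk (by simp)) _ _⟩

theorem combn_add {k : Fin (m + 3)} (hk : 2 ≤ k.val) (x : Lt (m + 3)) (c : ℤ) :
    (x + c • ev k) 0 = x 0 ∧ (x + c • ev k) 1 = x 1 := by
  have h0 : ev k 0 = 0 := combn_ne (by simp; omega)
  have h1 : ev k 1 = 0 := combn_ne (by simp; omega)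
  simp [h0, h1]

theorem combn_chain {w v : Lt (m + 3)} {M : Set (Lt (m + 3))} (h : SS A) (hL : Layers A s r lam)
    (hT : TanSet A 0 w M) (h0 : w 0 < 0) (h1 : w 1 < 0) (hv : v ∈ M)
    (ho : CombnOut s r lam (v 0 + w 0) (v 1 + w 1)) : False := by
  refine hT.chain h (i := 0) (j := 1) (k := 2) combn_01 combn_12 h0 h1
    (fun l hl => ?_) hv fun N => combn_not h hL ?_
  · have : l = 0 ∨ l = 1 := by
      rw [Fin.lt_def] at hl
      simp only [Fin.ext_iff, Fin.val_zero, Fin.val_one, Fin.val_two] at hl ⊢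
      omega
    rcases this with rfl | rfl
    exacts [h0.le, h1.le]
  · rw [(combn_add le_rfl _ _).1, (combn_add le_rfl _ _).2]
    exact ho

theorem combn_cases {w : Lt (m + 3)} {i j : Fin (m + 3)} (hij : i ≠ j) (hi : w i < 0)
    (hj : w j < 0) : (w 0 < 0 ∧ w 1 < 0) ∨ ∃ k : Fin (m + 3), 2 ≤ k.val ∧ w k < 0 := by
  by_cases a : 2 ≤ i.val
  · exact Or.inr ⟨i, a, hi⟩
  by_cases b : 2 ≤ j.val
  · exact Or.inr ⟨j, b, hj⟩
  have : (i = 0 ∧ j = 1) ∨ (i = 1 ∧ j = 0) := by
    simp only [ne_eq, Fin.ext_iff, Fin.val_zero, Fin.val_one] at hij ⊢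
    omega
  rcases this with ⟨rfl, rfl⟩ | ⟨rfl, rfl⟩
  exacts [Or.inl ⟨hi, hj⟩, Or.inl ⟨hj, hi⟩]

theorem combn_in {x : Lt (m + 3)} (hx : 0 ≤ x) (ho : ¬ CombnOut s r lam (x 0) (x 1)) :
    ∃ j, j ≤ r ∧ gz s lam j ≤ x := by
  unfold CombnOut at ho
  push Not at ho
  obtain ⟨j, a, b, c⟩ := ho
  exact ⟨j, a, (gz_le_iff hx j).2 ⟨b, c⟩⟩

theorem combn_cons {g : Lt (m + 3)} (u u' : Lt (m + 2)) :
    g + Fin.cons 0 (u + u') = g + Fin.cons 0 u + Fin.cons 0 u' := by
  funext i
  refine Fin.cases ?_ (fun i => ?_) i <;> simp [add_assoc]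

theorem combn_cons_ev (k : Fin (m + 2)) : (Fin.cons 0 (ev k) : Lt (m + 3)) = ev k.succ := by
  funext i
  refine Fin.cases ?_ (fun i => ?_) i
  · simp [ev_apply, (Fin.succ_ne_zero k).symm]
  · simp [ev_apply]

theorem combn_slice {B M : Set (Lt (m + 3))} {w g : Lt (m + 3)} (h : SS B) (hT : TanSet B 0 w M)
    (h0 : w 0 = 0) (hg : ∀ i : Fin (m + 3), 2 ≤ i.val → g i = 0)
    (h1 : ∀ u ∈ M, g 1 ≤ u 1 + w 1) :
    TanSet (slice B g) 0 (Fin.tail w) {u | 0 ≤ u ∧ g + Fin.cons 0 u ∈ M} := by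
  have e : (Fin.cons 0 (Fin.tail w) : Lt (m + 3)) = w := by
    rw [← h0]
    exact Fin.cons_self_tail w
  have key : ∀ u : Lt (m + 2), g + Fin.cons 0 u ∈ M → 0 ≤ u + Fin.tail w := fun u hu k => by
    refine Fin.cases ?_ (fun k => ?_) k
    · have := h1 _ hu
      simp only [Pi.add_apply, Fin.cons_one] at this
      simp only [Pi.add_apply, Fin.tail, Fin.succ_zero_eq_one, Pi.zero_apply]
      omega
    · have := (hT.mem _ hu).2.2.1 k.succ.succ
      simp only [Pi.add_apply, Fin.cons_succ, Pi.zero_apply] at this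
      rw [hg _ (by simp), zero_add] at this
      exact this
  refine ⟨fun u hu => ⟨⟨hu.1, (hT.mem _ hu.2).1⟩, Finset.sum_nonneg fun i _ => hu.1 i,
    key u hu.2, fun a => ?_⟩, fun u hu _ k hk => ?_⟩
  · have := a.2
    rw [combn_cons, e] at this
    exact (hT.mem _ hu.2).2.2.2 this
  · by_cases a : 0 ≤ u + ev k + Fin.tail w
    · have b : g + Fin.cons 0 u + ev k.succ + w ∉ B := fun b => hk ⟨a, by
        rwa [combn_cons, combn_cons, e, combn_cons_ev]⟩
      have c := hT.edge _ hu.2 (Finset.sum_nonneg fun i _ => h.nonneg _ hu.2 i) k.succ b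
      simp only [Set.mem_ofPred_eq, combn_cons, combn_cons_ev, c]
      exact and_congr_left' ⟨fun _ => hu.1, fun _ => add_nonneg hu.1 (combn_nonneg k)⟩
    · refine ⟨fun b => (a (key _ b.2)).elim, fun b => (a ?_).elim⟩
      rw [add_right_comm]
      exact add_nonneg (key _ b.2) (combn_nonneg k)

theorem combn_sum {w : Lt (m + 3)} (h : ∀ k : Fin (m + 3), 3 ≤ k.val → 0 ≤ w k) :
    w 0 + w 1 + w 2 ≤ ∑ i, w i := by
  rw [Fin.sum_univ_succ, Fin.sum_univ_succ, Fin.sum_univ_succ]
  have : 0 ≤ ∑ i : Fin m, w i.succ.succ.succ := Finset.sum_nonneg fun i _ => h _ (by simp)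
  simp only [Fin.succ_zero_eq_one, Fin.succ_one_eq_two]
  omega

theorem combn_last {B M : Set (Lt (m + 3))} {w : Lt (m + 3)} (h : SS A) (hN1 : N1 A)
    (hL : Layers A s r lam) {js : ℕ} (hjs : js ≤ r) (ho : ∀ j, j ≤ r → j ≠ js → gz s lam j ∈ A)
    (hT : TanSet B 0 w M) (hsum : w 0 + w 1 + w 2 ≤ 0) (h0 : w 0 ≠ 0) (h2 : w 2 < 0)
    (t0 : CombnOut s r lam ((s + js : ℕ) + w 0) ((lam js : ℕ) + w 1))
    (t1 : 0 ≤ ((lam js : ℕ) : ℤ) + w 1)
    (hM : ∀ v ∈ A, v 0 = (s + js : ℕ) → CombnOut s r lam (v 0 + w 0) (v 1 + w 1) → v ∈ M) :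
    False := by
  obtain ⟨N, hN⟩ := hL.gz_add hjs
  have e10 : (ev 1 : Lt (m + 3)) 0 = 0 := combn_ne (by simp)
  have e20 : (ev 2 : Lt (m + 3)) 0 = 0 := combn_ne (Nat.ne_of_lt (combn_01.trans combn_12))
  have e21 : (ev 2 : Lt (m + 3)) 1 = 0 := combn_ne (Nat.ne_of_lt combn_12)
  have e12 : (ev 1 : Lt (m + 3)) 2 = 0 := combn_ne (Nat.ne_of_gt combn_12)
  have mv : ∀ v ∈ A, v 0 = (s + js : ℕ) → ∀ k : ℤ, 0 ≤ k → k ≤ v 2 →
      CombnOut s r lam (v 0 + w 0) (v 1 + k + w 1) → 0 ≤ v 2 - k + w 2 := by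
    intro v hv a k k0 k2 b
    have c := h.move hv (i := 1) (j := 2) combn_12.le k0 k2
    have d := (hT.mem _ (hM _ c (by simpa [e10, e20] using a)
      (by simpa [e10, e20, e21, combn_self] using b))).2.2.1 2
    simpa [e12, combn_self] using d
  by_cases a : ((s + js : ℕ) : ℤ) + w 0 < s
  · have b := (combn_add (k := 2) le_rfl (gz s lam js : Lt (m + 3)) N).1
    rw [gz_zero] at b
    have := mv _ hN b _ (h.nonneg _ hN 2) le_rfl fun j _ c => by
      rw [b] at c
      omega
    omega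
  obtain ⟨b, hb⟩ : ∃ b : ℕ, ((s + js : ℕ) : ℤ) + w 0 = (s + b : ℕ) :=
    ⟨(js + w 0).toNat, by omega⟩
  have b1 : b < r := by
    by_contra c
    have := t0 r le_rfl (by omega)
    rw [hL.last] at this
    omega
  have b2 := t0 b b1.le hb.ge
  have b3 : b ≠ js := by omega
  have b4 := ho b b1.le b3
  have x0 : (gz s lam b - ev 1 : Lt (m + 3)) 0 = (s + b : ℕ) := by simp [e10, gz_zero]
  have x1 : (gz s lam b - ev 1 : Lt (m + 3)) 1 = (lam b : ℕ) - 1 := by simp [combn_self, gz_one]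
  have x2 : Below (gz s lam b - ev 1 : Lt (m + 3)) 2 := fun i hi => by
    have hi' : 2 ≤ i.val := hi
    rw [Pi.sub_apply, gz_of_two_le b hi', combn_ne (by simp; omega), sub_zero]
  have x3 : ∃ i, (gz s lam b - ev 1 : Lt (m + 3)) i < (gz s lam js : Lt (m + 3)) i := by
    rcases lt_or_gt_of_ne b3 with c | c
    · exact ⟨0, by rw [x0, gz_zero]; omega⟩
    · have := lam_add_le hL.anti c.le b1.le
      exact ⟨1, by rw [x1, gz_one]; omega⟩
  obtain ⟨i, hi⟩ := x3
  have key := tanWN (l := 2) (θ₁ := gz s lam js) (θ₂ := gz s lam b - ev 1) h hN1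
    (fun i hi => gz_of_two_le js hi) x2 (fun i => ?_)
    (combn_not h hL (combn_layer hL b1.le x0 (by rw [x1]; omega))) hN
    (hL.condS h hjs le_rfl) (fun i hi => ?_)
    (r := (lam b : ℕ) - 1 - (lam js : ℕ) - w 1 - w 2) (by omega) (fun v hv e => ?_) hi
    (Or.inl (by omega))
  · simp only [Pi.sub_apply, Finset.sum_sub_distrib, sum_gz, sum_ev] at key
    omega
  · by_cases c : 2 ≤ i.val
    · exact (x2 i c).ge
    · have : i = 0 ∨ i = 1 := by
        simp only [Fin.ext_iff, Fin.val_zero, Fin.val_one]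
        omega
      rcases this with rfl | rfl
      · rw [x0]
        exact Int.natCast_nonneg _
      · rw [x1]
        exact (by omega : (0 : ℤ) ≤ (lam b : ℕ) - 1)
  · have : i = 0 ∨ i = 1 := by
      rw [Fin.lt_def] at hi
      simp only [Fin.ext_iff, Fin.val_zero, Fin.val_one, Fin.val_two] at hi ⊢
      omega
    rcases this with rfl | rfl
    · exact h.stab _ b4 0 1 combn_01 (by rw [gz_one]; omega)
    · rwa [sub_add_cancel]
  · have v0 := e 0 (combn_01.trans combn_12)
    have v1 := e 1 combn_12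
    rw [gz_zero] at v0
    rw [gz_one] at v1
    have v2 : 0 ≤ v 2 := h.nonneg v hv 2
    have := mv v hv v0 (min (v 2) ((lam b : ℕ) - 1 - (lam js : ℕ) - w 1)) (by omega) (by omega)
      (combn_layer hL b1.le (by omega) (by omega))
    omega

theorem combn_main {B : Set (Lt (m + 3))} (hm : 1 ≤ m) (h : SS A) (hB : SS B) (hAB : A ⊆ B)
    (hN1 : N1 A) (hL : Layers A s r lam) (hLB : Layers B s r lam) {js : ℕ} (hjs : js ≤ r)
    (ho : ∀ j, j ≤ r → j ≠ js → gz s lam j ∈ A) (hs : N1 (slice B (gz s lam js))) : N1 B := by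
  intro w M hT hsum i j hij hi hj v hv
  have inA : ∀ x : Lt (m + 3), 0 ≤ x → ¬ CombnOut s r lam (x 0) (x 1) → x 0 ≠ (s + js : ℕ) →
      x ∈ B := fun x hx a b => by
    obtain ⟨k, k1, k2⟩ := combn_in hx a
    by_cases e : k = js
    · subst e
      have c := (gz_le_iff hx k).1 k2
      refine hAB (h.up_le (hL.c1 h hN1 k1) fun l => ?_)
      by_cases f : l = 0
      · subst f
        rw [Pi.add_apply, gz_zero, combn_self]
        exact (by omega : ((s + k : ℕ) : ℤ) + 1 ≤ x 0)
      · rw [Pi.add_apply, combn_ne fun g => f (Fin.ext g), add_zero]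
        exact k2 l
    · exact hAB (h.up_le (ho k k1 e) k2)
  have nn : ∀ u ∈ M, 0 ≤ u := fun u hu => hB.nonneg u (hT.mem u hu).1
  have no : ∀ u ∈ M, ¬ CombnOut s r lam (u 0) (u 1) := fun u hu a =>
    combn_not hB hLB a (hT.mem u hu).1
  have tg : ∀ u ∈ M, u 0 + w 0 ≠ (s + js : ℕ) → CombnOut s r lam (u 0 + w 0) (u 1 + w 1) :=
    fun u hu a => by_contra fun b => (hT.mem u hu).2.2.2 (inA _ (hT.mem u hu).2.2.1 b a)
  rcases combn_cases hij hi hj with ⟨w0, w1⟩ | ⟨k, hk, wk⟩
  · by_cases a : CombnOut s r lam (v 0 + w 0) (v 1 + w 1)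
    · exact combn_chain hB hLB hT w0 w1 hv a
    have b : v 0 + w 0 = (s + js : ℕ) := by_contra fun b => a (tg v hv b)
    have c : ((lam js : ℕ) : ℤ) ≤ v 1 + w 1 := le_of_not_gt fun c => a (combn_layer hL hjs b c)
    have d := combn_upd (nn v hv) 1 (c := (lam js : ℕ)) (Int.natCast_nonneg _) (by omega)
    have e0 : Function.update v 1 ((lam js : ℕ) : ℤ) 0 = v 0 :=
      Function.update_of_ne (by simp) _ _
    have e1 : Function.update v 1 ((lam js : ℕ) : ℤ) 1 = (lam js : ℕ) := Function.update_self _ _ _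
    refine combn_chain hB hLB hT w0 w1 (hT.down hB hv d.2 (inA _ d.1 (fun f => ?_) ?_)) ?_
    · have := f js hjs (by rw [e0]; omega)
      rw [e1] at this
      omega
    · rw [e0]
      omega
    · rw [e0, e1]
      exact combn_layer hL hjs b (by omega)
  have lay : ∀ u ∈ M, u 0 = (s + js : ℕ) := fun u hu => by_contra fun a => by
    have b := combn_head (v := u) hk 0
    refine combn_lower hB hT hu wk (inA _ (combn_upd (nn u hu) k le_rfl (nn u hu k)).1 ?_ ?_)
    · rw [b.1, b.2]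
      exact no u hu
    · rwa [b.1]
  have dom : ∀ u ∈ B, u 0 = (s + js : ℕ) → gz s lam js ≤ u := fun u hu a =>
    (gz_le_iff (hB.nonneg u hu) js).2 ⟨a.ge, le_of_not_gt fun c =>
      combn_not hB hLB (combn_layer hL hjs a c) hu⟩
  obtain ⟨N, hN⟩ := hL.gz_add hjs
  have hN2 : (0 : Lt (m + 3)) ≤ (N : ℤ) • ev 2 :=
    smul_nonneg (Int.natCast_nonneg N) (combn_nonneg 2)
  have upN : ∀ u u' : Lt (m + 3), u ∈ M → u ≤ u' + (N : ℤ) • ev 2 →
      CombnOut s r lam (u' 0 + w 0) (u' 1 + w 1) → u' + (N : ℤ) • ev 2 ∈ M := fun u u' hu a b =>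
    hT.up hB hu a (combn_not hB hLB (by
      rw [add_right_comm, (combn_add le_rfl _ _).1, (combn_add le_rfl _ _).2]
      exact b))
  have h3 : ∀ u ∈ M, CombnOut s r lam (u 0 + w 0) (u 1 + w 1) →
      ∀ l : Fin (m + 3), 3 ≤ l.val → 0 ≤ w l := fun u hu a l hl => le_of_not_gt fun b => by
    refine combn_lower hB hT (upN u u hu (le_add_of_nonneg_right hN2) a) b
      (hAB (h.up_le hN fun n => ?_))
    by_cases e : n = l
    · subst e
      rw [Function.update_self, Pi.add_apply, gz_of_two_le js (by omega), Pi.smul_apply,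
        combn_ne (by rw [Fin.val_two]; omega)]
      simp
    · rw [Function.update_of_ne e]
      exact add_le_add_left (dom u (hT.mem u hu).1 (lay u hu) n) _
  have k2 : ∀ u ∈ M, CombnOut s r lam (u 0 + w 0) (u 1 + w 1) → w 2 < 0 := fun u hu a => by
    have b : k = 2 := Fin.ext (by
      have := mt (h3 u hu a k) wk.not_ge
      rw [Fin.val_two]
      omega)
    exact b ▸ wk
  by_cases w0 : w 0 = 0
  · by_cases a : ∀ u ∈ M, ((lam js : ℕ) : ℤ) ≤ u 1 + w 1
    · have b := combn_slice (g := gz s lam js) hB hT w0 (fun i => gz_of_two_le js)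
        (by rwa [gz_one])
      obtain ⟨i', rfl⟩ := Fin.exists_succ_eq.2 (fun e : i = 0 => by rw [e] at hi; omega)
      obtain ⟨j', rfl⟩ := Fin.exists_succ_eq.2 (fun e : j = 0 => by rw [e] at hj; omega)
      have c := dom v (hT.mem v hv).1 (lay v hv)
      refine hs _ _ b ?_ i' j' (fun e => hij (e ▸ rfl)) hi hj (Fin.tail (v - gz s lam js))
        ⟨fun n => sub_nonneg.2 (c n.succ), ?_⟩
      · rw [Fin.sum_univ_succ, w0, zero_add] at hsum
        exact hsum
      · have d : (v - gz s lam js : Lt (m + 3)) 0 = 0 := by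
          rw [Pi.sub_apply, gz_zero, lay v hv, sub_self]
        have e := Fin.cons_self_tail (v - gz s lam js)
        rw [d] at e
        rw [e, add_sub_cancel]
        exact hv
    · push Not at a
      obtain ⟨u, hu, a⟩ := a
      have b : CombnOut s r lam (u 0 + w 0) (u 1 + w 1) :=
        combn_layer hL hjs (by rw [w0, add_zero, lay u hu]) a
      have c := ((gz_le_iff (nn u hu) js).1 (dom u (hT.mem u hu).1 (lay u hu))).2
      have w1 : w 1 < 0 := by omega
      have w2 := k2 u hu b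
      refine hT.chain hB (i := 1) (j := 2) (k := ⟨3, by omega⟩) combn_12
        (Nat.lt_succ_self 2) w1 w2 (fun l hl => ?_) hu fun n => combn_not hB hLB ?_
      · have : l = 0 ∨ l = 1 ∨ l = 2 := by
          rw [Fin.lt_def] at hl
          simp only [Fin.ext_iff, Fin.val_zero, Fin.val_one, Fin.val_two] at hl ⊢
          omega
        rcases this with rfl | rfl | rfl
        exacts [w0.le, w1.le, w2.le]
      · rw [(combn_add (by simp) _ _).1, (combn_add (by simp) _ _).2]
        exact b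
  have out : ∀ u ∈ M, CombnOut s r lam (u 0 + w 0) (u 1 + w 1) := fun u hu =>
    tg u hu (by have := lay u hu; omega)
  have gM : gz s lam js + (N : ℤ) • ev 2 ∈ M :=
    hT.down hB (upN v v hv (le_add_of_nonneg_right hN2) (out v hv))
      (add_le_add_left (dom v (hT.mem v hv).1 (lay v hv)) _) (hAB hN)
  have g01 := combn_add (k := 2) le_rfl (gz s lam js : Lt (m + 3)) N
  rw [gz_zero, gz_one] at g01
  refine combn_last h hN1 hL hjs ho hT ((combn_sum (h3 v hv (out v hv))).trans hsum) w0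
    (k2 v hv (out v hv)) ?_ ?_ fun u hu a b => ?_
  · have := out _ gM
    rwa [g01.1, g01.2] at this
  · have := (hT.mem _ gM).2.2.1 1
    rwa [Pi.add_apply _ w, g01.2] at this
  · exact hT.down hB (upN _ u gM (add_le_add_left (dom u (hAB hu) a) _) b)
      (le_add_of_nonneg_right hN2) (hAB hu)

/-- If `w h < 0` for some `h ≥ 2`, lower `v ∈ M` to `0` in the coordinate `h` (it dominates some
`gz j ∈ A`).  Otherwise `w 0, w 1 < 0` and `TanSet.chain` with `(0, 1, 2)` applies, since a point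
outside `A` stays outside after adding multiples of `e_2`. -/
theorem n1_hb (h : SS A) (hL : Layers A s r lam) (hall : ∀ j, j ≤ r → gz s lam j ∈ A) : N1 A := by
  intro w M hT _ i j hij hi hj v hv
  have inA : ∀ x : Lt (m + 3), 0 ≤ x → ¬ CombnOut s r lam (x 0) (x 1) → x ∈ A := fun x hx a =>
    let ⟨k, k1, k2⟩ := combn_in hx a
    h.up_le (hall k k1) k2
  have h1 := hT.mem v hv
  have h2 := h.nonneg v h1.1
  rcases combn_cases hij hi hj with ⟨w0, w1⟩ | ⟨k, hk, wk⟩
  · exact combn_chain h hL hT w0 w1 hv (by_contra fun b => h1.2.2.2 (inA _ h1.2.2.1 b))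
  · have b := combn_head (v := v) hk 0
    refine combn_lower h hT hv wk (inA _ (combn_upd h2 k le_rfl (h2 k)).1 ?_)
    rw [b.1, b.2]
    exact fun a => combn_not h hL a h1.1

/-- Let `B = satZ A y`, `g = gz js`, `M` a tangent set of `B` of weight `w`, `v ∈ M`.  `B` is `SS`
with the same layers (`layers_satZ`), `3 ≤ y` (`g + N e_2 ∈ A` but `g ∉ B`, and `z` is free).
A point of `B` outside layer `js` dominates a point of `A` supported on `{0, 1}` (`gz j` or
`gz r + e_0`).  Call `t` out if `t + N e_2 ∉ B` for all `N`.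
Case II: `w 0, w 1 < 0`.  If the target `v + w` is out use `chain (0,1,2)`.  Otherwise the target is in layer `js`, `v` is in a
higher layer `a`; lower `v 1` to `lam a` (or `0` beyond `r`): still in `M`, and now the target is
out; `chain`.
Case I: `w h < 0` for some `h ≥ 2`.  Then all points of `M` are in layer `js` (lower coordinate
`h` to `0`), and dominate `g`.
(a) `w 0 = 0`.  If all targets `t` have `lam js ≤ t 1`, then `{u | 0 ≤ u ∧ g + cons 0 u ∈ M}` is a
tangent set of the slice with weight `tail w`; use `hs`.  Otherwise some target has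
`t 1 < lam js`, is out (also with respect to `e_3`) and `w 1 < 0`.  If some `h ≥ 3` has `w h < 0`,
add `N e_2` (`up`), lower coordinate `h` to `0` (`down`, the point dominates `g + N e_2 ∈ A`):
contradiction.  Otherwise
`w 2 < 0` and `chain (1,2,3)` applies.
(b) `w 0 ≠ 0`.  Targets are in a layer `≠ js` and outside `B`, hence out, with `0`-th coordinate
`< s` or `= s + b`, `b < r`, `t 1 < lam b`.  As in (a) `w h ≥ 0` for `h ≥ 3`, so `w 2 < 0`, and
`g + N e_2 ∈ M` for large `N`; every `v' ∈ B` in layer `js` whose target is out lies in `M`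
(`up` from `g + N e_2` to `v' + N e_2`, then `down`).  For `v' ∈ A` with head `g` on `{0, 1}`, move
copies of `x_2` to `x_1`: if the target coordinate is `< s` move all of them, contradiction with
`w 2 < 0`; otherwise with `c = lam b - 1 - lam js - w 1 ≥ 0` get `c - w 2 ≤ v' 2`.  Now `tanWN`
for `A` at level `2` with `θ₁ = g`, `θ₂ = gz b - e_1`, `r = c - w 2 ≥ 1` (negative coordinate `0`
if `b < js`, `1` if `js < b`) gives `c - w 2 < w 0 + c + w 1`, contradicting
`w 0 + w 1 + w 2 ≤ ∑ w ≤ 0`. -/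
theorem n1_step (h : SS A) (hz : Free A (zi (m + 1))) (hN1 : N1 A) (hL : Layers A s r lam)
    {js : ℕ} (hjs : js ≤ r) (hg : gz s lam js ∉ satZ A (yi (m + 1)))
    (ho : ∀ j, j ≤ r → j ≠ js → gz s lam j ∈ A)
    (hs : N1 (slice (satZ A (yi (m + 1))) (gz s lam js))) : N1 (satZ A (yi (m + 1))) := by
  have hm : 1 ≤ m := by
    by_contra c
    obtain rfl : m = 0 := by omega
    obtain ⟨N, hN⟩ := hL.gz_add hjs
    exact hg (h.subset_satZ _ (hz.add_smul (gz_nonneg js) (Int.natCast_nonneg N) hN))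
  exact combn_main hm h (h.satZ _) (h.subset_satZ _) hN1 hL
    ((layers_satZ h (by simp [yi]; omega)).2 hL) hjs ho hs

end

end Pool.Agent.MP_24718c_ag

end

end partCombN

section partCombD

/-!
The structure theorem.
-/

set_option linter.unusedSectionVars false
set_option linter.unusedVariables false

open MvPolynomial

universe u

noncomputable section

namespace Pool.Agent.MP_24718c_ag

theorem combd_ev_nonneg {n : ℕ} (i : Fin n) : 0 ≤ ev i := by
  intro j
  rw [ev_apply]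
  split_ifs <;> simp

theorem combd_smul_nonneg {n : ℕ} (i : Fin n) (c : ℕ) : 0 ≤ (c : ℤ) • ev i :=
  smul_nonneg (Int.natCast_nonneg c) (combd_ev_nonneg i)

theorem combd_mem_cone {n : ℕ} {A : Set (Lt (n + 1))} (h : SS A) {g : Lt (n + 1)}
    (hc : g + ev 0 ∈ A) (u : Lt (n + 1)) : u ∈ coneZ (slice A g) ↔ 0 ≤ u ∧ g + u ∈ A := by
  have key : 1 ≤ u 0 → 0 ≤ u → g + u ∈ A := by
    intro h1 hu
    refine h.up_le hc (add_le_add_right ?_ g)
    intro j
    rw [ev_apply]
    split_ifs with hj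
    · rw [hj]; exact h1
    · exact hu j
  have hcons : u 0 = 0 → (Fin.cons 0 (Fin.tail u) : Lt (n + 1)) = u := by
    intro h0
    rw [← h0]
    exact Fin.cons_self_tail u
  constructor
  · rintro ⟨hu, h1 | h1⟩
    · exact ⟨hu, key h1 hu⟩
    · refine ⟨hu, ?_⟩
      by_cases h0 : 1 ≤ u 0
      · exact key h0 hu
      · have h0' : u 0 = 0 := by
          have := hu 0
          simp only [Pi.zero_apply] at this
          omega
        have := h1.2
        rwa [hcons h0'] at this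
  · rintro ⟨hu, hA⟩
    refine ⟨hu, ?_⟩
    by_cases h0 : 1 ≤ u 0
    · exact Or.inl h0
    · have h0' : u 0 = 0 := by
        have := hu 0
        simp only [Pi.zero_apply] at this
        omega
      refine Or.inr ⟨fun j => hu j.succ, ?_⟩
      rwa [hcons h0']

section
variable {m : ℕ} {A : Set (Lt (m + 3))} {s r : ℕ} {lam : ℕ → ℕ}

theorem hbz_univ (h : SS A) (hL : Layers A s r lam) (hall : ∀ j, j ≤ r → gz s lam j ∈ A) :
    HBZ A {v | 0 ≤ v} s r lam r 0 where
  anti := hL.anti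
  last := hL.last
  js_le := le_rfl
  nonneg := fun u hu => hu
  up := fun u hu i => add_nonneg hu (combd_ev_nonneg i)
  c0 := combd_ev_nonneg 0
  c1 := fun j _ => combd_smul_nonneg 1 _
  c2 := combd_smul_nonneg 2 0
  mem := by
    intro v
    constructor
    · intro hv
      obtain ⟨j, hj, hle⟩ := hL.exists_le h hv
      exact ⟨j, hj, hle, fun _ => sub_nonneg.2 hle⟩
    · rintro ⟨j, hj, hle, -⟩
      exact h.up_le (hall j hj) hle

theorem hbz_slice (h : SS A) (hL : Layers A s r lam) {js : ℕ} (hjs : js ≤ r)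
    (hc : gz s lam js + ev 0 ∈ A) (ho : ∀ j, j ≤ r → j ≠ js → gz s lam j ∈ A) :
    ∃ N, HBZ A (coneZ (slice A (gz s lam js))) s r lam js N := by
  obtain ⟨N, hN⟩ := hL.gz_add hjs
  have hm := combd_mem_cone h hc
  refine ⟨N, hL.anti, hL.last, hjs, fun u hu => hu.1, ?_, ?_, ?_, ?_, ?_⟩
  · intro u hu i
    rw [hm] at hu ⊢
    refine ⟨add_nonneg hu.1 (combd_ev_nonneg i), ?_⟩
    rw [← add_assoc]
    exact h.up _ hu.2 i
  · exact (hm _).2 ⟨combd_ev_nonneg 0, hc⟩
  · intro j hj
    refine (hm _).2 ⟨combd_smul_nonneg 1 _, ?_⟩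
    have h1 := h.up _ (ho j (by omega) (by omega)) 0
    have h2 : lam js ≤ lam j := by
      have := hL.anti j (by omega)
      rw [hj] at this
      exact this.le
    have h3 : (gz s lam js : Lt (m + 3)) + ((lam j - lam js : ℕ) : ℤ) • ev 1 =
        gz s lam j + ev 0 := by
      unfold gz
      rw [← hj, Nat.cast_sub (hj ▸ h2)]
      push_cast
      module
    rwa [h3]
  · exact (hm _).2 ⟨combd_smul_nonneg 2 N, hN⟩
  · intro v
    constructor
    · intro hv
      obtain ⟨j, hj, hle⟩ := hL.exists_le h hv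
      refine ⟨j, hj, hle, fun hjj => (hm _).2 ⟨sub_nonneg.2 hle, ?_⟩⟩
      rw [← hjj, add_sub_cancel]
      exact hv
    · rintro ⟨j, hj, hle, hC⟩
      by_cases hjj : j = js
      · have := ((hm _).1 (hC hjj)).2
        rwa [← hjj, add_sub_cancel] at this
      · exact h.up_le (ho j hj hjj) hle

end

/-- Induction on `m`.  For two variables the saturation is everything (`A` contains a point, hence
a power of `x_0 = y`).  In the step take the layers of `B = satZ A y`.  If all `gz j ∈ B` use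
`n1_hb`, `hbz_univ`.  Otherwise `2 ≤ y` (for `y = 1` the variable `z = 2` is free in `B`), the
layers are those of `A`, the slice of `A` satisfies the hypotheses, `slice_satZ`, `n1_step`,
`hbz_slice` for `B`, `Nice.cone`, `Nice.hb`. -/
theorem nice_satZ (m : ℕ) (A : Set (Lt (m + 2))) (h : SS A) (hz : Free A (zi m))
    (hy : ¬ Free A (yi m)) (hN1 : N1 A) (hSG : SG A (zi m)) :
    N1 (satZ A (yi m)) ∧ Nice (m + 2) (satZ A (yi m)) := by
  induction m with
  | zero =>
    obtain ⟨v, hv⟩ : A.Nonempty := by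
      by_contra hne
      exact hy fun v _ hv => (hne ⟨_, hv⟩).elim
    have hE : satZ A (yi 0) = {v | 0 ≤ v} := by
      ext u
      refine ⟨fun hu => hu.1, fun hu => ⟨hu, h.collapse hv (yi 0) hu fun i hi => ?_⟩⟩
      exact absurd hi (Nat.not_lt_zero _)
    rw [hE]
    refine ⟨?_, Nice.univ _⟩
    intro w M hT _ i j _ _ _ u hu
    obtain ⟨-, -, h1, h2⟩ := hT.mem u hu
    exact h2 h1
  | succ m ih =>
    obtain ⟨v, hv⟩ : A.Nonempty := by
      by_contra hne
      exact hy fun v _ hv => (hne ⟨_, hv⟩).elim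
    have hB : SS (satZ A (yi (m + 1))) := h.satZ _
    have hsub : A ⊆ satZ A (yi (m + 1)) := h.subset_satZ _
    obtain ⟨s, r, lam, hL⟩ := exists_layers hB ⟨v, hsub hv⟩
    by_cases hall : ∀ j, j ≤ r → gz s lam j ∈ satZ A (yi (m + 1))
    · have hn := n1_hb hB hL hall
      exact ⟨hn, Nice.hb m _ _ s r lam r 0 (Nice.univ _) (hbz_univ hB hL hall) hn⟩
    · push Not at hall
      obtain ⟨js, hjs, hg⟩ := hall
      have hy2 : 2 ≤ (yi (m + 1)).val := by
        rcases m with _ | m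
        · exfalso
          obtain ⟨N, hN⟩ := hL.gz_add hjs
          exact hg ((hz.satZ (yi (0 + 1))).add_smul (gz_nonneg js) (Int.natCast_nonneg N) hN)
        · simp [yi]
      have hLA : Layers A s r lam := (layers_satZ h hy2).1 hL
      have ho : ∀ j, j ≤ r → j ≠ js → gz s lam j ∈ A := fun j hj hne =>
        attach_others h hz hy hN1 hSG hLA hjs hg hj hne
      have hz' : Free A (zi m).succ := by rwa [succ_zi]
      obtain ⟨i1, i2⟩ := ih (slice A (gz s lam js)) (h.slice (gz_nonneg js))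
        (hz'.slice (gz_nonneg js)) (not_free_slice h hz hy hN1 hSG hLA hjs hg)
        (n1_slice h hN1 hLA hjs ho) (sg_slice h hN1 hSG hLA hjs)
      rw [← slice_satZ (yi m) (gz_nonneg js), succ_yi] at i1 i2
      have hn := n1_step h hz hN1 hLA hjs hg ho i1
      obtain ⟨N, hH⟩ := hbz_slice hB hL hjs (hsub (hLA.c1 h hN1 hjs))
        fun j hj hne => hsub (ho j hj hne)
      exact ⟨hn, Nice.hb m _ _ s r lam js N (Nice.cone _ _ i2) hH hn⟩

end Pool.Agent.MP_24718c_ag

end

end partCombD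

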