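import Mathlib

/-!
The Hilbert scheme of projective space through its functor of points.

For a `k`-algebra `B`, closed subschemes of `P^n_B` that are flat and finitely presented over `B`
with Hilbert polynomial `P` correspond to homogeneous ideals `I` of `B[x_0, …, x_n]` whose
quotients `B[x]_d / I_d` are projective of rank `P(d)` in all large degrees `d`, two ideals
defining the same subscheme when they agree in all large degrees.
-/

open MvPolynomial AlgebraicGeometry CategoryTheory

universe u

namespace Pool.Agent.MP_24718c_ag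

/-- `I` contains all homogeneous components of its elements. -/
def IsHomog {σ : Type} {B : Type u} [CommRing B] (I : Ideal (MvPolynomial σ B)) : Prop :=
  ∀ f ∈ I, ∀ d : ℕ, homogeneousComponent d f ∈ I

/-- The degree `d` part `B[x]_d / I_d` of the quotient ring. -/
abbrev Piece {σ : Type} {B : Type u} [CommRing B] (I : Ideal (MvPolynomial σ B)) (d : ℕ) :
    Type u :=
  homogeneousSubmodule σ B d ⧸ (I.restrictScalars B).submoduleOf (homogeneousSubmodule σ B d)

/-- `I` is homogeneous and in all large degrees `d` the `B`-module `B[x]_d / I_d` is projective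
of constant rank `P(d)`. -/
def IsFamily {σ : Type} {B : Type u} [CommRing B] (P : Polynomial ℚ)
    (I : Ideal (MvPolynomial σ B)) : Prop :=
  IsHomog I ∧ ∃ d₀ : ℕ, ∀ d, d₀ ≤ d → Module.Projective B (Piece I d) ∧
    ∀ p : PrimeSpectrum B, (Module.rankAtStalk (Piece I d) p : ℚ) = P.eval (d : ℚ)

/-- `I` and `J` have the same forms of degree `d` for all large `d`. -/
def Agree {σ : Type} {B : Type u} [CommRing B] (I J : Ideal (MvPolynomial σ B)) : Prop :=
  ∃ d₀ : ℕ, ∀ d, d₀ ≤ d → ∀ f : MvPolynomial σ B, f.IsHomogeneous d → (f ∈ I ↔ f ∈ J)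

/-- The `B`-points of a `k`-scheme: morphisms `Spec B ⟶ H` over `Spec k`. -/
def Pts {k : Type u} [Field k] {H : Scheme.{u}} (π : H ⟶ Spec (CommRingCat.of k))
    (B : Type u) [CommRing B] [Algebra k B] : Type u :=
  {s : Spec (CommRingCat.of B) ⟶ H // s ≫ π = Spec.map (CommRingCat.ofHom (algebraMap k B))}

/-- `π : H ⟶ Spec k` represents the Hilbert functor of `P^n_k` with Hilbert polynomial `P`:
`fam` induces, naturally in the `k`-algebra `B`, a bijection from the `B`-points of `H` to the
families over `B` modulo agreement in large degrees. -/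
structure IsHilbertScheme {k : Type u} [Field k] (n : ℕ) (P : Polynomial ℚ) {H : Scheme.{u}}
    (π : H ⟶ Spec (CommRingCat.of k))
    (fam : ∀ (B : Type u) [CommRing B] [Algebra k B], Pts π B →
      Ideal (MvPolynomial (Fin (n + 1)) B)) : Prop where
  isFamily : ∀ (B : Type u) [CommRing B] [Algebra k B] (s : Pts π B), IsFamily P (fam B s)
  surj : ∀ (B : Type u) [CommRing B] [Algebra k B] (J : Ideal (MvPolynomial (Fin (n + 1)) B)),
    IsFamily P J → ∃ s : Pts π B, Agree (fam B s) J
  inj : ∀ (B : Type u) [CommRing B] [Algebra k B] (s t : Pts π B),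
    Agree (fam B s) (fam B t) → s = t
  natural : ∀ (B B' : Type u) [CommRing B] [Algebra k B] [CommRing B'] [Algebra k B']
    (φ : B →ₐ[k] B') (s : Pts π B) (s' : Pts π B'),
    s'.1 = Spec.map (CommRingCat.ofHom φ.toRingHom) ≫ s.1 →
      Agree (fam B' s') ((fam B s).map (MvPolynomial.map φ.toRingHom))

/-- `I` is saturated: `I : (x_0, …, x_n) = I`. -/
def IsSaturated {σ : Type} {k : Type u} [Field k] (I : Ideal (MvPolynomial σ k)) : Prop :=
  ∀ f : MvPolynomial σ k, (∀ i, X i * f ∈ I) → f ∈ I

/-- `I` is fixed by every invertible upper triangular matrix `g`, acting by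
`x_j ↦ ∑ i, g i j * x_i`. -/
def IsBorelFixed {n : ℕ} {k : Type u} [Field k] (I : Ideal (MvPolynomial (Fin n) k)) : Prop :=
  ∀ g : Matrix (Fin n) (Fin n) k, g.BlockTriangular id → g.det ≠ 0 →
    I.map (aeval fun j => ∑ i, C (g i j) * X i : MvPolynomial (Fin n) k →ₐ[k] _) = I

end Pool.Agent.MP_24718c_ag
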