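import Pool.Agent.MP_24718c_ag.Marked
import Pool.Agent.MP_24718c_ag.Comb

section partHB0

/-!
Hilbert-Burch ideals with one attached ideal: definitions and basic lemmas.
-/

set_option linter.unusedSectionVars false
set_option linter.unusedVariables false

open MvPolynomial

universe u

noncomputable section

namespace Pool.Agent.MP_24718c_ag

section
variable {m : ℕ} {B : Type u} [CommRing B]

/-- the exponent of `x_0^(s+j) x_1^(lam j)` -/
def gen (m s : ℕ) (lam : ℕ → ℕ) (j : ℕ) : Fin (m + 3) →₀ ℕ :=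
  Finsupp.single 0 (s + j) + Finsupp.single 1 (lam j)

/-- the Hilbert-Burch matrix of the monomial ideal, rows `i < r`, columns `j ≤ r` -/
def M0 (m : ℕ) (B : Type u) [CommRing B] (lam : ℕ → ℕ) (i j : ℕ) : MvPolynomial (Fin (m + 3)) B :=
  if j = i then X 0 else if j = i + 1 then - X 1 ^ (lam i - lam (i + 1)) else 0

structure HBData (E Cs : Set (Fin (m + 3) →₀ ℕ)) (s r : ℕ) (lam : ℕ → ℕ) (js N : ℕ) : Prop where
  anti : ∀ j, j < r → lam (j + 1) < lam j
  last : lam r = 0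
  js_le : js ≤ r
  upC : IsUpperSet Cs
  c0 : Finsupp.single 0 1 ∈ Cs
  c1 : ∀ j, j + 1 = js → Finsupp.single 1 (lam j - lam js) ∈ Cs
  c2 : Finsupp.single 2 N ∈ Cs
  mem : ∀ α, α ∈ E ↔ ∃ j, j ≤ r ∧ ∃ u, α = gen m s lam j + u ∧ (j = js → u ∈ Cs)

/-- homogeneous deformations of the generators modulo `K` -/
structure GenCl (K : Ideal B) (s r : ℕ) (lam : ℕ → ℕ) (G : ℕ → MvPolynomial (Fin (m + 3)) B) :
    Prop where
  hom : ∀ j, j ≤ r → (G j).IsHomogeneous (s + j + lam j)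
  cong : ∀ j, j ≤ r → G j - monomial (gen m s lam j) 1 ∈ KS _ K

/-- homogeneous deformations of the matrix modulo `K` -/
structure MatCl (K : Ideal B) (r : ℕ) (lam : ℕ → ℕ)
    (M : ℕ → ℕ → MvPolynomial (Fin (m + 3)) B) : Prop where
  hom : ∀ i, i < r → ∀ j, j ≤ r → HomOf (M i j) (j + lam j) (i + lam i + 1)
  cong : ∀ i, i < r → ∀ j, j ≤ r → M i j - M0 m B lam i j ∈ KS _ K

/-- the rows of `M` are relations between the `G j` -/
def Rel (r : ℕ) (M : ℕ → ℕ → MvPolynomial (Fin (m + 3)) B)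
    (G : ℕ → MvPolynomial (Fin (m + 3)) B) : Prop :=
  ∀ i, i < r → ∑ j ∈ Finset.range (r + 1), M i j * G j = 0

/-- the deformed ideal -/
def hbI (r js : ℕ) (G : ℕ → MvPolynomial (Fin (m + 3)) B)
    (𝒞 : Ideal (MvPolynomial (Fin (m + 3)) B)) : Ideal (MvPolynomial (Fin (m + 3)) B) :=
  Ideal.span (G '' {j | j ≤ r ∧ j ≠ js}) ⊔ 𝒞 * Ideal.span {G js}

end

section
variable {m : ℕ} {B B₁ : Type u} [CommRing B] [CommRing B₁] {E Cs : Set (Fin (m + 3) →₀ ℕ)}
  {s r js N : ℕ} {lam : ℕ → ℕ}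

theorem hb0_ne : (0 : Fin (m + 3)) ≠ 1 := by
  intro h
  have := congrArg Fin.val h
  simp at this

theorem degree_gen (j : ℕ) : (gen m s lam j).degree = s + j + lam j := by
  rw [gen, map_add, Finsupp.degree_single, Finsupp.degree_single]

theorem gen_zero (j : ℕ) : gen m s lam j 0 = s + j := by
  rw [gen, Finsupp.add_apply, Finsupp.single_eq_same, Finsupp.single_eq_of_ne hb0_ne, add_zero]

theorem gen_one (j : ℕ) : gen m s lam j 1 = lam j := by
  rw [gen, Finsupp.add_apply, Finsupp.single_eq_same, Finsupp.single_eq_of_ne hb0_ne.symm,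
    zero_add]

theorem gen_of_two_le (j : ℕ) {i : Fin (m + 3)} (hi : 2 ≤ i.val) : gen m s lam j i = 0 := by
  have h0 : i ≠ 0 := by
    rintro rfl
    simp at hi
  have h1 : i ≠ 1 := by
    rintro rfl
    simp at hi
  rw [gen, Finsupp.add_apply, Finsupp.single_eq_of_ne h0, Finsupp.single_eq_of_ne h1, add_zero]

theorem hb0_cases (i : Fin (m + 3)) : i = 0 ∨ i = 1 ∨ 2 ≤ i.val := by
  by_cases h : 2 ≤ i.val
  · exact Or.inr (Or.inr h)
  · have : i.val = 0 ∨ i.val = 1 := by omega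
    rcases this with h | h
    · exact Or.inl (Fin.ext (by simpa using h))
    · exact Or.inr (Or.inl (Fin.ext (by simpa using h)))

theorem gen_le_iff (j : ℕ) (α : Fin (m + 3) →₀ ℕ) :
    gen m s lam j ≤ α ↔ s + j ≤ α 0 ∧ lam j ≤ α 1 := by
  constructor
  · intro h
    have h0 := h 0
    have h1 := h 1
    rw [gen_zero] at h0
    rw [gen_one] at h1
    exact ⟨h0, h1⟩
  · rintro ⟨h0, h1⟩ i
    rcases hb0_cases i with rfl | rfl | hi
    · rwa [gen_zero]
    · rwa [gen_one]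
    · rw [gen_of_two_le j hi]
      exact Nat.zero_le _

theorem monomial_gen (j : ℕ) : (monomial (gen m s lam j) 1 : MvPolynomial (Fin (m + 3)) B) =
    X 0 ^ (s + j) * X 1 ^ lam j := by
  rw [gen, X_pow_eq_monomial, X_pow_eq_monomial, monomial_mul, one_mul]

theorem gen_succ (hanti : ∀ j, j < r → lam (j + 1) < lam j) {j : ℕ} (hj : j < r) :
    gen m s lam j + Finsupp.single 0 1 =
      gen m s lam (j + 1) + Finsupp.single 1 (lam j - lam (j + 1)) := by
  have h := hanti j hj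
  have e : lam j = lam (j + 1) + (lam j - lam (j + 1)) := by omega
  unfold gen
  conv_lhs => rw [e]
  rw [← add_assoc s j 1, Finsupp.single_add 0 (s + j) 1, Finsupp.single_add 1 (lam (j + 1))]
  abel

theorem HBData.lam_le (h : HBData E Cs s r lam js N) {a b : ℕ} (hab : a ≤ b) (hb : b ≤ r) :
    lam b ≤ lam a := by
  induction b, hab using Nat.le_induction with
  | base => exact le_rfl
  | succ n hn ih => exact (h.anti n (by omega)).le.trans (ih (by omega))

theorem HBData.upper (h : HBData E Cs s r lam js N) : IsUpperSet E := by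
  intro α β hαβ hα
  obtain ⟨j, hj, u, rfl, hu⟩ := (h.mem α).1 hα
  obtain ⟨w, rfl⟩ := exists_add_of_le hαβ
  exact (h.mem _).2 ⟨j, hj, u + w, add_assoc _ _ _, fun hjs => h.upC le_self_add (hu hjs)⟩

theorem HBData.gen_mem (h : HBData E Cs s r lam js N) {j : ℕ} (hj : j ≤ r) (hne : j ≠ js)
    (u : Fin (m + 3) →₀ ℕ) : gen m s lam j + u ∈ E :=
  (h.mem _).2 ⟨j, hj, u, rfl, fun hjs => absurd hjs hne⟩

/-- if `gen js + u = gen j + u'` with `js < j` then `1 ≤ u 0`, with `j < js` then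
`lam (js - 1) - lam js ≤ u 1` -/
theorem HBData.gen_add_mem_iff (h : HBData E Cs s r lam js N) (u : Fin (m + 3) →₀ ℕ) :
    gen m s lam js + u ∈ E ↔ u ∈ Cs := by
  refine ⟨fun hu => ?_, fun hu => (h.mem _).2 ⟨js, h.js_le, u, rfl, fun _ => hu⟩⟩
  obtain ⟨j, hj, u', he, hu'⟩ := (h.mem _).1 hu
  rcases lt_trichotomy j js with hlt | rfl | hlt
  · obtain ⟨t, rfl⟩ : ∃ t, js = t + 1 := ⟨js - 1, by omega⟩
    have h1 := DFunLike.congr_fun he 1
    rw [Finsupp.add_apply, Finsupp.add_apply, gen_one, gen_one] at h1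
    have h2 : lam t ≤ lam j := h.lam_le (by omega) (by have := h.js_le; omega)
    refine h.upC ?_ (h.c1 t rfl)
    rw [Finsupp.single_le_iff]
    omega
  · rw [add_left_cancel he]
    exact hu' rfl
  · have h0 := DFunLike.congr_fun he 0
    rw [Finsupp.add_apply, Finsupp.add_apply, gen_zero, gen_zero] at h0
    refine h.upC ?_ h.c0
    rw [Finsupp.single_le_iff]
    omega

/-- standard decomposition, `j = min (α 0 - s) r` -/
theorem HBData.std (h : HBData E Cs s r lam js N) {α : Fin (m + 3) →₀ ℕ} (hα : α ∈ E) :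
    ∃ j, j ≤ r ∧ ∃ u, α = gen m s lam j + u ∧ (j = js → u ∈ Cs) ∧ (j < r → u 0 = 0) := by
  obtain ⟨j₀, hj₀, u₀, he, -⟩ := (h.mem α).1 hα
  have hle : gen m s lam j₀ ≤ α := he ▸ le_self_add
  obtain ⟨h0, h1⟩ := (gen_le_iff j₀ α).1 hle
  have h2 : lam (min (α 0 - s) r) ≤ lam j₀ := h.lam_le (by omega) (min_le_right _ _)
  have hle' : gen m s lam (min (α 0 - s) r) ≤ α := (gen_le_iff _ α).2 ⟨by omega, by omega⟩
  obtain ⟨u, hu⟩ := exists_add_of_le hle'
  refine ⟨min (α 0 - s) r, min_le_right _ _, u, hu, fun hjs => ?_, fun hlt => ?_⟩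
  · rw [← h.gen_add_mem_iff, ← hjs, ← hu]
    exact hα
  · have h3 := DFunLike.congr_fun hu 0
    rw [Finsupp.add_apply, gen_zero] at h3
    omega

theorem gen_std_unique {j j' : ℕ} (hj : j ≤ r) (hj' : j' ≤ r) {u u' : Fin (m + 3) →₀ ℕ}
    (hu : j < r → u 0 = 0) (hu' : j' < r → u' 0 = 0)
    (h : gen m s lam j + u = gen m s lam j' + u') : j = j' ∧ u = u' := by
  have h0 := DFunLike.congr_fun h 0
  rw [Finsupp.add_apply, Finsupp.add_apply, gen_zero, gen_zero] at h0
  have hjj : j = j' := by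
    rcases lt_trichotomy j j' with hlt | he | hlt
    · have := hu (by omega)
      omega
    · exact he
    · have := hu' (by omega)
      omega
  subst hjj
  exact ⟨rfl, add_left_cancel h⟩

theorem sum_M0 {i : ℕ} (hi : i < r) (c : ℕ → MvPolynomial (Fin (m + 3)) B) :
    ∑ j ∈ Finset.range (r + 1), M0 m B lam i j * c j =
      X 0 * c i - X 1 ^ (lam i - lam (i + 1)) * c (i + 1) := by
  rw [Finset.sum_eq_add_of_mem i (i + 1) (Finset.mem_range.2 (by omega))
    (Finset.mem_range.2 (by omega)) (by omega)]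
  · have e1 : M0 m B lam i i = X 0 := by simp [M0]
    have e2 : M0 m B lam i (i + 1) = - X 1 ^ (lam i - lam (i + 1)) := by simp [M0]
    rw [e1, e2]
    ring
  · rintro j - ⟨h1, h2⟩
    rw [M0, if_neg h1, if_neg h2, zero_mul]

theorem map_M0 (ρ : B →+* B₁) (i j : ℕ) :
    MvPolynomial.map ρ (M0 m B lam i j) = M0 m B₁ lam i j := by
  unfold M0
  split_ifs <;> simp

theorem homOf_M0 (hanti : ∀ j, j < r → lam (j + 1) < lam j) {i : ℕ} (hi : i < r) (j : ℕ) :
    HomOf (M0 m B lam i j) (j + lam j) (i + lam i + 1) := by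
  have h := hanti i hi
  intro γ hγ
  unfold M0 at hγ
  split_ifs at hγ with h1 h2
  · have := isHomogeneous_iff_degree.1 (isHomogeneous_X B (0 : Fin (m + 3))) γ
      (mem_support_iff.1 hγ)
    subst h1
    omega
  · have h3 := ((isHomogeneous_X B (1 : Fin (m + 3))).pow (lam i - lam (i + 1))).neg
    have := isHomogeneous_iff_degree.1 h3 γ (mem_support_iff.1 hγ)
    subst h2
    omega
  · simp at hγ

theorem HomOf.add_left {σ : Type} {f : MvPolynomial σ B} {a b : ℕ} (h : HomOf f a b) (t : ℕ) :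
    HomOf f (t + a) (t + b) := by
  intro γ hγ
  have := h γ hγ
  omega

theorem hb0_dvd_iff {σ : Type} (s : σ →₀ ℕ) (f : MvPolynomial σ B) :
    monomial s (1 : B) ∣ f ↔ ∀ γ, ¬ s ≤ γ → coeff γ f = 0 := by
  rw [monomial_one_dvd_iff_modMonomial_eq_zero]
  constructor
  · intro h γ hγ
    rw [← coeff_modMonomial_of_not_le f hγ, h, coeff_zero]
  · intro h
    ext γ
    by_cases hγ : s ≤ γ
    · rw [coeff_modMonomial_of_le f hγ, coeff_zero]
    · rw [coeff_modMonomial_of_not_le f hγ, h γ hγ, coeff_zero]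

theorem hb0_dvd_cancel {k d : ℕ} {f : MvPolynomial (Fin (m + 3)) B}
    (h : X 0 ^ k ∣ X 1 ^ d * f) : X 0 ^ k ∣ f := by
  rw [X_pow_eq_monomial, hb0_dvd_iff] at h ⊢
  intro γ hγ
  have h1 := h (Finsupp.single 1 d + γ) (by
    rw [Finsupp.single_le_iff] at hγ ⊢
    rwa [Finsupp.add_apply, Finsupp.single_eq_of_ne hb0_ne, zero_add])
  rwa [X_pow_eq_monomial, coeff_monomial_mul, one_mul] at h1

/-- `X 0 ^ j ∣ c j` by induction on `j`; write `c r = h * X 0 ^ r`; then downward induction,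
cancelling `X 0`. -/
theorem ker_M0 (hanti : ∀ j, j < r → lam (j + 1) < lam j) (hlast : lam r = 0)
    {c : ℕ → MvPolynomial (Fin (m + 3)) B} (hc : Rel r (M0 m B lam) c) :
    ∃ h, ∀ j, j ≤ r → c j = h * monomial (gen m 0 lam j) 1 := by
  have hrel : ∀ i, i < r → X 0 * c i = X 1 ^ (lam i - lam (i + 1)) * c (i + 1) := by
    intro i hi
    have := hc i hi
    rwa [sum_M0 hi, sub_eq_zero] at this
  have hdvd : ∀ j, j ≤ r → X 0 ^ j ∣ c j := by
    intro j
    induction j with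
    | zero => intro _; simp
    | succ n ih =>
      intro hn
      refine hb0_dvd_cancel (d := lam n - lam (n + 1)) ?_
      rw [← hrel n (by omega), pow_succ']
      exact mul_dvd_mul_left _ (ih (by omega))
  obtain ⟨h, hh⟩ := hdvd r le_rfl
  refine ⟨h, fun j hj => ?_⟩
  rw [monomial_gen, zero_add]
  induction hj using Nat.decreasingInduction with
  | self => rw [hh, hlast, pow_zero, mul_one, mul_comm]
  | of_succ k hk ih =>
    have h1 := hrel k hk
    have h2 := hanti k hk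
    have e : lam k = lam k - lam (k + 1) + lam (k + 1) := by omega
    refine (isRegular_X (n := (0 : Fin (m + 3))) (R := B)).left ?_
    show X 0 * c k = X 0 * (h * (X 0 ^ k * X 1 ^ lam k))
    rw [h1, ih]
    conv_rhs => rw [e, pow_add]
    ring

theorem nakayama_nilp {P : Type u} [AddCommGroup P] [Module B P] {𝔫 : Ideal B}
    (hn : IsNilpotent 𝔫) {N₁ N₂ : Submodule B P} (h : N₁ ≤ N₂ ⊔ 𝔫 • N₁) : N₁ ≤ N₂ := by
  have key : ∀ k : ℕ, N₁ ≤ N₂ ⊔ 𝔫 ^ k • N₁ := by
    intro k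
    induction k with
    | zero =>
      rw [pow_zero, Ideal.one_eq_top, Submodule.top_smul]
      exact le_sup_right
    | succ k ih =>
      refine h.trans (sup_le le_sup_left ?_)
      refine (Submodule.smul_mono le_rfl ih).trans ?_
      rw [Submodule.smul_sup, pow_succ', Submodule.mul_smul]
      exact sup_le_sup_right Submodule.smul_le_right _
  obtain ⟨k, hk⟩ := hn
  have := key k
  rwa [hk, Submodule.zero_eq_bot, Submodule.bot_smul, sup_bot_eq] at this

theorem bijective_of_sub_mem {P : Type u} [AddCommGroup P] [Module B P] {𝔫 : Ideal B}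
    (hn : IsNilpotent 𝔫) (T : P →ₗ[B] P) (h : ∀ x, T x - x ∈ 𝔫 • (⊤ : Submodule B P)) :
    Function.Bijective T := by
  constructor
  · rw [injective_iff_map_eq_zero]
    intro x hx
    have step : ∀ (I : Ideal B) (y : P), y ∈ I • (⊤ : Submodule B P) →
        T y - y ∈ (I * 𝔫) • (⊤ : Submodule B P) := by
      intro I y hy
      refine Submodule.smul_induction_on hy (fun a ha z _ => ?_) fun y z hy hz => ?_
      · rw [map_smul, ← smul_sub, Submodule.mul_smul]
        exact Submodule.smul_mem_smul ha (h z)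
      · rw [map_add, add_sub_add_comm]
        exact Submodule.add_mem _ hy hz
    have key : ∀ k : ℕ, x ∈ 𝔫 ^ k • (⊤ : Submodule B P) := by
      intro k
      induction k with
      | zero =>
        rw [pow_zero, Ideal.one_eq_top, Submodule.top_smul]
        exact Submodule.mem_top
      | succ k ih =>
        have := step _ x ih
        rw [hx, zero_sub, ← pow_succ] at this
        exact (Submodule.neg_mem_iff _).1 this
    obtain ⟨k, hk⟩ := hn
    have := key k
    rwa [hk, Submodule.zero_eq_bot, Submodule.bot_smul, Submodule.mem_bot] at this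
  · rw [← LinearMap.range_eq_top, eq_top_iff]
    refine nakayama_nilp hn fun x _ => ?_
    have e : x = T x + -(T x - x) := by abel
    rw [e]
    exact Submodule.add_mem_sup (LinearMap.mem_range_self T x) (Submodule.neg_mem _ (h x))

theorem mem_KS_iff_smul_top {σ : Type} {K : Ideal B} {f : MvPolynomial σ B} :
    f ∈ KS σ K ↔ f ∈ K • (⊤ : Submodule B (MvPolynomial σ B)) := by
  rw [Ideal.smul_top_eq_map, Submodule.restrictScalars_mem, algebraMap_eq]

theorem KS_mul_KS {σ : Type} {K : Ideal B} (hK : K * K = ⊥) {f g : MvPolynomial σ B}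
    (hf : f ∈ KS σ K) (hg : g ∈ KS σ K) : f * g = 0 := by
  have := Ideal.mul_mem_mul hf hg
  rwa [← Ideal.map_mul, hK, Ideal.map_bot, Ideal.mem_bot] at this

theorem mem_KS_comap {σ : Type} (ρ : B →+* B₁) {K : Ideal B₁} {f : MvPolynomial σ B} :
    f ∈ KS σ (K.comap ρ) ↔ MvPolynomial.map ρ f ∈ KS σ K := by
  rw [mem_map_C_iff, mem_map_C_iff]
  exact forall_congr' fun γ => by rw [Ideal.mem_comap, coeff_map]

/-- lifting with control of the degree, inside a homogeneous ideal -/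
theorem exists_lift_homOf {σ : Type} [Fintype σ] [DecidableEq σ] {ρ : B →+* B₁}
    (hρ : Function.Surjective ρ) {J : Ideal (MvPolynomial σ B)} (hJ : IsHomog J)
    {f₁ : MvPolynomial σ B₁} (hf : f₁ ∈ bc ρ J) {a b : ℕ} (h : HomOf f₁ a b) :
    ∃ f ∈ J, HomOf f a b ∧ MvPolynomial.map ρ f = f₁ := by
  obtain ⟨g, hg, hgf⟩ := (Ideal.mem_map_iff_of_surjective _ (map_surjective ρ hρ)).1 hf
  by_cases hab : a ≤ b
  · have h1 : f₁.IsHomogeneous (b - a) := by
      rw [isHomogeneous_iff_degree]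
      intro γ hγ
      have := h γ (mem_support_iff.2 hγ)
      omega
    refine ⟨homogeneousComponent (b - a) g, hJ g hg _, fun γ hγ => ?_, ?_⟩
    · have := isHomogeneous_iff_degree.1 (homogeneousComponent_isHomogeneous (b - a) g) γ
        (mem_support_iff.1 hγ)
      omega
    · rw [← basica_hc_map, hgf, homogeneousComponent_of_mem h1, if_pos rfl]
  · refine ⟨0, J.zero_mem, fun γ hγ => by simp at hγ, ?_⟩
    rw [map_zero]
    ext γ
    by_contra hne
    have := h γ (mem_support_iff.2 fun h0 => hne (by rw [h0, coeff_zero]))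
    omega

end

end Pool.Agent.MP_24718c_ag

end

end partHB0

section partHB1

/-!
First order deformations of an attached Hilbert-Burch ideal: generators and colon ideal.
-/

set_option linter.unusedSectionVars false
set_option linter.unusedVariables false

open MvPolynomial

universe u

noncomputable section

namespace Pool.Agent.MP_24718c_ag

variable {m : ℕ} {B B₁ : Type u} [CommRing B] [CommRing B₁] {E Cs : Set (Fin (m + 3) →₀ ℕ)}
  {s r js N : ℕ} {lam : ℕ → ℕ}

theorem hb1_cut {σ : Type} [Fintype σ] [DecidableEq σ] (f : MvPolynomial σ B) (β : σ →₀ ℕ)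
    (S : Set (σ →₀ ℕ)) : ∃ ζ : MvPolynomial σ B, (∀ γ ∈ S, coeff γ ζ = 0) ∧
      (∀ γ, γ ∉ S → coeff γ ζ = coeff (β + γ) f) ∧ (∀ K : Ideal B, f ∈ KS σ K → ζ ∈ KS σ K) ∧
      ∀ d, f.IsHomogeneous (β.degree + d) → ζ.IsHomogeneous d := by
  classical
  obtain ⟨ζ, h1, h2⟩ : ∃ ζ : MvPolynomial σ B, (∀ γ ∈ S, coeff γ ζ = 0) ∧
      ∀ γ, γ ∉ S → coeff γ ζ = coeff (β + γ) f := by
    refine ⟨∑ γ ∈ (f.divMonomial β).support with γ ∉ S,
      monomial γ (coeff γ (f.divMonomial β)), fun γ hγ => ?_, fun γ hγ => ?_⟩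
    · rw [coeff_sum]
      refine Finset.sum_eq_zero fun α hα => ?_
      rw [coeff_monomial, if_neg]
      rintro rfl
      exact (Finset.mem_filter.1 hα).2 hγ
    · rw [coeff_sum, Finset.sum_eq_single γ]
      · rw [coeff_monomial, if_pos rfl, coeff_divMonomial]
      · intro α _ hne
        rw [coeff_monomial, if_neg hne]
      · intro hn
        rw [coeff_monomial, if_pos rfl]
        by_contra hc
        exact hn (Finset.mem_filter.2 ⟨mem_support_iff.2 hc, hγ⟩)
  refine ⟨ζ, h1, h2, fun K hf => mem_KS.2 fun γ => ?_, fun d hf => ?_⟩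
  · by_cases hγ : γ ∈ S
    · rw [h1 γ hγ]
      exact K.zero_mem
    · rw [h2 γ hγ]
      exact mem_KS.1 hf _
  · refine isHomogeneous_iff_degree.2 fun γ hc => ?_
    have hγ : γ ∉ S := fun hγ => hc (h1 γ hγ)
    rw [h2 γ hγ] at hc
    have := isHomogeneous_iff_degree.1 hf _ hc
    rw [map_add] at this
    omega

theorem hb1_two : (2 : Fin (m + 3)).val = 2 := rfl

theorem hb1_ne0 : (2 : Fin (m + 3)) ≠ 0 := fun h => by
  have := congrArg Fin.val h
  rw [hb1_two] at this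
  exact absurd this (by simp)

theorem hb1_ne1 : (2 : Fin (m + 3)) ≠ 1 := fun h => by
  have := congrArg Fin.val h
  rw [hb1_two] at this
  exact absurd this (by simp)

/-- the exponent set of the Hilbert-Burch ideal -/
def hb1G (m s r : ℕ) (lam : ℕ → ℕ) : Set (Fin (m + 3) →₀ ℕ) :=
  {β | ∃ j, j ≤ r ∧ gen m s lam j ≤ β}

theorem hb1_upper : IsUpperSet (hb1G m s r lam) := by
  rintro a b hab ⟨j, hj, h⟩
  exact ⟨j, hj, h.trans hab⟩

theorem hb1_free {β : Fin (m + 3) →₀ ℕ} {t : ℕ} (h : Finsupp.single 2 t + β ∈ hb1G m s r lam) :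
    β ∈ hb1G m s r lam := by
  obtain ⟨j, hj, h⟩ := h
  refine ⟨j, hj, ?_⟩
  rw [gen_le_iff] at h ⊢
  rwa [Finsupp.add_apply, Finsupp.add_apply, Finsupp.single_eq_of_ne hb1_ne0.symm,
    Finsupp.single_eq_of_ne hb1_ne1.symm, zero_add, zero_add] at h

theorem hb1_sub (hD : HBData E Cs s r lam js N) : E ⊆ hb1G m s r lam := by
  intro α hα
  obtain ⟨j, hj, u, rfl, -⟩ := (hD.mem α).1 hα
  exact ⟨j, hj, le_self_add⟩

theorem hb1_delta (hD : HBData E Cs s r lam js N) (hN1 : N1N E) {K : Ideal B} (hK : K * K = ⊥)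
    {I₁ : Ideal (MvPolynomial (Fin (m + 3)) B)} (hI : Marked E 0 I₁) (hr : Red E I₁ K) :
    ∃ δ ∈ KS (Fin (m + 3)) K, δ.IsHomogeneous (gen m s lam js).degree ∧
      monomial (Finsupp.single 2 N) 1 * δ - nf E I₁ (gen m s lam js + Finsupp.single 2 N) ∈
        monI B (hb1G m s r lam) := by
  have hα : gen m s lam js + Finsupp.single 2 N ∈ E := (hD.gen_add_mem_iff _).2 hD.c2
  obtain ⟨δ, h1, h2, h3, h4⟩ := hb1_cut (nf E I₁ (gen m s lam js + Finsupp.single 2 N))
    (Finsupp.single 2 N) (hb1G m s r lam)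
  refine ⟨δ, h3 K (hI.red_iff_nf.1 hr _ hα), h4 _ ?_, (mem_monI hb1_upper).2 fun γ hγ => ?_⟩
  · have := hI.nf_hom (α := gen m s lam js + Finsupp.single 2 N) (Nat.zero_le _)
    rwa [map_add, add_comm (gen m s lam js).degree] at this
  · rw [coeff_sub, coeff_monomial_mul', sub_eq_zero]
    split_ifs with hle
    · rw [one_mul, h2 _ fun hc => hγ (hb1_upper tsub_le_self hc), add_tsub_cancel_of_le hle]
    · by_contra hc
      have hM : coef E I₁ (gen m s lam js + Finsupp.single 2 N, γ) ≠ 0 := by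
        rw [coef, if_pos hα]
        exact fun h => hc h.symm
      have key := hN1 _ (hI.tan hD.upper hK hr) _ _ hM 2
      have h2 : γ 2 < (gen m s lam js + Finsupp.single 2 N : Fin (m + 3) →₀ ℕ) 2 := by
        rw [Finsupp.single_le_iff, not_le] at hle
        rw [Finsupp.add_apply, Finsupp.single_eq_same]
        omega
      refine hγ ⟨js, hD.js_le, (gen_le_iff _ _).2 ⟨not_lt.1 fun h => key 0 hb1_ne0 h2 ?_,
        not_lt.1 fun h => key 1 hb1_ne1 h2 ?_⟩⟩
      · rw [Finsupp.add_apply, gen_zero]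
        omega
      · rw [Finsupp.add_apply, gen_one]
        omega

theorem hb1_span (hD : HBData E Cs s r lam js N) {K : Ideal B} (hK : K * K = ⊥)
    {I₁ : Ideal (MvPolynomial (Fin (m + 3)) B)} (hI : Marked E 0 I₁) (hr : Red E I₁ K)
    {δ : MvPolynomial (Fin (m + 3)) B} (d1 : δ ∈ KS (Fin (m + 3)) K)
    (d2 : δ.IsHomogeneous (gen m s lam js).degree)
    (d3 : monomial (Finsupp.single 2 N) 1 * δ - nf E I₁ (gen m s lam js + Finsupp.single 2 N) ∈
      monI B (hb1G m s r lam)) {u : Fin (m + 3) →₀ ℕ} (hu : u ∈ Cs) :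
    ∃ ζ ∈ Nsp B Cs, ζ.IsHomogeneous u.degree ∧
      (monomial u 1 - ζ) * (monomial (gen m s lam js) 1 - δ) ∈ I₁ := by
  obtain ⟨g, hg⟩ : ∃ g, g = gen m s lam js := ⟨_, rfl⟩
  rw [← hg] at d2 d3 ⊢
  have hE : ∀ v, g + v ∈ E ↔ v ∈ Cs := hg ▸ hD.gen_add_mem_iff
  have a1 := hI.hel_mem (α := g + u) (Nat.zero_le _)
  have a2 := hI.hel_mem (α := g + Finsupp.single 2 N) (Nat.zero_le _)
  have k1 := hI.red_iff_nf.1 hr _ ((hE u).2 hu)
  have k2 := hI.red_iff_nf.1 hr _ ((hE _).2 hD.c2)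
  have hp := hI.nf_hom (α := g + u) (Nat.zero_le _)
  rw [Hel] at a1 a2
  generalize nf E I₁ (g + u) = p at a1 k1 hp
  generalize nf E I₁ (g + Finsupp.single 2 N) = n at a2 k2 d3
  have e1 : ∀ v, (monomial (g + v) 1 : MvPolynomial (Fin (m + 3)) B) =
      monomial g 1 * monomial v 1 := fun v => by rw [monomial_mul, one_mul]
  rw [e1] at a1 a2
  have b1 : monomial (Finsupp.single 2 N) 1 * p - monomial u 1 * n ∈ I₁ := by
    have := I₁.sub_mem (I₁.mul_mem_left (monomial u 1) a2)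
      (I₁.mul_mem_left (monomial (Finsupp.single 2 N) 1) a1)
    convert this using 1
    ring
  have b2 := hI.KS_supp hK hr
    (Ideal.sub_mem _ (Ideal.mul_mem_left _ _ k1) (Ideal.mul_mem_left _ _ k2)) b1
  have b3 : ∀ γ, γ ∉ hb1G m s r lam → coeff γ (p - monomial u 1 * δ) = 0 := by
    intro γ hγ
    have h1 : Finsupp.single 2 N + γ ∉ hb1G m s r lam := fun h => hγ (hb1_free h)
    have h2 := b2 _ fun h => h1 (hb1_sub hD h)
    have h3 := (mem_monI hb1_upper).1 (Ideal.mul_mem_left _ (monomial u 1) d3) _ h1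
    have h4 : monomial (Finsupp.single 2 N) 1 * (p - monomial u 1 * δ) =
        (monomial (Finsupp.single 2 N) 1 * p - monomial u 1 * n) -
          monomial u 1 * (monomial (Finsupp.single 2 N) 1 * δ - n) := by ring
    have h5 := coeff_monomial_mul γ (Finsupp.single 2 N) (1 : B) (p - monomial u 1 * δ)
    rw [h4, coeff_sub, h2, h3, sub_zero, one_mul] at h5
    exact h5.symm
  have b4 : p - monomial u 1 * δ ∈ KS (Fin (m + 3)) K :=
    Ideal.sub_mem _ k1 (Ideal.mul_mem_left _ _ d1)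
  have b5 : (p - monomial u 1 * δ).IsHomogeneous (g.degree + u.degree) := by
    rw [map_add] at hp
    refine hp.sub ?_
    rw [add_comm g.degree]
    exact (isHomogeneous_monomial' u 1).mul d2
  obtain ⟨ζ, z1, z2, z3, z4⟩ := hb1_cut (p - monomial u 1 * δ) g Cs
  refine ⟨ζ, mem_Nsp.2 z1, z4 _ b5, ?_⟩
  have c1 : p - monomial u 1 * δ - monomial g 1 * ζ ∈ I₁ := by
    refine hI.KS_mem hK hr (Ideal.sub_mem _ b4 (Ideal.mul_mem_left _ _ (z3 K b4))) fun γ hγ => ?_
    rw [coeff_sub, coeff_monomial_mul', sub_eq_zero]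
    split_ifs with hle
    · rw [one_mul, z2 _ fun hc => hγ (add_tsub_cancel_of_le hle ▸ (hE _).2 hc),
        add_tsub_cancel_of_le hle]
    · refine b3 γ ?_
      rintro ⟨j, hj, h⟩
      by_cases hjj : j = js
      · exact hle (hg ▸ hjj ▸ h)
      · exact hγ (add_tsub_cancel_of_le h ▸ hD.gen_mem hj hjj _)
  have c2 : ζ * δ = 0 := KS_mul_KS hK (z3 K b4) d1
  have := I₁.add_mem a1 c1
  convert this using 1
  linear_combination c2

/-- Let `g = gen js`, `Γ = {β | ∃ j ≤ r, gen j ≤ β} ⊇ E` (upper set, free in the index `2`).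
By `Marked.tan` and `N1N`, every `γ ∉ Γ` in the support of `n = nf (g + N e_2)` has `N ≤ γ 2`
(otherwise `γ 0, γ 1` are at least `g 0, g 1`).  Let `δ = ∑ coeff γ n • x^(γ - N e_2)` over these
`γ`, `G js = x^g - δ`, `G j = Hel (gen j)` otherwise, `𝒞 = {c | c * G js ∈ I₁}`
(`Submodule.colon`).  For `u ∈ Cs`: `X 2 ^ N * nf (g + u) - x^u * n ∈ I₁ ∩ KS` is supported on `E`
(`KS_supp`), hence `η = nf (g + u) - x^u δ` is supported on `Γ`; split `η` into the part on `E`
(in `I₁` by `KS_mem`) and the part on `Γ \ E ⊆ g + Cᶜ`, which is `x^g ζ = G js * ζ` with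
`ζ ∈ Nsp Cs ∩ KS`; so `x^u - ζ ∈ 𝒞`.  `Red`: if `c * G js ∈ I₁` and `γ ∉ Cs` then `g + γ ∉ E`, so the
coefficient at `g + γ`, which is `coeff γ c` modulo `K`, is in `K`.  Independence: `ζ ∈ Nsp Cs ∩ 𝒞`
is in `KS` by `Red`, so `ζ * G js = ζ * x^g ∈ Nsp E ∩ I₁ = 0`. -/
theorem hb_first (hD : HBData E Cs s r lam js N) (hN1 : N1N E) {K : Ideal B} (hK : K * K = ⊥)
    {I₁ : Ideal (MvPolynomial (Fin (m + 3)) B)} (hI : Marked E 0 I₁) (hr : Red E I₁ K) :
    ∃ (G : ℕ → MvPolynomial (Fin (m + 3)) B) (𝒞 : Ideal (MvPolynomial (Fin (m + 3)) B)),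
      GenCl K s r lam G ∧ (∀ j, j ≤ r → j ≠ js → G j ∈ I₁) ∧ Marked Cs 0 𝒞 ∧ Red Cs 𝒞 K ∧
      ∀ c, c ∈ 𝒞 ↔ c * G js ∈ I₁ := by
  obtain ⟨δ, d1, d2, d3⟩ := hb1_delta hD hN1 hK hI hr
  obtain ⟨𝒞, hC⟩ : ∃ 𝒞 : Ideal (MvPolynomial (Fin (m + 3)) B),
      ∀ c, c ∈ 𝒞 ↔ c * (monomial (gen m s lam js) 1 - δ) ∈ I₁ :=
    ⟨Submodule.comap (LinearMap.toSpanSingleton _ _ (monomial (gen m s lam js) 1 - δ)) I₁,
      fun c => Iff.rfl⟩
  have hhom : (monomial (gen m s lam js) 1 - δ).IsHomogeneous (gen m s lam js).degree :=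
    (isHomogeneous_monomial' _ 1).sub d2
  have hred : Red Cs 𝒞 K := by
    intro c hc γ hγ
    have h1 := hr _ ((hC c).1 hc) (γ + gen m s lam js) fun h =>
      hγ ((hD.gen_add_mem_iff γ).1 (add_comm γ _ ▸ h))
    rw [mul_sub, coeff_sub, coeff_mul_monomial, mul_one] at h1
    have h2 := mem_KS.1 (Ideal.mul_mem_left _ c d1) (γ + gen m s lam js)
    simpa using K.add_mem h1 h2
  refine ⟨fun j => if j = js then monomial (gen m s lam js) 1 - δ else Hel E I₁ (gen m s lam j),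
    𝒞, ⟨fun j hj => ?_, fun j hj => ?_⟩, fun j hj hne => ?_, ?_, hred, fun c => ?_⟩
  · rw [← degree_gen (m := m)]
    split_ifs with h
    · rw [h]
      exact hhom
    · exact hI.hel_hom (Nat.zero_le _)
  · split_ifs with h
    · rw [h, sub_sub_cancel_left]
      exact neg_mem d1
    · rw [Hel, sub_sub_cancel_left]
      exact neg_mem (hI.red_iff_nf.1 hr _ (by simpa using hD.gen_mem hj h 0))
  · simp only [if_neg hne]
    exact hI.hel_mem (Nat.zero_le _)
  · refine marked_of_monomials (hI.homog.colon hhom hC) (fun u hu _ => ?_)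
      fun d _ ζ h1 _ h2 => ?_
    · obtain ⟨ζ, z1, z2, z3⟩ := hb1_span hD hK hI hr d1 d2 d3 hu
      exact ⟨ζ, z1, z2, (hC _).2 z3⟩
    · have h3 : ζ ∈ KS (Fin (m + 3)) K := mem_KS.2 fun γ => by
        by_cases hγ : γ ∈ Cs
        · rw [mem_Nsp.1 h1 γ hγ]
          exact K.zero_mem
        · exact hred ζ h2 γ hγ
      have h4 := (hC ζ).1 h2
      rw [mul_sub, KS_mul_KS hK h3 d1, sub_zero] at h4
      have h5 : ζ * monomial (gen m s lam js) 1 = 0 := by
        refine hI.indep_zero (mem_Nsp.2 fun γ hγ => ?_) h4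
        rw [coeff_mul_monomial']
        split_ifs with hle
        · rw [mul_one]
          refine mem_Nsp.1 h1 _ ((hD.gen_add_mem_iff _).1 ?_)
          rwa [add_tsub_cancel_of_le hle]
        · rfl
      ext γ
      have h6 := coeff_mul_monomial γ (gen m s lam js) (1 : B) ζ
      rw [h5, mul_one] at h6
      exact h6.symm
  · simp only [if_true]
    exact hC c

end Pool.Agent.MP_24718c_ag

end

end partHB1

section partHB2

/-!
First order deformation of the matrix; factorisation of the generators.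
-/

set_option linter.unusedSectionVars false
set_option linter.unusedVariables false

open MvPolynomial

universe u

noncomputable section

namespace Pool.Agent.MP_24718c_ag

variable {m : ℕ} {B B₁ : Type u} [CommRing B] [CommRing B₁] {E Cs : Set (Fin (m + 3) →₀ ℕ)}
  {s r js N : ℕ} {lam : ℕ → ℕ}

theorem hb2_homOf_zero {σ : Type} (a b : ℕ) : HomOf (0 : MvPolynomial σ B) a b := by
  intro γ hγ
  simp at hγ

theorem hb2_homOf_add {σ : Type} {f g : MvPolynomial σ B} {a b : ℕ} (hf : HomOf f a b)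
    (hg : HomOf g a b) : HomOf (f + g) a b := by
  intro γ hγ
  rw [mem_support_iff, coeff_add] at hγ
  by_cases h : coeff γ f = 0
  · rw [h, zero_add] at hγ
    exact hg γ (mem_support_iff.2 hγ)
  · exact hf γ (mem_support_iff.2 h)

theorem hb2_homOf_neg {σ : Type} {f : MvPolynomial σ B} {a b : ℕ} (hf : HomOf f a b) :
    HomOf (-f) a b := by
  intro γ hγ
  rw [support_neg] at hγ
  exact hf γ hγ

theorem hb2_homOf_of {σ : Type} [Fintype σ] [DecidableEq σ] {f : MvPolynomial σ B} {d a b : ℕ}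
    (hf : f.IsHomogeneous d) (h : d + a = b) : HomOf f a b := by
  intro γ hγ
  rw [isHomogeneous_iff_degree.1 hf γ (mem_support_iff.1 hγ), h]

theorem hb2_hc_mul {σ : Type} [Fintype σ] [DecidableEq σ] {f : MvPolynomial σ B} {a b : ℕ}
    (hf : HomOf f a b) (g : MvPolynomial σ B) :
    homogeneousComponent b (f * g) = f * homogeneousComponent a g := by
  by_cases h0 : f = 0
  · simp [h0]
  obtain ⟨γ, hγ⟩ := ne_zero_iff.1 h0
  have h1 := hf γ (mem_support_iff.2 hγ)
  have h2 : f.IsHomogeneous (b - a) := isHomogeneous_iff_degree.2 fun δ hδ => by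
    have := hf δ (mem_support_iff.2 hδ)
    omega
  rw [mul_comm f g, basica_hc_mul h2, if_pos (Nat.sub_le _ _), mul_comm,
    show b - (b - a) = a by omega]

theorem hb2_coeff {σ : Type} (h : MvPolynomial σ B) (α γ : σ →₀ ℕ) :
    coeff (γ + α) (h * monomial α 1) = coeff γ h := by
  rw [coeff_mul_monomial, mul_one]

theorem hb2_rel0 (hanti : ∀ j, j < r → lam (j + 1) < lam j) :
    Rel r (M0 m B lam) fun j => monomial (gen m s lam j) 1 := by
  intro i hi
  rw [sum_M0 hi, X_pow_eq_monomial, X, monomial_mul, monomial_mul, add_comm _ (gen m s lam i),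
    gen_succ hanti hi, add_comm (gen m s lam (i + 1)), sub_self]

/-- the entry in column `js` -/
theorem hb2_entry (hD : HBData E Cs s r lam js N) {K : Ideal B}
    {𝒞 : Ideal (MvPolynomial (Fin (m + 3)) B)} (h𝒞 : Marked Cs 0 𝒞) (hr𝒞 : Red Cs 𝒞 K) {i : ℕ}
    (hi : i < r) : ∃ e ∈ 𝒞, HomOf e (js + lam js) (i + lam i + 1) ∧
      e - M0 m B lam i js ∈ KS _ K := by
  have key : ∀ u ∈ Cs, Hel Cs 𝒞 u - monomial u 1 ∈ KS _ K := fun u hu => by
    rw [Hel, sub_sub_cancel_left]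
    exact neg_mem (h𝒞.red_iff_nf.1 hr𝒞 u hu)
  by_cases h1 : js = i
  · refine ⟨Hel Cs 𝒞 (Finsupp.single 0 1), h𝒞.hel_mem (Nat.zero_le _),
      hb2_homOf_of (h𝒞.hel_hom (Nat.zero_le _)) ?_, ?_⟩
    · rw [Finsupp.degree_single, h1]
      omega
    · rw [M0, if_pos h1]
      exact key _ hD.c0
  by_cases h2 : js = i + 1
  · have := hD.anti i hi
    refine ⟨-Hel Cs 𝒞 (Finsupp.single 1 (lam i - lam js)), neg_mem (h𝒞.hel_mem (Nat.zero_le _)),
      hb2_homOf_neg (hb2_homOf_of (h𝒞.hel_hom (Nat.zero_le _)) ?_), ?_⟩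
    · rw [Finsupp.degree_single, h2]
      omega
    · rw [M0, if_neg h1, if_pos h2, X_pow_eq_monomial, ← h2, ← neg_sub']
      exact neg_mem (key _ (hD.c1 i h2.symm))
  · refine ⟨0, zero_mem _, hb2_homOf_zero _ _, ?_⟩
    rw [M0, if_neg h1, if_neg h2, sub_zero]
    exact zero_mem _

/-- division of a small form supported on `E` by the monomial generators -/
theorem hb2_div (hD : HBData E Cs s r lam js N) {K : Ideal B} {D : ℕ}
    {ρ : MvPolynomial (Fin (m + 3)) B} (h1 : ρ ∈ KS _ K) (h2 : ρ.IsHomogeneous (s + D))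
    (h3 : ∀ γ, γ ∉ E → coeff γ ρ = 0) :
    ∃ δ : ℕ → MvPolynomial (Fin (m + 3)) B, (∀ j, δ j ∈ KS _ K) ∧
      (∀ j, HomOf (δ j) (j + lam j) D) ∧ (∀ γ, γ ∉ Cs → coeff γ (δ js) = 0) ∧
      ρ = ∑ j ∈ Finset.range (r + 1), δ j * monomial (gen m s lam j) 1 := by
  classical
  rw [ρ.as_sum]
  refine Finset.sum_induction _ (fun f : MvPolynomial (Fin (m + 3)) B =>
    ∃ δ : ℕ → MvPolynomial (Fin (m + 3)) B, (∀ j, δ j ∈ KS _ K) ∧
      (∀ j, HomOf (δ j) (j + lam j) D) ∧ (∀ γ, γ ∉ Cs → coeff γ (δ js) = 0) ∧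
      f = ∑ j ∈ Finset.range (r + 1), δ j * monomial (gen m s lam j) 1) ?_ ?_ ?_
  · rintro _ _ ⟨δ, a1, a2, a3, rfl⟩ ⟨δ', b1, b2, b3, rfl⟩
    refine ⟨fun j => δ j + δ' j, fun j => add_mem (a1 j) (b1 j),
      fun j => hb2_homOf_add (a2 j) (b2 j), fun γ hγ => ?_, ?_⟩
    · rw [coeff_add, a3 γ hγ, b3 γ hγ, add_zero]
    · simp only [add_mul, Finset.sum_add_distrib]
  · exact ⟨fun _ => 0, fun _ => zero_mem _, fun _ => hb2_homOf_zero _ _, fun _ _ => coeff_zero _,
      by simp⟩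
  · intro α hα
    have hα' := mem_support_iff.1 hα
    obtain ⟨j, hj, u, e, hu⟩ := (hD.mem α).1 (not_not.1 fun hc => hα' (h3 α hc))
    have hd := isHomogeneous_iff_degree.1 h2 α hα'
    rw [e, map_add, degree_gen] at hd
    refine ⟨fun j' => if j' = j then monomial u (coeff α ρ) else 0, fun j' => ?_, fun j' => ?_,
      fun γ hγ => ?_, ?_⟩
    · beta_reduce
      split_ifs
      · refine mem_KS.2 fun γ => ?_
        rw [coeff_monomial]
        split_ifs
        exacts [mem_KS.1 h1 α, zero_mem _]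
      · exact zero_mem _
    · beta_reduce
      split_ifs with h
      · exact hb2_homOf_of (isHomogeneous_monomial' u _) (by rw [h]; omega)
      · exact hb2_homOf_zero _ _
    · beta_reduce
      split_ifs with h
      · rw [coeff_monomial, if_neg]
        rintro rfl
        exact hγ (hu h.symm)
      · exact coeff_zero _
    · simp only [ite_mul, zero_mul, Finset.sum_ite_eq', Finset.mem_range, Nat.lt_succ_iff, hj,
        if_true]
      rw [monomial_mul, mul_one, add_comm u, ← e]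

/-- Let `M'` be `M0` with the entries of column `js` (which are `0` or `± x^u`, `u ∈ Cs`) replaced by
`± Hel Cs 𝒞 u`.  Row `i` gives `ρ_i = ∑ j, M' i j * G j ∈ I₁ ∩ KS`, homogeneous of degree
`s + i + lam i + 1`, supported on `E` (`KS_supp`).  Write each monomial `α` of `ρ_i` as
`gen j + u` (`HBData.mem`) and subtract `coeff α ρ_i • x^u` from the entry `(i, j)`; these
corrections are in `KS`, act on `G j` as on `x^(gen j)` (`KS_mul_KS`), and are in `𝒞` for `j = js`
(`KS_mem`). -/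
theorem hb_matrix (hD : HBData E Cs s r lam js N) {K : Ideal B} (hK : K * K = ⊥)
    {I₁ : Ideal (MvPolynomial (Fin (m + 3)) B)} (hI : Marked E 0 I₁) (hr : Red E I₁ K)
    {G : ℕ → MvPolynomial (Fin (m + 3)) B} {𝒞 : Ideal (MvPolynomial (Fin (m + 3)) B)}
    (hG : GenCl K s r lam G) (hGI : ∀ j, j ≤ r → j ≠ js → G j ∈ I₁) (h𝒞 : Marked Cs 0 𝒞)
    (hr𝒞 : Red Cs 𝒞 K) (hcol : ∀ c ∈ 𝒞, c * G js ∈ I₁) :
    ∃ M, MatCl K r lam M ∧ Rel r M G ∧ ∀ i, i < r → M i js ∈ 𝒞 := by
  have key : ∀ i, ∃ row : ℕ → MvPolynomial (Fin (m + 3)) B, i < r →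
      (∀ j, j ≤ r → HomOf (row j) (j + lam j) (i + lam i + 1)) ∧
      (∀ j, j ≤ r → row j - M0 m B lam i j ∈ KS _ K) ∧
      ∑ j ∈ Finset.range (r + 1), row j * G j = 0 ∧ row js ∈ 𝒞 := by
    intro i
    by_cases hi : i < r
    swap
    · exact ⟨fun _ => 0, fun h => (hi h).elim⟩
    obtain ⟨e, e1, e2, e3⟩ := hb2_entry hD h𝒞 hr𝒞 hi
    obtain ⟨M', hM'⟩ : ∃ M' : ℕ → MvPolynomial (Fin (m + 3)) B,
      M' = fun j => if j = js then e else M0 m B lam i j := ⟨_, rfl⟩
    have a1 : ∀ j, HomOf (M' j) (j + lam j) (i + lam i + 1) := fun j => by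
      rw [hM']
      beta_reduce
      split_ifs with h
      · rwa [h]
      · exact homOf_M0 hD.anti hi j
    have a2 : ∀ j, M' j - M0 m B lam i j ∈ KS _ K := fun j => by
      rw [hM']
      beta_reduce
      split_ifs with h
      · rwa [h]
      · rw [sub_self]
        exact zero_mem _
    have a3 : ∑ j ∈ Finset.range (r + 1), M' j * G j ∈ I₁ := I₁.sum_mem fun j hj => by
      rw [hM']
      beta_reduce
      split_ifs with h
      · rw [h]
        exact hcol e e1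
      · exact I₁.mul_mem_left _ (hGI j (Nat.lt_succ_iff.1 (Finset.mem_range.1 hj)) h)
    have a4 : ∑ j ∈ Finset.range (r + 1), M' j * G j ∈ KS _ K := by
      rw [← sub_zero (∑ j ∈ Finset.range (r + 1), M' j * G j),
        ← hb2_rel0 (m := m) (B := B) (s := s) hD.anti i hi, ← Finset.sum_sub_distrib]
      refine Ideal.sum_mem _ fun j hj => ?_
      have : M' j * G j - M0 m B lam i j * monomial (gen m s lam j) 1 =
          (M' j - M0 m B lam i j) * G j +
            M0 m B lam i j * (G j - monomial (gen m s lam j) 1) := by ring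
      rw [this]
      exact add_mem (Ideal.mul_mem_right _ _ (a2 j)) (Ideal.mul_mem_left _ _
        (hG.cong j (Nat.lt_succ_iff.1 (Finset.mem_range.1 hj))))
    have a5 : (∑ j ∈ Finset.range (r + 1), M' j * G j).IsHomogeneous (s + (i + lam i + 1)) :=
      IsHomogeneous.sum _ _ _ fun j hj => ((a1 j).add_left s).mul
        (add_assoc s j (lam j) ▸ hG.hom j (Nat.lt_succ_iff.1 (Finset.mem_range.1 hj)))
    obtain ⟨δ, d1, d2, d3, d4⟩ := hb2_div hD a4 a5 (hI.KS_supp hK hr a4 a3)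
    refine ⟨fun j => M' j - δ j, fun _ => ⟨fun j _ => ?_, fun j _ => ?_, ?_, ?_⟩⟩
    · beta_reduce
      rw [sub_eq_add_neg]
      exact hb2_homOf_add (a1 j) (hb2_homOf_neg (d2 j))
    · rw [sub_right_comm]
      exact sub_mem (a2 j) (d1 j)
    · simp only [sub_mul, Finset.sum_sub_distrib]
      rw [d4, ← Finset.sum_sub_distrib]
      refine Finset.sum_eq_zero fun j hj => ?_
      rw [← mul_sub, ← neg_sub, mul_neg, KS_mul_KS hK (d1 j)
        (hG.cong j (Nat.lt_succ_iff.1 (Finset.mem_range.1 hj))), neg_zero]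
    · refine sub_mem ?_ (h𝒞.KS_mem hK hr𝒞 (d1 js) d3)
      rw [hM']
      simpa using e1
  choose M hM using key
  exact ⟨M, ⟨fun i hi => (hM i hi).1, fun i hi => (hM i hi).2.1⟩, fun i hi => (hM i hi).2.2.1,
    fun i hi => (hM i hi).2.2.2⟩

/-- `c j = G j - X 0 ^ s * G' j ∈ KS` is killed by `M`, hence by `M0`; `ker_M0` gives
`c j = h * x^(gen 0 j)`; from `j = r`, `h ∈ KS` is homogeneous of degree `s`. -/
theorem hb_factor (hanti : ∀ j, j < r → lam (j + 1) < lam j) (hlast : lam r = 0) {K : Ideal B}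
    (hK : K * K = ⊥) {M : ℕ → ℕ → MvPolynomial (Fin (m + 3)) B} (hM : MatCl K r lam M)
    {G G' : ℕ → MvPolynomial (Fin (m + 3)) B} (hG : GenCl K s r lam G) (hG' : GenCl K 0 r lam G')
    (h : Rel r M G) (h' : Rel r M G') :
    ∃ f : MvPolynomial (Fin (m + 3)) B, f.IsHomogeneous s ∧ f - X 0 ^ s ∈ KS _ K ∧
      ∀ j, j ≤ r → G j = f * G' j := by
  have a1 : ∀ j, j ≤ r → G j - X 0 ^ s * G' j ∈ KS _ K := fun j hj => by
    have : G j - X 0 ^ s * G' j = (G j - monomial (gen m s lam j) 1) -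
        X 0 ^ s * (G' j - monomial (gen m 0 lam j) 1) := by
      rw [monomial_gen, monomial_gen]
      ring
    rw [this]
    exact sub_mem (hG.cong j hj) (Ideal.mul_mem_left _ _ (hG'.cong j hj))
  have a2 : Rel r (M0 m B lam) fun j => G j - X 0 ^ s * G' j := fun i hi => by
    have e : ∑ j ∈ Finset.range (r + 1), M0 m B lam i j * (G j - X 0 ^ s * G' j) =
        ∑ j ∈ Finset.range (r + 1), (M i j * G j - X 0 ^ s * (M i j * G' j)) := by
      refine Finset.sum_congr rfl fun j hj => ?_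
      have hj' := Nat.lt_succ_iff.1 (Finset.mem_range.1 hj)
      have := KS_mul_KS hK (hM.cong i hi j hj') (a1 j hj')
      linear_combination (-1 : MvPolynomial (Fin (m + 3)) B) * this
    rw [e, Finset.sum_sub_distrib, ← Finset.mul_sum, h i hi, h' i hi, mul_zero, sub_zero]
  obtain ⟨g, hg⟩ := ker_M0 hanti hlast a2
  have a3 : g ∈ KS _ K := mem_KS.2 fun γ => by
    rw [← hb2_coeff g (gen m 0 lam r), ← hg r le_rfl]
    exact mem_KS.1 (a1 r le_rfl) _
  have a4 : g.IsHomogeneous s := isHomogeneous_iff_degree.2 fun γ hγ => by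
    rw [← hb2_coeff g (gen m 0 lam r), ← hg r le_rfl] at hγ
    have h1 : (X 0 ^ s * G' r).IsHomogeneous (s + r + lam r) := by
      have := (isHomogeneous_X_pow (R := B) (0 : Fin (m + 3)) s).mul (hG'.hom r le_rfl)
      rwa [zero_add, ← add_assoc] at this
    have := isHomogeneous_iff_degree.1 ((hG.hom r le_rfl).sub h1) _ hγ
    rw [map_add, degree_gen] at this
    omega
  refine ⟨X 0 ^ s + g, (isHomogeneous_X_pow _ s).add a4, by rwa [add_sub_cancel_left],
    fun j hj => ?_⟩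
  have h1 := KS_mul_KS hK a3 (hG'.cong j hj)
  have h2 := hg j hj
  linear_combination h2 - h1

/-- Let `Q : Matrix (Fin (r+1)) (Fin (r+1)) _` have rows `M i` for `i < r` and last row the unit
vector `e_r`; `a j = Q.adjugate j (last)`.  `Matrix.mul_adjugate` gives `Rel r M a` and
`a r = det Q`.  Modulo `𝔫` (map to `B ⧸ 𝔫`, `RingHom.map_adjugate`) `Q` is upper triangular with
determinant `X 0 ^ r`, so by `ker_M0` the image of `a j` is `x^(gen 0 j)`.  Finally replace `a j`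
by its homogeneous component of degree `j + lam j` (the relations survive because the entries of
`M` are homogeneous). -/
theorem hb_adj (hanti : ∀ j, j < r → lam (j + 1) < lam j) (hlast : lam r = 0) {𝔫 : Ideal B}
    {M : ℕ → ℕ → MvPolynomial (Fin (m + 3)) B} (hM : MatCl 𝔫 r lam M) :
    ∃ G', GenCl 𝔫 0 r lam G' ∧ Rel r M G' := by
  classical
  obtain ⟨Q, hQ⟩ : ∃ Q : Matrix (Fin (r + 1)) (Fin (r + 1)) (MvPolynomial (Fin (m + 3)) B),
    ∀ i j, Q i j = if i.val < r then M i j else if j = Fin.last r then 1 else 0 :=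
    ⟨Matrix.of fun i j => if i.val < r then M i j else if j = Fin.last r then 1 else 0,
      fun _ _ => rfl⟩
  obtain ⟨a, ha⟩ : ∃ a : ℕ → MvPolynomial (Fin (m + 3)) B,
      ∀ j : Fin (r + 1), a j = Q.adjugate j (Fin.last r) :=
    ⟨fun j => if h : j < r + 1 then Q.adjugate ⟨j, h⟩ (Fin.last r) else 0,
      fun j => by simp only [j.2, dif_pos]⟩
  have a0 : ∀ i, ∑ j, Q i j * a j = if i = Fin.last r then Q.det else 0 := fun i => by
    have := congrFun (congrFun (Matrix.mul_adjugate Q) i) (Fin.last r)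
    rw [Matrix.mul_apply, Matrix.smul_apply, Matrix.one_apply, smul_eq_mul, mul_ite, mul_one,
      mul_zero] at this
    simpa only [ha] using this
  have a1 : Rel r M a := fun i hi => by
    have := a0 ⟨i, hi.trans r.lt_succ_self⟩
    rw [if_neg (fun e => hi.ne (congrArg Fin.val e))] at this
    rw [← this, Finset.sum_range]
    exact Finset.sum_congr rfl fun j _ => by rw [hQ, if_pos hi]
  have a2 : a r = Q.det := by
    have := a0 (Fin.last r)
    simpa [hQ] using this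
  obtain ⟨π, hπ⟩ : ∃ π : MvPolynomial (Fin (m + 3)) B →+* MvPolynomial (Fin (m + 3)) (B ⧸ 𝔫),
    π = MvPolynomial.map (Ideal.Quotient.mk 𝔫) := ⟨_, rfl⟩
  have b0 : ∀ f, π f = 0 ↔ f ∈ KS _ 𝔫 := fun f => by
    rw [hπ, mem_KS, MvPolynomial.ext_iff]
    simp only [coeff_map, coeff_zero, Ideal.Quotient.eq_zero_iff_mem]
  have b1 : ∀ i, i < r → ∀ j, j ≤ r → π (M i j) = M0 m (B ⧸ 𝔫) lam i j := fun i hi j hj => by
    have := (b0 _).2 (hM.cong i hi j hj)
    rwa [map_sub, sub_eq_zero, hπ, map_M0, ← hπ] at this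
  have b2 : Rel r (M0 m (B ⧸ 𝔫) lam) fun j => π (a j) := fun i hi => by
    have := congrArg π (a1 i hi)
    rw [map_sum, map_zero] at this
    rw [← this]
    exact Finset.sum_congr rfl fun j hj => by
      rw [map_mul, b1 i hi j (Nat.lt_succ_iff.1 (Finset.mem_range.1 hj))]
  have b3 : π (a r) = X 0 ^ r := by
    rw [a2, RingHom.map_det, Matrix.det_of_upperTriangular, Fin.prod_univ_castSucc]
    · have : ∀ i : Fin r, π.mapMatrix Q i.castSucc i.castSucc = X 0 := fun i => by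
        rw [RingHom.mapMatrix_apply, Matrix.map_apply, hQ, if_pos (by simp),
          b1 _ (by simp) _ (by simp), M0, if_pos rfl]
      simp only [this]
      simp [hQ]
    · intro i j hij
      have hij' : j.val < i.val := hij
      rw [RingHom.mapMatrix_apply, Matrix.map_apply, hQ]
      split_ifs with h1 h2
      · rw [b1 _ h1 _ (by omega), M0, if_neg (by omega), if_neg (by omega)]
      · have := i.2
        rw [h2, Fin.val_last] at hij'
        omega
      · exact map_zero _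
  obtain ⟨g, hg⟩ := ker_M0 hanti hlast b2
  have b4 : g = 1 := by
    have h1 := hg r le_rfl
    rw [b3] at h1
    have h2 : (X 0 ^ r : MvPolynomial (Fin (m + 3)) (B ⧸ 𝔫)) = 1 * monomial (gen m 0 lam r) 1 := by
      rw [monomial_gen, hlast]
      simp
    ext γ
    rw [← hb2_coeff g (gen m 0 lam r), ← h1, h2, hb2_coeff]
  refine ⟨fun j => homogeneousComponent (j + lam j) (a j), ⟨fun j _ => ?_, fun j hj => ?_⟩,
    fun i hi => ?_⟩
  · rw [zero_add]
    exact homogeneousComponent_isHomogeneous _ _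
  · have h1 : a j - monomial (gen m 0 lam j) 1 ∈ KS _ 𝔫 := by
      rw [← b0, map_sub, hg j hj, b4, one_mul, hπ, map_monomial, RingHom.map_one, sub_self]
    have h2 : (monomial (gen m 0 lam j) 1 : MvPolynomial (Fin (m + 3)) B).IsHomogeneous
        (j + lam j) := by
      have := isHomogeneous_monomial' (B := B) (gen m 0 lam j) 1
      rwa [degree_gen, zero_add] at this
    have h3 := homogeneousComponent_of_mem (m := j + lam j) h2
    rw [if_pos rfl] at h3
    rw [← h3, ← map_sub]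
    refine mem_KS.2 fun γ => ?_
    rw [coeff_homogeneousComponent]
    split_ifs
    exacts [mem_KS.1 h1 γ, zero_mem _]
  · have := congrArg (homogeneousComponent (i + lam i + 1)) (a1 i hi)
    rw [map_sum, map_zero] at this
    rw [← this]
    exact Finset.sum_congr rfl fun j hj =>
      (hb2_hc_mul (hM.hom i hi j (Nat.lt_succ_iff.1 (Finset.mem_range.1 hj))) _).symm

end Pool.Agent.MP_24718c_ag

end

end partHB2

section partHB3

/-!
Flatness of the deformed ideal.
-/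

set_option linter.unusedSectionVars false
set_option linter.unusedVariables false

open MvPolynomial

universe u

noncomputable section

namespace Pool.Agent.MP_24718c_ag

variable {m : ℕ} {B B₁ : Type u} [CommRing B] [CommRing B₁] {E Cs : Set (Fin (m + 3) →₀ ℕ)}
  {s r js N : ℕ} {lam : ℕ → ℕ}

/-- the multiplier of the generator number `j` -/
def hb3_c (Cs : Set (Fin (m + 3) →₀ ℕ)) (𝒞 : Ideal (MvPolynomial (Fin (m + 3)) B)) (js j : ℕ)
    (u : Fin (m + 3) →₀ ℕ) : MvPolynomial (Fin (m + 3)) B :=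
  if j = js then Hel Cs 𝒞 u else monomial u 1

section
variable {𝔫 : Ideal B} {G : ℕ → MvPolynomial (Fin (m + 3)) B}
  {M : ℕ → ℕ → MvPolynomial (Fin (m + 3)) B} {𝒞 : Ideal (MvPolynomial (Fin (m + 3)) B)} {j : ℕ}
  {u : Fin (m + 3) →₀ ℕ}

theorem hb3_smul (I : Ideal (MvPolynomial (Fin (m + 3)) B)) (c : B)
    {f : MvPolynomial (Fin (m + 3)) B} (hf : f ∈ I) : c • f ∈ I :=
  (I.restrictScalars B).smul_mem c hf

theorem hb3_cong (h𝒞 : Marked Cs 0 𝒞) (hr𝒞 : Red Cs 𝒞 𝔫) (hu : j = js → u ∈ Cs) :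
    hb3_c Cs 𝒞 js j u - monomial u 1 ∈ KS _ 𝔫 := by
  unfold hb3_c
  split_ifs with h
  · rw [Hel, sub_sub_cancel_left]
    exact neg_mem (h𝒞.red_iff_nf.1 hr𝒞 u (hu h))
  · rw [sub_self]
    exact zero_mem _

theorem hb3_col (h𝒞 : Marked Cs 0 𝒞) (h : j = js) (u : Fin (m + 3) →₀ ℕ) :
    hb3_c Cs 𝒞 js j u ∈ 𝒞 := by
  rw [hb3_c, if_pos h]
  exact h𝒞.hel_mem (Nat.zero_le _)

theorem hb3_hom (h𝒞 : Marked Cs 0 𝒞) (j : ℕ) (u : Fin (m + 3) →₀ ℕ) :
    (hb3_c Cs 𝒞 js j u).IsHomogeneous u.degree := by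
  unfold hb3_c
  split_ifs
  · exact h𝒞.hel_hom (Nat.zero_le _)
  · exact isHomogeneous_monomial' _ _

theorem hb3_mem (hj : j ≤ r) {f : MvPolynomial (Fin (m + 3)) B} (hf : j = js → f ∈ 𝒞) :
    f * G j ∈ hbI r js G 𝒞 := by
  by_cases h : j = js
  · exact Ideal.mem_sup_right (Ideal.mul_mem_mul (hf h) (h ▸ Ideal.mem_span_singleton_self _))
  · exact Ideal.mem_sup_left (Ideal.mul_mem_left _ _ (Ideal.subset_span ⟨j, ⟨hj, h⟩, rfl⟩))

theorem hb3_expand (h𝒞 : Marked Cs 0 𝒞) {f : MvPolynomial (Fin (m + 3)) B} (hf : j = js → f ∈ 𝒞)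
    (g : MvPolynomial (Fin (m + 3)) B) :
    f * g = ∑ α ∈ f.support, coeff α f • (hb3_c Cs 𝒞 js j α * g) := by
  have h : f = ∑ α ∈ f.support, coeff α f • hb3_c Cs 𝒞 js j α := by
    unfold hb3_c
    split_ifs with h
    · exact h𝒞.eq_sum_hel_zero (hf h)
    · simp only [smul_monomial, smul_eq_mul, mul_one]
      exact f.as_sum
  conv_lhs => rw [h]
  simp only [Finset.sum_mul, smul_mul_assoc]

theorem hb3_small (h𝒞 : Marked Cs 0 𝒞) (hj : j ≤ r) {f : MvPolynomial (Fin (m + 3)) B}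
    (hf : j = js → f ∈ 𝒞) (hK : f ∈ KS _ 𝔫) :
    f * G j ∈ 𝔫 • (hbI r js G 𝒞).restrictScalars B := by
  rw [hb3_expand h𝒞 hf]
  exact Submodule.sum_mem _ fun α _ => Submodule.smul_mem_smul (mem_KS.1 hK α)
    (hb3_mem hj fun h => hb3_col h𝒞 h α)

theorem hb3_lead (hG : GenCl 𝔫 s r lam G) (h𝒞 : Marked Cs 0 𝒞) (hr𝒞 : Red Cs 𝒞 𝔫) (hj : j ≤ r)
    (hu : j = js → u ∈ Cs) :
    hb3_c Cs 𝒞 js j u * G j - monomial (gen m s lam j + u) 1 ∈ KS _ 𝔫 := by
  have h : hb3_c Cs 𝒞 js j u * G j - monomial (gen m s lam j + u) 1 =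
      (hb3_c Cs 𝒞 js j u - monomial u 1) * G j +
        monomial u 1 * (G j - monomial (gen m s lam j) 1) := by
    rw [mul_sub, monomial_mul, add_comm u, one_mul]
    ring
  rw [h]
  exact add_mem (Ideal.mul_mem_right _ _ (hb3_cong h𝒞 hr𝒞 hu))
    (Ideal.mul_mem_left _ _ (hG.cong j hj))

/-- the row `j` of the relations, multiplied by a monomial -/
theorem hb3_row (hM : MatCl 𝔫 r lam M) (hrel : Rel r M G) (h𝒞 : Marked Cs 0 𝒞) (hr𝒞 : Red Cs 𝒞 𝔫)
    (hcol : ∀ i, i < r → M i js ∈ 𝒞) (hj : j < r) (hu : j = js → u + Finsupp.single 0 1 ∈ Cs)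
    (hu' : j + 1 = js → u + Finsupp.single 1 (lam j - lam (j + 1)) ∈ Cs) :
    hb3_c Cs 𝒞 js j (u + Finsupp.single 0 1) * G j -
      hb3_c Cs 𝒞 js (j + 1) (u + Finsupp.single 1 (lam j - lam (j + 1))) * G (j + 1) ∈
        𝔫 • (hbI r js G 𝒞).restrictScalars B := by
  set a := hb3_c Cs 𝒞 js j (u + Finsupp.single 0 1) with ha
  set b := hb3_c Cs 𝒞 js (j + 1) (u + Finsupp.single 1 (lam j - lam (j + 1))) with hb
  let t : ℕ → MvPolynomial (Fin (m + 3)) B := fun i =>
    (if i = j then a else 0) - if i = j + 1 then b else 0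
  have h1 : a * G j - b * G (j + 1) =
      ∑ i ∈ Finset.range (r + 1), (t i - monomial u 1 * M j i) * G i := by
    simp only [t, sub_mul, Finset.sum_sub_distrib, mul_assoc, ← Finset.mul_sum, hrel j hj, ite_mul,
      zero_mul, Finset.sum_ite_eq', Finset.mem_range]
    rw [if_pos (by omega), if_pos (by omega), mul_zero, sub_zero]
  rw [h1]
  refine Submodule.sum_mem _ fun i hi => ?_
  have hi' : i ≤ r := Nat.lt_succ_iff.1 (Finset.mem_range.1 hi)
  refine hb3_small h𝒞 hi' (fun h => sub_mem (sub_mem ?_ ?_)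
    (Ideal.mul_mem_left _ _ (h ▸ hcol j hj))) ?_
  · split_ifs with h2
    · exact hb3_col h𝒞 (h2 ▸ h) _
    · exact zero_mem _
  · split_ifs with h2
    · exact hb3_col h𝒞 (h2 ▸ h) _
    · exact zero_mem _
  have h2 : t i - monomial u 1 * M j i = (t i - monomial u 1 * M0 m B lam j i) -
      monomial u 1 * (M j i - M0 m B lam j i) := by ring
  rw [h2]
  refine sub_mem ?_ (Ideal.mul_mem_left _ _ (hM.cong j hj i hi'))
  simp only [t, M0]
  by_cases h3 : i = j
  · rw [if_pos h3, if_pos h3, if_neg (by omega), sub_zero, X, monomial_mul, one_mul]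
    exact hb3_cong h𝒞 hr𝒞 hu
  rw [if_neg h3, if_neg h3]
  split_ifs with h4
  · rw [X_pow_eq_monomial, mul_neg, monomial_mul, one_mul, zero_sub, sub_neg_eq_add, neg_add_eq_sub,
      ← neg_sub]
    exact neg_mem (hb3_cong h𝒞 hr𝒞 hu')
  · rw [sub_self, mul_zero, sub_self]
    exact zero_mem _

theorem hb3_down (hD : HBData E Cs s r lam js N) (hM : MatCl 𝔫 r lam M) (hrel : Rel r M G)
    (h𝒞 : Marked Cs 0 𝒞) (hr𝒞 : Red Cs 𝒞 𝔫) (hcol : ∀ i, i < r → M i js ∈ 𝒞)
    {W : Submodule B (MvPolynomial (Fin (m + 3)) B)} (hW : ∀ j, j ≤ r → ∀ u, (j = js → u ∈ Cs) →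
      (j < r → u 0 = 0) → hb3_c Cs 𝒞 js j u * G j ∈ W) (hj : j ≤ r) :
    ∀ u, (j = js → u ∈ Cs) →
      hb3_c Cs 𝒞 js j u * G j ∈ W ⊔ 𝔫 • (hbI r js G 𝒞).restrictScalars B := by
  induction hj using Nat.decreasingInduction with
  | self => exact fun u hu => Submodule.mem_sup_left (hW r le_rfl u hu fun h => absurd h (lt_irrefl _))
  | of_succ j hj ih =>
    intro u hu
    by_cases h0 : u 0 = 0
    · exact Submodule.mem_sup_left (hW j hj.le u hu fun _ => h0)
    obtain ⟨u', rfl⟩ : ∃ u', u = u' + Finsupp.single 0 1 :=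
      ⟨u - Finsupp.single 0 1, (tsub_add_cancel_of_le
        (Finsupp.single_le_iff.2 (Nat.one_le_iff_ne_zero.2 h0))).symm⟩
    have hu' : j + 1 = js → u' + Finsupp.single 1 (lam j - lam (j + 1)) ∈ Cs := fun h =>
      hD.upC le_add_self (h ▸ hD.c1 j h)
    have h1 := add_mem (Submodule.mem_sup_right (S := W) (hb3_row hM hrel h𝒞 hr𝒞 hcol hj hu hu'))
      (ih _ hu')
    rwa [sub_add_cancel] at h1

theorem hb3_le (h𝒞 : Marked Cs 0 𝒞) (hjs : js ≤ r) {V : Submodule B (MvPolynomial (Fin (m + 3)) B)}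
    (hV : ∀ j, j ≤ r → ∀ u, (j = js → u ∈ Cs) → hb3_c Cs 𝒞 js j u * G j ∈ V) :
    (hbI r js G 𝒞).restrictScalars B ≤ V := by
  have key : ∀ j, j ≤ r → ∀ f, (j = js → f ∈ 𝒞) → f * G j ∈ V := by
    intro j hj f hf
    rw [hb3_expand h𝒞 hf]
    refine Submodule.sum_mem _ fun α _ => V.smul_mem _ ?_
    by_cases h : j = js → α ∈ Cs
    · exact hV j hj α h
    · rw [Classical.not_imp] at h
      rw [hb3_c, if_pos h.1, Hel, h𝒞.nf_off (Nat.zero_le _) h.2, sub_self, zero_mul]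
      exact V.zero_mem
  intro f hf
  obtain ⟨a, ha, b, hb, rfl⟩ := Submodule.mem_sup.1 (show f ∈ hbI r js G 𝒞 from hf)
  refine V.add_mem ?_ ?_
  · have h1 : ∀ g, g * a ∈ V := by
      clear hf
      induction ha using Submodule.span_induction with
      | mem x hx =>
        obtain ⟨j, ⟨h1, h2⟩, rfl⟩ := hx
        exact fun g => key j h1 g fun h => absurd h h2
      | zero => exact fun g => by rw [mul_zero]; exact V.zero_mem
      | add x y _ _ hx hy => exact fun g => by rw [mul_add]; exact V.add_mem (hx g) (hy g)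
      | smul c x _ hx => exact fun g => by rw [smul_eq_mul, ← mul_assoc]; exact hx _
    exact one_mul a ▸ h1 1
  · obtain ⟨c, hc, rfl⟩ := Ideal.mem_mul_span_singleton.1 hb
    exact key js hjs c fun _ => hc

end

/-- Put `e j u = x^u * G j` for `j ≠ js` and `e js u = Hel Cs 𝒞 u * G js` (`u ∈ Cs`).  Define the
linear map `T = hat ν` with `ν α = x^α` off `E` and `ν (gen j + u) = e j u` for the standard
decomposition (`HBData.std`).  `T ≡ id` modulo `𝔫`, so `T` is bijective and `W ⊕ Nsp E = S` for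
`W = T (restrictSupport B E)`; `W ≤ 𝓘 := hbI`.  As a `B`-module `𝓘` is spanned by all `e j u`
(`eq_sum_hel_zero`).  Show `e j u ∈ W ⊔ 𝔫 • 𝓘` by downward induction on `j`: for `j = r` or
`u 0 = 0` it is in `W` (`gen_std_unique`); for `u = u' + e_0`, multiply row `j` of `Rel` by `x^u'`:
modulo `𝔫 • 𝓘` it says `e j u = e (j+1) (u' + d e_1)` (entries of `M - M0` have coefficients in
`𝔫`; in column `js` use `Marked.mem_smul` for `x^u' * M i js ∓ Hel Cs 𝒞 u''`).  `nakayama_nilp`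
gives `𝓘 = W`; finish with `marked_of_isCompl`. -/
theorem hb_flat (hD : HBData E Cs s r lam js N) {𝔫 : Ideal B} (hn : IsNilpotent 𝔫)
    {G : ℕ → MvPolynomial (Fin (m + 3)) B} {M : ℕ → ℕ → MvPolynomial (Fin (m + 3)) B}
    {𝒞 : Ideal (MvPolynomial (Fin (m + 3)) B)} (hG : GenCl 𝔫 s r lam G) (hM : MatCl 𝔫 r lam M)
    (hrel : Rel r M G) (h𝒞 : Marked Cs 0 𝒞) (hr𝒞 : Red Cs 𝒞 𝔫) (hcol : ∀ i, i < r → M i js ∈ 𝒞) :
    Marked E 0 (hbI r js G 𝒞) := by
  classical
  choose! jj hjj uu hα hC h0 using fun α (hα : α ∈ E) => hD.std hα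
  let ν : (Fin (m + 3) →₀ ℕ) → MvPolynomial (Fin (m + 3)) B := fun α =>
    if α ∈ E then hb3_c Cs 𝒞 js (jj α) (uu α) * G (jj α) else monomial α 1
  have hν : ∀ α ∈ E, ν α = hb3_c Cs 𝒞 js (jj α) (uu α) * G (jj α) := fun α h => if_pos h
  have hν' : ∀ α, α ∉ E → ν α = monomial α 1 := fun α h => if_neg h
  have hI : ∀ α ∈ E, ν α ∈ hbI r js G 𝒞 := fun α h => by
    rw [hν α h]
    exact hb3_mem (hjj α h) fun h' => hb3_col h𝒞 h' _
  have hsum : ∀ f : MvPolynomial (Fin (m + 3)) B,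
      f = ∑ β ∈ f.support, coeff β f • monomial β (1 : B) := fun f => by
    simp only [smul_monomial, smul_eq_mul, mul_one]
    exact f.as_sum
  have hT : Function.Bijective (hat ν) := by
    refine bijective_of_sub_mem hn _ fun x => mem_KS_iff_smul_top.1 ?_
    rw [hat_apply]
    nth_rewrite 3 [hsum x]
    rw [← Finset.sum_sub_distrib]
    refine Ideal.sum_mem _ fun β _ => ?_
    rw [← smul_sub]
    refine hb3_smul _ _ ?_
    by_cases h : β ∈ E
    · rw [hν β h]
      nth_rewrite 4 [hα β h]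
      exact hb3_lead hG h𝒞 hr𝒞 (hjj β h) (hC β h)
    · rw [hν' β h, sub_self]
      exact zero_mem _
  have hfix : ∀ f ∈ Nsp B E, hat ν f = f := fun f hf => by
    rw [hat_apply]
    nth_rewrite 3 [hsum f]
    refine Finset.sum_congr rfl fun β hβ => ?_
    rw [hν' β fun h => mem_support_iff.1 hβ (mem_Nsp.1 hf β h)]
  let W := (Nsp B Eᶜ).map (hat ν)
  have hmon : ∀ (F : Set (Fin (m + 3) →₀ ℕ)) (α : Fin (m + 3) →₀ ℕ), α ∉ F →
      monomial α (1 : B) ∈ Nsp B F := fun F α h => mem_Nsp.2 fun γ hγ => by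
    rw [coeff_monomial, if_neg fun h' : α = γ => h (h' ▸ hγ)]
  have hνW : ∀ α ∈ E, ν α ∈ W := fun α h =>
    ⟨monomial α 1, hmon _ α (not_not.2 h), by rw [hat_monomial, one_smul]⟩
  have hWle : ∀ J : Ideal (MvPolynomial (Fin (m + 3)) B), (∀ α ∈ E, ν α ∈ J) →
      W ≤ J.restrictScalars B := by
    rintro J hJ _ ⟨f, hf, rfl⟩
    rw [hat_apply]
    refine Submodule.sum_mem _ fun β hβ => Submodule.smul_mem _ _ (hJ β ?_)
    by_contra h
    exact mem_support_iff.1 hβ (mem_Nsp.1 hf β h)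
  have hle : (hbI r js G 𝒞).restrictScalars B ≤ W := by
    refine nakayama_nilp hn (hb3_le h𝒞 hD.js_le fun j hj =>
      hb3_down hD hM hrel h𝒞 hr𝒞 hcol (fun j hj u hu hu0 => ?_) hj)
    have h1 : gen m s lam j + u ∈ E := (hD.mem _).2 ⟨j, hj, u, rfl, hu⟩
    obtain ⟨h2, h3⟩ := gen_std_unique hj (hjj _ h1) hu0 (h0 _ h1) (hα _ h1)
    have h4 := hνW _ h1
    rwa [hν _ h1, ← h2, ← h3] at h4
  have heq : (hbI r js G 𝒞).restrictScalars B = W := le_antisymm hle (hWle _ hI)
  refine marked_of_isCompl ?_ ?_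
  · have h1 : hbI r js G 𝒞 = Ideal.span (ν '' E) := by
      refine le_antisymm (fun f hf => hWle (Ideal.span (ν '' E))
        (fun α h => Ideal.subset_span (Set.mem_image_of_mem ν h)) (hle hf)) (Ideal.span_le.2 ?_)
      rintro _ ⟨α, h, rfl⟩
      exact hI α h
    rw [h1]
    refine isHomog_span ?_
    rintro _ ⟨α, h, rfl⟩
    rw [hν α h]
    exact ⟨_, (hb3_hom h𝒞 _ _).mul (hG.hom _ (hjj α h))⟩
  rw [heq]
  refine ⟨Submodule.disjoint_def.2 ?_, codisjoint_iff_le_sup.2 fun x _ => ?_⟩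
  · rintro _ ⟨f, hf, rfl⟩ h
    have h1 : hat ν f = f := hT.1 (hfix _ h)
    rw [h1] at h ⊢
    ext γ
    by_cases h2 : γ ∈ E
    · exact mem_Nsp.1 h γ h2
    · exact mem_Nsp.1 hf γ h2
  · obtain ⟨y, rfl⟩ := hT.2 x
    rw [hat_apply]
    refine Submodule.sum_mem _ fun β _ => Submodule.smul_mem _ _ ?_
    by_cases h : β ∈ E
    · exact Submodule.mem_sup_left (hνW β h)
    · rw [hν' β h]
      exact Submodule.mem_sup_right (hmon _ β h)

end Pool.Agent.MP_24718c_ag

end

end partHB3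

section partLift

/-!
Liftability: Hilbert-Burch step, cones, the unit ideal.
-/

set_option linter.unusedSectionVars false
set_option linter.unusedVariables false

open MvPolynomial

universe u

noncomputable section

namespace Pool.Agent.MP_24718c_ag

section
variable {m : ℕ} {B B₁ : Type u} [CommRing B] [CommRing B₁] {E Cs : Set (Fin (m + 3) →₀ ℕ)}
  {s r js N : ℕ} {lam : ℕ → ℕ}

theorem lift_nilp {ρ : B →+* B₁} (hn : IsNilpotent (RingHom.ker ρ)) {K : Ideal B₁}
    (hK : K * K = ⊥) : IsNilpotent (K.comap ρ) := by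
  obtain ⟨n, hn⟩ := hn
  have h : K.comap ρ ^ 2 ≤ RingHom.ker ρ := by
    rw [pow_two, Ideal.mul_le]
    intro a ha b hb
    rw [RingHom.mem_ker, map_mul]
    exact basic_mul_zero hK ha hb
  refine ⟨2 * n, ?_⟩
  rw [pow_mul]
  exact le_bot_iff.1 ((Ideal.pow_right_mono h n).trans hn.le)

theorem lift_top {σ : Type} [Fintype σ] [DecidableEq σ] {ρ : B →+* B₁}
    (hρ : Function.Surjective ρ) {f₁ : MvPolynomial σ B₁} {a b : ℕ} (h : HomOf f₁ a b) :
    ∃ f, HomOf f a b ∧ MvPolynomial.map ρ f = f₁ := by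
  obtain ⟨f, -, h1⟩ := exists_lift_homOf hρ (J := ⊤) (fun _ _ _ => trivial)
    (by rw [bc, Ideal.map_top]; trivial) h
  exact ⟨f, h1⟩

/-- `hb_first`, `hb_matrix` over `B₁`; lift `𝒞₁` to `𝒞` (`bc ρ 𝒞 = 𝒞₁` by `eq_of_le`); lift the
matrix entries (`exists_lift_homOf`, with `J = 𝒞` in column `js` and `J = ⊤` otherwise);
`𝔫 = K.comap ρ` is nilpotent; `hb_adj` gives `G'`; `hb_factor` over `B₁` for the images gives
`f₁`; lift it to `f`; `G j = f * G' j`; `hb_flat`. -/
theorem hb_lifts (hD : HBData E Cs s r lam js N) (hN1 : N1N E) {ρ : B →+* B₁}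
    (hρ : Function.Surjective ρ) (hn : IsNilpotent (RingHom.ker ρ)) {K : Ideal B₁}
    (hK : K * K = ⊥) (hC : Lifts Cs ρ K) : Lifts E ρ K := by
  intro I₁ hI hr
  obtain ⟨G₁, 𝒞₁, hG₁, hGI, h𝒞₁, hr𝒞₁, hcol⟩ := hb_first hD hN1 hK hI hr
  obtain ⟨M₁, hM₁, hrel₁, hMc⟩ :=
    hb_matrix hD hK hI hr hG₁ hGI h𝒞₁ hr𝒞₁ fun c hc => (hcol c).1 hc
  obtain ⟨𝒞, h𝒞, hle⟩ := hC 𝒞₁ h𝒞₁ hr𝒞₁
  have he : bc ρ 𝒞 = 𝒞₁ := (h𝒞.bc ρ).eq_of_le h𝒞₁ hle
  have hlift : ∀ i j, ∃ f : MvPolynomial (Fin (m + 3)) B, i < r → j ≤ r →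
      HomOf f (j + lam j) (i + lam i + 1) ∧ MvPolynomial.map ρ f = M₁ i j ∧ (j = js → f ∈ 𝒞) := by
    intro i j
    by_cases h : i < r ∧ j ≤ r
    · by_cases hj : j = js
      · obtain ⟨f, h1, h2, h3⟩ := exists_lift_homOf hρ h𝒞.homog (f₁ := M₁ i j)
          (by rw [he, hj]; exact hMc i h.1) (hM₁.hom i h.1 j h.2)
        exact ⟨f, fun _ _ => ⟨h2, h3, fun _ => h1⟩⟩
      · obtain ⟨f, h2, h3⟩ := lift_top hρ (hM₁.hom i h.1 j h.2)
        exact ⟨f, fun _ _ => ⟨h2, h3, fun e => (hj e).elim⟩⟩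
    · exact ⟨0, fun a b => (h ⟨a, b⟩).elim⟩
  choose M hM using hlift
  have hMcl : MatCl (K.comap ρ) r lam M := ⟨fun i hi j hj => (hM i j hi hj).1, fun i hi j hj => by
    rw [mem_KS_comap, map_sub, map_M0, (hM i j hi hj).2.1]
    exact hM₁.cong i hi j hj⟩
  obtain ⟨G', hG', hrel'⟩ := hb_adj hD.anti hD.last hMcl
  have hG'₁ : GenCl K 0 r lam fun j => MvPolynomial.map ρ (G' j) :=
    ⟨fun j hj => (hG'.hom j hj).map ρ, fun j hj => by
      have := (mem_KS_comap ρ).1 (hG'.cong j hj)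
      rwa [map_sub, map_monomial, map_one] at this⟩
  have hrel'₁ : Rel r M₁ fun j => MvPolynomial.map ρ (G' j) := fun i hi => by
    have := congrArg (MvPolynomial.map ρ) (hrel' i hi)
    rw [map_sum, map_zero] at this
    rw [← this]
    refine Finset.sum_congr rfl fun j hj => ?_
    rw [map_mul, (hM i j hi (Nat.lt_succ_iff.1 (Finset.mem_range.1 hj))).2.1]
  obtain ⟨f₁, hf₁, -, hfG⟩ := hb_factor hD.anti hD.last hK hM₁ hG₁ hG'₁ hrel₁ hrel'₁
  obtain ⟨f, hf, hff⟩ := lift_top hρ (homOf_zero_iff.2 hf₁)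
  have hGG : ∀ j, j ≤ r → MvPolynomial.map ρ (f * G' j) = G₁ j := fun j hj => by
    rw [map_mul, hff, hfG j hj]
  have hG : GenCl (K.comap ρ) s r lam fun j => f * G' j :=
    ⟨fun j hj => by
      have := (homOf_zero_iff.1 hf).mul (hG'.hom j hj)
      rwa [zero_add, ← add_assoc] at this, fun j hj => by
      rw [mem_KS_comap, map_sub, map_monomial, map_one, hGG j hj]
      exact hG₁.cong j hj⟩
  have hrel : Rel r M fun j => f * G' j := fun i hi => by
    have := congrArg (f * ·) (hrel' i hi)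
    simp only [Finset.mul_sum, mul_zero] at this
    rw [← this]
    exact Finset.sum_congr rfl fun j _ => mul_left_comm _ _ _
  have hr𝒞 : Red Cs 𝒞 (K.comap ρ) := fun g hg γ hγ => by
    have := hr𝒞₁ _ (hle (Ideal.mem_map_of_mem _ hg)) γ hγ
    rwa [coeff_map] at this
  refine ⟨_, hb_flat hD (lift_nilp hn hK) hG hMcl hrel h𝒞 hr𝒞
    fun i hi => (hM i js hi hD.js_le).2.2 rfl, Ideal.map_le_iff_le_comap.2 (sup_le ?_ ?_)⟩
  · rw [Ideal.span_le]
    rintro _ ⟨j, hj, rfl⟩
    rw [SetLike.mem_coe, Ideal.mem_comap, hGG j hj.1]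
    exact hGI j hj.1 hj.2
  · rw [Ideal.mul_le]
    intro a ha b hb
    obtain ⟨c, rfl⟩ := Ideal.mem_span_singleton'.1 hb
    rw [Ideal.mem_comap, mul_left_comm, map_mul, map_mul, hGG js hD.js_le]
    exact I₁.mul_mem_left _ ((hcol _).1 (hle (Ideal.mem_map_of_mem _ ha)))

end

section
variable {m : ℕ} {B B₁ : Type u} [CommRing B] [CommRing B₁]

/-- the exponent set of `(x_0) + c` -/
def coneN (c : Set (Fin m →₀ ℕ)) : Set (Fin (m + 1) →₀ ℕ) := {α | 1 ≤ α 0 ∨ α.tail ∈ c}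

theorem univ_lifts {σ : Type} [Fintype σ] [DecidableEq σ] (ρ : B →+* B₁) (K : Ideal B₁) :
    Lifts (Set.univ : Set (σ →₀ ℕ)) ρ K := by
  have key : ∀ {A : Type u} [CommRing A] (g : MvPolynomial σ A), g ∈ Nsp A Set.univ → g = 0 :=
    fun g hg => MvPolynomial.ext _ _ fun γ => mem_Nsp.1 hg γ trivial
  refine fun I₁ hI _ => ⟨⊤, ⟨fun _ _ _ => trivial, fun d _ f _ =>
    ⟨0, Submodule.zero_mem _, isHomogeneous_zero _ _ _, trivial⟩,
    fun _ _ g hg _ _ => key g hg⟩, fun f _ => ?_⟩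
  obtain ⟨g, hg, h⟩ := hI.span_zero f
  rwa [key g hg, sub_zero] at h

theorem lift_mapDomain (u : Fin m →₀ ℕ) : u.mapDomain Fin.succ = Finsupp.cons 0 u := by
  ext i
  cases i using Fin.cases with
  | zero => rw [Finsupp.cons_zero, Finsupp.mapDomain_of_notMem_range _ _ (by simp)]
  | succ i => rw [Finsupp.cons_succ, Finsupp.mapDomain_apply (Fin.succ_injective _)]

theorem lift_coeff_cons (g : MvPolynomial (Fin m) B) (β : Fin m →₀ ℕ) :
    coeff (Finsupp.cons 0 β) (rename Fin.succ g) = coeff β g := by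
  rw [← lift_mapDomain, coeff_rename_mapDomain _ (Fin.succ_injective _)]

theorem lift_coeff_zero (g : MvPolynomial (Fin m) B) {α : Fin (m + 1) →₀ ℕ} (h : 1 ≤ α 0) :
    coeff α (rename Fin.succ g) = 0 := by
  refine coeff_rename_eq_zero _ _ _ fun u hu => ?_
  rw [← hu, lift_mapDomain, Finsupp.cons_zero] at h
  omega

theorem lift_cons_tail {α : Fin (m + 1) →₀ ℕ} (h : ¬ 1 ≤ α 0) : Finsupp.cons 0 α.tail = α := by
  have h0 : α 0 = 0 := by omega
  rw [← h0, Finsupp.cons_tail]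

theorem lift_cons_mem {c : Set (Fin m →₀ ℕ)} {β : Fin m →₀ ℕ} :
    Finsupp.cons 0 β ∈ coneN c ↔ β ∈ c := by
  simp [coneN]

theorem lift_Nsp {c : Set (Fin m →₀ ℕ)} {g : MvPolynomial (Fin m) B} :
    rename Fin.succ g ∈ Nsp B (coneN c) ↔ g ∈ Nsp B c := by
  rw [mem_Nsp, mem_Nsp]
  refine ⟨fun h β hβ => ?_, fun h α hα => ?_⟩
  · rw [← lift_coeff_cons]
    exact h _ (lift_cons_mem.2 hβ)
  · by_cases h0 : 1 ≤ α 0
    · exact lift_coeff_zero g h0
    · rw [← lift_cons_tail h0, lift_coeff_cons]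
      exact h _ (hα.resolve_left h0)

theorem lift_exists {c : Set (Fin m →₀ ℕ)} {f : MvPolynomial (Fin (m + 1)) B}
    (hf : f ∈ Nsp B (coneN c)) : ∃ g : MvPolynomial (Fin m) B, rename Fin.succ g = f := by
  refine ⟨∑ α ∈ f.support, monomial α.tail (coeff α f), ?_⟩
  conv_rhs => rw [f.as_sum]
  rw [map_sum]
  refine Finset.sum_congr rfl fun α hα => ?_
  rw [rename_monomial, lift_mapDomain,
    lift_cons_tail fun h => mem_support_iff.1 hα (mem_Nsp.1 hf α (Or.inl h))]

theorem lift_homog {σ τ : Type} [Fintype σ] [DecidableEq σ]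
    (φ : MvPolynomial σ B →ₐ[B] MvPolynomial τ B)
    (h : ∀ d f, f.IsHomogeneous d → (φ f).IsHomogeneous d) {J : Ideal (MvPolynomial τ B)}
    (hJ : IsHomog J) : IsHomog (J.comap φ) := by
  have key : ∀ d f, homogeneousComponent d (φ f) = φ (homogeneousComponent d f) := by
    intro d f
    induction f using MvPolynomial.induction_on' with
    | monomial α a =>
      have h1 := isHomogeneous_monomial' α a
      rw [homogeneousComponent_of_mem (h _ _ h1), homogeneousComponent_of_mem h1]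
      split_ifs
      · rfl
      · rw [map_zero]
    | add p q hp hq => rw [map_add, map_add, map_add, map_add, hp, hq]
  intro f hf d
  rw [Ideal.mem_comap, ← key]
  exact hJ _ hf d

/-- substitution of `ℓ` for the first variable -/
def liftPi (ℓ : MvPolynomial (Fin m) B) :
    MvPolynomial (Fin (m + 1)) B →ₐ[B] MvPolynomial (Fin m) B :=
  aeval (Fin.cons ℓ X : Fin (m + 1) → MvPolynomial (Fin m) B)

theorem lift_pi_zero (ℓ : MvPolynomial (Fin m) B) : liftPi ℓ (X 0) = ℓ := by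
  rw [liftPi, aeval_X, Fin.cons_zero]

theorem lift_pi_succ (ℓ : MvPolynomial (Fin m) B) (i : Fin m) : liftPi ℓ (X i.succ) = X i := by
  rw [liftPi, aeval_X, Fin.cons_succ]

theorem lift_pi_rename (ℓ g : MvPolynomial (Fin m) B) : liftPi ℓ (rename Fin.succ g) = g := by
  have : (liftPi ℓ).comp (rename Fin.succ) = AlgHom.id B _ :=
    MvPolynomial.algHom_ext fun i => by
      rw [AlgHom.comp_apply, rename_X, lift_pi_succ, AlgHom.id_apply]
  exact DFunLike.congr_fun this g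

theorem lift_pi_hom {ℓ : MvPolynomial (Fin m) B} (hℓ : ℓ.IsHomogeneous 1) (d : ℕ)
    (f : MvPolynomial (Fin (m + 1)) B) (hf : f.IsHomogeneous d) :
    (liftPi ℓ f).IsHomogeneous d := by
  have := hf.aeval (Fin.cons ℓ X : Fin (m + 1) → MvPolynomial (Fin m) B) (n := 1) fun i => by
    cases i using Fin.cases with
    | zero => exact hℓ
    | succ i => exact isHomogeneous_X _ _
  rwa [one_mul] at this

theorem lift_pi_sub {ℓ : MvPolynomial (Fin m) B} {J : Ideal (MvPolynomial (Fin (m + 1)) B)}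
    (h : X 0 - rename Fin.succ ℓ ∈ J) (f : MvPolynomial (Fin (m + 1)) B) :
    f - rename Fin.succ (liftPi ℓ f) ∈ J := by
  induction f using MvPolynomial.induction_on with
  | C a =>
    rw [algHom_C, AlgHom.commutes, algebraMap_eq, sub_self]
    exact J.zero_mem
  | add p q hp hq =>
    rw [map_add, map_add, add_sub_add_comm]
    exact J.add_mem hp hq
  | mul_X p i hp =>
    have h1 : X i - rename Fin.succ (liftPi ℓ (X i)) ∈ J := by
      cases i using Fin.cases with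
      | zero => rwa [lift_pi_zero]
      | succ i =>
        rw [lift_pi_succ, rename_X, sub_self]
        exact J.zero_mem
    have e : p * X i - rename Fin.succ (liftPi ℓ (p * X i)) =
        X i * (p - rename Fin.succ (liftPi ℓ p)) +
          rename Fin.succ (liftPi ℓ p) * (X i - rename Fin.succ (liftPi ℓ (X i))) := by
      rw [map_mul, map_mul]
      ring
    rw [e]
    exact J.add_mem (J.mul_mem_left _ hp) (J.mul_mem_left _ h1)

theorem lift_pi_map (ρ : B →+* B₁) (ℓ : MvPolynomial (Fin m) B)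
    (f : MvPolynomial (Fin (m + 1)) B) :
    MvPolynomial.map ρ (liftPi ℓ f) = liftPi (MvPolynomial.map ρ ℓ) (MvPolynomial.map ρ f) := by
  induction f using MvPolynomial.induction_on with
  | C a => rw [algHom_C, algebraMap_eq, map_C, map_C, algHom_C, algebraMap_eq]
  | add p q hp hq => rw [map_add, map_add, map_add, map_add, hp, hq]
  | mul_X p i hp =>
    rw [map_mul, map_mul, map_mul, map_mul, hp, map_X]
    cases i using Fin.cases with
    | zero => rw [lift_pi_zero, lift_pi_zero]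
    | succ i => rw [lift_pi_succ, lift_pi_succ, map_X]

/-- Let `ι = rename Fin.succ`; `ι` maps `Nsp c` onto `Nsp (coneN c)`.  `nf (e_0) = ι ℓ₁` with `ℓ₁` a
linear form.  `𝔠₁ = comap ι I₁` is marked over `c` and reduces well; lift it to `𝔠`, lift `ℓ₁` to a
linear form `ℓ`, let `π = aeval (Fin.cons ℓ X)` (degree preserving, `π ∘ ι = id`) and
`I = comap π 𝔠`.  For the inclusion use `f - ι (π₁ f) ∈ span {X 0 - ι ℓ₁}`. -/
theorem cone_lifts {c : Set (Fin m →₀ ℕ)} {ρ : B →+* B₁} (hρ : Function.Surjective ρ)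
    {K : Ideal B₁} (hc : Lifts c ρ K) : Lifts (coneN c) ρ K := by
  intro I₁ hI hr
  have hinj : Function.Injective (Fin.succ : Fin m → Fin (m + 1)) := Fin.succ_injective _
  obtain ⟨ℓ₁, hℓ₁⟩ := lift_exists (hI.nf_mem (α := Finsupp.single 0 1) (Nat.zero_le _))
  have h1 : ℓ₁.IsHomogeneous 1 := by
    have := hI.nf_hom (α := Finsupp.single 0 1) (Nat.zero_le _)
    rwa [← hℓ₁, IsHomogeneous.rename_isHomogeneous_iff hinj, Finsupp.degree_single] at this
  have h2 : X 0 - rename Fin.succ ℓ₁ ∈ I₁ := by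
    rw [hℓ₁]
    exact hI.hel_mem (α := Finsupp.single 0 1) (Nat.zero_le _)
  have hm₁ : Marked c 0 (I₁.comap (rename (R := B₁) Fin.succ)) := by
    refine ⟨lift_homog _ (fun d f hf => hf.rename_isHomogeneous) hI.homog, fun d hd f hf => ?_,
      fun d hd g hg hgh hgI => ?_⟩
    · obtain ⟨g, a1, a2, a3⟩ := hI.span d hd _ (hf.rename_isHomogeneous (f := Fin.succ))
      obtain ⟨g', rfl⟩ := lift_exists a1
      exact ⟨g', lift_Nsp.1 a1, (IsHomogeneous.rename_isHomogeneous_iff hinj).1 a2,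
        by rwa [Ideal.mem_comap, map_sub]⟩
    · exact rename_injective _ hinj ((hI.indep_zero (lift_Nsp.2 hg) hgI).trans (map_zero _).symm)
  have hr₁ : Red c (I₁.comap (rename (R := B₁) Fin.succ)) K := fun f hf γ hγ => by
    rw [← lift_coeff_cons]
    exact hr _ hf _ (mt lift_cons_mem.1 hγ)
  obtain ⟨𝔠, h𝔠, hle⟩ := hc _ hm₁ hr₁
  obtain ⟨ℓ, hℓ, rfl⟩ := lift_top hρ (homOf_zero_iff.2 h1)
  have h3 := lift_pi_hom (homOf_zero_iff.1 hℓ)
  refine ⟨𝔠.comap (liftPi ℓ), ⟨lift_homog _ h3 h𝔠.homog, fun d hd f hf => ?_,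
    fun d hd g hg hgh hgI => ?_⟩, Ideal.map_le_iff_le_comap.2 fun f hf => ?_⟩
  · obtain ⟨g, a1, a2, a3⟩ := h𝔠.span d hd _ (h3 d f hf)
    exact ⟨_, lift_Nsp.2 a1, a2.rename_isHomogeneous,
      by rwa [Ideal.mem_comap, map_sub, lift_pi_rename]⟩
  · obtain ⟨g', rfl⟩ := lift_exists hg
    rw [Ideal.mem_comap, lift_pi_rename] at hgI
    rw [h𝔠.indep_zero (lift_Nsp.1 hg) hgI, map_zero]
  · have a1 := hle (Ideal.mem_map_of_mem _ hf)
    rw [Ideal.mem_comap, lift_pi_map] at a1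
    have a2 := I₁.add_mem (lift_pi_sub h2 (MvPolynomial.map ρ f)) a1
    rwa [sub_add_cancel] at a2

end

end Pool.Agent.MP_24718c_ag

end

end partLift

section partBridge

/-!
Translation between exponent sets and lattice sets.
-/

set_option linter.unusedSectionVars false
set_option linter.unusedVariables false

open MvPolynomial

universe u

noncomputable section

namespace Pool.Agent.MP_24718c_ag

variable {m : ℕ}

def toZ (α : Fin m →₀ ℕ) : Lt m := fun i => (α i : ℤ)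

def ex (A : Set (Lt m)) : Set (Fin m →₀ ℕ) := {α | toZ α ∈ A}

variable {E : Set (Fin m →₀ ℕ)} {A : Set (Lt m)}

theorem toZ_injective : Function.Injective (toZ : (Fin m →₀ ℕ) → Lt m) := fun a b h =>
  Finsupp.ext fun i => by simpa [toZ] using congrFun h i

theorem toZ_add (α β : Fin m →₀ ℕ) : toZ (α + β) = toZ α + toZ β := by
  funext i
  simp [toZ]

theorem toZ_single (i : Fin m) (t : ℕ) : toZ (Finsupp.single i t) = (t : ℤ) • ev i := by
  funext j
  by_cases h : j = i <;> simp [toZ, ev_apply, h]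

theorem toZ_nonneg (α : Fin m →₀ ℕ) : 0 ≤ toZ α := fun i => Int.natCast_nonneg _

theorem exists_toZ {v : Lt m} (hv : 0 ≤ v) : ∃ α, toZ α = v :=
  ⟨Finsupp.equivFunOnFinite.symm fun i => (v i).toNat, funext fun i => by
    simpa [toZ] using hv i⟩

theorem sum_toZ (α : Fin m →₀ ℕ) : ∑ i, toZ α i = (α.degree : ℤ) := by
  simp [toZ, Finsupp.degree_eq_sum]

theorem bridge_mem {α : Fin m →₀ ℕ} : toZ α ∈ toZ '' E ↔ α ∈ E := toZ_injective.mem_set_image

theorem bridge_ex : ex (toZ '' E) = E := Set.ext fun _ => bridge_mem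

theorem bridge_le {α β : Fin m →₀ ℕ} : toZ α ≤ toZ β ↔ α ≤ β :=
  forall_congr' fun i => Int.ofNat_le

theorem bridge_ev (α : Fin m →₀ ℕ) (i : Fin m) :
    toZ (α + Finsupp.single i 1) = toZ α + ev i := by
  rw [toZ_add, toZ_single, Nat.cast_one, one_smul]

theorem bridge_pred {α : Fin m →₀ ℕ} {i : Fin m} (h : α i ≠ 0) :
    ∃ β, α = β + Finsupp.single i 1 :=
  ⟨α - Finsupp.single i 1,
    (tsub_add_cancel_of_le (Finsupp.single_le_iff.2 (Nat.one_le_iff_ne_zero.2 h))).symm⟩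

theorem ss_toZ (hE : IsUpperSet E) (hss : SSN E) : SS (toZ '' E) := by
  refine ⟨?_, ?_, ?_⟩
  · rintro _ ⟨α, -, rfl⟩
    exact toZ_nonneg α
  · rintro _ ⟨α, hα, rfl⟩ i
    exact ⟨_, hE le_self_add hα, bridge_ev α i⟩
  · rintro _ ⟨α, hα, rfl⟩ i j hij h
    obtain ⟨β, rfl⟩ := bridge_pred (α := α) (i := j) fun e => by simp [toZ, e] at h
    exact ⟨_, hss β i j hij hα, by rw [bridge_ev, bridge_ev, add_sub_cancel_right]⟩

theorem free_toZ (i : Fin m) : Free (toZ '' E) i ↔ FreeN E i := by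
  refine ⟨fun h α hα => bridge_mem.1 (h _ (toZ_nonneg α) ⟨_, hα, bridge_ev α i⟩),
    fun h v hv a => ?_⟩
  obtain ⟨α, rfl⟩ := exists_toZ hv
  rw [← bridge_ev, bridge_mem] at a
  exact bridge_mem.2 (h α a)

theorem ex_satZ (y : Fin m) : ex (satZ (toZ '' E) y) = satN E y := by
  ext α
  refine (and_iff_right (toZ_nonneg α)).trans (exists_congr fun N => ?_)
  rw [← toZ_single, ← toZ_add, bridge_mem]

/-- for a pair `M α₀ γ₀` let `w = toZ γ₀ - toZ α₀` and take
`{v | ∃ α γ, M α γ ∧ v = toZ α ∧ toZ γ = v + w}` -/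
theorem n1n_of_n1 (hA : ∀ v ∈ A, 0 ≤ v) (h : N1 A) : N1N (ex A) := by
  intro M hM α₀ γ₀ h0 i j hij hi hj
  refine h (toZ γ₀ - toZ α₀) {v | ∃ α γ, M α γ ∧ v = toZ α ∧ toZ γ = v + (toZ γ₀ - toZ α₀)}
    ⟨?_, fun v hv _ l hl => ?_⟩ ?_ i j hij ?_ ?_ (toZ α₀) ⟨α₀, γ₀, h0, rfl, by abel⟩
  · rintro _ ⟨α, γ, a, rfl, b⟩
    rw [← b]
    exact ⟨(hM.mem _ _ a).1, Finset.sum_nonneg fun k _ => toZ_nonneg α k, toZ_nonneg γ,
      (hM.mem _ _ a).2.2.1⟩
  · obtain ⟨α, rfl⟩ := exists_toZ (hA v hv)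
    constructor
    · rintro ⟨α', γ', a, b, c⟩
      rw [← bridge_ev] at b
      obtain rfl := toZ_injective b
      obtain ⟨γ, rfl⟩ := bridge_pred (α := γ') (i := l) fun e =>
        hM.zero α hv (Nat.zero_le _) γ' l e a
      refine ⟨α, γ, (hM.edge α hv (Nat.zero_le _) γ l (hM.mem _ _ a).2.2.1).1 a, rfl, ?_⟩
      rw [bridge_ev, add_right_comm] at c
      exact add_right_cancel c
    · rintro ⟨α', γ, a, b, c⟩
      obtain rfl := toZ_injective b
      have e : toZ (γ + Finsupp.single l 1) = toZ α + ev l + (toZ γ₀ - toZ α₀) := by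
        rw [bridge_ev, c, add_right_comm]
      exact ⟨_, _, (hM.edge α hv (Nat.zero_le _) γ l fun k => hl (e ▸ k)).2 a,
        (bridge_ev α l).symm, e⟩
  · simp only [Pi.sub_apply, Finset.sum_sub_distrib, sum_toZ, (hM.mem _ _ h0).2.2.2, sub_self,
      le_refl]
  · simpa [toZ] using hi
  · simpa [toZ] using hj

theorem n1n_of_n1' (h : N1 (toZ '' E)) : N1N E := by
  have := n1n_of_n1 (by rintro _ ⟨α, -, rfl⟩; exact toZ_nonneg α) h
  rwa [bridge_ex] at this

/-- for a tangent set `M` of weight `w` take `fun α γ => toZ α ∈ M ∧ toZ γ = toZ α + w` -/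
theorem t1l_of_tan {z : Fin m} (hz : ∀ i, i ≤ z)
    (h : ∀ r M, Tan E r M → ∀ α γ, M α γ → ∀ l i, l < i → i ≠ z → l ≠ z → γ l < α l →
      γ i < α i → False) : T1L (toZ '' E) z := by
  intro r w M hr hM hw l i hli hi hl hi' v hv
  obtain ⟨α, -, rfl⟩ := (hM.mem v hv).1
  obtain ⟨γ, hγ⟩ := exists_toZ (hM.mem _ hv).2.2.1
  have hd : ∀ β : Fin m →₀ ℕ, r.toNat ≤ β.degree ↔ r ≤ ∑ k, toZ β k := fun β => by
    rw [sum_toZ]; omega
  refine h r.toNat (fun α γ => toZ α ∈ M ∧ toZ γ = toZ α + w)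
    ⟨fun α γ ⟨a, b⟩ => ?_, fun α a b γ k c => ?_, fun α a b γ k c ⟨d, e⟩ => ?_⟩ α γ ⟨hv, hγ⟩
    l i hli hi (hli.trans_le (hz i)).ne ?_ ?_
  · obtain ⟨c, d, -, e⟩ := hM.mem _ a
    refine ⟨bridge_mem.1 c, (hd α).2 d, fun k => e (b ▸ bridge_mem.2 k), ?_⟩
    have := sum_toZ γ
    simp only [b, Pi.add_apply, Finset.sum_add_distrib, sum_toZ, hw, add_zero] at this
    exact_mod_cast this.symm
  · rw [bridge_ev, bridge_ev, add_right_comm _ _ w, add_left_inj]
    refine and_congr_left fun e => hM.edge _ (bridge_mem.2 a) ((hd α).1 b) k fun f => c ?_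
    rwa [add_right_comm, ← e, ← bridge_ev, bridge_mem] at f
  · rw [bridge_ev] at d e
    have f := (hM.mem _ ((hM.edge _ (bridge_mem.2 a) ((hd α).1 b) k
      (hM.mem _ d).2.2.2).1 d)).2.2.1 k
    have g := congrFun e k
    simp only [toZ, c, Pi.add_apply, ev_apply, if_true, Pi.zero_apply] at f g
    omega
  · have := congrFun hγ l
    simp only [toZ, Pi.add_apply] at this
    omega
  · have := congrFun hγ i
    simp only [toZ, Pi.add_apply] at this
    omega

theorem ex_coneZ (C : Set (Lt m)) : ex (coneZ C) = coneN (ex C) := by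
  ext α
  refine (and_iff_right (toZ_nonneg α)).trans (or_congr (by simp [toZ]) ?_)
  rw [show Fin.tail (toZ α) = toZ α.tail from funext fun i => rfl]
  rfl

theorem hbData_of_hbz {A C : Set (Lt (m + 3))} {s r js N : ℕ} {lam : ℕ → ℕ}
    (h : HBZ A C s r lam js N) : HBData (ex A) (ex C) s r lam js N := by
  have e : ∀ j, toZ (gen m s lam j) = gz s lam j := fun j => by
    rw [gen, gz, toZ_add, toZ_single, toZ_single]
  refine ⟨h.anti, h.last, h.js_le, fun α β a b => ?_, ?_, fun j a => ?_, ?_, fun α => ?_⟩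
  · exact comba_ind (u' := toZ β) (P := fun u => u ∈ C → toZ β ∈ C) id
      (fun u i _ ih hu => ih (h.up u hu i)) _ (bridge_le.2 a) b
  · have := h.c0
    rwa [← one_smul ℤ (ev 0), ← Nat.cast_one, ← toZ_single] at this
  · have := h.c1 j a
    rwa [← toZ_single] at this
  · have := h.c2
    rwa [← toZ_single] at this
  · refine (h.mem _).trans (exists_congr fun j => and_congr_right fun _ => ?_)
    rw [← e, bridge_le]
    constructor
    · rintro ⟨a, b⟩
      obtain ⟨u, rfl⟩ := exists_add_of_le a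
      rw [toZ_add, add_sub_cancel_left] at b
      exact ⟨u, rfl, b⟩
    · rintro ⟨u, rfl, b⟩
      rw [toZ_add, add_sub_cancel_left]
      exact ⟨le_self_add, b⟩

theorem nice_lifts {B B₁ : Type u} [CommRing B] [CommRing B₁] {ρ : B →+* B₁}
    (hρ : Function.Surjective ρ) (hn : IsNilpotent (RingHom.ker ρ)) {K : Ideal B₁}
    (hK : K * K = ⊥) (h : Nice m A) : Lifts (ex A) ρ K := by
  induction h with
  | univ m =>
    rw [show ex {v : Lt m | 0 ≤ v} = Set.univ from Set.eq_univ_of_forall toZ_nonneg]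
    exact univ_lifts ρ K
  | cone m C _ ih =>
    rw [ex_coneZ]
    exact cone_lifts hρ ih
  | hb m A C s r lam js N _ h1 h2 ih =>
    refine hb_lifts (hbData_of_hbz h1) (n1n_of_n1 (fun v hv => ?_) h2) hρ hn hK ih
    obtain ⟨j, -, a, -⟩ := (h1.mem v).1 hv
    exact (add_nonneg (comba_smul_nonneg _ (Int.natCast_nonneg _))
      (comba_smul_nonneg _ (Int.natCast_nonneg _))).trans a

theorem satN_upper (hE : IsUpperSet E) (y : Fin m) : IsUpperSet (satN E y) :=
  fun _ _ h ⟨N, a⟩ => ⟨N, hE (add_le_add_left h _) a⟩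

theorem satN_ssn (hss : SSN E) (y : Fin m) : SSN (satN E y) := by
  rintro α i j h ⟨N, a⟩
  rw [add_right_comm] at a
  exact ⟨N, by rw [add_right_comm]; exact hss _ i j h a⟩

theorem satN_of_free {y : Fin m} (hy : FreeN E y) : satN E y = E :=
  Set.ext fun α => ⟨fun ⟨_, a⟩ => hy.add_single a, fun a => ⟨0, by simpa using a⟩⟩

theorem bridge_move {n : ℕ} {E : Set (Fin (n + 2) →₀ ℕ)} (hE : IsUpperSet E) (hss : SSN E)
    {μ : Fin (n + 2) →₀ ℕ} (hμ : μ (zi n) = 0) (N : ℕ) : ∀ g, g + Finsupp.single (yi n) N ∈ E →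
      g ≤ μ → g.degree + N ≤ μ.degree → μ ∈ E := by
  induction N with
  | zero => exact fun g a b _ => hE b (by simpa using a)
  | succ N ih =>
    intro g a b c
    obtain ⟨i, hi⟩ : ∃ i, g i < μ i := by
      by_contra k
      obtain rfl : g = μ := b.antisymm fun i => not_lt.1 fun h => k ⟨i, h⟩
      omega
    have hy : i ≤ yi n := Fin.le_castSucc_iff.2 (Fin.lt_last_iff_ne_last.2 fun e => by
      rw [show i = zi n from e, hμ] at hi
      omega)
    rw [Finsupp.single_add, ← add_assoc] at a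
    refine ih (g + Finsupp.single i 1) ?_ (fun k => ?_) ?_
    · rw [add_right_comm]
      exact hy.eq_or_lt.elim (fun e => e ▸ a) fun e => hss _ _ _ e a
    · by_cases e : k = i
      · subst e
        simpa using hi
      · simpa [e] using b k
    · rw [map_add, Finsupp.degree_single]
      omega

/-- The set `U = {μ ∈ satN E y \ E | μ z = 0}` is finite: `satN E y` has finitely many minimal
elements `g` (Dickson, `Finsupp.isPWO` or `Set.PartiallyWellOrderedOn`), with `g + N e_y ∈ E` for a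
common `N`; if `g ≤ μ`, `μ z = 0` and `N ≤ |μ - g|` then `μ ∈ E` by strong stability (move the
`N` copies of `y` to smaller indices).  Enumerate `U`. -/
theorem exists_pair {n : ℕ} {E : Set (Fin (n + 2) →₀ ℕ)} (hE : IsUpperSet E) (hss : SSN E)
    (hz : FreeN E (zi n)) :
    ∃ (e : ℕ) (μ : Fin e → Fin (n + 2) →₀ ℕ), Pair E (satN E (yi n)) (yi n) (zi n) μ := by
  let U : Set (Fin (n + 2) →₀ ℕ) := {μ | μ ∈ satN E (yi n) ∧ μ ∉ E ∧ μ (zi n) = 0}
  have h1 : {g | Minimal (· ∈ U) g}.Finite :=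
    (setOfPred_minimal_antichain _).finite_of_partiallyWellOrderedOn
      (Set.isPWO_of_wellQuasiOrderedLE _)
  have h2 : ∀ g ∈ U, {μ ∈ U | g ≤ μ}.Finite := fun g ⟨⟨N, a⟩, _⟩ =>
    (Finsupp.finite_of_degree_le (g.degree + N)).subset fun μ ⟨b, c⟩ =>
      le_of_not_ge fun d => b.2.1 (bridge_move hE hss b.2.2 N g a c d)
  have hU : U.Finite := (h1.biUnion fun g hg => h2 g hg.prop).subset fun μ a => by
    obtain ⟨g, b, c⟩ := exists_minimal_le_of_wellFoundedLT (· ∈ U) μ a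
    exact Set.mem_biUnion c ⟨a, b⟩
  obtain ⟨e, μ, hμ⟩ := hU.fin_embedding
  have h3 : ∀ j, μ j ∈ U := fun j => hμ ▸ Set.mem_range_self j
  have fz' : FreeN (satN E (yi n)) (zi n) := fun α ⟨N, a⟩ =>
    ⟨N, hz _ (by rwa [add_right_comm])⟩
  refine ⟨e, μ, (Fin.castSucc_lt_last _).ne, hE, satN_upper hE _,
    fun α a => ⟨0, by simpa using a⟩, hz, fun α ⟨N, a⟩ => ⟨1 + N, ?_⟩, fz', μ.injective,
    fun j => (h3 j).2.2, fun α => ⟨fun ⟨a, b⟩ => ?_, ?_⟩⟩
  · rwa [Finsupp.single_add, ← add_assoc]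
  · have e1 := Finsupp.erase_add_single (zi n) α
    have : α.erase (zi n) ∈ U := ⟨fz'.add_single (e1.symm ▸ a),
      fun c => b (hE (le_self_add.trans e1.le) c), Finsupp.erase_same⟩
    rw [← hμ] at this
    obtain ⟨j, hj⟩ := this
    exact ⟨j, α (zi n), by rw [hj, e1]⟩
  · rintro ⟨j, t, rfl⟩
    exact ⟨satN_upper hE _ le_self_add (h3 j).1, fun c => (h3 j).2.1 (hz.add_single c)⟩

end Pool.Agent.MP_24718c_ag

end

end partBridge

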