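import Pool.Agent.MP_24718c_ag.Defs

section partBase

/-!
Internal definitions: marked ideals, normal forms, tangent sets, charts, liftability.
`E` is always a set of exponents (of a monomial ideal), `Nsp B E` is the span of the monomials
outside `E`.
-/

set_option linter.unusedSectionVars false
set_option linter.unusedVariables false

open MvPolynomial

universe u

noncomputable section

namespace Pool.Agent.MP_24718c_ag

section
variable {σ : Type} {B B' : Type u} [CommRing B] [CommRing B']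

/-- span of the monomials outside `E` -/
abbrev Nsp (B : Type u) [CommRing B] (E : Set (σ →₀ ℕ)) : Submodule B (MvPolynomial σ B) :=
  restrictSupport B Eᶜ

/-- base change of an ideal -/
abbrev bc (φ : B →+* B') (I : Ideal (MvPolynomial σ B)) : Ideal (MvPolynomial σ B') :=
  I.map (MvPolynomial.map φ)

/-- polynomials with all coefficients in `K` (see `MvPolynomial.mem_map_C_iff`) -/
abbrev KS (σ : Type) (K : Ideal B) : Ideal (MvPolynomial σ B) := K.map (C : B →+* _)

/-- the monomial ideal with exponent set (generated by) `E` -/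
def monI (B : Type u) [CommRing B] (E : Set (σ →₀ ℕ)) : Ideal (MvPolynomial σ B) :=
  Ideal.span ((fun α => monomial α (1 : B)) '' E)

/-- In every degree `d ≥ d₀` the monomials outside `E` are a basis of `B[x]_d / I_d`. -/
structure Marked (E : Set (σ →₀ ℕ)) (d₀ : ℕ) (I : Ideal (MvPolynomial σ B)) : Prop where
  homog : IsHomog I
  span : ∀ d, d₀ ≤ d → ∀ f : MvPolynomial σ B, f.IsHomogeneous d →
    ∃ g ∈ Nsp B E, g.IsHomogeneous d ∧ f - g ∈ I
  indep : ∀ d, d₀ ≤ d → ∀ g ∈ Nsp B E, g.IsHomogeneous d → g ∈ I → g = 0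

open Classical in
/-- normal form of the monomial `x^α` -/
def nf (E : Set (σ →₀ ℕ)) (I : Ideal (MvPolynomial σ B)) (α : σ →₀ ℕ) :
    MvPolynomial σ B :=
  if h : ∃ g ∈ Nsp B E, g.IsHomogeneous α.degree ∧ monomial α 1 - g ∈ I then h.choose else 0

/-- the marked element `x^α - nf(x^α)` -/
def Hel (E : Set (σ →₀ ℕ)) (I : Ideal (MvPolynomial σ B)) (α : σ →₀ ℕ) :
    MvPolynomial σ B := monomial α 1 - nf E I α

open Classical in
/-- the coefficients of the normal forms of the monomials of `E` -/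
def coef (E : Set (σ →₀ ℕ)) (I : Ideal (MvPolynomial σ B))
    (p : (σ →₀ ℕ) × (σ →₀ ℕ)) : B := if p.1 ∈ E then coeff p.2 (nf E I p.1) else 0

/-- the linear map sending `x^β` to `ν β` -/
def hat (ν : (σ →₀ ℕ) → MvPolynomial σ B) :
    MvPolynomial σ B →ₗ[B] MvPolynomial σ B := (basisMonomials σ B).constr B ν

/-- modulo `K`, the ideal `I` lies in the monomial ideal of `E` -/
def Red (E : Set (σ →₀ ℕ)) (I : Ideal (MvPolynomial σ B)) (K : Ideal B) : Prop :=
  ∀ f ∈ I, ∀ γ, γ ∉ E → coeff γ f ∈ K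

/-- inclusion in degrees `≥ d₀` -/
def LeD (d₀ : ℕ) (I J : Ideal (MvPolynomial σ B)) : Prop :=
  ∀ d, d₀ ≤ d → ∀ f : MvPolynomial σ B, f.IsHomogeneous d → f ∈ I → f ∈ J

/-- `E` does not involve the variable `i` -/
def FreeN (E : Set (σ →₀ ℕ)) (i : σ) : Prop := ∀ α, α + Finsupp.single i 1 ∈ E → α ∈ E

/-- strong stability (variables with smaller index are larger) -/
def SSN [LinearOrder σ] (E : Set (σ →₀ ℕ)) : Prop :=
  ∀ α i j, i < j → α + Finsupp.single j 1 ∈ E → α + Finsupp.single i 1 ∈ E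

/-- saturation with respect to the variable `y` -/
def satN (E : Set (σ →₀ ℕ)) (y : σ) : Set (σ →₀ ℕ) := {α | ∃ N : ℕ, α + Finsupp.single y N ∈ E}

/-- Support of a degree zero homomorphism `I_{≥ r} → S / I` for the monomial ideal `I` of `E`:
`M α γ` means that `x^γ` occurs in the image of `x^α`. -/
structure Tan (E : Set (σ →₀ ℕ)) (r : ℕ) (M : (σ →₀ ℕ) → (σ →₀ ℕ) → Prop) : Prop where
  mem : ∀ α γ, M α γ → α ∈ E ∧ r ≤ α.degree ∧ γ ∉ E ∧ γ.degree = α.degree
  edge : ∀ α ∈ E, r ≤ α.degree → ∀ γ i, γ + Finsupp.single i 1 ∉ E →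
    (M (α + Finsupp.single i 1) (γ + Finsupp.single i 1) ↔ M α γ)
  zero : ∀ α ∈ E, r ≤ α.degree → ∀ (γ : σ →₀ ℕ) i, γ i = 0 → ¬ M (α + Finsupp.single i 1) γ

/-- every tangent weight has at most one negative coordinate -/
def N1N (E : Set (σ →₀ ℕ)) : Prop :=
  ∀ M, Tan E 0 M → ∀ α γ, M α γ → ∀ i j, i ≠ j → γ i < α i → γ j < α j → False

/-- first order deformations (coefficients in the square zero ideal `K`) lift along `ρ` -/
def Lifts (E : Set (σ →₀ ℕ)) (ρ : B →+* B') (K : Ideal B') : Prop :=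
  ∀ I₁ : Ideal (MvPolynomial σ B'), Marked E 0 I₁ → Red E I₁ K →
    ∃ I : Ideal (MvPolynomial σ B), Marked E 0 I ∧ bc ρ I ≤ I₁

/-- `f` is homogeneous of degree `b - a` (and zero if `b < a`) -/
def HomOf (f : MvPolynomial σ B) (a b : ℕ) : Prop := ∀ γ ∈ f.support, γ.degree + a = b

/-- saturation of an ideal with respect to one variable -/
def satz (z : σ) (I : Ideal (MvPolynomial σ B)) : Ideal (MvPolynomial σ B) where
  carrier := {f | ∃ k : ℕ, X z ^ k * f ∈ I}
  add_mem' := by
    rintro a b ⟨k, hk⟩ ⟨l, hl⟩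
    refine ⟨k + l, ?_⟩
    have : X z ^ (k + l) * (a + b) = X z ^ l * (X z ^ k * a) + X z ^ k * (X z ^ l * b) := by ring
    rw [this]
    exact I.add_mem (I.mul_mem_left _ hk) (I.mul_mem_left _ hl)
  zero_mem' := ⟨0, by simp⟩
  smul_mem' := by
    rintro c a ⟨k, hk⟩
    refine ⟨k, ?_⟩
    have : X z ^ k * (c • a) = c * (X z ^ k * a) := by rw [smul_eq_mul]; ring
    rw [this]
    exact I.mul_mem_left _ hk

/-- number of monomials of degree `d` outside `E` -/
def cnt (E : Set (σ →₀ ℕ)) (d : ℕ) : ℕ :=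
  Nat.card {γ : σ →₀ ℕ // γ ∉ E ∧ γ.degree = d}

/-- distraction of the monomial `x^α` -/
def Dis [Fintype σ] (z : σ) (c : σ → ℕ → B) (α : σ →₀ ℕ) : MvPolynomial σ B :=
  ∏ i, ∏ b ∈ Finset.range (α i), (X i - C (c i b) * X z)

/-- distraction of the monomial ideal of `E` -/
def disI [Fintype σ] (z : σ) (c : σ → ℕ → B) (E : Set (σ →₀ ℕ)) :
    Ideal (MvPolynomial σ B) := Ideal.span (Dis z c '' E)

/-- homogeneous ideal of the point with homogeneous coordinates `q` -/
def ptI (q : σ → B) : Ideal (MvPolynomial σ B) :=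
  RingHom.ker (aeval fun l => Polynomial.C (q l) * Polynomial.X :
    MvPolynomial σ B →ₐ[B] Polynomial B)

/-- ideal of the union of a scheme and finitely many points -/
def joinI {e : ℕ} (J : Ideal (MvPolynomial σ B)) (p : Fin e → σ → B) :
    Ideal (MvPolynomial σ B) := J ⊓ ⨅ j, ptI (p j)

/-- values of the marked elements `x^(μ i) - nf` at the points -/
def Emat {e : ℕ} (E' : Set (σ →₀ ℕ)) (μ : Fin e → σ →₀ ℕ)
    (J : Ideal (MvPolynomial σ B)) (p : Fin e → σ → B) : Matrix (Fin e) (Fin e) B :=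
  Matrix.of fun i j => eval (p j) (Hel E' J (μ i))

/-- `E'` is `E` together with the `z`-lines starting at the `μ j`; `E'` is free in `y, z`. -/
structure Pair {e : ℕ} (E E' : Set (σ →₀ ℕ)) (y z : σ) (μ : Fin e → σ →₀ ℕ) : Prop where
  ne : y ≠ z
  up : IsUpperSet E
  up' : IsUpperSet E'
  sub : E ⊆ E'
  fz : FreeN E z
  fy' : FreeN E' y
  fz' : FreeN E' z
  inj : Function.Injective μ
  muz : ∀ j, μ j z = 0
  diff : ∀ α, (α ∈ E' ∧ α ∉ E) ↔ ∃ j, ∃ t : ℕ, α = μ j + Finsupp.single z t

end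

section
variable {σ : Type} (k : Type u) [Field k]

/-- unobstructedness of the marked functor at the monomial ideal -/
def Unob (E : Set (σ →₀ ℕ)) : Prop :=
  ∀ (B B₁ : Type u) [CommRing B] [Algebra k B] [CommRing B₁] [Algebra k B₁] (ρ : B →ₐ[k] B₁)
    (ε : B₁ →ₐ[k] k), Function.Surjective ρ → IsNilpotent (RingHom.ker (ρ : B →+* B₁)) →
    RingHom.ker (ε : B₁ →+* k) * RingHom.ker (ε : B₁ →+* k) = ⊥ →
    Lifts E (ρ : B →+* B₁) (RingHom.ker (ε : B₁ →+* k))

/-- `Spec R` with the family `𝓘` behaves like an affine open part of the Hilbert scheme -/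
structure MChart (E : Set (σ →₀ ℕ)) (R : Type u) [CommRing R] [Algebra k R]
    (𝓘 : Ideal (MvPolynomial σ R)) : Prop where
  homog : IsHomog 𝓘
  inj : ∀ (B : Type u) [CommRing B] [Algebra k B] (φ ψ : R →ₐ[k] B),
    Agree (bc (φ : R →+* B) 𝓘) (bc (ψ : R →+* B) 𝓘) → φ = ψ
  opn : ∀ (B : Type u) [CommRing B] [Algebra k B] [IsLocalRing B] (K : Type u) [Field K]
    [Algebra k K] (ρ : B →ₐ[k] K), IsLocalHom (ρ : B →+* K) →
    ∀ (d : ℕ) (J : Ideal (MvPolynomial σ B)), Marked E d J → ∀ ψ : R →ₐ[k] K,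
      Agree (bc (ψ : R →+* K) 𝓘) (bc (ρ : B →+* K) J) →
      ∃ φ : R →ₐ[k] B, Agree (bc (φ : R →+* B) 𝓘) J
  mark : ∀ (B : Type u) [CommRing B] [Algebra k B] [IsLocalRing B] (K : Type u) [Field K]
    [Algebra k K] (ρ : B →ₐ[k] K), IsLocalHom (ρ : B →+* K) → ∀ (φ : R →ₐ[k] B) (d : ℕ)
    (J : Ideal (MvPolynomial σ K)), Marked E d J →
      Agree (bc (ρ.comp φ : R →+* K) 𝓘) J → ∃ d', Marked E d' (bc (φ : R →+* B) 𝓘)

/-- universal family over the affine cell of `E` -/
structure UnivData (E : Set (σ →₀ ℕ)) {N : ℕ}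
    (𝓤 : Ideal (MvPolynomial σ (MvPolynomial (Fin N) k))) (q : Fin N → (σ →₀ ℕ) × (σ →₀ ℕ))
    (G : MvPolynomial ((σ →₀ ℕ) × (σ →₀ ℕ)) k) : Prop where
  marked : Marked E 0 𝓤
  red : ∀ p, constantCoeff (coef E 𝓤 p) = 0
  coord : ∀ i, coef E 𝓤 (q i) = X i
  const : constantCoeff G = 1
  univ : ∀ (B : Type u) [CommRing B] [Algebra k B] (J : Ideal (MvPolynomial σ B)), Marked E 0 J →
    aeval (coef E J) G ∈ nonZeroDivisors B →
    J = bc (aeval fun i => coef E J (q i) : MvPolynomial (Fin N) k →ₐ[k] B) 𝓤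

end

end Pool.Agent.MP_24718c_ag

end

end partBase

section partBasicA

/-!
Basic API for marked ideals.
-/

set_option linter.unusedSectionVars false
set_option linter.unusedVariables false

open MvPolynomial

universe u

noncomputable section

namespace Pool.Agent.MP_24718c_ag

variable {σ : Type} [Fintype σ] [DecidableEq σ] {B B' B'' : Type u} [CommRing B] [CommRing B']
  [CommRing B''] {E : Set (σ →₀ ℕ)} {I J L : Ideal (MvPolynomial σ B)} {d d₀ d₁ : ℕ}

theorem mem_Nsp {f : MvPolynomial σ B} : f ∈ Nsp B E ↔ ∀ γ ∈ E, coeff γ f = 0 := by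
  rw [mem_restrictSupport_iff]
  constructor
  · intro h γ hγ
    by_contra hc
    exact h (Finset.mem_coe.2 (mem_support_iff.2 hc)) hγ
  · intro h γ hγ hE
    exact mem_support_iff.1 (Finset.mem_coe.1 hγ) (h γ hE)

theorem mem_KS {K : Ideal B} {f : MvPolynomial σ B} : f ∈ KS σ K ↔ ∀ γ, coeff γ f ∈ K :=
  mem_map_C_iff

theorem isHomogeneous_iff_degree {f : MvPolynomial σ B} :
    f.IsHomogeneous d ↔ ∀ γ, coeff γ f ≠ 0 → γ.degree = d := by
  constructor
  · intro h γ hγ
    by_contra hc
    exact hγ (h.coeff_eq_zero hc)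
  · intro h γ hγ
    have := h γ hγ
    rw [Finsupp.degree_eq_weight_one] at this
    exact this

theorem isHomogeneous_monomial' (α : σ →₀ ℕ) (c : B) :
    (monomial α c : MvPolynomial σ B).IsHomogeneous α.degree :=
  isHomogeneous_monomial c rfl

theorem homOf_zero_iff {f : MvPolynomial σ B} : HomOf f 0 d ↔ f.IsHomogeneous d := by
  rw [isHomogeneous_iff_degree]
  exact ⟨fun h γ hγ => h γ (mem_support_iff.2 hγ), fun h γ hγ => h γ (mem_support_iff.1 hγ)⟩

theorem HomOf.mul {f g : MvPolynomial σ B} {a b : ℕ} (hf : HomOf f a b)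
    (hg : g.IsHomogeneous a) : (f * g).IsHomogeneous b := by
  by_cases h0 : f = 0
  · rw [h0, zero_mul]
    exact isHomogeneous_zero _ _ _
  · obtain ⟨γ, hγ⟩ := Finset.nonempty_iff_ne_empty.2 (mt support_eq_empty.1 h0)
    have h1 := hf γ hγ
    have h2 : f.IsHomogeneous γ.degree := by
      rw [isHomogeneous_iff_degree]
      intro δ hδ
      have := hf δ (mem_support_iff.2 hδ)
      omega
    rw [← h1]
    exact h2.mul hg

theorem Nsp_homogeneousComponent {f : MvPolynomial σ B} (hf : f ∈ Nsp B E) (d : ℕ) :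
    homogeneousComponent d f ∈ Nsp B E := by
  rw [mem_Nsp] at hf ⊢
  intro γ hγ
  rw [coeff_homogeneousComponent, hf γ hγ, ite_self]

theorem Nsp_map (φ : B →+* B') {f : MvPolynomial σ B} (hf : f ∈ Nsp B E) :
    MvPolynomial.map φ f ∈ Nsp B' E := by
  rw [mem_Nsp] at hf ⊢
  intro γ hγ
  rw [coeff_map, hf γ hγ, map_zero]

theorem basica_add_single {i : σ} (hi : FreeN E i) {α : σ →₀ ℕ} {t : ℕ}
    (h : α + Finsupp.single i t ∈ E) : α ∈ E := by
  induction t with
  | zero => simpa using h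
  | succ t ih =>
    refine ih (hi _ ?_)
    rwa [Finsupp.single_add, ← add_assoc] at h

theorem Nsp_mul_X_pow {i : σ} (hi : FreeN E i) {f : MvPolynomial σ B} (hf : f ∈ Nsp B E)
    (t : ℕ) : X i ^ t * f ∈ Nsp B E := by
  rw [mem_Nsp] at hf ⊢
  intro γ hγ
  rw [X_pow_eq_monomial, coeff_monomial_mul']
  split_ifs with h
  · rw [hf _ (basica_add_single hi (t := t) (by rwa [tsub_add_cancel_of_le h])), mul_zero]
  · rfl

/-- if `E` is an upper set and `x^β f` has no monomial in `E`, neither has `f` -/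
theorem Nsp_of_monomial_mul (hE : IsUpperSet E) {f : MvPolynomial σ B} {β : σ →₀ ℕ}
    (hf : monomial β 1 * f ∈ Nsp B E) : f ∈ Nsp B E := by
  rw [mem_Nsp] at hf ⊢
  intro γ hγ
  have := hf (β + γ) (hE le_add_self hγ)
  rwa [coeff_monomial_mul, one_mul] at this

theorem FreeN.add_single {i : σ} (hi : FreeN E i) {α : σ →₀ ℕ} {t : ℕ}
    (h : α + Finsupp.single i t ∈ E) : α ∈ E := basica_add_single hi h

theorem hat_monomial (ν : (σ →₀ ℕ) → MvPolynomial σ B) (β : σ →₀ ℕ) (c : B) :
    hat ν (monomial β c) = c • ν β := by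
  have h1 : (monomial β c : MvPolynomial σ B) = c • basisMonomials σ B β := by
    rw [coe_basisMonomials, smul_monomial, smul_eq_mul, mul_one]
  rw [h1, map_smul, hat, Module.Basis.constr_basis]

theorem hat_apply (ν : (σ →₀ ℕ) → MvPolynomial σ B) (f : MvPolynomial σ B) :
    hat ν f = ∑ β ∈ f.support, coeff β f • ν β := by
  conv_lhs => rw [f.as_sum, map_sum]
  exact Finset.sum_congr rfl fun β _ => hat_monomial ν β _

theorem basica_hc_mul {g : MvPolynomial σ B} (hg : g.IsHomogeneous d) (f : MvPolynomial σ B)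
    (m : ℕ) : homogeneousComponent m (f * g) =
      if d ≤ m then homogeneousComponent (m - d) f * g else 0 := by
  induction f using MvPolynomial.induction_on' with
  | monomial α c =>
    have h1 := isHomogeneous_monomial' α c
    rw [homogeneousComponent_of_mem (h1.mul hg), homogeneousComponent_of_mem h1]
    by_cases h : m = α.degree + d
    · rw [if_pos h, if_pos (by omega), if_pos (by omega)]
    · rw [if_neg h]
      split_ifs with h2 h3
      · omega
      · rw [zero_mul]
      · rfl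
  | add p q hp hq =>
    rw [add_mul, map_add, hp, hq, map_add]
    split_ifs
    · rw [add_mul]
    · rw [add_zero]

theorem basica_hc_map (φ : B →+* B') (f : MvPolynomial σ B) (m : ℕ) :
    homogeneousComponent m (MvPolynomial.map φ f) =
      MvPolynomial.map φ (homogeneousComponent m f) := by
  ext γ
  rw [coeff_homogeneousComponent, coeff_map, coeff_map, coeff_homogeneousComponent]
  split_ifs
  · rfl
  · rw [map_zero]

theorem basica_mem_of_hc {f : MvPolynomial σ B} (h : ∀ m, homogeneousComponent m f ∈ I) :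
    f ∈ I := by
  rw [← sum_homogeneousComponent f]
  exact I.sum_mem fun m _ => h m

/-- it is enough to test generators -/
theorem basica_span {s : Set (MvPolynomial σ B)}
    (hs : ∀ f ∈ s, ∀ d, homogeneousComponent d f ∈ Ideal.span s) : IsHomog (Ideal.span s) := by
  intro f hf
  induction hf using Submodule.span_induction with
  | mem x hx => exact hs x hx
  | zero => intro d; rw [map_zero]; exact Ideal.zero_mem _
  | add x y _ _ hx hy => intro d; rw [map_add]; exact Ideal.add_mem _ (hx d) (hy d)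
  | smul a x _ hx =>
    intro d
    rw [smul_eq_mul, ← sum_homogeneousComponent x, Finset.mul_sum, map_sum]
    refine Ideal.sum_mem _ fun m _ => ?_
    rw [basica_hc_mul (homogeneousComponent_isHomogeneous m x)]
    split_ifs
    · exact Ideal.mul_mem_left _ _ (hx m)
    · exact Ideal.zero_mem _

theorem isHomog_span {s : Set (MvPolynomial σ B)} (hs : ∀ f ∈ s, ∃ d, f.IsHomogeneous d) :
    IsHomog (Ideal.span s) := by
  refine basica_span fun f hf m => ?_
  obtain ⟨d, hd⟩ := hs f hf
  rw [homogeneousComponent_of_mem hd]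
  split_ifs
  · exact Ideal.subset_span hf
  · exact Ideal.zero_mem _

theorem IsHomog.bc (hI : IsHomog I) (φ : B →+* B') : IsHomog (bc φ I) := by
  refine basica_span ?_
  rintro _ ⟨f, hf, rfl⟩ m
  rw [basica_hc_map]
  exact Ideal.subset_span ⟨_, hI f hf m, rfl⟩

theorem IsHomog.inf (hI : IsHomog I) (hJ : IsHomog J) : IsHomog (I ⊓ J) :=
  fun f hf m => ⟨hI f hf.1 m, hJ f hf.2 m⟩

/-- colon by a homogeneous element -/
theorem IsHomog.colon (hI : IsHomog I) {g : MvPolynomial σ B} (hg : g.IsHomogeneous d)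
    (hJ : ∀ f, f ∈ J ↔ f * g ∈ I) : IsHomog J := by
  intro f hf m
  have h1 := hI _ ((hJ f).1 hf) (m + d)
  rw [basica_hc_mul hg, if_pos (by omega), Nat.add_sub_cancel] at h1
  exact (hJ _).2 h1

/-- a homogeneous ideal is determined by its forms -/
theorem IsHomog.le_of_forms (hI : IsHomog I)
    (h : ∀ d, ∀ f : MvPolynomial σ B, f.IsHomogeneous d → f ∈ I → f ∈ J) : I ≤ J :=
  fun f hf => basica_mem_of_hc fun m =>
    h m _ (homogeneousComponent_isHomogeneous m f) (hI f hf m)

theorem bc_bc (φ : B →+* B') (ψ : B' →+* B'') (I : Ideal (MvPolynomial σ B)) :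
    bc ψ (bc φ I) = bc (ψ.comp φ) I := by
  rw [Pool.Agent.MP_24718c_ag.bc, Pool.Agent.MP_24718c_ag.bc, Pool.Agent.MP_24718c_ag.bc,
    Ideal.map_map]
  congr 1
  exact RingHom.ext fun f => MvPolynomial.map_map φ ψ f

theorem bc_id (I : Ideal (MvPolynomial σ B)) : bc (RingHom.id B) I = I := by
  have h : MvPolynomial.map (σ := σ) (RingHom.id B) = RingHom.id _ :=
    RingHom.ext fun f => MvPolynomial.map_id f
  rw [Pool.Agent.MP_24718c_ag.bc, h, Ideal.map_id]

theorem basica_hc_mul_map (hI : IsHomog I) (φ : B →+* B') (a : MvPolynomial σ B')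
    {g : MvPolynomial σ B} (hg : g ∈ I) (d : ℕ) :
    homogeneousComponent d (a * MvPolynomial.map φ g) ∈
      Submodule.span B' (MvPolynomial.map φ '' {g | g ∈ I ∧ g.IsHomogeneous d}) := by
  induction a using MvPolynomial.induction_on' with
  | monomial α c =>
    have h1 : monomial α c * MvPolynomial.map φ g =
        c • MvPolynomial.map φ (monomial α 1 * g) := by
      rw [map_mul, map_monomial, map_one, ← smul_mul_assoc, smul_monomial, smul_eq_mul, mul_one]
    rw [h1, map_smul, basica_hc_map]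
    exact Submodule.smul_mem _ _ (Submodule.subset_span
      ⟨_, ⟨hI _ (I.mul_mem_left _ hg) d, homogeneousComponent_isHomogeneous d _⟩, rfl⟩)
  | add p q hp hq =>
    rw [add_mul, map_add]
    exact Submodule.add_mem _ hp hq

/-- The degree `d` part of the base change of a homogeneous ideal is the span of the images of
its degree `d` part. -/
theorem IsHomog.mem_bc_iff (hI : IsHomog I) (φ : B →+* B') {f : MvPolynomial σ B'}
    (hf : f.IsHomogeneous d) : f ∈ Pool.Agent.MP_24718c_ag.bc φ I ↔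
      f ∈ Submodule.span B' (MvPolynomial.map φ '' {g | g ∈ I ∧ g.IsHomogeneous d}) := by
  constructor
  · intro h
    have key : ∀ x ∈ Pool.Agent.MP_24718c_ag.bc φ I, ∀ a : MvPolynomial σ B',
        homogeneousComponent d (a * x) ∈
          Submodule.span B' (MvPolynomial.map φ '' {g | g ∈ I ∧ g.IsHomogeneous d}) := by
      intro x hx
      induction hx using Submodule.span_induction with
      | mem x hx =>
        obtain ⟨g, hg, rfl⟩ := hx
        exact fun a => basica_hc_mul_map hI φ a hg d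
      | zero => intro a; rw [mul_zero, map_zero]; exact Submodule.zero_mem _
      | add x y _ _ hx hy =>
        intro a
        rw [mul_add, map_add]
        exact Submodule.add_mem _ (hx a) (hy a)
      | smul b x _ hx =>
        intro a
        rw [smul_eq_mul, ← mul_assoc]
        exact hx _
    have := key f h 1
    rwa [one_mul, homogeneousComponent_eq_self hf] at this
  · intro h
    have h2 : Submodule.span B' (MvPolynomial.map φ '' {g | g ∈ I ∧ g.IsHomogeneous d}) ≤
        (Pool.Agent.MP_24718c_ag.bc φ I).restrictScalars B' := by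
      rw [Submodule.span_le]
      rintro _ ⟨g, hg, rfl⟩
      exact Ideal.mem_map_of_mem _ hg.1
    exact h2 h

theorem Agree.refl (I : Ideal (MvPolynomial σ B)) : Agree I I :=
  ⟨0, fun _ _ _ _ => Iff.rfl⟩

theorem Agree.symm (h : Agree I J) : Agree J I := by
  obtain ⟨d, hd⟩ := h
  exact ⟨d, fun e he f hf => (hd e he f hf).symm⟩

theorem Agree.trans (h : Agree I J) (h' : Agree J L) : Agree I L := by
  obtain ⟨d, hd⟩ := h
  obtain ⟨d', hd'⟩ := h'
  exact ⟨max d d', fun e he f hf => (hd e (le_of_max_le_left he) f hf).trans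
    (hd' e (le_of_max_le_right he) f hf)⟩

theorem LeD.bc (h : LeD d I J) (hI : IsHomog I) (φ : B →+* B') : LeD d (bc φ I) (bc φ J) := by
  intro e he f hf hfI
  rw [hI.mem_bc_iff φ hf] at hfI
  have h2 : Submodule.span B' (MvPolynomial.map φ '' {g | g ∈ I ∧ g.IsHomogeneous e}) ≤
      (Pool.Agent.MP_24718c_ag.bc φ J).restrictScalars B' := by
    rw [Submodule.span_le]
    rintro _ ⟨g, hg, rfl⟩
    exact Ideal.mem_map_of_mem _ (h e he g hg.2 hg.1)
  exact h2 hfI

theorem Agree.bc (h : Agree I J) (hI : IsHomog I) (hJ : IsHomog J) (φ : B →+* B') :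
    Agree (bc φ I) (bc φ J) := by
  obtain ⟨d, hd⟩ := h
  have h1 : LeD d I J := fun e he f hf hI => (hd e he f hf).1 hI
  have h2 : LeD d J I := fun e he f hf hI => (hd e he f hf).2 hI
  exact ⟨d, fun e he f hf => ⟨h1.bc hI φ e he f hf, h2.bc hJ φ e he f hf⟩⟩

end Pool.Agent.MP_24718c_ag

end

end partBasicA

section partBasicB

/-!
Normal forms and base change of marked ideals.
-/

set_option linter.unusedSectionVars false
set_option linter.unusedVariables false

open MvPolynomial

universe u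

noncomputable section

namespace Pool.Agent.MP_24718c_ag

variable {σ : Type} [Fintype σ] [DecidableEq σ] {B B' B'' : Type u} [CommRing B] [CommRing B']
  [CommRing B''] {E : Set (σ →₀ ℕ)} {I J L : Ideal (MvPolynomial σ B)} {d d₀ d₁ : ℕ}

theorem Marked.mono (h : Marked E d₀ I) (hd : d₀ ≤ d₁) : Marked E d₁ I :=
  ⟨h.homog, fun d hd' => h.span d (hd.trans hd'), fun d hd' => h.indep d (hd.trans hd')⟩

theorem basicb_spec (h : Marked E d₀ I) {α : σ →₀ ℕ} (hα : d₀ ≤ α.degree) :
    nf E I α ∈ Nsp B E ∧ (nf E I α).IsHomogeneous α.degree ∧ monomial α 1 - nf E I α ∈ I := by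
  have hex : ∃ g ∈ Nsp B E, g.IsHomogeneous α.degree ∧ monomial α 1 - g ∈ I :=
    h.span _ hα _ (isHomogeneous_monomial' α 1)
  unfold nf
  rw [dif_pos hex]
  exact hex.choose_spec

theorem basicb_deg {f : MvPolynomial σ B} (hf : f.IsHomogeneous d) {α : σ →₀ ℕ}
    (hα : α ∈ f.support) : α.degree = d :=
  isHomogeneous_iff_degree.1 hf α (mem_support_iff.1 hα)

theorem basicb_mono_mem {α : σ →₀ ℕ} (hE : α ∉ E) (c : B) :
    (monomial α c : MvPolynomial σ B) ∈ Nsp B E := by
  rw [mem_Nsp]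
  intro γ hγ
  rw [coeff_monomial, if_neg]
  rintro rfl
  exact hE hγ

theorem basicb_self (f : MvPolynomial σ B) :
    f = ∑ α ∈ f.support, coeff α f • (monomial α 1 : MvPolynomial σ B) := by
  conv_lhs => rw [f.as_sum]
  refine Finset.sum_congr rfl fun α _ => ?_
  rw [smul_monomial, smul_eq_mul, mul_one]

theorem basicb_sub_hat (f : MvPolynomial σ B) :
    f - hat (nf E I) f = ∑ α ∈ f.support, coeff α f • Hel E I α := by
  rw [hat_apply]
  conv_lhs => rw [basicb_self f]
  have hs : (∑ α ∈ f.support, coeff α f • (monomial α 1 : MvPolynomial σ B)).support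
      = f.support := by rw [← basicb_self f]
  have hc : ∀ β, coeff β (∑ α ∈ f.support, coeff α f • (monomial α 1 : MvPolynomial σ B))
      = coeff β f := by intro β; rw [← basicb_self f]
  simp only [hs, hc]
  rw [← Finset.sum_sub_distrib]
  refine Finset.sum_congr rfl fun α _ => ?_
  rw [Hel, smul_sub]

theorem Marked.nf_mem (h : Marked E d₀ I) {α : σ →₀ ℕ} (hα : d₀ ≤ α.degree) :
    nf E I α ∈ Nsp B E := (basicb_spec h hα).1

theorem Marked.nf_hom (h : Marked E d₀ I) {α : σ →₀ ℕ} (hα : d₀ ≤ α.degree) :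
    (nf E I α).IsHomogeneous α.degree := (basicb_spec h hα).2.1

theorem Marked.hel_mem (h : Marked E d₀ I) {α : σ →₀ ℕ} (hα : d₀ ≤ α.degree) :
    Hel E I α ∈ I := (basicb_spec h hα).2.2

theorem Marked.hel_hom (h : Marked E d₀ I) {α : σ →₀ ℕ} (hα : d₀ ≤ α.degree) :
    (Hel E I α).IsHomogeneous α.degree :=
  (isHomogeneous_monomial' α 1).sub (h.nf_hom hα)

theorem Marked.nf_eq (h : Marked E d₀ I) {α : σ →₀ ℕ} (hα : d₀ ≤ α.degree)
    {g : MvPolynomial σ B} (hg : g ∈ Nsp B E) (hg' : g.IsHomogeneous α.degree)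
    (hI : monomial α 1 - g ∈ I) : nf E I α = g := by
  have h1 : nf E I α - g ∈ I := by
    have := I.sub_mem hI (h.hel_mem hα)
    rw [Hel] at this
    convert this using 1
    ring
  exact sub_eq_zero.1 (h.indep _ hα _ ((Nsp B E).sub_mem (h.nf_mem hα) hg)
    ((h.nf_hom hα).sub hg') h1)

theorem Marked.nf_off (h : Marked E d₀ I) {α : σ →₀ ℕ} (hα : d₀ ≤ α.degree) (hE : α ∉ E) :
    nf E I α = monomial α 1 :=
  h.nf_eq hα (basicb_mono_mem hE 1) (isHomogeneous_monomial' α 1) (by simp)

/-- `hat (nf E I)` is the normal form map in degrees `≥ d₀` -/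
theorem Marked.hat_nf (h : Marked E d₀ I) (hd : d₀ ≤ d) {f : MvPolynomial σ B}
    (hf : f.IsHomogeneous d) : hat (nf E I) f ∈ Nsp B E ∧ (hat (nf E I) f).IsHomogeneous d ∧
      f - hat (nf E I) f ∈ I := by
  refine ⟨?_, ?_, ?_⟩
  · rw [hat_apply]
    exact Submodule.sum_mem _ fun α hα =>
      Submodule.smul_mem _ _ (h.nf_mem (by rw [basicb_deg hf hα]; exact hd))
  · rw [hat_apply]
    refine (homogeneousSubmodule σ B d).sum_mem fun α hα => Submodule.smul_mem _ _ ?_
    have := h.nf_hom (α := α) (by rw [basicb_deg hf hα]; exact hd)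
    rwa [basicb_deg hf hα] at this
  · rw [basicb_sub_hat]
    refine I.sum_mem fun α hα => ?_
    rw [smul_eq_C_mul]
    exact I.mul_mem_left _ (h.hel_mem (by rw [basicb_deg hf hα]; exact hd))

theorem Marked.mem_iff_hat (h : Marked E d₀ I) (hd : d₀ ≤ d) {f : MvPolynomial σ B}
    (hf : f.IsHomogeneous d) : f ∈ I ↔ hat (nf E I) f = 0 := by
  obtain ⟨h1, h2, h3⟩ := h.hat_nf hd hf
  constructor
  · intro hI
    refine h.indep d hd _ h1 h2 ?_
    have := I.sub_mem hI h3
    convert this using 1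
    ring
  · intro h0
    rwa [h0, sub_zero] at h3

/-- forms of `I` are combinations of the marked elements (`Hel E I α = 0` for `α ∉ E`) -/
theorem Marked.eq_sum_hel (h : Marked E d₀ I) (hd : d₀ ≤ d) {f : MvPolynomial σ B}
    (hf : f.IsHomogeneous d) (hI : f ∈ I) : f = ∑ α ∈ f.support, coeff α f • Hel E I α := by
  rw [← basicb_sub_hat, (h.mem_iff_hat hd hf).1 hI, sub_zero]

/-- for `d₀ = 0` no homogeneity is needed -/
theorem Marked.eq_sum_hel_zero (h : Marked E 0 I) {f : MvPolynomial σ B} (hI : f ∈ I) :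
    f = ∑ α ∈ f.support, coeff α f • Hel E I α := by
  have h0 : hat (nf E I) f = 0 := by
    conv_lhs => rw [← sum_homogeneousComponent f]
    rw [map_sum]
    refine Finset.sum_eq_zero fun i _ => ?_
    exact (h.mem_iff_hat (Nat.zero_le i) (homogeneousComponent_isHomogeneous i f)).1
      (h.homog f hI i)
  rw [← basicb_sub_hat, h0, sub_zero]

theorem Marked.indep_zero (h : Marked E 0 I) {g : MvPolynomial σ B} (hg : g ∈ Nsp B E)
    (hI : g ∈ I) : g = 0 := by
  rw [← sum_homogeneousComponent g]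
  refine Finset.sum_eq_zero fun i _ => ?_
  exact h.indep i (Nat.zero_le i) _ (Nsp_homogeneousComponent hg i)
    (homogeneousComponent_isHomogeneous i g) (h.homog g hI i)

theorem Marked.span_zero (h : Marked E 0 I) (f : MvPolynomial σ B) :
    ∃ g ∈ Nsp B E, f - g ∈ I := by
  refine ⟨hat (nf E I) f, ?_, ?_⟩
  · rw [hat_apply]
    exact Submodule.sum_mem _ fun α _ => Submodule.smul_mem _ _ (h.nf_mem (Nat.zero_le _))
  · rw [basicb_sub_hat]
    refine I.sum_mem fun α _ => ?_
    rw [smul_eq_C_mul]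
    exact I.mul_mem_left _ (h.hel_mem (Nat.zero_le _))

theorem marked_of_monomials (hI : IsHomog I)
    (hs : ∀ α ∈ E, d₀ ≤ α.degree →
      ∃ g ∈ Nsp B E, g.IsHomogeneous α.degree ∧ monomial α 1 - g ∈ I)
    (hi : ∀ d, d₀ ≤ d → ∀ g ∈ Nsp B E, g.IsHomogeneous d → g ∈ I → g = 0) :
    Marked E d₀ I := by
  refine ⟨hI, fun d hd f hf => ?_, hi⟩
  have hall : ∀ α : σ →₀ ℕ, d₀ ≤ α.degree →
      ∃ g ∈ Nsp B E, g.IsHomogeneous α.degree ∧ monomial α 1 - g ∈ I := by
    intro α hα
    by_cases hE : α ∈ E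
    · exact hs α hE hα
    · exact ⟨monomial α 1, basicb_mono_mem hE 1, isHomogeneous_monomial' α 1, by simp⟩
  choose! g hg using hall
  refine ⟨∑ α ∈ f.support, coeff α f • g α, ?_, ?_, ?_⟩
  · exact Submodule.sum_mem _ fun α hα =>
      Submodule.smul_mem _ _ (hg α (by rw [basicb_deg hf hα]; exact hd)).1
  · refine (homogeneousSubmodule σ B d).sum_mem fun α hα => Submodule.smul_mem _ _ ?_
    have := (hg α (by rw [basicb_deg hf hα]; exact hd)).2.1
    rwa [basicb_deg hf hα] at this
  · have e : f - ∑ α ∈ f.support, coeff α f • g α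
        = ∑ α ∈ f.support, coeff α f • (monomial α 1 - g α) := by
      simp only [smul_sub, Finset.sum_sub_distrib]
      rw [← basicb_self f]
    rw [e]
    refine I.sum_mem fun α hα => ?_
    rw [smul_eq_C_mul]
    exact I.mul_mem_left _ (hg α (by rw [basicb_deg hf hα]; exact hd)).2.2

theorem marked_of_isCompl (hI : IsHomog I) (h : IsCompl (I.restrictScalars B) (Nsp B E)) :
    Marked E 0 I := by
  refine ⟨hI, fun d _ f hf => ?_, fun d _ g hg _ hgI => ?_⟩
  · have hf' : f ∈ I.restrictScalars B ⊔ Nsp B E := by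
      rw [h.sup_eq_top]; trivial
    obtain ⟨a, ha, b, hb, hab⟩ := Submodule.mem_sup.1 hf'
    refine ⟨homogeneousComponent d b, Nsp_homogeneousComponent hb d,
      homogeneousComponent_isHomogeneous d b, ?_⟩
    have e : f = homogeneousComponent d f := by
      rw [homogeneousComponent_of_mem (m := d) (n := d) hf, if_pos rfl]
    have e2 : f - homogeneousComponent d b = homogeneousComponent d a := by
      rw [e, ← hab, map_add]
      ring
    rw [e2]
    exact hI a ha d
  · have : g ∈ I.restrictScalars B ⊓ Nsp B E := ⟨hgI, hg⟩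
    rwa [h.inf_eq_bot, Submodule.mem_bot] at this

theorem basicb_hat_map (φ : B →+* B') (ν : (σ →₀ ℕ) → MvPolynomial σ B)
    (f : MvPolynomial σ B) :
    hat (fun α => MvPolynomial.map φ (ν α)) (MvPolynomial.map φ f)
      = MvPolynomial.map φ (hat ν f) := by
  induction f using MvPolynomial.induction_on' with
  | monomial u a =>
    rw [map_monomial, hat_monomial, hat_monomial, smul_eq_C_mul, smul_eq_C_mul, map_mul, map_C]
  | add p q hp hq => rw [map_add, map_add, map_add, map_add, hp, hq]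

theorem basicb_hel_map (h : Marked E d₀ I) (φ : B →+* B') {α : σ →₀ ℕ} (hα : d₀ ≤ α.degree) :
    monomial α 1 - MvPolynomial.map φ (nf E I α) ∈ Pool.Agent.MP_24718c_ag.bc φ I := by
  have := Ideal.mem_map_of_mem (MvPolynomial.map φ) (h.hel_mem hα)
  rwa [Hel, map_sub, map_monomial, map_one] at this

/-- Base change.  Independence: the map `hat (fun α => map φ (nf E I α))` is the identity on
`Nsp` in degree `d` and kills the images of the forms of `I` (use `IsHomog.mem_bc_iff`). -/
theorem Marked.bc (h : Marked E d₀ I) (φ : B →+* B') : Marked E d₀ (bc φ I) := by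
  refine marked_of_monomials (h.homog.bc φ) (fun α _ hα => ?_) (fun d hd g hg hg' hgI => ?_)
  · exact ⟨MvPolynomial.map φ (nf E I α), Nsp_map φ (h.nf_mem hα), (h.nf_hom hα).map φ,
      basicb_hel_map h φ hα⟩
  · have h1 : hat (fun α => MvPolynomial.map φ (nf E I α)) g = g := by
      rw [hat_apply]
      conv_rhs => rw [basicb_self g]
      refine Finset.sum_congr rfl fun α hα => ?_
      have hE : α ∉ E := fun hE => mem_support_iff.1 hα (mem_Nsp.1 hg α hE)
      rw [h.nf_off (by rw [basicb_deg hg' hα]; exact hd) hE, map_monomial, map_one]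
    have h2 : Submodule.span B' (MvPolynomial.map φ '' {g | g ∈ I ∧ g.IsHomogeneous d}) ≤
        LinearMap.ker (hat (fun α => MvPolynomial.map φ (nf E I α))) := by
      rw [Submodule.span_le]
      rintro _ ⟨f, ⟨hfI, hf⟩, rfl⟩
      rw [SetLike.mem_coe, LinearMap.mem_ker, basicb_hat_map, (h.mem_iff_hat hd hf).1 hfI,
        map_zero]
    have h3 := h2 ((h.homog.mem_bc_iff φ hg').1 hgI)
    rwa [LinearMap.mem_ker, h1] at h3

theorem Marked.nf_bc (h : Marked E d₀ I) (φ : B →+* B') {α : σ →₀ ℕ} (hα : d₀ ≤ α.degree) :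
    nf E (Pool.Agent.MP_24718c_ag.bc φ I) α = MvPolynomial.map φ (nf E I α) :=
  (h.bc φ).nf_eq hα (Nsp_map φ (h.nf_mem hα)) ((h.nf_hom hα).map φ) (basicb_hel_map h φ hα)

theorem Marked.hel_bc (h : Marked E d₀ I) (φ : B →+* B') {α : σ →₀ ℕ} (hα : d₀ ≤ α.degree) :
    Hel E (Pool.Agent.MP_24718c_ag.bc φ I) α = MvPolynomial.map φ (Hel E I α) := by
  rw [Hel, Hel, h.nf_bc φ hα, map_sub, map_monomial, φ.map_one]

theorem Marked.coef_bc (h : Marked E 0 I) (φ : B →+* B') (p : (σ →₀ ℕ) × (σ →₀ ℕ)) :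
    coef E (Pool.Agent.MP_24718c_ag.bc φ I) p = φ (coef E I p) := by
  unfold coef
  split_ifs with hp
  · rw [h.nf_bc φ (Nat.zero_le _), coeff_map]
  · rw [map_zero]

end Pool.Agent.MP_24718c_ag

end

end partBasicB

section partBasic

/-!
Comparison of marked ideals, monomial ideals, first order families.
-/

set_option linter.unusedSectionVars false
set_option linter.unusedVariables false

open MvPolynomial

universe u

noncomputable section

namespace Pool.Agent.MP_24718c_ag

variable {σ : Type} [Fintype σ] [DecidableEq σ] {B B' B'' : Type u} [CommRing B] [CommRing B']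
  [CommRing B''] {E : Set (σ →₀ ℕ)} {I J L : Ideal (MvPolynomial σ B)} {d d₀ d₁ : ℕ}

theorem Marked.leD_of_leD (hI : Marked E d₀ I) (hJ : Marked E d₀ J) (h : LeD d₀ I J) :
    LeD d₀ J I := by
  intro e he f hf hfJ
  obtain ⟨g, hg, hgh, hfg⟩ := hI.span e he f hf
  have h1 : f - g ∈ J := h e he _ (hf.sub hgh) hfg
  have h2 : g ∈ J := by
    have := J.sub_mem hfJ h1
    rwa [sub_sub_cancel] at this
  have h3 := hJ.indep e he g hg hgh h2
  rwa [h3, sub_zero] at hfg

theorem Marked.agree_of_leD (hI : Marked E d₀ I) (hJ : Marked E d₁ J) (h : LeD d I J) :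
    Agree I J := by
  have h1 : LeD (max d (max d₀ d₁)) I J := fun e he => h e (le_trans (le_max_left _ _) he)
  have h2 := (hI.mono (d₁ := max d (max d₀ d₁)) (by omega)).leD_of_leD
    (hJ.mono (d₁ := max d (max d₀ d₁)) (by omega)) h1
  exact ⟨_, fun e he f hf => ⟨h1 e he f hf, h2 e he f hf⟩⟩

theorem Marked.agree_of_le (hI : Marked E d₀ I) (hJ : Marked E d₁ J) (h : I ≤ J) :
    Agree I J := 
  hI.agree_of_leD (d := 0) hJ fun _ _ _ _ hf => h hf

theorem Marked.eq_of_le (hI : Marked E 0 I) (hJ : Marked E 0 J) (h : I ≤ J) : I = J := 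
  le_antisymm h (hJ.homog.le_of_forms fun e f hf hfJ =>
    hI.leD_of_leD hJ (fun _ _ _ _ hf => h hf) e (Nat.zero_le _) f hf hfJ)

theorem Marked.leD_of_nf (hI : Marked E d₀ I) (hJ : Marked E d₀ J)
    (h : ∀ α ∈ E, d₀ ≤ α.degree → nf E I α = nf E J α) : LeD d₀ I J := by
  intro e he f hf hfI
  rw [hI.eq_sum_hel he hf hfI]
  refine J.sum_mem fun α hα => ?_
  have hd : d₀ ≤ α.degree := by
    rw [isHomogeneous_iff_degree.1 hf α (mem_support_iff.1 hα)]
    exact he
  have h1 : Hel E I α = Hel E J α := by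
    unfold Hel
    by_cases hE : α ∈ E
    · rw [h α hE hd]
    · rw [hI.nf_off hd hE, hJ.nf_off hd hE]
  rw [h1, smul_eq_C_mul]
  exact J.mul_mem_left _ (hJ.hel_mem hd)

theorem Marked.eq_of_coef (hI : Marked E 0 I) (hJ : Marked E 0 J)
    (h : ∀ p, coef E I p = coef E J p) : I = J := by
  have h1 : LeD 0 I J := hI.leD_of_nf hJ fun α hα _ => by
    ext γ
    have := h (α, γ)
    simpa only [coef, hα, if_true] using this
  exact hI.eq_of_le hJ (hI.homog.le_of_forms fun e f hf hfI => h1 e (Nat.zero_le _) f hf hfI)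

theorem Marked.of_agree (hI : Marked E d₀ I) (hJ : IsHomog J) (h : Agree I J) :
    ∃ d, Marked E d J := by
  obtain ⟨D, hD⟩ := h
  refine ⟨max d₀ D, hJ, fun e he f hf => ?_, fun e he g hg hgh hgJ => ?_⟩
  · obtain ⟨g, hg, hgh, hfg⟩ := hI.span e (by omega) f hf
    exact ⟨g, hg, hgh, (hD e (by omega) _ (hf.sub hgh)).1 hfg⟩
  · exact hI.indep e (by omega) g hg hgh ((hD e (by omega) _ hgh).2 hgJ)

theorem Marked.nf_eq_of_agree (hI : Marked E d₀ I) (hJ : Marked E d₁ J) (h : Agree I J) :
    ∃ d, ∀ α : σ →₀ ℕ, d ≤ α.degree → nf E I α = nf E J α := by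
  obtain ⟨D, hD⟩ := h
  refine ⟨max D (max d₀ d₁), fun α hα => ?_⟩
  have h0 : d₀ ≤ α.degree := by omega
  exact (hJ.nf_eq (by omega) (hI.nf_mem h0) (hI.nf_hom h0)
    ((hD _ (by omega) _ (hI.hel_hom h0)).1 (hI.hel_mem h0))).symm

/-- two ideals marked in all degrees over a set free in `z` that agree are equal (a marked ideal
is saturated with respect to `z`) -/
theorem Marked.eq_of_agree {z : σ} (hz : FreeN E z) (hI : Marked E 0 I) (hJ : Marked E 0 J)
    (h : Agree I J) : I = J := by
  obtain ⟨D, hD⟩ := h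
  refine hI.eq_of_le hJ (hI.homog.le_of_forms fun e f hf hfI => ?_)
  obtain ⟨g, hg, hgh, hfg⟩ := hJ.span e (Nat.zero_le _) f hf
  have h1 : (X z ^ D * f : MvPolynomial σ B).IsHomogeneous (D + e) := by
    have := ((isHomogeneous_X B z).pow D).mul hf
    rwa [one_mul] at this
  have h2 : X z ^ D * f ∈ J := (hD _ (by omega) _ h1).1 (I.mul_mem_left _ hfI)
  have h3 : X z ^ D * g ∈ J := by
    have := J.sub_mem h2 (J.mul_mem_left (X z ^ D) hfg)
    rwa [mul_sub, sub_sub_cancel] at this
  have h4 := hJ.indep_zero (Nsp_mul_X_pow hz hg D) h3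
  have h5 : g = 0 := (isRegular_X_pow (R := B) (n := z) D).left (by simpa using h4)
  rwa [h5, sub_zero] at hfg

theorem mem_monI (hE : IsUpperSet E) {f : MvPolynomial σ B} :
    f ∈ monI B E ↔ ∀ γ, γ ∉ E → coeff γ f = 0 := by
  unfold monI
  rw [mem_ideal_span_monomial_image]
  constructor
  · intro h γ hγ
    by_contra hc
    obtain ⟨β, hβ, hle⟩ := h γ (mem_support_iff.2 hc)
    exact hγ (hE hle hβ)
  · intro h γ hγ
    refine ⟨γ, ?_, le_rfl⟩
    by_contra hc
    exact mem_support_iff.1 hγ (h γ hc)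

theorem marked_monI (hE : IsUpperSet E) : Marked E 0 (monI B E) := by
  refine marked_of_monomials (isHomog_span ?_) (fun α hα _ => ?_) fun e _ g hg _ hgI => ?_
  · rintro f ⟨α, -, rfl⟩
    exact ⟨_, isHomogeneous_monomial' α 1⟩
  · refine ⟨0, Submodule.zero_mem _, isHomogeneous_zero _ _ _, ?_⟩
    rw [sub_zero]
    exact Ideal.subset_span ⟨α, hα, rfl⟩
  · ext γ
    by_cases hγ : γ ∈ E
    · simpa using mem_Nsp.1 hg γ hγ
    · simpa using (mem_monI hE).1 hgI γ hγ

theorem nf_monI (hE : IsUpperSet E) {α : σ →₀ ℕ} (hα : α ∈ E) : nf E (monI B E) α = 0 := by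
  refine (marked_monI hE).nf_eq (Nat.zero_le _) (Submodule.zero_mem _)
    (isHomogeneous_zero _ _ _) ?_
  rw [sub_zero]
  exact Ideal.subset_span ⟨α, hα, rfl⟩

theorem bc_monI (φ : B →+* B') : bc φ (monI B E) = monI B' E := by
  unfold monI bc
  rw [Ideal.map_span, Set.image_image]
  simp only [map_monomial, map_one]

theorem basic_coeff_hel {α γ : σ →₀ ℕ} (hα : α ∈ E) (hγ : γ ∉ E) :
    coeff γ (Hel E I α) = -coeff γ (nf E I α) := by
  have : α ≠ γ := fun h => hγ (h ▸ hα)
  simp [Hel, coeff_monomial, this]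

theorem basic_red_iff_nf (h : Marked E 0 I) {K : Ideal B} :
    Red E I K ↔ ∀ α ∈ E, nf E I α ∈ KS σ K := by
  constructor
  · intro hr α hα
    refine mem_KS.2 fun γ => ?_
    by_cases hγ : γ ∈ E
    · rw [mem_Nsp.1 (h.nf_mem (Nat.zero_le _)) γ hγ]
      exact K.zero_mem
    · have := hr _ (h.hel_mem (α := α) (Nat.zero_le _)) γ hγ
      rw [basic_coeff_hel hα hγ] at this
      exact K.neg_mem_iff.1 this
  · intro hn f hf γ hγ
    rw [h.eq_sum_hel_zero hf, coeff_sum]
    refine K.sum_mem fun α _ => ?_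
    rw [coeff_smul, smul_eq_mul]
    refine K.mul_mem_left _ ?_
    by_cases hα : α ∈ E
    · rw [basic_coeff_hel hα hγ]
      exact K.neg_mem (mem_KS.1 (hn α hα) γ)
    · rw [Hel, h.nf_off (Nat.zero_le _) hα, sub_self, coeff_zero]
      exact K.zero_mem

theorem Marked.red_iff (h : Marked E 0 I) {K : Ideal B} :
    Red E I K ↔ ∀ p, coef E I p ∈ K := by
  rw [basic_red_iff_nf h]
  constructor
  · intro hn p
    unfold coef
    split_ifs with hp
    · exact mem_KS.1 (hn _ hp) _
    · exact K.zero_mem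
  · intro hc α hα
    refine mem_KS.2 fun γ => ?_
    have := hc (α, γ)
    simpa only [coef, hα, if_true] using this

theorem Marked.red_iff_nf (h : Marked E 0 I) {K : Ideal B} :
    Red E I K ↔ ∀ α ∈ E, nf E I α ∈ KS σ K := basic_red_iff_nf h

theorem Red.bc_le (hE : IsUpperSet E) (φ : B →+* B') (h : Red E I (RingHom.ker φ)) :
    bc φ I ≤ monI B' E := by
  refine Ideal.map_le_iff_le_comap.2 fun f hf => ?_
  rw [Ideal.mem_comap, mem_monI hE]
  intro γ hγ
  rw [coeff_map]
  exact h f hf γ hγ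

theorem red_of_bc_le (hE : IsUpperSet E) (φ : B →+* B') (h : bc φ I ≤ monI B' E) :
    Red E I (RingHom.ker φ) := by
  intro f hf γ hγ
  have := (mem_monI hE).1 (h (Ideal.mem_map_of_mem _ hf)) γ hγ
  rwa [coeff_map] at this

/-- an element of `I` with coefficients in `K` lies in `K • I` -/
theorem Marked.mem_smul (h : Marked E 0 I) {K : Ideal B} {f : MvPolynomial σ B} (hI : f ∈ I)
    (hK : f ∈ KS σ K) : f ∈ K • I.restrictScalars B := by
  rw [h.eq_sum_hel_zero hI]
  exact Submodule.sum_mem _ fun α _ =>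
    Submodule.smul_mem_smul (mem_KS.1 hK α) (h.hel_mem (Nat.zero_le _))

theorem basic_mul_zero {K : Ideal B} (hK : K * K = ⊥) {a b : B} (ha : a ∈ K) (hb : b ∈ K) :
    a * b = 0 := by
  have := Ideal.mul_mem_mul ha hb
  rwa [hK, Ideal.mem_bot] at this

/-- first order families: multiples of monomials of `E` by elements of `K` are in `I` -/
theorem Marked.KS_mem (h : Marked E 0 I) {K : Ideal B} (hK : K * K = ⊥) (hr : Red E I K)
    {f : MvPolynomial σ B} (hf : f ∈ KS σ K) (hE : ∀ γ, γ ∉ E → coeff γ f = 0) : f ∈ I := by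
  rw [f.as_sum]
  refine I.sum_mem fun α hα => ?_
  have hαE : α ∈ E := by
    by_contra hc
    exact mem_support_iff.1 hα (hE α hc)
  have h1 : coeff α f • nf E I α = 0 := by
    ext γ
    rw [coeff_smul, smul_eq_mul, coeff_zero]
    exact basic_mul_zero hK (mem_KS.1 hf α) (mem_KS.1 (h.red_iff_nf.1 hr α hαE) γ)
  have h2 : monomial α (coeff α f) = C (coeff α f) * Hel E I α := by
    rw [← smul_eq_C_mul, Hel, smul_sub, h1, sub_zero, smul_monomial, smul_eq_mul, mul_one]
  rw [h2]
  exact I.mul_mem_left _ (h.hel_mem (Nat.zero_le _))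

/-- first order families: an element of `I` with coefficients in `K` is supported on `E` -/
theorem Marked.KS_supp (h : Marked E 0 I) {K : Ideal B} (hK : K * K = ⊥) (hr : Red E I K)
    {f : MvPolynomial σ B} (hf : f ∈ KS σ K) (hI : f ∈ I) : ∀ γ, γ ∉ E → coeff γ f = 0 := by
  intro γ hγ
  rw [h.eq_sum_hel_zero hI, coeff_sum]
  refine Finset.sum_eq_zero fun α _ => ?_
  rw [coeff_smul, smul_eq_mul]
  exact basic_mul_zero hK (mem_KS.1 hf α) (hr _ (h.hel_mem (Nat.zero_le _)) γ hγ)

/-- The support of the normal form coefficients of a first order family is a tangent set: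
`X i * nf α - nf (α + e_i) ∈ I` has coefficients in `K`, so it is supported on `E`. -/
theorem Marked.tan (hE : IsUpperSet E) (h : Marked E 0 I) {K : Ideal B} (hK : K * K = ⊥)
    (hr : Red E I K) : Tan E 0 fun α γ => coef E I (α, γ) ≠ 0 := by
  have up : ∀ α ∈ E, ∀ i, α + Finsupp.single i 1 ∈ E := fun α hα i => hE le_self_add hα
  have key : ∀ α ∈ E, ∀ i, ∀ γ, γ ∉ E →
      coeff γ (X i * nf E I α) = coeff γ (nf E I (α + Finsupp.single i 1)) := by
    intro α hα i γ hγ
    have h1 : X i * nf E I α - nf E I (α + Finsupp.single i 1) ∈ I := by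
      have e : X i * nf E I α - nf E I (α + Finsupp.single i 1) =
          Hel E I (α + Finsupp.single i 1) - X i * Hel E I α := by
        have : (monomial (α + Finsupp.single i 1) 1 : MvPolynomial σ B) =
            X i * monomial α 1 := by
          rw [monomial_add_single, pow_one, mul_comm]
        rw [Hel, Hel, this]
        ring
      rw [e]
      exact I.sub_mem (h.hel_mem (Nat.zero_le _)) (I.mul_mem_left _ (h.hel_mem (Nat.zero_le _)))
    have h2 : X i * nf E I α - nf E I (α + Finsupp.single i 1) ∈ KS σ K :=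
      Ideal.sub_mem _ (Ideal.mul_mem_left _ _ (h.red_iff_nf.1 hr α hα))
        (h.red_iff_nf.1 hr _ (up α hα i))
    have h3 := h.KS_supp hK hr h2 h1 γ hγ
    rwa [coeff_sub, sub_eq_zero] at h3
  refine ⟨fun α γ hM => ?_, fun α hα _ γ i hγ => ?_, fun α hα _ γ i hγ hM => hM ?_⟩
  · have hα : α ∈ E := by
      by_contra hc
      exact hM (by simp only [coef, hc, if_false])
    simp only [coef, hα, if_true] at hM
    exact ⟨hα, Nat.zero_le _, fun hγ => hM (mem_Nsp.1 (h.nf_mem (Nat.zero_le _)) γ hγ),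
      isHomogeneous_iff_degree.1 (h.nf_hom (Nat.zero_le _)) γ hM⟩
  · simp only [coef, hα, up α hα i, if_true]
    rw [← key α hα i _ hγ, add_comm γ, coeff_X_mul]
  · simp only [coef, up α hα i, if_true]
    by_cases hγE : γ ∈ E
    · exact mem_Nsp.1 (h.nf_mem (Nat.zero_le _)) γ hγE
    · rw [← key α hα i _ hγE, coeff_X_mul', if_neg]
      simpa using hγ

end Pool.Agent.MP_24718c_ag

end

end partBasic

section partBuild

/-!
Construction of marked ideals from normal forms, extension to all degrees.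
-/

set_option linter.unusedSectionVars false
set_option linter.unusedVariables false

open MvPolynomial

universe u

noncomputable section

namespace Pool.Agent.MP_24718c_ag

variable {σ : Type} [Fintype σ] [DecidableEq σ] {B B' : Type u} [CommRing B] [CommRing B']
  {E : Set (σ →₀ ℕ)} {I J : Ideal (MvPolynomial σ B)} {d d₀ d₁ : ℕ}

theorem build_X_mul (i : σ) (β : σ →₀ ℕ) (c : B) :
    (X i * monomial β c : MvPolynomial σ B) = monomial (β + Finsupp.single i 1) c := by
  rw [X, monomial_mul, one_mul, add_comm]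

theorem build_hat_id {ν : (σ →₀ ℕ) → MvPolynomial σ B} (hoff : ∀ β, β ∉ E → ν β = monomial β 1)
    {g : MvPolynomial σ B} (hg : g ∈ Nsp B E) : hat ν g = g := by
  rw [hat_apply]
  conv_rhs => rw [g.as_sum]
  refine Finset.sum_congr rfl fun β hβ => ?_
  rw [hoff β fun h => mem_support_iff.1 hβ (mem_Nsp.1 hg β h), smul_monomial, smul_eq_mul, mul_one]

theorem build_step {r : ℕ} {ν : (σ →₀ ℕ) → MvPolynomial σ B}
    (hoff : ∀ β, β ∉ E → ν β = monomial β 1)
    (hrel : ∀ α ∈ E, r ≤ α.degree → ∀ i, hat ν (X i * ν α) = ν (α + Finsupp.single i 1))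
    {f : MvPolynomial σ B} (hf : ∀ β, coeff β f ≠ 0 → r ≤ β.degree) (i : σ) :
    hat ν (X i * f) = hat ν (X i * hat ν f) := by
  rw [hat_apply ν f]
  conv_lhs => rw [f.as_sum]
  rw [Finset.mul_sum, Finset.mul_sum, map_sum, map_sum]
  refine Finset.sum_congr rfl fun β hβ => ?_
  rw [build_X_mul, hat_monomial, mul_smul_comm, map_smul]
  congr 1
  by_cases h : β ∈ E
  · exact (hrel β h (hf β (mem_support_iff.1 hβ)) i).symm
  · rw [hoff β h, build_X_mul, hat_monomial, one_smul]

/-- the polynomials of order `≥ r` killed by `hat ν` -/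
def buildK (r : ℕ) (ν : (σ →₀ ℕ) → MvPolynomial σ B) (hoff : ∀ β, β ∉ E → ν β = monomial β 1)
    (hrel : ∀ α ∈ E, r ≤ α.degree → ∀ i, hat ν (X i * ν α) = ν (α + Finsupp.single i 1)) :
    Ideal (MvPolynomial σ B) where
  carrier := {f | (∀ β, coeff β f ≠ 0 → r ≤ β.degree) ∧ hat ν f = 0}
  add_mem' := by
    rintro a b ⟨a1, a2⟩ ⟨b1, b2⟩
    refine ⟨fun β h => ?_, by rw [map_add, a2, b2, add_zero]⟩
    by_cases k : coeff β a = 0
    · rw [coeff_add, k, zero_add] at h
      exact b1 β h
    · exact a1 β k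
  zero_mem' := ⟨fun β h => (h (coeff_zero β)).elim, map_zero _⟩
  smul_mem' := by
    intro c f hf
    rw [smul_eq_mul]
    induction c using MvPolynomial.induction_on generalizing f with
    | C a =>
      refine ⟨fun β h => hf.1 β fun k => h ?_, ?_⟩
      · rw [coeff_C_mul, k, mul_zero]
      · rw [← smul_eq_C_mul, map_smul, hf.2, smul_zero]
    | add p q hp hq =>
      rw [add_mul]
      refine ⟨fun β h => ?_, by rw [map_add, (hp hf).2, (hq hf).2, add_zero]⟩
      by_cases k : coeff β (p * f) = 0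
      · rw [coeff_add, k, zero_add] at h
        exact (hq hf).1 β h
      · exact (hp hf).1 β k
    | mul_X p i hp =>
      rw [mul_assoc]
      refine hp ⟨fun β h => ?_, ?_⟩
      · rw [coeff_X_mul'] at h
        split_ifs at h with k
        · exact (hf.1 _ h).trans (Finsupp.degree_mono tsub_le_self)
        · exact (h rfl).elim
      · rw [build_step hoff hrel hf.1, hf.2, mul_zero, map_zero]

/-- Take `I = span {x^α - ν α : α ∈ E, r ≤ |α|}`.  For forms `f` of degree `≥ r` one has
`hat ν (X i * f) = hat ν (X i * hat ν f)` (check on monomials), so the set of `f` whose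
homogeneous components vanish in degrees `< r` and are killed by `hat ν` in degrees `≥ r` is an
ideal containing `I`; `hat ν` is the identity on `Nsp`. -/
theorem build (r : ℕ) (ν : (σ →₀ ℕ) → MvPolynomial σ B)
    (hoff : ∀ β, β ∉ E → ν β = monomial β 1)
    (hN : ∀ α ∈ E, r ≤ α.degree → ν α ∈ Nsp B E ∧ (ν α).IsHomogeneous α.degree)
    (hrel : ∀ α ∈ E, r ≤ α.degree → ∀ i, hat ν (X i * ν α) = ν (α + Finsupp.single i 1)) :
    ∃ I : Ideal (MvPolynomial σ B), Marked E r I ∧
      ∀ α : σ →₀ ℕ, r ≤ α.degree → nf E I α = ν α := by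
  let s : Set (MvPolynomial σ B) := {f | ∃ α ∈ E, r ≤ α.degree ∧ f = monomial α 1 - ν α}
  have h1 : Ideal.span s ≤ buildK r ν hoff hrel := by
    rw [Ideal.span_le]
    rintro _ ⟨α, a1, a2, rfl⟩
    refine ⟨fun β h => ?_, ?_⟩
    · rw [isHomogeneous_iff_degree.1 ((isHomogeneous_monomial' α 1).sub (hN α a1 a2).2) β h]
      exact a2
    · rw [map_sub, hat_monomial, one_smul, build_hat_id hoff (hN α a1 a2).1, sub_self]
  have h2 : Marked E r (Ideal.span s) := marked_of_monomials
    (isHomog_span (by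
      rintro _ ⟨α, a1, a2, rfl⟩
      exact ⟨_, (isHomogeneous_monomial' α 1).sub (hN α a1 a2).2⟩))
    (fun α a1 a2 => ⟨ν α, (hN α a1 a2).1, (hN α a1 a2).2, Ideal.subset_span ⟨α, a1, a2, rfl⟩⟩)
    fun d _ g g1 _ g3 => (build_hat_id hoff g1).symm.trans (h1 g3).2
  refine ⟨_, h2, fun α hα => ?_⟩
  by_cases k : α ∈ E
  · exact h2.nf_eq hα (hN α k hα).1 (hN α k hα).2 (Ideal.subset_span ⟨α, k, hα, rfl⟩)
  · rw [h2.nf_off hα k, hoff α k]

/-- The normal forms of a marked ideal satisfy the relations of `build`. -/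
theorem Marked.rel (h : Marked E d₀ I) {α : σ →₀ ℕ} (hα : d₀ ≤ α.degree) (i : σ) :
    hat (nf E I) (X i * nf E I α) = nf E I (α + Finsupp.single i 1) := by
  have e : (α + Finsupp.single i 1).degree = 1 + α.degree := by
    rw [map_add, Finsupp.degree_single, add_comm]
  have hd : d₀ ≤ (α + Finsupp.single i 1).degree := by omega
  have hf : (X i * nf E I α).IsHomogeneous (α + Finsupp.single i 1).degree := by
    rw [e]
    exact (isHomogeneous_X B i).mul (h.nf_hom hα)
  obtain ⟨a1, a2, a3⟩ := h.hat_nf hd hf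
  refine (h.nf_eq hd a1 a2 ?_).symm
  have := I.add_mem (I.mul_mem_left (X i) (h.hel_mem hα)) a3
  rwa [Hel, mul_sub, build_X_mul, sub_add_sub_cancel] at this

theorem build_pow_mul (i : σ) (t : ℕ) (β : σ →₀ ℕ) :
    (X i ^ t * monomial β 1 : MvPolynomial σ B) = monomial (β + Finsupp.single i t) 1 := by
  rw [X_pow_eq_monomial, monomial_mul, one_mul, add_comm]

theorem build_satz_homog (hI : IsHomog I) (z : σ) : IsHomog (satz z I) := by
  rintro f ⟨k, hk⟩ e
  have h := hI.colon (J := Submodule.colon I {X z ^ k}) ((isHomogeneous_X B z).pow k)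
    fun f => Submodule.mem_colon_singleton
  refine ⟨k, ?_⟩
  rw [mul_comm] at hk ⊢
  exact Submodule.mem_colon_singleton.1 (h f (Submodule.mem_colon_singleton.2 hk) e)

theorem build_div {y z : σ} (hyz : y ≠ z) {a b : MvPolynomial σ B}
    (h : X y ^ d * a = X z ^ d * b) :
    monomial (Finsupp.single z d) 1 * a.divMonomial (Finsupp.single z d) = a := by
  have e : a.modMonomial (Finsupp.single z d) = 0 := by
    ext γ
    by_cases k : Finsupp.single z d ≤ γ
    · rw [coeff_modMonomial_of_le _ k, coeff_zero]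
    · rw [coeff_modMonomial_of_not_le _ k, coeff_zero]
      have e1 := congrArg (coeff (Finsupp.single y d + γ)) h
      rw [X_pow_eq_monomial, X_pow_eq_monomial, coeff_monomial_mul, one_mul,
        coeff_monomial_mul', if_neg] at e1
      · exact e1
      · rw [Finsupp.single_le_iff] at k ⊢
        rwa [Finsupp.add_apply, Finsupp.single_eq_of_ne hyz.symm, zero_add]
  have := a.divMonomial_add_modMonomial (Finsupp.single z d)
  rwa [e, add_zero] at this

/-- With `a = nf (α + d e_z)`, `b = nf (α + d e_y)` the elements `y^d a`, `z^d b` of `Nsp` are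
congruent, hence equal, so `z^d` divides `a` (compare exponents) and `z^d (x^α - a') ∈ I`. -/
theorem ext_marked (hE : IsUpperSet E) {y z : σ} (hyz : y ≠ z) (hy : FreeN E y)
    (hz : FreeN E z) (h : Marked E d I) : Marked E 0 (satz z I) ∧ Agree (satz z I) I := by
  have key : Marked E 0 (satz z I) := by
    refine marked_of_monomials (build_satz_homog h.homog z) (fun α _ _ => ?_) ?_
    · have e : ∀ i : σ, (α + Finsupp.single i d).degree = α.degree + d := fun i => by
        rw [map_add, Finsupp.degree_single]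
      have hd : ∀ i : σ, d ≤ (α + Finsupp.single i d).degree := fun i => by
        rw [e]
        exact le_add_self
      have hh : ∀ i j : σ, (X j ^ d * nf E I (α + Finsupp.single i d)).IsHomogeneous
          (d + (α.degree + d)) := fun i j => by
        have := ((isHomogeneous_X B j).pow d).mul (h.nf_hom (hd i))
        rwa [one_mul, e] at this
      have h1 : X y ^ d * nf E I (α + Finsupp.single z d) =
          X z ^ d * nf E I (α + Finsupp.single y d) := by
        refine sub_eq_zero.1 (h.indep _ le_self_add _ ((Nsp B E).sub_mem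
          (Nsp_mul_X_pow hy (h.nf_mem (hd z)) d) (Nsp_mul_X_pow hz (h.nf_mem (hd y)) d))
          ((hh z y).sub (hh y z)) ?_)
        have := I.sub_mem (I.mul_mem_left (X z ^ d) (h.hel_mem (hd y)))
          (I.mul_mem_left (X y ^ d) (h.hel_mem (hd z)))
        rwa [Hel, Hel, mul_sub, mul_sub, build_pow_mul, build_pow_mul, add_right_comm,
          sub_sub_sub_cancel_left] at this
      have h2 := build_div hyz h1
      refine ⟨(nf E I (α + Finsupp.single z d)).divMonomial (Finsupp.single z d),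
        Nsp_of_monomial_mul hE (h2.symm ▸ h.nf_mem (hd z)), ?_, d, ?_⟩
      · refine isHomogeneous_iff_degree.2 fun γ hγ => ?_
        rw [coeff_divMonomial] at hγ
        have := isHomogeneous_iff_degree.1 (h.nf_hom (hd z)) _ hγ
        rw [e, map_add, Finsupp.degree_single] at this
        omega
      · rw [mul_sub, build_pow_mul, X_pow_eq_monomial, h2]
        exact h.hel_mem (hd z)
    · rintro e - g g1 g2 ⟨k, hk⟩
      have h1 : X z ^ (d + k) * g ∈ I := by
        rw [pow_add, mul_assoc]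
        exact I.mul_mem_left _ hk
      have h2 := h.indep (1 * (d + k) + e) (by omega) _ (Nsp_mul_X_pow hz g1 (d + k))
        (((isHomogeneous_X B z).pow (d + k)).mul g2) h1
      exact (isRegular_X_pow (d + k)).left (h2.trans (mul_zero _).symm)
  exact ⟨key, (h.agree_of_le key fun f hf => ⟨0, by rwa [pow_zero, one_mul]⟩).symm⟩

end Pool.Agent.MP_24718c_ag

end

end partBuild

section partDistr

/-!
Distractions of monomial ideals.
-/

set_option linter.unusedSectionVars false
set_option linter.unusedVariables false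

open MvPolynomial

universe u

noncomputable section

namespace Pool.Agent.MP_24718c_ag

variable {σ : Type} [Fintype σ] [DecidableEq σ] {B B' : Type u} [CommRing B] [CommRing B']
  {E : Set (σ →₀ ℕ)} {I J : Ideal (MvPolynomial σ B)} {d d₀ d₁ : ℕ}

theorem distr_ind {P : (σ →₀ ℕ) → Prop} (h0 : P 0)
    (hs : ∀ β i, P β → P (β + Finsupp.single i 1)) (α : σ →₀ ℕ) : P α := by
  induction hn : α.degree generalizing α with
  | zero =>
    rw [Finsupp.degree_eq_zero_iff] at hn
    exact hn ▸ h0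
  | succ n ih =>
    have hne : α ≠ 0 := by
      rintro rfl
      simp at hn
    obtain ⟨i, hi⟩ := Finsupp.ne_iff.1 hne
    have hle : Finsupp.single i 1 ≤ α := by
      rw [Finsupp.single_le_iff]
      exact Nat.one_le_iff_ne_zero.2 hi
    obtain ⟨β, rfl⟩ := exists_add_of_le hle
    rw [add_comm]
    refine hs β i (ih β ?_)
    rw [map_add, Finsupp.degree_single] at hn
    omega

theorem distr_split (γ : σ →₀ ℕ) (i : σ) : γ i = 0 ∨ ∃ δ, γ = Finsupp.single i 1 + δ := by
  by_cases hi : γ i = 0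
  · exact Or.inl hi
  · refine Or.inr (exists_add_of_le ?_)
    rw [Finsupp.single_le_iff]
    exact Nat.one_le_iff_ne_zero.2 hi

theorem distr_coeff_X (γ : σ →₀ ℕ) (i : σ) (h : γ i = 0) (f : MvPolynomial σ B) :
    coeff γ (X i * f) = 0 := by
  rw [coeff_X_mul', if_neg]
  simpa using h

theorem dis_hom (z : σ) (c : σ → ℕ → B) (α : σ →₀ ℕ) : (Dis z c α).IsHomogeneous α.degree := by
  rw [Finsupp.degree_eq_sum]
  refine IsHomogeneous.prod _ _ _ fun i _ => ?_
  have h := IsHomogeneous.prod (Finset.range (α i))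
    (fun b => (X i - C (c i b) * X z : MvPolynomial σ B)) (fun _ => 1)
    fun b _ => (isHomogeneous_X B i).sub (isHomogeneous_C_mul_X _ z)
  simpa using h

theorem map_dis (φ : B →+* B') (z : σ) (c : σ → ℕ → B) (α : σ →₀ ℕ) :
    MvPolynomial.map φ (Dis z c α) = Dis z (fun i b => φ (c i b)) α := by
  simp [Dis, map_prod]

theorem bc_disI (φ : B →+* B') (z : σ) (c : σ → ℕ → B) :
    bc φ (disI z c E) = disI z (fun i b => φ (c i b)) E := by
  rw [disI, disI, bc, Ideal.map_span, Set.image_image]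
  simp only [map_dis]

theorem dis_zero (z : σ) (α : σ →₀ ℕ) : Dis z (fun _ _ => (0 : B)) α = monomial α 1 := by
  rw [monomial_eq, Finsupp.prod_fintype _ _ (by simp)]
  simp [Dis]

theorem dis_add_single (z : σ) (c : σ → ℕ → B) (α : σ →₀ ℕ) (i : σ) :
    Dis z c (α + Finsupp.single i 1) = (X i - C (c i (α i)) * X z) * Dis z c α := by
  rw [Dis, Dis, ← Finset.mul_prod_erase _ _ (Finset.mem_univ i),
    ← Finset.mul_prod_erase _ _ (Finset.mem_univ i), Finsupp.add_apply, Finsupp.single_eq_same,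
    Finset.prod_range_succ]
  have : ∏ j ∈ Finset.univ.erase i, ∏ b ∈ Finset.range ((α + Finsupp.single i 1 : σ →₀ ℕ) j),
      (X j - C (c j b) * X z : MvPolynomial σ B) =
      ∏ j ∈ Finset.univ.erase i, ∏ b ∈ Finset.range (α j), (X j - C (c j b) * X z) := by
    refine Finset.prod_congr rfl fun j hj => ?_
    rw [Finsupp.add_apply, Finsupp.single_eq_of_ne (Finset.ne_of_mem_erase hj), add_zero]
  rw [this]
  ring

/-- `Dis α = x^α +` monomials with larger exponent of `z` -/
theorem coeff_dis {z : σ} {c : σ → ℕ → B} (hc : ∀ b, c z b = 0) (α γ : σ →₀ ℕ)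
    (h : γ z ≤ α z) : coeff γ (Dis z c α) = if γ = α then 1 else 0 := by
  induction α using distr_ind generalizing γ with
  | h0 => simp [Dis, coeff_one, eq_comm]
  | hs β i ih =>
    have h1 : ∀ γ : σ →₀ ℕ, γ z ≤ (β + Finsupp.single i 1 : σ →₀ ℕ) z →
        coeff γ (X i * Dis z c β) = if γ = β + Finsupp.single i 1 then 1 else 0 := by
      intro γ h
      rcases distr_split γ i with h0 | ⟨δ, rfl⟩
      · rw [distr_coeff_X γ i h0, if_neg]
        rintro rfl
        simp at h0
      · rw [coeff_X_mul, ih δ (by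
          rw [Finsupp.add_apply, Finsupp.add_apply] at h
          omega), add_comm β]
        simp
    rw [dis_add_single, sub_mul, coeff_sub, h1 γ h, mul_assoc, coeff_C_mul]
    by_cases hi : i = z
    · subst hi
      rw [hc, zero_mul, sub_zero]
    · rw [Finsupp.add_apply, Finsupp.single_eq_of_ne (Ne.symm hi), add_zero] at h
      rcases distr_split γ z with h0 | ⟨δ, rfl⟩
      · rw [distr_coeff_X γ z h0, mul_zero, sub_zero]
      · rw [Finsupp.add_apply, Finsupp.single_eq_same] at h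
        rw [coeff_X_mul, ih δ (by omega), if_neg (c := δ = β), mul_zero, sub_zero]
        rintro rfl
        omega

theorem distr_X_mul {z : σ} {c : σ → ℕ → B} (hc : ∀ b, c z b = 0) (α : σ →₀ ℕ) (i : σ) :
    X i * Dis z c α =
      Dis z c (α + Finsupp.single i 1) + c i (α i) • Dis z c (α + Finsupp.single z 1) := by
  rw [dis_add_single, dis_add_single, hc, smul_eq_C_mul, C_0]
  ring

theorem distr_mul_mem (hE : IsUpperSet E) {z : σ} {c : σ → ℕ → B} (hc : ∀ b, c z b = 0)
    (g : MvPolynomial σ B) {f : MvPolynomial σ B} (hf : f ∈ Submodule.span B (Dis z c '' E)) :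
    g * f ∈ Submodule.span B (Dis z c '' E) := by
  induction g using MvPolynomial.induction_on generalizing f with
  | C a =>
    rw [← smul_eq_C_mul]
    exact Submodule.smul_mem _ _ hf
  | add p q hp hq =>
    rw [add_mul]
    exact Submodule.add_mem _ (hp hf) (hq hf)
  | mul_X p i hp =>
    rw [mul_assoc]
    refine hp ?_
    induction hf using Submodule.span_induction with
    | mem x hx =>
      obtain ⟨α, hα, rfl⟩ := hx
      rw [distr_X_mul hc]
      exact Submodule.add_mem _ (Submodule.subset_span ⟨_, hE le_self_add hα, rfl⟩)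
        (Submodule.smul_mem _ _ (Submodule.subset_span ⟨_, hE le_self_add hα, rfl⟩))
    | zero => simp
    | add x y _ _ hx hy =>
      rw [mul_add]
      exact Submodule.add_mem _ hx hy
    | smul a x _ hx =>
      rw [mul_smul_comm]
      exact Submodule.smul_mem _ _ hx

theorem distr_mem_span (hE : IsUpperSet E) {z : σ} {c : σ → ℕ → B} (hc : ∀ b, c z b = 0)
    {f : MvPolynomial σ B} (hf : f ∈ disI z c E) : f ∈ Submodule.span B (Dis z c '' E) := by
  induction hf using Submodule.span_induction with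
  | mem x hx => exact Submodule.subset_span hx
  | zero => exact Submodule.zero_mem _
  | add x y _ _ hx hy => exact Submodule.add_mem _ hx hy
  | smul a x _ hx => exact distr_mul_mem hE hc a hx

/-- `X i * Dis α = Dis (α + e_i) + c • Dis (α + e_z)`, so the `B`-span of the `Dis α`, `α ∈ E`,
is an ideal; take homogeneous components. -/
theorem mem_disI (hE : IsUpperSet E) {z : σ} {c : σ → ℕ → B} (hc : ∀ b, c z b = 0)
    {f : MvPolynomial σ B} (hf : f.IsHomogeneous d) : f ∈ disI z c E ↔
      f ∈ Submodule.span B (Dis z c '' {α | α ∈ E ∧ α.degree = d}) := by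
  constructor
  · intro h
    have h1 : ∀ g ∈ Submodule.span B (Dis z c '' E), homogeneousComponent d g ∈
        Submodule.span B (Dis z c '' {α | α ∈ E ∧ α.degree = d}) := by
      intro g hg
      induction hg using Submodule.span_induction with
      | mem x hx =>
        obtain ⟨α, hα, rfl⟩ := hx
        rw [homogeneousComponent_of_mem (dis_hom z c α)]
        split_ifs with hd
        · exact Submodule.subset_span ⟨α, ⟨hα, hd.symm⟩, rfl⟩
        · exact Submodule.zero_mem _
      | zero => simp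
      | add x y _ _ hx hy =>
        rw [map_add]
        exact Submodule.add_mem _ hx hy
      | smul a x _ hx =>
        rw [map_smul]
        exact Submodule.smul_mem _ _ hx
    have h2 := h1 f (distr_mem_span hE hc h)
    rwa [homogeneousComponent_of_mem hf, if_pos rfl] at h2
  · intro h
    have : Submodule.span B (Dis z c '' {α | α ∈ E ∧ α.degree = d}) ≤
        (disI z c E).restrictScalars B := by
      rw [Submodule.span_le]
      rintro _ ⟨α, hα, rfl⟩
      exact Ideal.subset_span ⟨α, hα.1, rfl⟩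
    exact this h

theorem distr_span {z : σ} {c : σ → ℕ → B} (hc : ∀ b, c z b = 0) (d n : ℕ) (α : σ →₀ ℕ)
    (hα : α.degree = d) (hn : d < α z + n) : (monomial α 1 : MvPolynomial σ B) ∈
      (Nsp B E ⊓ homogeneousSubmodule σ B d) ⊔ (disI z c E).restrictScalars B := by
  induction n generalizing α with
  | zero =>
    have := Finsupp.le_degree z α
    omega
  | succ n ih =>
    by_cases hE : α ∈ E
    · have e : (monomial α 1 : MvPolynomial σ B) = Dis z c α - (Dis z c α - monomial α 1) := by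
        ring
      rw [e]
      refine Submodule.sub_mem _ (Submodule.mem_sup_right (Ideal.subset_span ⟨α, hE, rfl⟩)) ?_
      have hh : (Dis z c α - monomial α 1).IsHomogeneous d :=
        hα ▸ (dis_hom z c α).sub (isHomogeneous_monomial' α 1)
      rw [MvPolynomial.as_sum (Dis z c α - monomial α 1)]
      refine Submodule.sum_mem _ fun γ hγ => ?_
      rw [mem_support_iff] at hγ
      have h1 : α z < γ z := by
        by_contra h
        rw [coeff_sub, coeff_dis hc α γ (not_lt.1 h), coeff_monomial] at hγ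
        simp [eq_comm] at hγ
      have h2 := ih γ (isHomogeneous_iff_degree.1 hh γ hγ) (by omega)
      have := Submodule.smul_mem _ (coeff γ (Dis z c α - monomial α 1)) h2
      rwa [smul_monomial, smul_eq_mul, mul_one] at this
    · refine Submodule.mem_sup_left ⟨mem_Nsp.2 fun γ hγ => ?_, hα ▸ isHomogeneous_monomial' α 1⟩
      rw [coeff_monomial, if_neg]
      rintro rfl
      exact hE hγ

/-- Spanning: downward induction on the exponent of `z`.  Independence: in a nontrivial
combination of the `Dis α` look at an `α` with smallest exponent of `z`. -/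
theorem marked_disI (hE : IsUpperSet E) {z : σ} {c : σ → ℕ → B} (hc : ∀ b, c z b = 0) :
    Marked E 0 (disI z c E) := by
  refine marked_of_monomials (isHomog_span ?_) (fun α hα _ => ?_) fun d _ g hg hd hI => ?_
  · rintro _ ⟨α, -, rfl⟩
    exact ⟨_, dis_hom z c α⟩
  · obtain ⟨g, hg, f, hf, e⟩ := Submodule.mem_sup.1
      (distr_span (E := E) hc α.degree (α.degree + 1) α rfl (by omega))
    refine ⟨g, hg.1, hg.2, ?_⟩
    rw [← e, add_sub_cancel_left]
    exact hf
  · obtain ⟨l, hl, rfl⟩ :=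
      (Finsupp.mem_span_image_iff_linearCombination B).1 (distr_mem_span hE hc hI)
    by_cases h0 : l = 0
    · simp [h0]
    obtain ⟨α, hα, hmin⟩ := l.support.exists_min_image (fun α => α z)
      (Finsupp.support_nonempty_iff.2 h0)
    have h1 := mem_Nsp.1 hg α (hl hα)
    rw [Finsupp.linearCombination_apply, Finsupp.sum, coeff_sum,
      Finset.sum_eq_single_of_mem α hα] at h1
    · rw [coeff_smul, coeff_dis hc α α le_rfl, if_pos rfl, smul_eq_mul, mul_one] at h1
      exact absurd h1 (Finsupp.mem_support_iff.1 hα)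
    · intro β hβ hne
      rw [coeff_smul, coeff_dis hc β α (hmin β hβ), if_neg hne.symm, smul_zero]

theorem red_disI (hE : IsUpperSet E) {z : σ} {c : σ → ℕ → B} {K : Ideal B}
    (hK : ∀ i b, c i b ∈ K) : Red E (disI z c E) K := by
  have h := red_of_bc_le (I := disI z c E) hE (Ideal.Quotient.mk K) (by
    rw [bc_disI, disI, Ideal.span_le]
    rintro _ ⟨α, hα, rfl⟩
    have : (fun i b => Ideal.Quotient.mk K (c i b)) = fun _ _ => 0 := by
      funext i b
      exact Ideal.Quotient.eq_zero_iff_mem.2 (hK i b)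
    rw [this, dis_zero]
    exact Ideal.subset_span ⟨α, hα, rfl⟩)
  rwa [Ideal.mk_ker] at h

end Pool.Agent.MP_24718c_ag

end

end partDistr

section partDual

/-!
Marked ideals over the dual numbers.
-/

set_option linter.unusedSectionVars false
set_option linter.unusedVariables false

open MvPolynomial

universe u

noncomputable section

namespace Pool.Agent.MP_24718c_ag

variable {σ : Type} [Fintype σ] [DecidableEq σ] {B B' : Type u} [CommRing B] [CommRing B']
  {E : Set (σ →₀ ℕ)} {I J : Ideal (MvPolynomial σ B)} {d d₀ d₁ : ℕ}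

section Dual

/-- the projection `B[ε] → B` -/
abbrev dfst (B : Type u) [CommRing B] : DualNumber B →+* B :=
  (TrivSqZeroExt.fstHom B B B : DualNumber B →+* B)

/-- the inclusion `B → B[ε]` -/
abbrev dinl (B : Type u) [CommRing B] : B →+* DualNumber B := algebraMap B (DualNumber B)

/-- `f₀ + ε f₁` -/
def dpair (f₀ f₁ : MvPolynomial σ B) : MvPolynomial σ (DualNumber B) :=
  MvPolynomial.map (dinl B) f₀ + C DualNumber.eps * MvPolynomial.map (dinl B) f₁

theorem coeff_dpair (f₀ f₁ : MvPolynomial σ B) (γ : σ →₀ ℕ) :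
    (coeff γ (dpair f₀ f₁)).fst = coeff γ f₀ ∧ (coeff γ (dpair f₀ f₁)).snd = coeff γ f₁ := by
  simp [dpair, coeff_C_mul, coeff_map, TrivSqZeroExt.algebraMap_eq_inl]

theorem dual_ext {f g : MvPolynomial σ (DualNumber B)}
    (h : ∀ γ, (coeff γ f).fst = (coeff γ g).fst ∧ (coeff γ f).snd = (coeff γ g).snd) : f = g :=
  MvPolynomial.ext _ _ fun γ => TrivSqZeroExt.ext (h γ).1 (h γ).2

theorem dual_coeff_eq_zero {f₀ f₁ : MvPolynomial σ B} {γ : σ →₀ ℕ} :
    coeff γ (dpair f₀ f₁) = 0 ↔ coeff γ f₀ = 0 ∧ coeff γ f₁ = 0 := by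
  rw [TrivSqZeroExt.ext_iff, (coeff_dpair f₀ f₁ γ).1, (coeff_dpair f₀ f₁ γ).2,
    TrivSqZeroExt.fst_zero, TrivSqZeroExt.snd_zero]

theorem exists_dpair (f : MvPolynomial σ (DualNumber B)) : ∃ f₀ f₁, f = dpair f₀ f₁ := by
  refine ⟨∑ γ ∈ f.support, monomial γ (coeff γ f).fst, ∑ γ ∈ f.support,
    monomial γ (coeff γ f).snd, dual_ext fun γ => ?_⟩
  rw [(coeff_dpair _ _ γ).1, (coeff_dpair _ _ γ).2]
  simp only [coeff_sum, coeff_monomial, Finset.sum_ite_eq']
  split_ifs with h
  · exact ⟨rfl, rfl⟩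
  · rw [notMem_support_iff.1 h]
    exact ⟨rfl, rfl⟩

theorem map_dfst_dpair (f₀ f₁ : MvPolynomial σ B) :
    MvPolynomial.map (dfst B) (dpair f₀ f₁) = f₀ := by
  ext γ
  rw [coeff_map]
  exact (coeff_dpair f₀ f₁ γ).1

theorem dpair_add (f₀ f₁ g₀ g₁ : MvPolynomial σ B) :
    dpair f₀ f₁ + dpair g₀ g₁ = dpair (f₀ + g₀) (f₁ + g₁) := by
  simp only [dpair, map_add]
  ring

theorem dpair_sub (f₀ f₁ g₀ g₁ : MvPolynomial σ B) :
    dpair f₀ f₁ - dpair g₀ g₁ = dpair (f₀ - g₀) (f₁ - g₁) := by
  simp only [dpair, map_sub]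
  ring

theorem dpair_mul (f₀ f₁ g₀ g₁ : MvPolynomial σ B) :
    dpair f₀ f₁ * dpair g₀ g₁ = dpair (f₀ * g₀) (f₀ * g₁ + f₁ * g₀) := by
  have h : (C DualNumber.eps * C DualNumber.eps : MvPolynomial σ (DualNumber B)) = 0 := by
    rw [← map_mul, DualNumber.eps_mul_eps, map_zero]
  simp only [dpair, map_add, map_mul]
  linear_combination (MvPolynomial.map (dinl B) f₁ * MvPolynomial.map (dinl B) g₁) * h

theorem dpair_eq_zero {f₀ f₁ : MvPolynomial σ B} : dpair f₀ f₁ = 0 ↔ f₀ = 0 ∧ f₁ = 0 := by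
  simp only [MvPolynomial.ext_iff, coeff_zero, dual_coeff_eq_zero, forall_and]

theorem dpair_hom {f₀ f₁ : MvPolynomial σ B} :
    (dpair f₀ f₁).IsHomogeneous d ↔ f₀.IsHomogeneous d ∧ f₁.IsHomogeneous d := by
  simp only [isHomogeneous_iff_degree, ne_eq, dual_coeff_eq_zero, not_and_or, or_imp, forall_and]

theorem dpair_Nsp {f₀ f₁ : MvPolynomial σ B} :
    dpair f₀ f₁ ∈ Nsp (DualNumber B) E ↔ f₀ ∈ Nsp B E ∧ f₁ ∈ Nsp B E := by
  simp only [mem_Nsp, dual_coeff_eq_zero, imp_and, forall_and]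

/-- lifting forms of the reduction -/
theorem Marked.dual_lift {𝒦 : Ideal (MvPolynomial σ (DualNumber B))} (h : Marked E d₀ 𝒦)
    (hd : d₀ ≤ d) {f₀ : MvPolynomial σ B} (hf : f₀.IsHomogeneous d)
    (hm : f₀ ∈ Pool.Agent.MP_24718c_ag.bc (dfst B) 𝒦) :
    ∃ f₁ ∈ Nsp B E, f₁.IsHomogeneous d ∧ dpair f₀ f₁ ∈ 𝒦 := by
  obtain ⟨g, h1, h2, h3⟩ := h.span d hd (dpair f₀ 0) (dpair_hom.2 ⟨hf, isHomogeneous_zero _ _ _⟩)
  obtain ⟨g₀, g₁, rfl⟩ := exists_dpair g
  rw [dpair_Nsp] at h1
  rw [dpair_hom] at h2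
  rw [dpair_sub] at h3
  have h4 : f₀ - g₀ ∈ Pool.Agent.MP_24718c_ag.bc (dfst B) 𝒦 :=
    map_dfst_dpair (f₀ - g₀) (0 - g₁) ▸ Ideal.mem_map_of_mem _ h3
  have h5 : g₀ = 0 := (h.bc (dfst B)).indep d hd g₀ h1.1 h2.1 (by
    have h6 := Ideal.sub_mem _ hm h4
    rwa [sub_sub_cancel] at h6)
  rw [h5, sub_zero] at h3
  exact ⟨0 - g₁, Submodule.sub_mem _ (Submodule.zero_mem _) h1.2,
    (isHomogeneous_zero _ _ _).sub h2.2, h3⟩

theorem Marked.dual_eps_of {𝒦 : Ideal (MvPolynomial σ (DualNumber B))} (h : Marked E d₀ 𝒦)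
    (hd : d₀ ≤ d) {g : MvPolynomial σ B} (hg : g.IsHomogeneous d)
    (hm : g ∈ Pool.Agent.MP_24718c_ag.bc (dfst B) 𝒦) : dpair 0 g ∈ 𝒦 := by
  obtain ⟨f₁, -, -, h1⟩ := h.dual_lift hd hg hm
  have h2 := 𝒦.mul_mem_left (dpair 0 1) h1
  rwa [dpair_mul, zero_mul, zero_mul, one_mul, zero_add] at h2

/-- flatness over the dual numbers -/
theorem Marked.dual_eps {𝒦 : Ideal (MvPolynomial σ (DualNumber B))} (h : Marked E d₀ 𝒦)
    (hd : d₀ ≤ d) {g : MvPolynomial σ B} (hg : g.IsHomogeneous d) :
    dpair 0 g ∈ 𝒦 ↔ g ∈ Pool.Agent.MP_24718c_ag.bc (dfst B) 𝒦 := by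
  refine ⟨fun hm => ?_, h.dual_eps_of hd hg⟩
  obtain ⟨g', h1, h2, h3⟩ := (h.bc (dfst B)).span d hd g hg
  have h4 := 𝒦.sub_mem hm (h.dual_eps_of hd (hg.sub h2) h3)
  rw [dpair_sub, sub_zero, sub_sub_cancel] at h4
  have h5 := h.indep d hd _ (dpair_Nsp.2 ⟨Submodule.zero_mem _, h1⟩)
    (dpair_hom.2 ⟨isHomogeneous_zero _ _ _, h2⟩) h4
  rwa [(dpair_eq_zero.1 h5).2, sub_zero] at h3

end Dual

end Pool.Agent.MP_24718c_ag

end

end partDual

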